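import Pool.Agent.Helper460_OutF.Tor

set_option autoImplicit false
set_option linter.unusedSectionVars false
set_option linter.unusedSimpArgs false

namespace Pool.Agent.Helper460_OutF

open FreeGroup (of)
open scoped commutatorElement MatrixGroups

/-- The free group of rank two. -/
abbrev F2 : Type := FreeGroup (Fin 2)

/-- The commutator of the two generators. -/
def cm : F2 := ⁅(of 0 : F2), of 1⁆

/-- The first Sanov matrix. -/
def saA : SL(2, ℤ) := ⟨!![1, 2; 0, 1], by simp [Matrix.det_fin_two]⟩

/-- The second Sanov matrix. -/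
def saB : SL(2, ℤ) := ⟨!![1, 0; 2, 1], by simp [Matrix.det_fin_two]⟩

/-- The Sanov representation. -/
def sanov : F2 →* SL(2, ℤ) := FreeGroup.lift ![saA, saB]

/-- Action of a syllable on a vector. -/
def sstep (d : Fin 2) (k : ℤ) (v : Fin 2 → ℤ) : Fin 2 → ℤ :=
  Function.update v d (v d + 2 * k * v (d + 1))

lemma sanov_zpow_mulVec (d : Fin 2) (k : ℤ) (v : Fin 2 → ℤ) :
    (sanov (of d ^ k) : Matrix (Fin 2) (Fin 2) ℤ).mulVec v = sstep d k v := by
  have h0 : ∀ (d : Fin 2) (v : Fin 2 → ℤ),
      (sanov (of d) : Matrix (Fin 2) (Fin 2) ℤ).mulVec v = sstep d 1 v := by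
    intro d v
    fin_cases d
    · funext j
      fin_cases j <;>
        simp [sanov, saA, sstep, Matrix.mulVec, dotProduct, Fin.sum_univ_two, Function.update]
    · funext j
      fin_cases j <;>
        simp [sanov, saB, sstep, Matrix.mulVec, dotProduct, Fin.sum_univ_two, Function.update]
      ring
  have h1 : ∀ (d : Fin 2) (v : Fin 2 → ℤ),
      (sanov (of d)⁻¹ : Matrix (Fin 2) (Fin 2) ℤ).mulVec v = sstep d (-1) v := by
    intro d v
    have h2 : sstep d 1 (sstep d (-1) v) = v := by
      funext j
      have hd : d + 1 ≠ d := by fin_cases d <;> simp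
      by_cases hj : j = d
      · subst hj
        simp [sstep, Function.update_of_ne hd]
      · simp [sstep, Function.update_of_ne hj]
    rw [← h0] at h2
    have h3 := congrArg (fun w => (sanov (of d)⁻¹ : Matrix (Fin 2) (Fin 2) ℤ).mulVec w) h2
    simp only [Matrix.mulVec_mulVec] at h3
    rw [← Matrix.SpecialLinearGroup.coe_mul, ← map_mul, inv_mul_cancel, map_one,
      Matrix.SpecialLinearGroup.coe_one, Matrix.one_mulVec] at h3
    exact h3.symm
  have hadd : ∀ (d : Fin 2) (k l : ℤ) (v : Fin 2 → ℤ),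
      sstep d k (sstep d l v) = sstep d (k + l) v := by
    intro d k l v
    have hd : d + 1 ≠ d := by fin_cases d <;> simp
    funext j
    by_cases hj : j = d
    · subst hj
      simp only [sstep, Function.update_self, Function.update_of_ne hd]
      ring
    · simp [sstep, Function.update_of_ne hj]
  induction k using Int.induction_on with
  | zero =>
    rw [zpow_zero, map_one, Matrix.SpecialLinearGroup.coe_one, Matrix.one_mulVec]
    funext j
    by_cases hj : j = d
    · subst hj; simp [sstep]
    · simp [sstep, Function.update_of_ne hj]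
  | succ i ih =>
    rw [add_comm, zpow_add, zpow_one, map_mul, Matrix.SpecialLinearGroup.coe_mul,
      ← Matrix.mulVec_mulVec, ih, h0, hadd]
  | pred i ih =>
    rw [sub_eq_add_neg, add_comm, zpow_add, zpow_neg_one, map_mul,
      Matrix.SpecialLinearGroup.coe_mul, ← Matrix.mulVec_mulVec, ih, h1, hadd]

lemma sanov_grow (L : List (Fin 2 × ℤ)) (p : Fin 2 × ℤ) (hL : NF (p :: L)) :
    ∃ v : Fin 2 → ℤ, |(sanov (lp (p :: L)) : Matrix (Fin 2) (Fin 2) ℤ).mulVec v (p.1 + 1)| <
        |(sanov (lp (p :: L)) : Matrix (Fin 2) (Fin 2) ℤ).mulVec v p.1| ∧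
      |v 0| + |v 1| < |(sanov (lp (p :: L)) : Matrix (Fin 2) (Fin 2) ℤ).mulVec v 0| +
        |(sanov (lp (p :: L)) : Matrix (Fin 2) (Fin 2) ℤ).mulVec v 1| := by
  have hstep : ∀ (d : Fin 2) (k : ℤ) (v : Fin 2 → ℤ), k ≠ 0 → |v d| < |v (d + 1)| →
      |sstep d k v (d + 1)| < |sstep d k v d| ∧
      |v 0| + |v 1| < |sstep d k v 0| + |sstep d k v 1| := by
    intro d k v hk hv
    have hd : d + 1 ≠ d := by fin_cases d <;> simp
    have h1 : sstep d k v (d + 1) = v (d + 1) := by simp [sstep, Function.update_of_ne hd]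
    have h2 : sstep d k v d = v d + 2 * k * v (d + 1) := by simp [sstep]
    have h3 : |v (d + 1)| < |v d + 2 * k * v (d + 1)| := by
      have hk1 : 1 ≤ |k| := Int.one_le_abs hk
      have h4 : |2 * k * v (d + 1)| = 2 * |k| * |v (d + 1)| := by
        rw [abs_mul, abs_mul]; norm_num
      have h5 : |2 * k * v (d + 1)| ≤ |v d + 2 * k * v (d + 1)| + |v d| := by
        have := abs_sub (v d + 2 * k * v (d + 1)) (v d)
        simpa using this
      have h6 : 2 * |v (d + 1)| ≤ 2 * |k| * |v (d + 1)| := by
        have : 0 ≤ |v (d + 1)| := abs_nonneg _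
        nlinarith
      linarith
    have hsum : ∀ w : Fin 2 → ℤ, |w 0| + |w 1| = |w d| + |w (d + 1)| := by
      intro w
      fin_cases d
      · rfl
      · exact add_comm _ _
    rw [hsum v, hsum (sstep d k v), h1, h2]
    exact ⟨h3, by linarith⟩
  induction L generalizing p with
  | nil =>
    refine ⟨Pi.single (p.1 + 1) 1, ?_⟩
    have hd : p.1 ≠ p.1 + 1 := by
      obtain ⟨d, k⟩ := p
      fin_cases d <;> simp
    rw [lp_cons, lp_nil, mul_one, sanov_zpow_mulVec]
    exact hstep p.1 p.2 _ (hL.2 p (by simp)) (by simp [Pi.single_eq_of_ne hd])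
  | cons q L ih =>
    obtain ⟨v, h1, h2⟩ := ih q hL.tail
    refine ⟨v, ?_⟩
    rw [lp_cons, map_mul, Matrix.SpecialLinearGroup.coe_mul, ← Matrix.mulVec_mulVec,
      sanov_zpow_mulVec]
    have hpq : p.1 ≠ q.1 := by
      have := hL.1
      rw [List.isChain_cons_cons] at this
      exact this.1
    have hq : q.1 = p.1 + 1 := by
      obtain ⟨d, k⟩ := p
      obtain ⟨e, l⟩ := q
      fin_cases d <;> fin_cases e <;> simp_all
    have hq2 : q.1 + 1 = p.1 := by
      rw [hq]
      obtain ⟨d, k⟩ := p
      fin_cases d <;> rfl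
    rw [hq2, hq] at h1
    obtain ⟨h3, h4⟩ := hstep p.1 p.2 _ (hL.2 p (by simp)) h1
    exact ⟨h3, h2.trans h4⟩

theorem sanov_injective : Function.Injective sanov := by
  rw [injective_iff_map_eq_one]
  intro g hg
  obtain ⟨L, hL, rfl⟩ := exists_nf g
  cases L with
  | nil => rfl
  | cons p L =>
    obtain ⟨v, -, h2⟩ := sanov_grow L p hL
    rw [hg, Matrix.SpecialLinearGroup.coe_one, Matrix.one_mulVec] at h2
    exact absurd h2 (lt_irrefl _)

lemma sanov_cm : (sanov cm : Matrix (Fin 2) (Fin 2) ℤ) = !![21, -8; 8, -3] := by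
  unfold cm
  rw [map_commutatorElement, commutatorElement_def]
  have h0 : sanov (of 0) = saA := by simp [sanov]
  have h1 : sanov (of 1) = saB := by simp [sanov]
  rw [h0, h1, Matrix.SpecialLinearGroup.coe_mul, Matrix.SpecialLinearGroup.coe_mul,
    Matrix.SpecialLinearGroup.coe_mul, Matrix.SpecialLinearGroup.coe_inv,
    Matrix.SpecialLinearGroup.coe_inv]
  show !![1, 2; 0, 1] * !![1, 0; 2, 1] * Matrix.adjugate !![1, 2; 0, 1] *
    Matrix.adjugate !![1, 0; 2, 1] = !![21, -8; 8, -3]
  rw [Matrix.adjugate_fin_two_of, Matrix.adjugate_fin_two_of]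
  norm_num [Matrix.mul_fin_two]

lemma free_comm_eq {T : Type} {x y : T} (h : (of x : FreeGroup T) * of y = of y * of x) :
    x = y := by
  classical
  by_contra hne
  obtain ⟨j, hj⟩ := Pool.Agent.H926R3.Br.FP.free_centralizer x 1 le_rfl (of y)
    (by rw [pow_one]; exact h.symm)
  have h1 := congrArg (fun w => (expo y w).toAdd) hj
  have h2 : (expo y (of x ^ j)).toAdd = 0 := expo_ne hne j
  have h3 : (expo y (of y)).toAdd = 1 := by
    have := expo_self y 1
    rwa [zpow_one] at this
  have h4 : (expo y (of x ^ j)).toAdd = (expo y (of y)).toAdd := h1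
  rw [h2, h3] at h4
  exact absurd h4 (by norm_num)

/-- Commuting elements of a free group are powers of a common element. -/
lemma free_comm_pow {T : Type} (u v : FreeGroup T) (h : u * v = v * u) :
    ∃ (z : FreeGroup T) (k l : ℤ), u = z ^ k ∧ v = z ^ l := by
  let A : Subgroup (FreeGroup T) := Subgroup.closure {u, v}
  have hu : u ∈ A := Subgroup.subset_closure (by simp)
  have hv : v ∈ A := Subgroup.subset_closure (by simp)
  have hcomm : ∀ x ∈ A, ∀ y ∈ A, x * y = y * x := by
    have h1 : ∀ y ∈ ({u, v} : Set (FreeGroup T)), ∀ x ∈ A, x * y = y * x := by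
      intro y hy x hx
      induction hx using Subgroup.closure_induction with
      | mem x hx =>
        rcases hx with rfl | rfl <;> rcases hy with rfl | rfl
        · rfl
        · exact h
        · exact h.symm
        · rfl
      | one => simp
      | mul a b _ _ ha hb => rw [mul_assoc, hb, ← mul_assoc, ha, mul_assoc]
      | inv a _ ha =>
        rw [inv_mul_eq_iff_eq_mul, ← mul_assoc, ha, mul_inv_cancel_right]
    intro x hx y hy
    induction hy using Subgroup.closure_induction with
    | mem y hy => exact h1 y hy x hx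
    | one => simp
    | mul a b _ _ ha hb => rw [← mul_assoc, ha, mul_assoc, hb, mul_assoc]
    | inv a _ ha => rw [eq_inv_mul_iff_mul_eq, ← mul_assoc, ← ha, mul_inv_cancel_right]
  have hfree : IsFreeGroup A := inferInstance
  let e := IsFreeGroup.toFreeGroup A
  have hE : ∀ x y : FreeGroup (IsFreeGroup.Generators A), x * y = y * x := by
    intro x y
    apply e.symm.injective
    rw [map_mul, map_mul]
    ext1
    exact hcomm _ (e.symm x).2 _ (e.symm y).2
  rcases isEmpty_or_nonempty (IsFreeGroup.Generators A) with hT | ⟨⟨t⟩⟩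
  · have h2 : ∀ x : A, x = 1 := fun x => e.injective (Subsingleton.elim _ _)
    refine ⟨1, 0, 0, ?_, ?_⟩
    · have := congrArg Subtype.val (h2 ⟨u, hu⟩)
      simpa using this
    · have := congrArg Subtype.val (h2 ⟨v, hv⟩)
      simpa using this
  · have h3 : ∀ x : A, ∃ k : ℤ, x = (e.symm (of t)) ^ k := by
      intro x
      classical
      obtain ⟨j, hj⟩ := Pool.Agent.H926R3.Br.FP.free_centralizer t 1 le_rfl (e x)
        (by rw [pow_one]; exact hE _ _)
      refine ⟨j, e.injective ?_⟩
      rw [map_zpow, e.apply_symm_apply]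
      exact hj.symm
    obtain ⟨k, hk⟩ := h3 ⟨u, hu⟩
    obtain ⟨l, hl⟩ := h3 ⟨v, hv⟩
    refine ⟨(e.symm (of t) : A), k, l, ?_, ?_⟩
    · have := congrArg Subtype.val hk
      simpa using this
    · have := congrArg Subtype.val hl
      simpa using this

/-- The centraliser of the commutator. -/
theorem cm_centralizer (u : F2) (h : u * cm = cm * u) : ∃ k : ℤ, u = cm ^ k := by
  obtain ⟨z, k, l, hk, hl⟩ := free_comm_pow u cm h
  have hcm : hz 0 1 cm = (⟨0, 0, 1⟩ : Heis) := by
    unfold cm
    rw [map_commutatorElement, commutatorElement_def]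
    ext <;> simp [hz]
  have hpa : ∀ (x : Heis) (j : ℤ), (x ^ j).a = j * x.a := by
    intro x j
    let f : Heis →* Multiplicative ℤ :=
      { toFun := fun x => Multiplicative.ofAdd x.a
        map_one' := rfl
        map_mul' := fun x y => rfl }
    have := map_zpow f x j
    have h2 := congrArg Multiplicative.toAdd this
    rw [toAdd_zpow] at h2
    simpa [f] using h2
  have hpb : ∀ (x : Heis) (j : ℤ), (x ^ j).b = j * x.b := by
    intro x j
    let f : Heis →* Multiplicative ℤ :=
      { toFun := fun x => Multiplicative.ofAdd x.b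
        map_one' := rfl
        map_mul' := fun x y => rfl }
    have := map_zpow f x j
    have h2 := congrArg Multiplicative.toAdd this
    rw [toAdd_zpow] at h2
    simpa [f] using h2
  rw [hl, map_zpow] at hcm
  have h1 := congrArg Heis.a hcm
  have h2 := congrArg Heis.b hcm
  rw [hpa] at h1
  rw [hpb] at h2
  have hl0 : l ≠ 0 := by
    rintro rfl
    have := congrArg Heis.z hcm
    simp at this
  have h1' : (hz 0 1 z).a = 0 := by
    rcases mul_eq_zero.1 h1 with h | h
    · exact absurd h hl0
    · exact h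
  have h2' : (hz 0 1 z).b = 0 := by
    rcases mul_eq_zero.1 h2 with h | h
    · exact absurd h hl0
    · exact h
  have hpz : ∀ (x : Heis), x.a = 0 → ∀ j : ℤ, (x ^ j).z = j * x.z := by
    intro x hx j
    induction j using Int.induction_on with
    | zero => simp
    | succ i ih =>
      rw [zpow_add, zpow_one, Heis.mul_z, ih, hpa, hx]
      ring
    | pred i ih =>
      rw [zpow_sub, zpow_one, Heis.mul_z, ih, hpa, hx, Heis.inv_z, hx]
      ring
  have h3 := congrArg Heis.z hcm
  rw [hpz _ h1'] at h3
  have h4 : l = 1 ∨ l = -1 := Int.isUnit_iff.1 (IsUnit.of_mul_eq_one _ h3)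
  rcases h4 with rfl | rfl
  · rw [zpow_one] at hl
    exact ⟨k, by rw [hk, hl]⟩
  · refine ⟨-k, ?_⟩
    rw [hk, hl, ← zpow_mul]
    congr 1
    ring

end Pool.Agent.Helper460_OutF
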