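import Pool.Agent.Helper460_OutF.Lin

set_option autoImplicit false
set_option linter.unusedSectionVars false
set_option linter.unusedSimpArgs false

namespace Pool.Agent.Helper460_OutF

open FreeGroup (of)
open scoped commutatorElement Pointwise

section

variable {ι : Type} [DecidableEq ι]

/-- The homomorphism `q` kills inner automorphisms, and the image of `N` under `q` is abelian and
torsion free. -/
structure AbTf {G : Type} [Group G] (N : Subgroup (MulAut (FreeGroup ι)))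
    (q : MulAut (FreeGroup ι) →* G) : Prop where
  inn : ∀ g, q (MulAut.conj g) = 1
  ab : ∀ x ∈ N, ∀ y ∈ N, q x * q y = q y * q x
  tf : ∀ x ∈ N, ∀ m : ℕ, 0 < m → q x ^ m = 1 → q x = 1

lemma commutator_mul_right {G : Type*} [Group G] (a b c : G) :
    ⁅a, b * c⁆ = ⁅a, b⁆ * (b * ⁅a, c⁆ * b⁻¹) := by
  simp only [commutatorElement_def]; group

variable [Fintype ι] {G : Type} [Group G] {q : MulAut (FreeGroup ι) →* G}
  {N : Subgroup (MulAut (FreeGroup ι))} [hN : N.Normal] {M : ℕ}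

omit hN in
/-- A commuting `θ ∈ N` does not move elements of `N`. -/
lemma AbTf.conj (hq : AbTf N q) {θ x : MulAut (FreeGroup ι)} (hθ : θ ∈ N) (hx : x ∈ N) :
    q (θ * x * θ⁻¹) = q x := by
  rw [map_mul, map_mul, map_inv, hq.ab θ hθ x hx, mul_inv_cancel_right]

/-- Basic powers of commutators lie in `N`. -/
lemma Step.comm_pow (h : Step N M) {c j k : ι} (hcj : c ≠ j) :
    rr c (⁅of j, of k⁆ ^ M) ∈ N := by
  let q0 : MulAut (FreeGroup ι) →* MulAut (FreeGroup ι) ⧸ N := QuotientGroup.mk' N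
  have hq1 : ∀ x, q0 x = 1 ↔ x ∈ N := fun x => QuotientGroup.eq_one_iff x
  have hkills : Kills q0 := ⟨fun g => (hq1 _).2 (h.inn g),
    fun i j k h1 h2 => (hq1 _).2 (h.cck i j k h1 h2)⟩
  rw [← hq1, map_pow, map_pow]
  have := hkills.tt_pow_left c (of j) (of k) M
  unfold tt at this
  rw [← this, map_commutatorElement, map_commutatorElement, map_pow, (hq1 _).2 (h.rrp c j hcj),
    commutatorElement_one_left]

lemma Step.cc_comm (h : Step N M) (i : ι) (u v : FreeGroup ι) : cc i ⁅u, v⁆ ∈ N := by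
  let q0 : MulAut (FreeGroup ι) →* MulAut (FreeGroup ι) ⧸ N := QuotientGroup.mk' N
  have hq1 : ∀ x, q0 x = 1 ↔ x ∈ N := fun x => QuotientGroup.eq_one_iff x
  have hkills : Kills q0 := ⟨fun g => (hq1 _).2 (h.inn g),
    fun i j k h1 h2 => (hq1 _).2 (h.cck i j k h1 h2)⟩
  exact (hq1 _).1 (hkills.cc_comm i u v)

/-- Lemma L1. -/
lemma AbTf.L1 (hq : AbTf N q) (h : Step N M) {i a c : ι} (hac : a ≠ c) (hci : c ≠ i)
    {u : FreeGroup ι} (hu : kil i u = u) (huc : kil c u = u) (hθ : rr c u ∈ N) :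
    q (cc i ⁅of a, u⁆) = 1 := by
  have h1 := hq.conj hθ (h.cc_comm i (of a) (of c))
  rw [(pres_rr (Ne.symm hci) hu).cc, map_commutatorElement, rr_ne hac, rr_self, huc,
    commutator_mul_right, map_mul, map_mul] at h1
  have h2 : q (cc i (of c * ⁅of a, u⁆ * (of c)⁻¹)) = 1 := by
    simpa using h1
  rw [map_mul, map_mul, map_mul, map_mul, map_inv, map_inv] at h2
  have h3 : q (cc i (of c)) * q (cc i ⁅of a, u⁆) = q (cc i (of c)) := by
    rwa [mul_inv_eq_one] at h2
  simpa using h3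

/-- Weight three commutators. -/
lemma Step.rr_comm3 (h : Step N M) (c : ι) (a b v : FreeGroup ι) : rr c ⁅v, ⁅a, b⁆⁆ ∈ N := by
  let q0 : MulAut (FreeGroup ι) →* MulAut (FreeGroup ι) ⧸ N := QuotientGroup.mk' N
  have hq1 : ∀ x, q0 x = 1 ↔ x ∈ N := fun x => QuotientGroup.eq_one_iff x
  have hkills : Kills q0 := ⟨fun g => (hq1 _).2 (h.inn g),
    fun i j k h1 h2 => (hq1 _).2 (h.cck i j k h1 h2)⟩
  rw [← hq1]
  show tt q0 c v ⁅a, b⁆ = 1
  rw [hkills.tt_swap, hkills.tt_commut, inv_one]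

theorem AbTf.kills (hq : AbTf N q) (h : Step N M) (hcard : 4 ≤ Fintype.card ι) : Kills q := by
  refine ⟨hq.inn, fun i j k hij hik => ?_⟩
  obtain ⟨c, hc1, hc2, hc3⟩ := exists_ne3 hcard i j k
  set κ : FreeGroup ι := ⁅of j, of k⁆ with hκ
  have hκN : cc i κ ∈ N := h.cck i j k hij hik
  have hki : kil i κ = κ := kil_comm_of (Ne.symm hij) (Ne.symm hik)
  have hkc : kil c κ = κ := kil_comm_of (Ne.symm hc2) (Ne.symm hc3)
  set δ : FreeGroup ι := ⁅of k, κ⁆ with hδ
  have hδi : kil i δ = δ := by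
    rw [hδ, map_commutatorElement, hki, kil_ne (Ne.symm hik)]
  have hδc : kil c δ = δ := by
    rw [hδ, map_commutatorElement, hkc, kil_ne (Ne.symm hc3)]
  have hδN : cc i δ ∈ N := h.cc_comm i _ _
  set y := q (cc i (of k)) with hy
  set z := q (cc i (of j)) with hz
  have hK : q (cc i κ) = ⁅z, y⁆ := by
    rw [hκ, map_commutatorElement, map_commutatorElement]
  have hD : q (cc i δ) = ⁅y, q (cc i κ)⁆ := by
    rw [hδ, map_commutatorElement, map_commutatorElement]
  -- first relation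
  have h1 : Commute z (y ^ M) := by
    have := hq.L1 h (i := i) (a := j) (c := c) (Ne.symm hc2) hc1 (u := of k ^ M)
      (by rw [map_pow, kil_ne (Ne.symm hik)])
      (by rw [map_pow, kil_ne (Ne.symm hc3)])
      (by rw [map_pow]; exact h.rrp c k hc3)
    rw [map_commutatorElement, map_commutatorElement, commutatorElement_eq_one_iff_commute,
      map_pow, map_pow] at this
    exact this
  -- second relation
  have h2 : Commute y (q (cc i δ)) := by
    have := hq.L1 h (i := i) (a := k) (c := c) (Ne.symm hc3) hc1 (u := δ) hδi hδc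
      (h.rr_comm3 c _ _ _)
    rw [map_commutatorElement, map_commutatorElement, commutatorElement_eq_one_iff_commute] at this
    exact this
  have h3 : Commute (y ^ M) (q (cc i κ)) := by
    rw [hK, commutatorElement_def]
    have hyy : Commute (y ^ M) y := (Commute.refl y).pow_left M
    exact ((h1.symm.mul_right hyy).mul_right h1.symm.inv_right).mul_right hyy.inv_right
  have h4 : q (cc i δ) ^ M = 1 := by
    have e1 : ∀ s : ℕ, y ^ s * q (cc i κ) * (y ^ s)⁻¹ = q (cc i δ) ^ s * q (cc i κ) := by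
      intro s
      induction s with
      | zero => simp
      | succ s ih =>
        have e2 : y * q (cc i κ) * y⁻¹ = q (cc i δ) * q (cc i κ) := by
          rw [hD, commutatorElement_def]; group
        calc y ^ (s + 1) * q (cc i κ) * (y ^ (s + 1))⁻¹
            = y * (y ^ s * q (cc i κ) * (y ^ s)⁻¹) * y⁻¹ := by rw [pow_succ']; group
          _ = y * (q (cc i δ) ^ s * q (cc i κ)) * y⁻¹ := by rw [ih]
          _ = (y * q (cc i δ) ^ s) * q (cc i κ) * y⁻¹ := by group
          _ = (q (cc i δ) ^ s * y) * q (cc i κ) * y⁻¹ := by rw [(h2.pow_right s).eq]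
          _ = q (cc i δ) ^ s * (y * q (cc i κ) * y⁻¹) := by group
          _ = q (cc i δ) ^ s * (q (cc i δ) * q (cc i κ)) := by rw [e2]
          _ = _ := by rw [pow_succ]; group
    have e3 := e1 M
    rw [h3.eq, mul_inv_cancel_right] at e3
    exact (right_eq_mul.1 e3)
  have h5 : q (cc i δ) = 1 := hq.tf _ hδN M h.pos h4
  have h6 : Commute y (q (cc i κ)) := by
    rw [hD, commutatorElement_eq_one_iff_commute] at h5
    exact h5
  have h7 : q (cc i κ) ^ M = 1 := by
    have e2 : z * y * z⁻¹ = q (cc i κ) * y := by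
      rw [hK, commutatorElement_def]; group
    have e3 : z * y ^ M * z⁻¹ = q (cc i κ) ^ M * y ^ M := by
      rw [← conj_pow, e2, h6.symm.mul_pow]
    rw [h1.eq, mul_inv_cancel_right] at e3
    exact (right_eq_mul.1 e3)
  exact hq.tf _ hκN M h.pos h7

theorem AbTf.rrpow (hq : AbTf N q) (h : Step N M) (hcard : 4 ≤ Fintype.card ι) {i j : ι}
    (hij : i ≠ j) : q ((rr i (of j)) ^ M) = 1 := by
  have hk := hq.kills h hcard
  -- first the commutators
  have h1 : ∀ a, a ≠ i → a ≠ j → tt q i (of j) (of a) ^ M = 1 := by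
    intro a hai haj
    obtain ⟨c, hc1, hc2, hc3⟩ := exists_ne3 hcard i j a
    have hθ : rr c (of j ^ M) ∈ N := by rw [map_pow]; exact h.rrp c j hc2
    have hx : rr i (⁅of c, of a⁆ ^ M) ∈ N := h.comm_pow (Ne.symm hc1)
    have e := hq.conj hθ hx
    have hkj : kil i (of j ^ M) = of j ^ M := by rw [map_pow, kil_ne (Ne.symm hij)]
    have hkc : kil c (of j ^ M) = of j ^ M := by rw [map_pow, kil_ne (Ne.symm hc2)]
    have ev : (rr c (of j ^ M)) (⁅of c, of a⁆ ^ M) = ⁅of c * of j ^ M, of a⁆ ^ M := by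
      rw [map_pow (rr c (of j ^ M)), map_commutatorElement, rr_self, hkc, rr_ne (Ne.symm hc3)]
    rw [(pres_rr (Ne.symm hc1) hkj).rr, ev, map_pow (rr i), map_pow (rr i), map_pow q,
      map_pow q] at e
    have e2 : tt q i (of c * of j ^ M) (of a) ^ M = tt q i (of c) (of a) ^ M := e
    rw [hk.tt_mul_left, (hk.tt_comm i (of c) (of a) (of j ^ M) (of a)).mul_pow] at e2
    have e3 : tt q i (of j ^ M) (of a) ^ M = 1 := by simpa using e2
    rw [hk.tt_pow_left] at e3
    have hmem : rr i (⁅of j, of a⁆ ^ M) ∈ N := h.comm_pow hij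
    have e4 := hq.tf _ hmem M h.pos (by rw [map_pow, map_pow]; exact e3)
    rw [map_pow, map_pow] at e4
    exact e4
  obtain ⟨c, hc1, hc2, -⟩ := exists_ne3 hcard i j j
  have hθ : rr c (of j ^ M) ∈ N := by rw [map_pow]; exact h.rrp c j hc2
  have hx : rr i (of c) ^ M ∈ N := h.rrp i c (Ne.symm hc1)
  have e := hq.conj hθ hx
  have hkj : kil i (of j ^ M) = of j ^ M := by rw [map_pow, kil_ne (Ne.symm hij)]
  have hkc : kil c (of j ^ M) = of j ^ M := by rw [map_pow, kil_ne (Ne.symm hc2)]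
  rw [← map_pow, (pres_rr (Ne.symm hc1) hkj).rr, map_pow (rr c (of j ^ M)), rr_self, hkc] at e
  -- the two factors commute
  have hcomm : Commute (q (rr i (of c))) (q (rr i (of j ^ M))) := by
    have := h1 c hc1 hc2
    rw [← hk.tt_pow_left] at this
    unfold tt at this
    rw [map_commutatorElement, map_commutatorElement, commutatorElement_eq_one_iff_commute] at this
    exact this.symm
  rw [map_pow, map_pow, map_mul, map_mul, hcomm.mul_pow, map_pow, map_pow] at e
  have e2 : q (rr i (of j ^ M)) ^ M = 1 := by simpa using e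
  have hmem : rr i (of j ^ M) ∈ N := by rw [map_pow]; exact h.rrp i j hij
  have := hq.tf _ hmem M h.pos e2
  rw [map_pow] at this
  exact this

variable (ι) in
/-- The normal closure `N₁(M)`. -/
def N1 (M : ℕ) : Subgroup (MulAut (FreeGroup ι)) :=
  Subgroup.normalClosure ({x | ∃ g, x = MulAut.conj g} ∪
    {x | ∃ i j k, i ≠ j ∧ i ≠ k ∧ x = cc i ⁅of j, of k⁆} ∪
    {x | ∃ i j, i ≠ j ∧ x = (rr i (of j)) ^ M})

instance N1_normal (M : ℕ) : (N1 ι M).Normal := Subgroup.normalClosure_normal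

lemma N1_step {M : ℕ} (hM : 0 < M) : Step (N1 ι M) M where
  pos := hM
  inn g := Subgroup.subset_normalClosure (Or.inl (Or.inl ⟨g, rfl⟩))
  cck i j k h1 h2 := Subgroup.subset_normalClosure (Or.inl (Or.inr ⟨i, j, k, h1, h2, rfl⟩))
  rrp i j h1 := Subgroup.subset_normalClosure (Or.inr ⟨i, j, h1, rfl⟩)

lemma N1_le {N : Subgroup (MulAut (FreeGroup ι))} [N.Normal] {M : ℕ} (h : Step N M) :
    N1 ι M ≤ N := by
  apply Subgroup.normalClosure_le_normal
  rintro _ ((⟨g, rfl⟩ | ⟨i, j, k, h1, h2, rfl⟩) | ⟨i, j, h1, rfl⟩)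
  · exact h.inn g
  · exact h.cck i j k h1 h2
  · exact h.rrp i j h1

/-- **Vanishing of homomorphisms to torsion-free abelian groups.** -/
theorem N1_hom_trivial {B : Type} [CommGroup B] (htf : ∀ (b : B) (m : ℕ), 0 < m → b ^ m = 1 → b = 1)
    {M : ℕ} (hM : 0 < M) (hcard : 4 ≤ Fintype.card ι) (f : N1 ι M →* B)
    (hinn : ∀ g (h : MulAut.conj g ∈ N1 ι M), f ⟨MulAut.conj g, h⟩ = 1) : ∀ x, f x = 1 := by
  set K := kerA (N1 ι M) f with hK
  set Z := K.normalCore with hZdef
  have hmZ : ∀ x, x ∈ Z ↔ ∀ b, b * x * b⁻¹ ∈ K := fun x => Iff.rfl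
  have hZnorm : Z.Normal := Subgroup.normalCore_normal K
  have hNn : (N1 ι M).Normal := N1_normal M
  let q : MulAut (FreeGroup ι) →* MulAut (FreeGroup ι) ⧸ Z := QuotientGroup.mk' Z
  have hq1 : ∀ x, q x = 1 ↔ x ∈ Z := fun x => QuotientGroup.eq_one_iff x
  have hAb : AbTf (N1 ι M) q := by
    refine ⟨?_, ?_, ?_⟩
    · intro g
      rw [hq1, hmZ]
      intro b
      have e : b * MulAut.conj g * b⁻¹ = MulAut.conj (b g) := by
        rw [mul_inv_eq_iff_eq_mul]
        ext x
        simp [MulAut.conj_apply]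
      rw [e]
      exact mem_kerA.2 ⟨(N1_step hM).inn _, hinn _ _⟩
    · intro x hx y hy
      have : q ⁅x, y⁆ = 1 := by
        rw [hq1, hmZ]
        intro b
        have hbx := hNn.conj_mem x hx b
        have hby := hNn.conj_mem y hy b
        have e : b * ⁅x, y⁆ * b⁻¹ = ⁅b * x * b⁻¹, b * y * b⁻¹⁆ := by
          simp only [commutatorElement_def]; group
        rw [e]
        refine mem_kerA.2 ⟨(N1 ι M).mul_mem ((N1 ι M).mul_mem ((N1 ι M).mul_mem hbx hby)
          ((N1 ι M).inv_mem hbx)) ((N1 ι M).inv_mem hby), ?_⟩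
        have e2 : (⟨⁅b * x * b⁻¹, b * y * b⁻¹⁆, (N1 ι M).mul_mem ((N1 ι M).mul_mem
          ((N1 ι M).mul_mem hbx hby) ((N1 ι M).inv_mem hbx)) ((N1 ι M).inv_mem hby)⟩ : N1 ι M) =
          ⟨_, hbx⟩ * ⟨_, hby⟩ * ⟨_, hbx⟩⁻¹ * ⟨_, hby⟩⁻¹ := rfl
        rw [e2]
        simp only [map_mul, map_inv]
        rw [mul_comm (f ⟨b * x * b⁻¹, hbx⟩)]
        group
      rw [map_commutatorElement, commutatorElement_eq_one_iff_mul_comm] at this
      exact this
    · intro x hx m hm hxm
      rw [← map_pow, hq1, hmZ] at hxm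
      rw [hq1, hmZ]
      intro b
      have hbx := hNn.conj_mem x hx b
      obtain ⟨h1, h2⟩ := mem_kerA.1 (hxm b)
      refine mem_kerA.2 ⟨hbx, htf _ m hm ?_⟩
      rw [← map_pow]
      convert h2 using 2
      ext1
      show (b * x * b⁻¹) ^ m = b * x ^ m * b⁻¹
      rw [conj_pow]
  have hstep := N1_step (ι := ι) hM
  have hle : N1 ι M ≤ Z := by
    apply N1_le (M := M)
    refine ⟨hM, fun g => (hq1 _).1 (hAb.inn g), fun i j k h1 h2 => ?_, fun i j h1 => ?_⟩
    · exact (hq1 _).1 ((hAb.kills hstep hcard).cck i j k h1 h2)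
    · exact (hq1 _).1 (hAb.rrpow hstep hcard h1)
  rintro ⟨x, hx⟩
  obtain ⟨h1, h2⟩ := mem_kerA.1 (Subgroup.normalCore_le K (hle hx))
  exact h2

end

end Pool.Agent.Helper460_OutF
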