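import Pool.Agent.Helper460_OutF.Hyp

set_option autoImplicit false
set_option linter.unusedSectionVars false
set_option linter.unusedSimpArgs false

namespace Pool.Agent.Helper460_OutF

open FreeGroup (of)
open scoped commutatorElement

/-- The relation of the double. -/
def dRel : FreeGroup (Fin 2 ⊕ Fin 2) :=
  ⁅(of (Sum.inl 0) : FreeGroup (Fin 2 ⊕ Fin 2)), of (Sum.inl 1)⁆ *
    (⁅(of (Sum.inr 0) : FreeGroup (Fin 2 ⊕ Fin 2)), of (Sum.inr 1)⁆)⁻¹

/-- The double of the free group of rank two along the commutator. -/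
abbrev DD : Type := PresentedGroup ({dRel} : Set (FreeGroup (Fin 2 ⊕ Fin 2)))

/-- First inclusion. -/
def iD : F2 →* DD := FreeGroup.lift fun x => PresentedGroup.of (Sum.inl x)

/-- Second inclusion. -/
def jD : F2 →* DD := FreeGroup.lift fun x => PresentedGroup.of (Sum.inr x)

lemma iD_cm : iD cm = jD cm := by
  have h : (PresentedGroup.mk ({dRel} : Set (FreeGroup (Fin 2 ⊕ Fin 2)))) dRel = 1 :=
    PresentedGroup.one_of_mem (Set.mem_singleton _)
  unfold dRel at h
  rw [map_mul, map_inv, mul_inv_eq_one, map_commutatorElement, map_commutatorElement] at h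
  unfold cm
  rw [map_commutatorElement, map_commutatorElement]
  simp only [iD, jD, FreeGroup.lift_apply_of]
  exact h

lemma iD_of_not_ND {u : F2} (hu : ¬ ND u) : jD u = iD u := by
  unfold ND at hu
  push Not at hu
  obtain ⟨k, rfl⟩ := hu
  rw [map_zpow, map_zpow, iD_cm]

/-- Generators of the twisted retraction. -/
def rgen (N : ℕ) : Fin 2 ⊕ Fin 2 → F2 :=
  Sum.elim (fun x => of x) (fun x => cm ^ N * of x * (cm ^ N)⁻¹)

/-- The twisted retraction. -/
def rD (N : ℕ) : DD →* F2 :=
  PresentedGroup.toGroup (f := rgen N) (by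
    intro r hr
    rw [Set.mem_singleton_iff] at hr
    subst hr
    unfold dRel
    rw [map_mul, map_inv, map_commutatorElement, map_commutatorElement]
    simp only [FreeGroup.lift_apply_of, rgen, Sum.elim_inl, Sum.elim_inr]
    have h1 : ⁅cm ^ N * of 0 * (cm ^ N)⁻¹, cm ^ N * of 1 * (cm ^ N)⁻¹⁆ = cm := by
      have h2 : ⁅cm ^ N * of 0 * (cm ^ N)⁻¹, cm ^ N * of 1 * (cm ^ N)⁻¹⁆ =
          cm ^ N * cm * (cm ^ N)⁻¹ := by
        conv_rhs => rw [show cm = ⁅(of 0 : F2), of 1⁆ from rfl]
        unfold cm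
        simp only [commutatorElement_def]
        group
      rw [h2, ← pow_succ, pow_succ', mul_inv_cancel_right]
    rw [h1]
    exact mul_inv_cancel _)

@[simp] lemma rD_iD (N : ℕ) (u : F2) : rD N (iD u) = u := by
  have : (rD N).comp iD = MonoidHom.id F2 := by
    ext x
    simp [rD, iD, rgen]
  exact DFunLike.congr_fun this u

@[simp] lemma rD_jD (N : ℕ) (u : F2) : rD N (jD u) = cm ^ N * u * (cm ^ N)⁻¹ := by
  have : (rD N).comp jD = (MulAut.conj (cm ^ N) : F2 →* F2) := by
    ext x
    show rD N (jD (of x)) = cm ^ N * of x * (cm ^ N)⁻¹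
    simp [rD, jD, rgen]
  exact DFunLike.congr_fun this u

/-- Alternating products. -/
def pd (L : List (F2 × F2)) : DD := (L.map fun p => jD p.1 * iD p.2).prod

@[simp] lemma pd_nil : pd [] = 1 := rfl

@[simp] lemma pd_cons (p : F2 × F2) (L : List (F2 × F2)) :
    pd (p :: L) = jD p.1 * iD p.2 * pd L := by simp [pd]

lemma pd_append (L M : List (F2 × F2)) : pd (L ++ M) = pd L * pd M := by simp [pd]

lemma rD_pd (N : ℕ) (L : List (F2 × F2)) : rD N (pd L) = tw N L := by
  induction L with
  | nil => simp [tw]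
  | cons p L ih =>
    rw [pd_cons, map_mul, map_mul, ih, rD_iD, rD_jD]
    simp [tw]

/-- Existence of a reduced expression. -/
def Redd (d : DD) : Prop :=
  (∃ u, d = iD u) ∨ ∃ (w0 : F2) (M : List (F2 × F2)) (α w : F2),
    (∀ p ∈ M, ND p.1 ∧ ND p.2) ∧ ND α ∧ d = iD w0 * pd (M ++ [(α, w)])

lemma Redd.iD_mul {d : DD} (h : Redd d) (u : F2) : Redd (iD u * d) := by
  rcases h with ⟨v, rfl⟩ | ⟨w0, M, α, w, hM, hα, rfl⟩
  · exact Or.inl ⟨u * v, by rw [map_mul]⟩
  · exact Or.inr ⟨u * w0, M, α, w, hM, hα, by rw [map_mul, mul_assoc]⟩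

lemma Redd.jD_mul {d : DD} (h : Redd d) (u : F2) : Redd (jD u * d) := by
  by_cases hu : ND u
  swap
  · rw [iD_of_not_ND hu]; exact h.iD_mul u
  rcases h with ⟨v, rfl⟩ | ⟨w0, M, α, w, hM, hα, rfl⟩
  · exact Or.inr ⟨1, [], u, v, by simp, hu, by simp⟩
  · by_cases hw : ND w0
    · refine Or.inr ⟨1, (u, w0) :: M, α, w, ?_, hα, by simp [mul_assoc]⟩
      intro p hp
      rcases List.mem_cons.1 hp with rfl | hp
      · exact ⟨hu, hw⟩
      · exact hM p hp
    · rw [← iD_of_not_ND hw]
      cases M with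
      | nil =>
        have e : jD u * (jD w0 * pd ([] ++ [(α, w)])) = jD (u * w0 * α) * iD w := by
          simp [mul_assoc]
        rw [e]
        by_cases hn : ND (u * w0 * α)
        · exact Or.inr ⟨1, [], u * w0 * α, w, by simp, hn, by simp⟩
        · rw [iD_of_not_ND hn]
          exact Or.inl ⟨_, (map_mul _ _ _).symm⟩
      | cons q M1 =>
        have e : jD u * (jD w0 * pd (q :: M1 ++ [(α, w)])) =
            jD (u * w0 * q.1) * iD q.2 * pd (M1 ++ [(α, w)]) := by
          simp [mul_assoc]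
        rw [e]
        have hM1 : ∀ p ∈ M1, ND p.1 ∧ ND p.2 := fun p hp => hM p (List.mem_cons_of_mem _ hp)
        by_cases hn : ND (u * w0 * q.1)
        · refine Or.inr ⟨1, (u * w0 * q.1, q.2) :: M1, α, w, ?_, hα, by simp [mul_assoc]⟩
          intro p hp
          rcases List.mem_cons.1 hp with rfl | hp
          · exact ⟨hn, (hM q (by simp)).2⟩
          · exact hM1 p hp
        · rw [iD_of_not_ND hn, ← map_mul]
          exact Or.inr ⟨_, M1, α, w, hM1, hα, rfl⟩

theorem redd (d : DD) : Redd d := by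
  have key : ∀ w : FreeGroup (Fin 2 ⊕ Fin 2), ∀ e : DD, Redd e →
      Redd (PresentedGroup.mk ({dRel} : Set (FreeGroup (Fin 2 ⊕ Fin 2))) w * e) := by
    intro w
    induction w using FreeGroup.induction_on with
    | C1 => intro e he; rw [map_one, one_mul]; exact he
    | of x =>
      intro e he
      rcases x with x | x
      · have := he.iD_mul (of x)
        rw [iD, FreeGroup.lift_apply_of] at this
        exact this
      · have := he.jD_mul (of x)
        rw [jD, FreeGroup.lift_apply_of] at this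
        exact this
    | inv_of x _ =>
      intro e he
      rw [map_inv]
      rcases x with x | x
      · have := he.iD_mul (of x)⁻¹
        rw [map_inv, iD, FreeGroup.lift_apply_of] at this
        exact this
      · have := he.jD_mul (of x)⁻¹
        rw [map_inv, jD, FreeGroup.lift_apply_of] at this
        exact this
    | mul a b ha hb =>
      intro e he
      rw [map_mul, mul_assoc]
      exact ha _ (hb _ he)
  obtain ⟨w, rfl⟩ := PresentedGroup.mk_surjective _ d
  have := key w 1 (Or.inl ⟨1, by rw [map_one]⟩)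
  rwa [mul_one] at this

/-- The twisted retractions detect nontrivial elements. -/
theorem DD_res {d : DD} (h : ∀ N, rD N d = 1) : d = 1 := by
  rcases redd d with ⟨u, rfl⟩ | ⟨w0, M, α, w, hM, hα, rfl⟩
  · have := h 0
    rw [rD_iD] at this
    rw [this, map_one]
  · exfalso
    apply big1 M hM w0 α w hα
    intro N
    have := h N
    rwa [map_mul, rD_iD, rD_pd] at this

/-- Cyclically reduced expressions. -/
def Cyc (d : DD) : Prop :=
  (∃ u, IsConj d (iD u)) ∨ (∃ u, IsConj d (jD u)) ∨
    ∃ L : List (F2 × F2), L ≠ [] ∧ (∀ p ∈ L, ND p.1 ∧ ND p.2) ∧ IsConj d (pd L)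

lemma Cyc.of_conj {d e : DD} (h : Cyc e) (hc : IsConj d e) : Cyc d := by
  rcases h with ⟨u, hu⟩ | ⟨u, hu⟩ | ⟨L, h1, h2, h3⟩
  · exact Or.inl ⟨u, hc.trans hu⟩
  · exact Or.inr (Or.inl ⟨u, hc.trans hu⟩)
  · exact Or.inr (Or.inr ⟨L, h1, h2, hc.trans h3⟩)

lemma conj_mul_comm' {G : Type} [Group G] (x y : G) : IsConj (x * y) (y * x) :=
  isConj_iff.2 ⟨y, by group⟩

lemma cyc_pd : ∀ (n : ℕ) (M : List (F2 × F2)) (α w : F2), M.length = n →
    (∀ p ∈ M, ND p.1 ∧ ND p.2) → ND α → Cyc (pd (M ++ [(α, w)])) := by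
  intro n
  induction n using Nat.strong_induction_on with
  | _ n ih =>
    intro M α w hn hM hα
    by_cases hw : ND w
    · refine Or.inr (Or.inr ⟨M ++ [(α, w)], by simp, ?_, IsConj.refl _⟩)
      intro p hp
      rcases List.mem_append.1 hp with hp | hp
      · exact hM p hp
      · rw [List.mem_singleton] at hp
        subst hp
        exact ⟨hα, hw⟩
    · cases M with
      | nil =>
        refine Or.inr (Or.inl ⟨α * w, ?_⟩)
        have e : pd ([] ++ [(α, w)]) = jD (α * w) := by
          simp [← iD_of_not_ND hw]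
        rw [e]
      | cons q M1 =>
        have hM1 : ∀ p ∈ M1, ND p.1 ∧ ND p.2 := fun p hp => hM p (List.mem_cons_of_mem _ hp)
        have e : pd (q :: M1 ++ [(α, w)]) = (jD q.1 * iD q.2 * pd M1) * jD (α * w) := by
          simp [pd_append, ← iD_of_not_ND hw, mul_assoc]
        have hc : IsConj (pd (q :: M1 ++ [(α, w)])) (jD (α * w * q.1) * iD q.2 * pd M1) := by
          rw [e]
          have := conj_mul_comm' (jD q.1 * iD q.2 * pd M1) (jD (α * w))
          convert this using 1
          simp [mul_assoc]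
        refine Cyc.of_conj ?_ hc
        by_cases hnd : ND (α * w * q.1)
        · refine Or.inr (Or.inr ⟨(α * w * q.1, q.2) :: M1, by simp, ?_, IsConj.refl _⟩)
          intro p hp
          rcases List.mem_cons.1 hp with rfl | hp
          · exact ⟨hnd, (hM q (by simp)).2⟩
          · exact hM1 p hp
        · rw [iD_of_not_ND hnd, ← map_mul]
          rcases List.eq_nil_or_concat M1 with rfl | ⟨M2, q2, hM2⟩
          · exact Or.inl ⟨_, by rw [pd_nil, mul_one]⟩
          · rw [List.concat_eq_append] at hM2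
            subst hM2
            refine Cyc.of_conj ?_ (conj_mul_comm' _ _)
            have e2 : pd (M2 ++ [q2]) * iD (α * w * q.1 * q.2) =
                pd (M2 ++ [(q2.1, q2.2 * (α * w * q.1 * q.2))]) := by
              simp [pd_append, mul_assoc]
            rw [e2]
            refine ih M2.length ?_ M2 _ _ rfl (fun p hp => hM1 p (by simp [hp]))
              (hM1 q2 (by simp)).1
            rw [← hn]
            simp

theorem cyc (d : DD) : Cyc d := by
  rcases redd d with ⟨u, rfl⟩ | ⟨w0, M, α, w, hM, hα, rfl⟩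
  · exact Or.inl ⟨u, IsConj.refl _⟩
  · refine Cyc.of_conj ?_ (conj_mul_comm' _ _)
    have e : pd (M ++ [(α, w)]) * iD w0 = pd (M ++ [(α, w * w0)]) := by
      simp [pd_append, mul_assoc]
    rw [e]
    exact cyc_pd M.length M α _ rfl hM hα

lemma IsConj.map' {G H : Type} [Group G] [Group H] (f : G →* H) {x y : G} (h : IsConj x y) :
    IsConj (f x) (f y) := by
  obtain ⟨c, rfl⟩ := isConj_iff.1 h
  exact isConj_iff.2 ⟨f c, by simp⟩

/-- The twisted retractions detect the conjugacy class of a generator. -/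
theorem DD_conj {d : DD} (h : ∀ N, IsConj (rD N d) (of 0)) :
    IsConj d (iD (of 0)) ∨ IsConj d (jD (of 0)) := by
  rcases cyc d with ⟨u, hu⟩ | ⟨u, hu⟩ | ⟨L, h1, h2, h3⟩
  · left
    have h4 := (IsConj.map' (rD 0) hu).symm.trans (h 0)
    rw [rD_iD] at h4
    exact hu.trans (IsConj.map' iD h4)
  · right
    have h4 := (IsConj.map' (rD 0) hu).symm.trans (h 0)
    rw [rD_jD, pow_zero, inv_one, mul_one, one_mul] at h4
    exact hu.trans (IsConj.map' jD h4)
  · exfalso
    apply big2 L h1 h2 (of 0)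
    intro N
    have h4 := (IsConj.map' (rD N) h3).symm.trans (h N)
    rwa [rD_pd] at h4

end Pool.Agent.Helper460_OutF
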