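import Pool.Agent.Helper460_OutF.FinOrd

set_option autoImplicit false
set_option linter.unusedSectionVars false
set_option linter.unusedSimpArgs false

namespace Pool.Agent.Helper460_OutF

open FreeGroup (of)
open scoped commutatorElement Pointwise

variable {ι : Type} [DecidableEq ι] [Fintype ι]

/-- The product of the generators over a finite set. -/
noncomputable def tau (S : Finset ι) : FreeGroup ι := (S.toList.map fun c => of c).prod

lemma kil_tau {d : ι} {S : Finset ι} (h : d ∉ S) : kil d (tau S) = tau S := by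
  unfold tau
  rw [map_list_prod, List.map_map]
  congr 1
  apply List.map_congr_left
  intro c hc
  exact kil_ne (fun hcd => h (by rw [← hcd]; exact Finset.mem_toList.1 hc))

variable {K : Subgroup (MulAut (FreeGroup ι))} {H : Type} [Group H] {ρ : K →* H} {e : ℕ}

/-- The subgroup of words `w` with `cc i w` in the twist of `K`. -/
def WB (K : Subgroup (MulAut (FreeGroup ι))) (i : ι) (b : MulAut (FreeGroup ι)) :
    Subgroup (FreeGroup ι) := K.comap ((cjA b).comp (cc i))

lemma mem_WB {i : ι} {b : MulAut (FreeGroup ι)} {w : FreeGroup ι} :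
    w ∈ WB K i b ↔ cjA b (cc i w) ∈ K := Iff.rfl

lemma WB_index [hfi : K.FiniteIndex] (i : ι) (b : MulAut (FreeGroup ι)) :
    (WB K i b).index ≤ K.relIndex (IA (FreeGroup ι)) := by
  unfold WB
  rw [Subgroup.index_comap]
  apply Subgroup.relIndex_le_of_le_right
  · rintro _ ⟨w, rfl⟩
    exact (IA_normal (FreeGroup ι)).conj_mem _ (cc_mem_IA i w) b
  · exact (inferInstance : (K.subgroupOf (IA (FreeGroup ι))).FiniteIndex).index_ne_zero

lemma WB_normal (hK : Adm K e) (i : ι) (b : MulAut (FreeGroup ι)) : (WB K i b).Normal := by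
  constructor
  intro w hw g
  have h1 : ⁅g, w⁆ ∈ WB K i b := hK.cc b i g w
  have h2 := (WB K i b).mul_mem h1 hw
  rwa [commutatorElement_def, inv_mul_cancel_right] at h2

lemma exists_rel [hfi : K.FiniteIndex] (hK : Adm K e) (i : ι) (b : MulAut (FreeGroup ι))
    (S : Finset ι) (hS : K.relIndex (IA (FreeGroup ι)) < 2 ^ S.card) :
    ∃ d ∈ S, ∃ T T' : Finset ι, T ⊆ S ∧ T' ⊆ S ∧ d ∉ T ∧ d ∉ T' ∧
      of d * (tau T' * (tau T)⁻¹) ∈ WB K i b := by
  classical
  have hn := WB_normal hK i b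
  have hfin : Finite (FreeGroup ι ⧸ WB K i b) := by
    have : (WB K i b).FiniteIndex := ⟨by
      unfold WB
      rw [Subgroup.index_comap]
      have h1 : (K.subgroupOf ((cjA b).comp (cc i)).range).FiniteIndex := inferInstance
      exact h1.index_ne_zero⟩
    infer_instance
  have _inst := Fintype.ofFinite (FreeGroup ι ⧸ WB K i b)
  have hcomm : ∀ x y : FreeGroup ι ⧸ WB K i b, x * y = y * x := by
    intro x y
    obtain ⟨g, rfl⟩ := QuotientGroup.mk_surjective x
    obtain ⟨h, rfl⟩ := QuotientGroup.mk_surjective y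
    have h1 : QuotientGroup.mk' (WB K i b) ⁅g, h⁆ = 1 :=
      (QuotientGroup.eq_one_iff _).2 (hK.cc b i g h)
    rw [map_commutatorElement, commutatorElement_eq_one_iff_mul_comm] at h1
    exact h1
  let _ : CommGroup (FreeGroup ι ⧸ WB K i b) :=
    { (inferInstance : Group (FreeGroup ι ⧸ WB K i b)) with mul_comm := hcomm }
  let κ : FreeGroup ι →* FreeGroup ι ⧸ WB K i b := QuotientGroup.mk' _
  have hκ : ∀ w, κ w = 1 ↔ w ∈ WB K i b := fun w => QuotientGroup.eq_one_iff w
  have htau : ∀ T : Finset ι, κ (tau T) = ∏ c ∈ T, κ (of c) := by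
    intro T
    unfold tau
    rw [map_list_prod, List.map_map]
    exact Finset.prod_map_toList T (fun c => κ (of c))
  have hlt : (Finset.univ : Finset (FreeGroup ι ⧸ WB K i b)).card < S.powerset.card := by
    rw [Finset.card_powerset, Finset.card_univ, ← Nat.card_eq_fintype_card]
    exact lt_of_le_of_lt (WB_index i b) hS
  obtain ⟨T, hT, T', hT', hne, heq⟩ := Finset.exists_ne_map_eq_of_card_lt_of_maps_to hlt
    (f := fun T => κ (tau T)) (fun _ _ => Finset.mem_univ _)
  rw [Finset.mem_powerset] at hT hT'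
  have key : ∀ T T' : Finset ι, T ⊆ S → T' ⊆ S → κ (tau T) = κ (tau T') → ∀ d, d ∈ T' → d ∉ T →
      ∃ d ∈ S, ∃ T T' : Finset ι, T ⊆ S ∧ T' ⊆ S ∧ d ∉ T ∧ d ∉ T' ∧
        of d * (tau T' * (tau T)⁻¹) ∈ WB K i b := by
    intro T T' hT hT' heq d hd hd'
    refine ⟨d, hT' hd, T, T'.erase d, hT, (Finset.erase_subset _ _).trans hT', hd',
      Finset.notMem_erase _ _, ?_⟩
    have e1 : κ (of d) * κ (tau (T'.erase d)) = κ (tau T') := by
      rw [htau, htau]
      exact Finset.mul_prod_erase T' (fun c => κ (of c)) hd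
    rw [← hκ, map_mul, map_mul, map_inv, ← mul_assoc, e1, heq, mul_inv_cancel]
  have hex : ∃ d, (d ∈ T' ∧ d ∉ T) ∨ (d ∈ T ∧ d ∉ T') := by
    by_contra hcon
    push Not at hcon
    apply hne
    ext d
    exact ⟨fun h => (hcon d).2 h, fun h => (hcon d).1 h⟩
  obtain ⟨d, ⟨h1, h2⟩ | ⟨h1, h2⟩⟩ := hex
  · exact key T T' hT hT' heq d h1 h2
  · exact key T' T hT' hT heq.symm d h1 h2

/-- The indices with `cc i x_c` outside the twist of `K`. -/
noncomputable def BdB (K : Subgroup (MulAut (FreeGroup ι))) (i j k : ι)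
    (b : MulAut (FreeGroup ι)) : Finset ι := by
  classical exact Finset.univ.filter fun c => (c ≠ i ∧ c ≠ j ∧ c ≠ k) ∧ cjA b (cc i (of c)) ∉ K

lemma mem_BdB {i j k c : ι} {b : MulAut (FreeGroup ι)} :
    c ∈ BdB K i j k b ↔ (c ≠ i ∧ c ≠ j ∧ c ≠ k) ∧ cjA b (cc i (of c)) ∉ K := by
  classical
  unfold BdB
  rw [Finset.mem_filter]
  exact ⟨fun h => h.2, fun h => ⟨Finset.mem_univ _, h⟩⟩

variable (ρ) in
/-- **Basis change.** -/
theorem good_basis [hfi : K.FiniteIndex] (hK : Adm K e) (i j k : ι) :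
    ∀ (N : ℕ) (b : MulAut (FreeGroup ι)), (BdB K i j k b).card = N →
      ∃ b', RB ρ i b' ⁅of j, of k⁆ = RB ρ i b ⁅of j, of k⁆ ∧
        2 ^ (BdB K i j k b').card ≤ K.relIndex (IA (FreeGroup ι)) := by
  classical
  intro N
  induction N using Nat.strong_induction_on with
  | _ N ih =>
  intro b hN
  by_cases hle : 2 ^ (BdB K i j k b).card ≤ K.relIndex (IA (FreeGroup ι))
  · exact ⟨b, rfl, hle⟩
  · push Not at hle
    obtain ⟨d, hd, T, T', hT, hT', hdT, hdT', hrel⟩ := exists_rel hK i b _ hle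
    obtain ⟨⟨hd1, hd2, hd3⟩, hdK⟩ := mem_BdB.1 hd
    obtain ⟨w, hw⟩ : ∃ w, w = tau T' * (tau T)⁻¹ := ⟨_, rfl⟩
    rw [← hw] at hrel
    have hki : kil i w = w := by
      rw [hw, map_mul, map_inv, kil_tau (fun h => (mem_BdB.1 (hT h)).1.1 rfl),
        kil_tau (fun h => (mem_BdB.1 (hT' h)).1.1 rfl)]
    have hkd : kil d w = w := by
      rw [hw, map_mul, map_inv, kil_tau hdT, kil_tau hdT']
    have hp : Pres i (rr d w) := pres_rr (Ne.symm hd1) hki
    have eu : RB ρ i (b * rr d w) ⁅of j, of k⁆ = RB ρ i b ⁅of j, of k⁆ := by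
      rw [RB_twist hp, rr_fix d _ (kil_comm_of (Ne.symm hd2) (Ne.symm hd3))]
    have hsub : BdB K i j k (b * rr d w) ⊆ (BdB K i j k b).erase d := by
      intro c hc
      obtain ⟨h1, h2⟩ := mem_BdB.1 hc
      rw [mem_twist hp] at h2
      by_cases hcd : c = d
      · subst hcd
        exfalso
        apply h2
        rw [rr_self, hkd]
        exact hrel
      · rw [rr_ne hcd] at h2
        exact Finset.mem_erase.2 ⟨hcd, mem_BdB.2 ⟨h1, h2⟩⟩
    have hlt : (BdB K i j k (b * rr d w)).card < N := by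
      rw [← hN]
      exact lt_of_le_of_lt (Finset.card_le_card hsub) (Finset.card_erase_lt_of_mem hd)
    obtain ⟨b', hb1, hb2⟩ := ih _ hlt (b * rr d w) rfl
    exact ⟨b', hb1.trans eu, hb2⟩

variable (ρ) in
/-- **Finite order of all commutators.** -/
theorem fo_all [hfi : K.FiniteIndex] (hK : Adm K e) (he : 0 < e) {r : ℕ} (hH : NoTri2Fam r H)
    (hr : r + 2 ≤ 2 * (Fintype.card ι - 3 - Nat.log 2 (K.relIndex (IA (FreeGroup ι)))))
    {i j k : ι} (hij : i ≠ j) (hik : i ≠ k) (b : MulAut (FreeGroup ι)) :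
    IsOfFinOrder (RB ρ i b ⁅of j, of k⁆) := by
  classical
  obtain ⟨b', h1, h2⟩ := good_basis ρ hK i j k _ b rfl
  rw [← h1]
  let S : Finset ι := Finset.univ.filter fun c => (c ≠ i ∧ c ≠ j ∧ c ≠ k) ∧
    cjA b' (cc i (of c)) ∈ K
  have hS : ∀ c ∈ S, (c ≠ i ∧ c ≠ j ∧ c ≠ k) ∧ cjA b' (cc i (of c)) ∈ K := fun c hc =>
    (Finset.mem_filter.1 hc).2
  have hlog : (BdB K i j k b').card ≤ Nat.log 2 (K.relIndex (IA (FreeGroup ι))) :=
    Nat.le_log_of_pow_le (by norm_num) h2
  have hcard : Fintype.card ι - 3 ≤ S.card + (BdB K i j k b').card := by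
    refine le_trans (card_ne3 i j k) ?_
    rw [Nat.card_eq_fintype_card, Fintype.card_subtype]
    have : (Finset.univ.filter fun c : ι => c ≠ i ∧ c ≠ j ∧ c ≠ k) ⊆ S ∪ BdB K i j k b' := by
      intro c hc
      rw [Finset.mem_filter] at hc
      rw [Finset.mem_union]
      by_cases h : cjA b' (cc i (of c)) ∈ K
      · exact Or.inl (Finset.mem_filter.2 ⟨Finset.mem_univ _, hc.2, h⟩)
      · exact Or.inr (mem_BdB.2 ⟨hc.2, h⟩)
    exact (Finset.card_le_card this).trans (Finset.card_union_le _ _)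
  exact fo_S hK hij hik hH S (fun c hc => (hS c hc).1) (by omega) he _ b'
    (fun c hc => (hS c hc).2) rfl

end Pool.Agent.Helper460_OutF
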