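import Pool.Agent.Helper460_OutF.Star

set_option autoImplicit false
set_option linter.unusedSectionVars false
set_option linter.unusedSimpArgs false

namespace Pool.Agent.Helper460_OutF

open FreeGroup (of)
open scoped commutatorElement

section general

variable {F H : Type} [Group F] [Group H]

lemma Pd_hom {j : ℕ} {θ : H → ℤ} (h : Pd j θ) (f : F →* H) : Pd j (fun x => θ (f x)) := by
  induction j generalizing θ with
  | zero => intro x; exact h _
  | succ j ih =>
    intro g
    refine Pd_congr ?_ (ih (h (f g)))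
    intro x
    simp only [map_mul]

lemma IsClass_hom {θ : H → ℤ} (h : IsClass θ) (f : F →* H) : IsClass (fun x => θ (f x)) := by
  intro g x
  show θ (f (g * x * g⁻¹)) = θ (f x)
  rw [map_mul, map_mul, map_inv, h]

/-- The data needed for the Torelli argument. -/
structure TD (G : Type) [Group G] (r : ℕ → G →* F2) (a b : G) : Prop where
  res : ∀ y, (∀ N, r N y = 1) → y = 1
  conj : ∀ y, Abelianization.of y = Abelianization.of a → (∀ N, IsConj (r N y) (of 0)) → IsConj y a
  rconj : ∀ N, IsConj (r N a) (of 0)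
  cent : ∀ w, w * a = a * w → ∃ j : ℤ, w = a ^ j
  ra : r 0 a = of 0
  rb : r 0 b = of 1

/-- The invariant. -/
def rinvG {G : Type} [Group G] (r : G →* F2) (b : G) (α : MulAut G) : ℤ :=
  (hz 0 1 (r (α b))).z - (hz 0 1 (r b)).z

variable {G : Type} [Group G]

lemma rinvG_mul (r : G →* F2) (b : G) {α β : MulAut G} (hα : α ∈ IA G) (hβ : β ∈ IA G) :
    rinvG r b (α * β) = rinvG r b α + rinvG r b β := by
  have h1 := Pd_IA hα (Pd_hom (hz_Pd (0 : Fin 2) 1) r)
  have h2 := Pd_IA hβ h1
  have h3 : ∀ x : G, ((hz 0 1 (r (α (β x)))).z - (hz 0 1 (r (β x))).z) -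
      ((hz 0 1 (r (α x))).z - (hz 0 1 (r x)).z) = 0 := by
    intro x
    have := h2 x 1
    simpa using this
  have h4 := h3 b
  unfold rinvG
  rw [MulAut.mul_apply]
  linarith

lemma rinvG_one (r : G →* F2) (b : G) : rinvG r b (1 : MulAut G) = 0 := by
  unfold rinvG; simp

lemma rinvG_conj (r : G →* F2) (a b : G) (ha : r a = of 0) (hb : r b = of 1) :
    rinvG r b (MulAut.conj a) = 1 := by
  have hc : r (MulAut.conj a b) = of 0 * of 1 * (of 0)⁻¹ := by
    rw [MulAut.conj_apply, map_mul, map_mul, map_inv, ha, hb]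
  unfold rinvG
  rw [hc, hb]
  simp [hz]

lemma rinvG_conj_zpow (r : G →* F2) (a b : G) (ha : r a = of 0) (hb : r b = of 1) (j : ℤ) :
    rinvG r b (MulAut.conj (a ^ j)) = j := by
  have hnat : ∀ m : ℕ, rinvG r b (MulAut.conj (a ^ m)) = m := by
    intro m
    induction m with
    | zero => rw [pow_zero, map_one, rinvG_one]; rfl
    | succ m ih =>
      rw [pow_succ, map_mul, rinvG_mul r b (conj_mem_IA _) (conj_mem_IA _), ih,
        rinvG_conj r a b ha hb]
      push_cast; ring
  rcases Int.eq_nat_or_neg j with ⟨m, rfl | rfl⟩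
  · rw [zpow_natCast, hnat]
  · have h1 := rinvG_mul r b (conj_mem_IA (a ^ (-(m : ℤ)))) (conj_mem_IA (a ^ m))
    rw [← map_mul, zpow_neg, zpow_natCast, inv_mul_cancel, map_one, rinvG_one, hnat] at h1
    rw [zpow_neg, zpow_natCast]
    omega

theorem TD.tg {r : ℕ → G →* F2} {a b : G} (D : TD G r a b) : TG G := by
  intro Λ _ hno ψ hT
  let rep0 : Λ → MulAut G := fun x => Quotient.out (ψ x)
  have hrep0 : ∀ x, ((rep0 x : MulAut G) : Out G) = ψ x := fun x => Quotient.out_eq _
  have hrepmul : ∀ (s t e : MulAut G), (e : Out G) = (s : Out G) * (t : Out G) →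
      ∃ g, e = MulAut.conj g * (s * t) := by
    intro s t e h
    rw [← QuotientGroup.mk_mul] at h
    have h2 := (QuotientGroup.eq.1 h.symm)
    obtain ⟨g, hg⟩ := h2
    refine ⟨(s * t) g, ?_⟩
    have h3 : e = (s * t) * MulAut.conj g := by rw [hg]; group
    rw [h3]
    ext x
    simp [MulAut.conj_apply]
  have hIA0 : ∀ x, rep0 x ∈ IA G := fun x => hT x _ (hrep0 x).symm
  have hrm0 : ∀ s t, ∃ g, rep0 (s * t) = MulAut.conj g * (rep0 s * rep0 t) := by
    intro s t
    apply hrepmul
    rw [hrep0, hrep0, hrep0, map_mul]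
  have hconj : ∀ x, ∃ g, g * rep0 x a * g⁻¹ = a := by
    intro x
    refine isConj_iff.1 (D.conj _ (hIA0 x a) fun N => ?_)
    apply conj_of_class
    intro j θ h1 h2
    have h3 := class_inv hno rep0 hrm0 hIA0 j _ (IsClass_hom h1 (r N)) (Pd_hom h2 (r N)) x a
    obtain ⟨c, hc⟩ := isConj_iff.1 (D.rconj N)
    refine Eq.trans h3 ?_
    rw [← hc]
    exact (h1 _ _).symm
  choose g hg using hconj
  let rep1 : Λ → MulAut G := fun x => MulAut.conj (g x) * rep0 x
  have hrep1c : ∀ x, rep1 x a = a := by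
    intro x
    show (MulAut.conj (g x) * rep0 x) a = a
    rw [MulAut.mul_apply, MulAut.conj_apply, hg]
  have hIA1 : ∀ x, rep1 x ∈ IA G := fun x => (IA _).mul_mem (conj_mem_IA _) (hIA0 x)
  let rep2 : Λ → MulAut G := fun x =>
    MulAut.conj (a ^ (-rinvG (r 0) b (rep1 x))) * rep1 x
  have hIA2 : ∀ x, rep2 x ∈ IA G := fun x => (IA _).mul_mem (conj_mem_IA _) (hIA1 x)
  have hrep2c : ∀ x, rep2 x a = a := by
    intro x
    show (MulAut.conj (a ^ (-rinvG (r 0) b (rep1 x))) * rep1 x) a = a
    rw [MulAut.mul_apply, MulAut.conj_apply, hrep1c]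
    group
  have hr2 : ∀ x, rinvG (r 0) b (rep2 x) = 0 := by
    intro x
    show rinvG (r 0) b (MulAut.conj (a ^ (-rinvG (r 0) b (rep1 x))) * rep1 x) = 0
    rw [rinvG_mul (r 0) b (conj_mem_IA _) (hIA1 x), rinvG_conj_zpow (r 0) a b D.ra D.rb]
    ring
  have hrep2 : ∀ x, ((rep2 x : MulAut G) : Out G) = ψ x := by
    intro x
    have e1 : ∀ (w : G) (β : MulAut G),
        ((MulAut.conj w * β : MulAut G) : Out G) = (β : Out G) := by
      intro w β
      rw [QuotientGroup.mk_mul]
      have : ((MulAut.conj w : MulAut G) : Out G) = 1 :=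
        (QuotientGroup.eq_one_iff _).2 ⟨w, rfl⟩
      rw [this, one_mul]
    show ((MulAut.conj _ * (MulAut.conj _ * rep0 x) : MulAut G) : Out G) = ψ x
    rw [e1, e1, hrep0]
  have hmul : ∀ s t, rep2 (s * t) = rep2 s * rep2 t := by
    intro s t
    obtain ⟨w, hw⟩ := hrepmul (rep2 s) (rep2 t) (rep2 (s * t)) (by
      rw [hrep2, hrep2, hrep2, map_mul])
    have h1 := congrArg (fun α : MulAut G => α a) hw
    simp only [MulAut.mul_apply, MulAut.conj_apply, hrep2c] at h1
    obtain ⟨j, hj⟩ := D.cent w ((eq_mul_inv_iff_mul_eq.1 h1).symm)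
    have h3 := congrArg (rinvG (r 0) b) hw
    rw [rinvG_mul (r 0) b (conj_mem_IA _) ((IA _).mul_mem (hIA2 s) (hIA2 t)),
      rinvG_mul (r 0) b (hIA2 s) (hIA2 t), hr2, hr2, hr2] at h3
    rw [hj, rinvG_conj_zpow (r 0) a b D.ra D.rb] at h3
    have hj0 : j = 0 := by omega
    rw [hw, hj, hj0, zpow_zero, map_one, one_mul]
  let rep : Λ →* MulAut G :=
    { toFun := rep2
      map_one' := by
        have := hmul 1 1
        rw [mul_one] at this
        exact left_eq_mul.1 this
      map_mul' := hmul }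
  intro x
  have h1 : rep2 x = 1 := by
    ext1 y
    rw [MulAut.one_apply]
    by_contra hne
    have hne' : rep2 x y * y⁻¹ ≠ 1 := fun h' => hne (mul_inv_eq_one.1 h')
    have h5 : ∃ N, r N (rep2 x y * y⁻¹) ≠ 1 := by
      by_contra hcon
      push Not at hcon
      exact hne' (D.res _ hcon)
    obtain ⟨N, hN⟩ := h5
    obtain ⟨j, θ, hθ, hsep⟩ := exists_sep _ hN
    have h6 := hom_inv hno rep hIA2 j _ (Pd_right (Pd_hom hθ (r N)) y⁻¹) x y
    have h7 : θ (r N (rep2 x y * y⁻¹)) = θ (r N (y * y⁻¹)) := h6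
    rw [mul_inv_cancel, map_one] at h7
    exact hsep h7
  rw [← hrep2 x, h1]
  rfl

/-- Commutative groups. -/
theorem TG_comm (hcomm : ∀ u v : G, u * v = v * u) : TG G := by
  intro Λ _ _ ψ hT x
  obtain ⟨α, hα⟩ := QuotientGroup.mk_surjective (ψ x)
  have h1 := hT x α hα.symm
  have h2 : α = 1 := by
    ext y
    rw [MulAut.one_apply]
    have h3 := IA_inv_mul h1 y
    have h4 : commutator G = ⊥ := by
      rw [commutator_def, Subgroup.commutator_eq_bot_iff_le_centralizer]
      intro u _
      rw [Subgroup.mem_centralizer_iff]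
      intro v _
      exact hcomm v u
    rw [h4, Subgroup.mem_bot] at h3
    exact (inv_mul_eq_one.1 h3).symm
  rw [← hα, h2]
  rfl

end general

section closed

variable {k : ℕ}

lemma th_av_last : th k (av k (k + 1)) = jD (of 0) := by
  have := th_av (k := k) (s := 0) (Nat.zero_le _)
  rw [Nat.sub_zero] at this
  rw [this]
  simp [cj]

lemma th_bv_last : th k (bv k (k + 1)) = jD (of 1) := by
  have := th_bv (k := k) (s := 0) (Nat.zero_le _)
  rw [Nat.sub_zero] at this
  rw [this]
  simp [cj]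

lemma expo_rD (N : ℕ) (d : DD) : expo 0 (rD N d) = expo 0 (rD 0 d) := by
  have : (expo (0 : Fin 2)).comp (rD N) = (expo 0).comp (rD 0) := by
    apply PresentedGroup.ext
    intro c
    rcases c with c | c
    · simp [rD, rgen]
    · simp only [MonoidHom.comp_apply, rD, PresentedGroup.toGroup.of, rgen, Sum.elim_inr]
      rw [map_mul, map_mul, map_mul, map_mul, map_inv, map_inv, mul_comm (expo 0 (cm ^ N)),
        mul_comm (expo 0 (cm ^ 0)), mul_inv_cancel_right, mul_inv_cancel_right]
  exact DFunLike.congr_fun this d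

lemma SG_cent (w : SG (k + 2) 0) (h : w * av k (k + 1) = av k (k + 1) * w) :
    ∃ j : ℤ, w = av k (k + 1) ^ j := by
  have key : ∀ N, rD N (th k w) = rD N (jD (of 0 ^ (expo 0 (rD 0 (th k w))).toAdd)) := by
    intro N
    have h1 := congrArg (fun y => rD N (th k y)) h
    simp only [map_mul, th_av_last, rD_jD] at h1
    obtain ⟨j, hj⟩ := Pool.Agent.H926R3.Br.FP.free_centralizer (0 : Fin 2) 1 le_rfl
      ((cm ^ N)⁻¹ * rD N (th k w) * cm ^ N) (by
        rw [pow_one]
        have h2 : rD N (th k w) * cm ^ N * of 0 * (cm ^ N)⁻¹ =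
          cm ^ N * of 0 * (cm ^ N)⁻¹ * rD N (th k w) := by
          rw [← h1]; group
        calc (cm ^ N)⁻¹ * rD N (th k w) * cm ^ N * of 0
            = (cm ^ N)⁻¹ * (rD N (th k w) * cm ^ N * of 0 * (cm ^ N)⁻¹) * cm ^ N := by group
          _ = (cm ^ N)⁻¹ * (cm ^ N * of 0 * (cm ^ N)⁻¹ * rD N (th k w)) * cm ^ N := by rw [h2]
          _ = of 0 * ((cm ^ N)⁻¹ * rD N (th k w) * cm ^ N) := by group)
    have hj' : (of 0 : F2) ^ j = (cm ^ N)⁻¹ * rD N (th k w) * cm ^ N := hj
    have h3 : rD N (th k w) = cm ^ N * of 0 ^ j * (cm ^ N)⁻¹ := by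
      rw [hj']; group
    have h4 : j = (expo 0 (rD 0 (th k w))).toAdd := by
      rw [← expo_rD N, h3]
      have h5 : expo (0 : Fin 2) (cm ^ N * (of 0 : F2) ^ j * (cm ^ N)⁻¹) =
          expo (0 : Fin 2) ((of 0 : F2) ^ j) := by
        rw [map_mul, map_mul, map_inv, mul_comm (expo 0 (cm ^ N)), mul_inv_cancel_right]
      rw [h5, expo_self]
    rw [rD_jD, ← h4]
    exact h3
  refine ⟨(expo 0 (rD 0 (th k w))).toAdd, ?_⟩
  rw [← mul_inv_eq_one]
  apply SG_res
  intro N
  rw [map_mul, map_inv, map_zpow, map_mul, map_inv, th_av_last, ← map_zpow, key N, mul_inv_cancel]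

lemma SG_TD : TD (SG (k + 2) 0) (fun N => (rD N).comp (th k)) (av k (k + 1)) (bv k (k + 1)) where
  res := fun y h => SG_res h
  conj := by
    intro y h1 h2
    refine SG_conj ?_ h2
    have h3 := congrArg (Abelianization.lift (eps k)) h1
    rw [Abelianization.lift_apply_of, Abelianization.lift_apply_of, eps_av_last] at h3
    exact h3
  rconj := by
    intro N
    show IsConj (rD N (th k (av k (k + 1)))) (of 0)
    rw [th_av_last, rD_jD]
    have h1 : IsConj (of 0 : F2) (cm ^ N * of 0 * (cm ^ N)⁻¹) := isConj_iff.2 ⟨cm ^ N, rfl⟩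
    exact h1.symm
  cent := SG_cent
  ra := by
    show rD 0 (th k (av k (k + 1))) = of 0
    rw [th_av_last, rD_jD]
    simp
  rb := by
    show rD 0 (th k (bv k (k + 1))) = of 1
    rw [th_bv_last, rD_jD]
    simp

/-- A presented group with commuting generators is commutative. -/
lemma presented_comm {α : Type} [DecidableEq α] (R : Set (FreeGroup α))
    (h : ∀ a b : α, (PresentedGroup.of a : PresentedGroup R) * PresentedGroup.of b =
      PresentedGroup.of b * PresentedGroup.of a) (u v : PresentedGroup R) : u * v = v * u := by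
  obtain ⟨u, rfl⟩ := PresentedGroup.mk_surjective _ u
  obtain ⟨v, rfl⟩ := PresentedGroup.mk_surjective _ v
  exact commute_of_gen (PresentedGroup.mk R) (fun j k => h j k) u v

lemma TG_SG_zero : TG (SG 0 0) := by
  apply TG_comm
  apply presented_comm
  rintro ((i | i) | j)
  · exact i.elim0
  · exact i.elim0
  · exact j.elim0

lemma TG_SG_one : TG (SG 1 0) := by
  apply TG_comm
  apply presented_comm
  have h0 : (PresentedGroup.mk ({srel 1 0} : Set (FreeGroup (SGen 1 0)))) (srel 1 0) = 1 :=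
    PresentedGroup.one_of_mem (Set.mem_singleton _)
  rw [map_srel, List.ofFn_zero, List.prod_nil, mul_one, List.ofFn_succ, List.ofFn_zero,
    List.prod_cons, List.prod_nil, mul_one, commutatorElement_eq_one_iff_mul_comm] at h0
  have h1 : (PresentedGroup.of (Sum.inl (Sum.inl 0)) : SG 1 0) *
      PresentedGroup.of (Sum.inl (Sum.inr 0)) =
      PresentedGroup.of (Sum.inl (Sum.inr 0)) * PresentedGroup.of (Sum.inl (Sum.inl 0)) := h0
  rintro ((i | i) | j) ((i' | i') | j')
  · rw [Subsingleton.elim i i']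
  · rw [Subsingleton.elim i 0, Subsingleton.elim i' 0]; exact h1
  · exact j'.elim0
  · rw [Subsingleton.elim i 0, Subsingleton.elim i' 0]; exact h1.symm
  · rw [Subsingleton.elim i i']
  · exact j'.elim0
  · exact j.elim0
  · exact j.elim0
  · exact j.elim0

theorem TG_SG (g p : ℕ) : TG (SG g p) := by
  cases p with
  | succ q => exact TG_punct g q
  | zero =>
    match g with
    | 0 => exact TG_SG_zero
    | 1 => exact TG_SG_one
    | k + 2 => exact SG_TD.tg

lemma expo_srel (g : ℕ) (c : SGen g 0) : expo c (srel g 0) = 1 := by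
  rw [map_srel, List.ofFn_zero, List.prod_nil, mul_one]
  apply List.prod_eq_one
  intro x hx
  rw [List.mem_ofFn] at hx
  obtain ⟨i, rfl⟩ := hx
  rw [commutatorElement_eq_one_iff_mul_comm]
  exact mul_comm _ _

/-- The exponent sums on the closed surface group. -/
def expS (g : ℕ) (c : SGen g 0) : SG g 0 →* Multiplicative ℤ :=
  PresentedGroup.toGroup (f := fun d => expo c (of d)) (by
    intro r hr
    rw [Set.mem_singleton_iff] at hr
    subst hr
    have : FreeGroup.lift (fun d => expo c (of d)) = expo c := by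
      ext x; simp
    rw [this]
    exact expo_srel g c)

lemma expS_mk (g : ℕ) (c : SGen g 0) (w : FreeGroup (SGen g 0)) :
    expS g c (PresentedGroup.mk _ w) = expo c w := by
  have : (expS g c).comp (PresentedGroup.mk _) = expo c := by
    ext x
    show (expS g c (PresentedGroup.of x)) = _
    unfold expS
    rw [PresentedGroup.toGroup.of]
    rfl
  exact DFunLike.congr_fun this w

lemma AbQ_closed (g : ℕ) : AbQ (SG g 0) := by
  intro x hx
  obtain ⟨w, rfl⟩ := PresentedGroup.mk_surjective _ x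
  have h0 := congrArg (Abelianization.map (PresentedGroup.mk ({srel g 0} : Set _))) (ab_prod w)
  rw [Abelianization.map_of, map_prod] at h0
  rw [h0]
  apply Finset.prod_eq_one
  intro c _
  have h1 := hx ((Int.castAddHom ℚ).comp
    (AddMonoidHom.toMultiplicativeRight.symm (expS g c) : Additive (SG g 0) →+ ℤ))
  have h2 : ((expS g c (PresentedGroup.mk _ w)).toAdd : ℚ) = 0 := h1
  have h3 : (expS g c (PresentedGroup.mk _ w)).toAdd = 0 := by exact_mod_cast h2
  rw [expS_mk] at h3
  rw [h3, zpow_zero, map_one]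

theorem AbQ_SG (g p : ℕ) : AbQ (SG g p) := by
  cases p with
  | succ q => exact AbQ_punct g q
  | zero => exact AbQ_closed g

end closed

end Pool.Agent.Helper460_OutF
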