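import Pool.Agent.Helper460_OutF.B1

set_option autoImplicit false
set_option linter.unusedSectionVars false
set_option linter.unusedSimpArgs false

namespace Pool.Agent.Helper460_OutF

lemma NoTri.of_injective {J H H' : Type} [Group H] [Group H'] (f : H →* H')
    (hf : Function.Injective f) (h : NoTri J H') : NoTri J H := by
  intro rk g k hc
  obtain ⟨i, hi⟩ := h rk (fun j => f (g j)) (fun j => f (k j)) (by
    intro i j hij hrk
    rw [← map_mul, hc i j hij hrk, map_mul])
  exact ⟨i, hf (by rw [map_mul, map_mul]; exact hi)⟩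

lemma NoTriFam.of_injective {r : ℕ} {H H' : Type} [Group H] [Group H'] (f : H →* H')
    (hf : Function.Injective f) (h : NoTriFam r H') : NoTriFam r H :=
  fun J _ hJ => (h J hJ).of_injective f hf

/-- The general linear group of a small vector space. -/
lemma noTriFam_GLV {K V : Type} [Field K] [AddCommGroup V] [Module K V] [FiniteDimensional K V]
    {n : ℕ} (h4 : 4 ≤ n) (hV : Module.finrank K V + 2 ≤ n) :
    NoTriFam (2 * n - 4) (V ≃ₗ[K] V) := by
  let b := Module.finBasis K V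
  let e : (V ≃ₗ[K] V) ≃* (Matrix (Fin (Module.finrank K V)) (Fin (Module.finrank K V)) K)ˣ :=
    (LinearMap.GeneralLinearGroup.generalLinearEquiv K V).symm.trans
      (Units.mapEquiv (LinearMap.toMatrixAlgEquiv b).toMulEquiv)
  intro J _ hJ
  refine NoTri.of_injective e.toMonoidHom e.injective ?_
  apply noTri_GL
  · rw [Fintype.card_fin]; omega
  · have : 0 < Nat.card J := by omega
    exact (Nat.card_pos_iff.1 this).1

/-- Permutation groups of small sets. -/
lemma noTriFam_perm {X : Type} [Finite X] {n : ℕ} (h4 : 4 ≤ n) (hX : Nat.card X + 1 ≤ n) :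
    NoTriFam (2 * n - 4) (Equiv.Perm X) := by
  classical
  have _inst := Fintype.ofFinite X
  let s : (X → ℚ) →ₗ[ℚ] ℚ := ∑ x, LinearMap.proj x
  have hs : ∀ f : X → ℚ, s f = ∑ x, f x := fun f => by simp [s]
  let V := LinearMap.ker s
  have hfin : Module.finrank ℚ V + 2 ≤ n := by
    have h1 := LinearMap.finrank_range_add_finrank_ker s
    rw [Module.finrank_fintype_fun_eq_card, ← Nat.card_eq_fintype_card] at h1
    rcases isEmpty_or_nonempty X with hE | ⟨⟨x0⟩⟩
    · have : Nat.card X = 0 := Nat.card_of_isEmpty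
      show Module.finrank ℚ (LinearMap.ker s) + 2 ≤ n
      omega
    · have h2 : LinearMap.range s = ⊤ := by
        rw [LinearMap.range_eq_top]
        intro r
        refine ⟨Pi.single x0 r, ?_⟩
        rw [hs]
        simp
      rw [h2, finrank_top, Module.finrank_self] at h1
      show Module.finrank ℚ (LinearMap.ker s) + 2 ≤ n
      omega
  let act : Equiv.Perm X → V →ₗ[ℚ] V := fun σ =>
    { toFun := fun f => ⟨fun x => (f : X → ℚ) (σ⁻¹ x), by
        show s _ = 0
        rw [hs, Equiv.sum_comp σ⁻¹ (f : X → ℚ), ← hs]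
        exact f.2⟩
      map_add' := fun f g => rfl
      map_smul' := fun c f => rfl }
  have hmul : ∀ σ τ f, act (σ * τ) f = act σ (act τ f) := fun σ τ f => rfl
  have hone : ∀ f, act 1 f = f := fun f => rfl
  let e : Equiv.Perm X →* (V ≃ₗ[ℚ] V) :=
    { toFun := fun σ => LinearEquiv.ofLinearMap (act σ) (act σ⁻¹)
        (by ext1 f; show act σ (act σ⁻¹ f) = f; rw [← hmul, mul_inv_cancel, hone])
        (by ext1 f; show act σ⁻¹ (act σ f) = f; rw [← hmul, inv_mul_cancel, hone])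
      map_one' := by ext1 f; rfl
      map_mul' := fun σ τ => by ext1 f; rfl }
  refine NoTriFam.of_injective e ?_ (noTriFam_GLV h4 hfin)
  rw [injective_iff_map_eq_one]
  intro σ hσ
  ext x
  rw [Equiv.Perm.one_apply]
  by_contra hne
  let f : V := ⟨Pi.single x 1 - Pi.single (σ x) 1, by
    show s _ = 0
    rw [hs]
    simp⟩
  have h1 : e σ f = f := by rw [hσ]; rfl
  have h2 := congrFun (congrArg Subtype.val h1) (σ x)
  have h3 : (f : X → ℚ) (σ⁻¹ (σ x)) = (f : X → ℚ) (σ x) := h2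
  rw [show σ⁻¹ (σ x) = x from σ.symm_apply_apply x] at h3
  have h4' : (f : X → ℚ) x = 1 := by
    show (Pi.single x 1 - Pi.single (σ x) 1 : X → ℚ) x = 1
    rw [Pi.sub_apply, Pi.single_eq_same, Pi.single_eq_of_ne (Ne.symm hne), sub_zero]
  have h5 : (f : X → ℚ) (σ x) = -1 := by
    show (Pi.single x 1 - Pi.single (σ x) 1 : X → ℚ) (σ x) = -1
    rw [Pi.sub_apply, Pi.single_eq_same, Pi.single_eq_of_ne hne, zero_sub]
  rw [h4', h5] at h3
  norm_num at h3

section

variable {ι : Type} [DecidableEq ι] [Fintype ι]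

lemma N1_mul_le {M M' : ℕ} (hM : 0 < M) (hM' : 0 < M') : N1 ι (M * M') ≤ N1 ι M := by
  have h := N1_step (ι := ι) hM
  apply N1_le
  exact ⟨Nat.mul_pos hM hM', h.inn, h.cck, fun i j hij => by
    rw [pow_mul]; exact Subgroup.pow_mem _ (h.rrp i j hij) _⟩

lemma N1_dvd_le {M M' : ℕ} (hM' : 0 < M') (h : M ∣ M') : N1 ι M' ≤ N1 ι M := by
  obtain ⟨k, rfl⟩ := h
  exact N1_mul_le (Nat.pos_of_mul_pos_right hM') (Nat.pos_of_mul_pos_left hM')

/-- Kernels of homomorphisms to groups without triangular families contain some `N₁(M)`. -/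
lemma exists_N1 (h4 : 4 ≤ Fintype.card ι) {Γ : Subgroup (MulAut (FreeGroup ι))}
    [hN : Γ.Normal] [hfi : Γ.FiniteIndex] (hIA : IA (FreeGroup ι) ≤ Γ) {H : Type} [Group H]
    (ρ : Γ →* H) (hinn : ∀ g (h : MulAut.conj g ∈ Γ), ρ ⟨MulAut.conj g, h⟩ = 1)
    (hH : NoTriFam (2 * Fintype.card ι - 4) H) :
    ∃ M, 0 < M ∧ N1 ι M ≤ kerA Γ ρ := by
  obtain ⟨M, hM⟩ := step_of_noTri h4 hIA ρ hinn hH
  have hNn : ((kerA Γ ρ).normalCore).Normal := Subgroup.normalCore_normal _
  exact ⟨M, hM.pos, (N1_le hM).trans (Subgroup.normalCore_le _)⟩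

/-- Finitely many kernels at once. -/
lemma exists_N1_finite (h4 : 4 ≤ Fintype.card ι) {Γ : Subgroup (MulAut (FreeGroup ι))}
    [hN : Γ.Normal] [hfi : Γ.FiniteIndex] (hIA : IA (FreeGroup ι) ≤ Γ) {T : Type} [Finite T]
    {H : T → Type} [∀ t, Group (H t)]
    (ρ : ∀ t, Γ →* H t) (hinn : ∀ t g (h : MulAut.conj g ∈ Γ), ρ t ⟨MulAut.conj g, h⟩ = 1)
    (hH : ∀ t, NoTriFam (2 * Fintype.card ι - 4) (H t)) :
    ∃ M, 0 < M ∧ ∀ t, N1 ι M ≤ kerA Γ (ρ t) := by
  classical
  have _inst := Fintype.ofFinite T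
  choose M hM hM2 using fun t => exists_N1 h4 hIA (ρ t) (hinn t) (hH t)
  refine ⟨∏ t, M t, Finset.prod_pos fun t _ => hM t, fun t => ?_⟩
  exact (N1_dvd_le (Finset.prod_pos fun t _ => hM t)
    (Finset.dvd_prod_of_mem M (Finset.mem_univ t))).trans (hM2 t)

end

end Pool.Agent.Helper460_OutF
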