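import Pool.Agent.Helper460_OutF.Cube
import Pool.Agent.Helper460_OutF.Fam

set_option autoImplicit false
set_option linter.unusedSectionVars false
set_option linter.unusedSimpArgs false

namespace Pool.Agent.Helper460_OutF

open Module Module.End
open scoped commutatorElement

/-- A group has no torsion poison families of size at least `r`. -/
def NoCube (r : ℕ) (H : Type) [Group H] : Prop :=
  ∀ (J : Type) [Finite J], r ≤ Nat.card J → ∀ (a b : H) (u v : J → H),
    (∀ c, a * u c = u c * a) → (∀ c, b * u c = u c * b) → (∀ c d, u c * u d = u d * u c) →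
    (∀ c d, c ≠ d → u c * v d = v d * u c) → (∀ c, (v c)⁻¹ * u c * v c = ⁅a, b⁆ * u c) →
    IsOfFinOrder ⁅a, b⁆ → ⁅a, b⁆ = 1

lemma NoCube.of_injective {r : ℕ} {H H' : Type} [Group H] [Group H'] (f : H →* H')
    (hf : Function.Injective f) (h : NoCube r H') : NoCube r H := by
  intro J _ hJ a b u v h1 h2 h3 h4 h5 h6
  apply hf
  rw [map_commutatorElement, map_one]
  refine h J hJ (f a) (f b) (fun c => f (u c)) (fun c => f (v c)) ?_ ?_ ?_ ?_ ?_ ?_
  · intro c; rw [← map_mul, h1, map_mul]
  · intro c; rw [← map_mul, h2, map_mul]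
  · intro c d; rw [← map_mul, h3, map_mul]
  · intro c d hcd; rw [← map_mul, h4 c d hcd, map_mul]
  · intro c; rw [← map_inv, ← map_mul, ← map_mul, h5, map_mul, map_commutatorElement]
  · rw [← map_commutatorElement]
    exact MonoidHom.isOfFinOrder f h6

theorem noCube_units {K V : Type} [Field K] [IsAlgClosed K] [CharZero K] [AddCommGroup V]
    [Module K V] [FiniteDimensional K V] {r : ℕ} (hV : finrank K V < 2 ^ (r + 1)) :
    NoCube r (End K V)ˣ := by
  classical
  intro J _ hJ a b u v h1 h2 h3 h4 h5 h6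
  have _inst := Fintype.ofFinite J
  by_contra hne
  obtain ⟨Z, hZ⟩ : ∃ Z : (End K V)ˣ, Z = ⁅a, b⁆ := ⟨_, rfl⟩
  rw [← hZ] at hne h6
  obtain ⟨m, hm, hZm⟩ := isOfFinOrder_iff_pow_eq_one.1 h6
  -- a nontrivial eigenvector
  let W : Submodule K V := LinearMap.range ((Z : End K V) - 1)
  have hW : W ≠ ⊥ := by
    intro h0
    apply hne
    ext1
    rw [LinearMap.range_eq_bot, sub_eq_zero] at h0
    exact h0
  have hcomm : ∀ y, (Z : End K V) (((Z : End K V) - 1) y) = ((Z : End K V) - 1) ((Z : End K V) y) := by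
    intro y
    simp [LinearMap.sub_apply]
  obtain ⟨x, hx, hx0, ζ, hζ⟩ := exists_eig hW (Z : End K V) (by
    rintro _ ⟨y, rfl⟩
    exact ⟨(Z : End K V) y, (hcomm y).symm⟩)
  have hζ1 : ζ ≠ 1 := by
    rintro rfl
    obtain ⟨y, rfl⟩ := hx
    rw [one_smul] at hζ
    have hy : (Z : End K V) y = y + ((Z : End K V) - 1) y := by
      rw [LinearMap.sub_apply, Module.End.one_apply]; abel
    have hpow : ∀ k : ℕ, ((Z : End K V) ^ k) y = y + (k : K) • ((Z : End K V) - 1) y := by
      intro k
      induction k with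
      | zero => simp
      | succ k ih =>
        rw [pow_succ', Module.End.mul_apply, ih, map_add, map_smul, hζ]
        push_cast
        rw [add_smul, one_smul]
        nth_rewrite 1 [hy]
        abel
    have h7 := hpow m
    have h8 : (Z : End K V) ^ m = 1 := by
      rw [← Units.val_pow_eq_pow_val, hZm]; rfl
    rw [h8, Module.End.one_apply] at h7
    have h9 : (m : K) • ((Z : End K V) - 1) y = 0 := by
      have := congrArg (fun w => w - y) h7
      simpa using this.symm
    rcases smul_eq_zero.1 h9 with h | h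
    · exact hm.ne' (by exact_mod_cast h)
    · exact hx0 h
  have hall : ∀ f : (End K V)ˣ, InvU (⊤ : Submodule K V) f := fun f =>
    ⟨fun _ _ => trivial, fun _ _ => trivial⟩
  have key := cube a b u v h1 h2 h4 h3 h5 Finset.univ ⊤ (hall _) (hall _) (fun c _ => hall _)
    (fun c _ => hall _) ⟨x, trivial, hx0, ζ, hζ1, by rw [← hZ]; exact hζ⟩
  rw [finrank_top, Finset.card_univ, ← Nat.card_eq_fintype_card] at key
  have : 2 ^ (r + 1) ≤ 2 ^ (Nat.card J + 1) := Nat.pow_le_pow_right (by norm_num) (by omega)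
  omega

theorem noCube_matrix {n : Type} [Fintype n] [DecidableEq n] {r : ℕ}
    (hn : Fintype.card n < 2 ^ (r + 1)) : NoCube r (Matrix n n ℚ)ˣ := by
  let L := AlgebraicClosure ℚ
  let i : ℚ →+* L := algebraMap ℚ L
  let e : (Matrix n n L)ˣ ≃* (End L (n → L))ˣ :=
    Units.mapEquiv (Matrix.toLinAlgEquiv' (R := L) (n := n)).toMulEquiv
  have h1 : NoCube r (Matrix n n L)ˣ := by
    apply NoCube.of_injective e.toMonoidHom e.injective
    apply noCube_units
    rw [Module.finrank_fintype_fun_eq_card]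
    exact hn
  apply NoCube.of_injective (Units.map (i.mapMatrix : Matrix n n ℚ →+* Matrix n n L).toMonoidHom) ?_ h1
  apply Units.map_injective
  intro A B hAB
  ext a b
  have := congrFun (congrFun hAB a) b
  exact i.injective this

lemma noCube_GLV {V : Type} [AddCommGroup V] [Module ℚ V] [FiniteDimensional ℚ V]
    {r : ℕ} (hV : Module.finrank ℚ V < 2 ^ (r + 1)) : NoCube r (V ≃ₗ[ℚ] V) := by
  let b := Module.finBasis ℚ V
  let e : (V ≃ₗ[ℚ] V) ≃* (Matrix (Fin (Module.finrank ℚ V)) (Fin (Module.finrank ℚ V)) ℚ)ˣ :=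
    (LinearMap.GeneralLinearGroup.generalLinearEquiv ℚ V).symm.trans
      (Units.mapEquiv (LinearMap.toMatrixAlgEquiv b).toMulEquiv)
  refine NoCube.of_injective e.toMonoidHom e.injective (noCube_matrix ?_)
  rwa [Fintype.card_fin]

/-- Permutation groups of small sets. -/
lemma noCube_perm {X : Type} [Finite X] {r : ℕ} (hX : Nat.card X ≤ 2 ^ (r + 1)) :
    NoCube r (Equiv.Perm X) := by
  classical
  have _inst := Fintype.ofFinite X
  let s : (X → ℚ) →ₗ[ℚ] ℚ := ∑ x, LinearMap.proj x
  have hs : ∀ f : X → ℚ, s f = ∑ x, f x := fun f => by simp [s]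
  let V := LinearMap.ker s
  have hfin : Module.finrank ℚ V < 2 ^ (r + 1) := by
    have h1 := LinearMap.finrank_range_add_finrank_ker s
    rw [Module.finrank_fintype_fun_eq_card, ← Nat.card_eq_fintype_card] at h1
    have hp : 0 < 2 ^ (r + 1) := by positivity
    rcases isEmpty_or_nonempty X with hE | ⟨⟨x0⟩⟩
    · have : Nat.card X = 0 := Nat.card_of_isEmpty
      show Module.finrank ℚ (LinearMap.ker s) < _
      omega
    · have h2 : LinearMap.range s = ⊤ := by
        rw [LinearMap.range_eq_top]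
        intro r
        refine ⟨Pi.single x0 r, ?_⟩
        rw [hs]
        simp
      rw [h2, finrank_top, Module.finrank_self] at h1
      show Module.finrank ℚ (LinearMap.ker s) < _
      omega
  let act : Equiv.Perm X → V →ₗ[ℚ] V := fun σ =>
    { toFun := fun f => ⟨fun x => (f : X → ℚ) (σ⁻¹ x), by
        show s _ = 0
        rw [hs, Equiv.sum_comp σ⁻¹ (f : X → ℚ), ← hs]
        exact f.2⟩
      map_add' := fun f g => rfl
      map_smul' := fun c f => rfl }
  have hmul : ∀ σ τ f, act (σ * τ) f = act σ (act τ f) := fun σ τ f => rfl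
  have hone : ∀ f, act 1 f = f := fun f => rfl
  let e : Equiv.Perm X →* (V ≃ₗ[ℚ] V) :=
    { toFun := fun σ => LinearEquiv.ofLinearMap (act σ) (act σ⁻¹)
        (by ext1 f; show act σ (act σ⁻¹ f) = f; rw [← hmul, mul_inv_cancel, hone])
        (by ext1 f; show act σ⁻¹ (act σ f) = f; rw [← hmul, inv_mul_cancel, hone])
      map_one' := by ext1 f; rfl
      map_mul' := fun σ τ => by ext1 f; rfl }
  refine NoCube.of_injective e ?_ (noCube_GLV hfin)
  rw [injective_iff_map_eq_one]
  intro σ hσ
  ext x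
  rw [Equiv.Perm.one_apply]
  by_contra hne
  let f : V := ⟨Pi.single x 1 - Pi.single (σ x) 1, by
    show s _ = 0
    rw [hs]
    simp⟩
  have h1 : e σ f = f := by rw [hσ]; rfl
  have h2 := congrFun (congrArg Subtype.val h1) (σ x)
  have h3 : (f : X → ℚ) (σ⁻¹ (σ x)) = (f : X → ℚ) (σ x) := h2
  rw [show σ⁻¹ (σ x) = x from σ.symm_apply_apply x] at h3
  have h4' : (f : X → ℚ) x = 1 := by
    show (Pi.single x 1 - Pi.single (σ x) 1 : X → ℚ) x = 1
    rw [Pi.sub_apply, Pi.single_eq_same, Pi.single_eq_of_ne (Ne.symm hne), sub_zero]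
  have h5 : (f : X → ℚ) (σ x) = -1 := by
    show (Pi.single x 1 - Pi.single (σ x) 1 : X → ℚ) (σ x) = -1
    rw [Pi.sub_apply, Pi.single_eq_same, Pi.single_eq_of_ne hne, zero_sub]
  rw [h4', h5] at h3
  norm_num at h3

end Pool.Agent.Helper460_OutF
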