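import Pool.Agent.Helper460_OutF.Syl

set_option autoImplicit false
set_option linter.unusedSectionVars false
set_option linter.unusedSimpArgs false

namespace Pool.Agent.Helper460_OutF

open FreeGroup (of)
open Polynomial

section cyc

variable {κ : Type} [DecidableEq κ]

/-- The step matrices of a labelled cycle. -/
def Nc {s : ℕ} [NeZero s] (f : ZMod s → κ) (c : κ) : Matrix (ZMod s) (ZMod s) ℤ :=
  Matrix.of fun p q => if q = p + 1 ∧ f p = c then 1 else 0

lemma Nc_sq {s : ℕ} [NeZero s] (f : ZMod s → κ) (hf : ∀ p, f p ≠ f (p + 1)) (c : κ) :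
    Nc f c * Nc f c = 0 := by
  ext p r
  rw [Matrix.mul_apply, Matrix.zero_apply]
  refine Finset.sum_eq_zero fun q _ => ?_
  simp only [Nc, Matrix.of_apply]
  by_cases h1 : q = p + 1 ∧ f p = c
  · by_cases h2 : r = q + 1 ∧ f q = c
    · exfalso
      apply hf p
      rw [h1.2, ← h1.1, h2.2]
    · rw [if_neg h2, mul_zero]
  · rw [if_neg h1, zero_mul]

lemma Nc_nonneg {s : ℕ} [NeZero s] (f : ZMod s → κ) (c : κ) (p q : ZMod s) : 0 ≤ Nc f c p q := by
  simp only [Nc, Matrix.of_apply]
  split_ifs <;> norm_num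

lemma prod_nonneg {s : ℕ} [NeZero s] (f : ZMod s → κ) (L : List (κ × ℤ)) (p q : ZMod s) :
    0 ≤ (L.map fun x => Nc f x.1).prod p q := by
  induction L generalizing p with
  | nil =>
    rw [List.map_nil, List.prod_nil, Matrix.one_apply]
    split_ifs <;> norm_num
  | cons x L ih =>
    rw [List.map_cons, List.prod_cons, Matrix.mul_apply]
    exact Finset.sum_nonneg fun r _ => mul_nonneg (Nc_nonneg _ _ _ _) (ih r)

lemma path_pos {s : ℕ} [NeZero s] (L : List (κ × ℤ)) (hs : L.length = s) (f : ZMod s → κ)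
    (hf : ∀ (m : ℕ) (hm : m < L.length), f (m : ZMod s) = (L[m]).1) (m : ℕ) (hm : m ≤ s) :
    1 ≤ ((L.take m).map fun x => Nc f x.1).prod 0 (m : ZMod s) := by
  induction m with
  | zero => simp
  | succ m ih =>
    have hm' : m < L.length := by omega
    have ih' := ih (by omega)
    rw [List.take_succ_eq_append_getElem hm', List.map_append, List.prod_append, Matrix.mul_apply]
    have hterm : 1 ≤ ((L.take m).map fun x => Nc f x.1).prod 0 (m : ZMod s) *
        (List.map (fun x => Nc f x.1) [L[m]]).prod (m : ZMod s) ((m + 1 : ℕ) : ZMod s) := by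
      have e : (List.map (fun x => Nc f x.1) [L[m]]).prod (m : ZMod s) ((m + 1 : ℕ) : ZMod s) =
          1 := by
        simp only [List.map_cons, List.map_nil, List.prod_cons, List.prod_nil, mul_one]
        simp only [Nc, Matrix.of_apply]
        rw [if_pos]
        exact ⟨by push_cast; rfl, hf m hm'⟩
      rw [e, mul_one]
      exact ih'
    refine hterm.trans ?_
    have hx := Finset.single_le_sum (f := fun q =>
      ((L.take m).map fun x => Nc f x.1).prod 0 q *
        (List.map (fun x => Nc f x.1) [L[m]]).prod q ((m + 1 : ℕ) : ZMod s))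
      (fun q _ => mul_nonneg (prod_nonneg f _ _ _) (prod_nonneg f _ _ _))
      (Finset.mem_univ (m : ZMod s))
    exact hx

lemma trace_pos {s : ℕ} [NeZero s] (L : List (κ × ℤ)) (hs : L.length = s) (f : ZMod s → κ)
    (hf : ∀ (m : ℕ) (hm : m < L.length), f (m : ZMod s) = (L[m]).1) :
    1 ≤ ((L.map fun x => Nc f x.1).prod).trace := by
  have h1 := path_pos L hs f hf s le_rfl
  rw [ZMod.natCast_self, List.take_of_length_le (by omega)] at h1
  refine h1.trans ?_
  have h2 := Finset.single_le_sum (s := Finset.univ)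
    (f := fun q : ZMod s => (L.map fun x => Nc f x.1).prod q q)
    (fun q _ => prod_nonneg f L q q) (Finset.mem_univ (0 : ZMod s))
  exact h2

lemma rep1_lp {n : Type} [Fintype n] [DecidableEq n] (N : κ → Matrix n n ℤ)
    (hN : ∀ c, N c * N c = 0) (L : List (κ × ℤ)) :
    (rep1 N hN (lp L) : (Matrix n n ℤ)[X]) =
      (L.map fun p => (1 + C (p.2 • N p.1) * X : (Matrix n n ℤ)[X])).prod := by
  induction L with
  | nil => simp
  | cons p L ih => rw [lp_cons, map_mul, Units.val_mul, rep1_pow, ih, List.map_cons, List.prod_cons]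

lemma natDegree_lin {n : Type} [Fintype n] [DecidableEq n] (A : Matrix n n ℤ) :
    (1 + C A * X : (Matrix n n ℤ)[X]).natDegree ≤ 1 := by
  refine (Polynomial.natDegree_add_le _ _).trans ?_
  rw [Polynomial.natDegree_one]
  exact max_le (by norm_num) (Polynomial.natDegree_C_mul_X_pow_le A 1 |> fun h => by
    rwa [pow_one] at h)

lemma coeff_lin {n : Type} [Fintype n] [DecidableEq n] (A : Matrix n n ℤ) :
    (1 + C A * X : (Matrix n n ℤ)[X]).coeff 1 = A := by
  rw [Polynomial.coeff_add, Polynomial.coeff_C_mul_X]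
  simp [Polynomial.coeff_one]

lemma prod_smul {n : Type} [Fintype n] [DecidableEq n] (N : κ → Matrix n n ℤ)
    (L : List (κ × ℤ)) :
    (L.map fun p => p.2 • N p.1).prod =
      (L.map fun p => p.2).prod • (L.map fun p => N p.1).prod := by
  induction L with
  | nil => simp
  | cons p L ih =>
    rw [List.map_cons, List.prod_cons, ih, List.map_cons, List.prod_cons, List.map_cons,
      List.prod_cons, smul_mul_smul_comm]

lemma Tc_lp {n : Type} [Fintype n] [DecidableEq n] (N : κ → Matrix n n ℤ)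
    (hN : ∀ c, N c * N c = 0) (L : List (κ × ℤ)) (s : ℕ) (hs : s = L.length) :
    Tc s (rep1 N hN (lp L) : (Matrix n n ℤ)[X]) =
      (L.map fun p => p.2).prod * ((L.map fun p => N p.1).prod).trace := by
  subst hs
  unfold Tc
  rw [rep1_lp]
  have := Polynomial.coeff_list_prod_of_natDegree_le
    (L.map fun p => (1 + C (p.2 • N p.1) * X : (Matrix n n ℤ)[X])) 1 (by
      intro q hq
      rw [List.mem_map] at hq
      obtain ⟨p, -, rfl⟩ := hq
      exact natDegree_lin _)
  rw [List.length_map, mul_one, List.map_map] at this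
  rw [this]
  have e : (List.map ((fun p : (Matrix n n ℤ)[X] => p.coeff 1) ∘
      fun p : κ × ℤ => (1 + C (p.2 • N p.1) * X : (Matrix n n ℤ)[X])) L) =
      L.map fun p => p.2 • N p.1 := by
    apply List.map_congr_left
    intro p _
    exact coeff_lin _
  rw [e, prod_smul, Matrix.trace_smul, smul_eq_mul]

/-- A class function of finite degree vanishing on `1` and on the basis but not on a given
cyclically reduced word with at least two syllables. -/
theorem exists_theta (p q : κ × ℤ) (M : List (κ × ℤ)) (hnf : NF (p :: (M ++ [q])))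
    (hqp : q.1 ≠ p.1) :
    ∃ (j : ℕ) (θ : FreeGroup κ → ℤ), IsClass θ ∧ Pd j θ ∧ θ 1 = 0 ∧ (∀ c, θ (of c) = 0) ∧
      θ (lp (p :: (M ++ [q]))) ≠ 0 := by
  obtain ⟨L, hL⟩ : ∃ L, L = p :: (M ++ [q]) := ⟨_, rfl⟩
  rw [← hL] at hnf ⊢
  obtain ⟨s, hs⟩ : ∃ s, s = L.length := ⟨_, rfl⟩
  have hs2 : 2 ≤ s := by rw [hs, hL]; simp
  have : NeZero s := ⟨by omega⟩
  have hLlast : ∀ h : s - 1 < L.length, (L[s - 1]) = q := by
    intro h
    have : L = (p :: M) ++ [q] := by rw [hL]; rfl
    have hlen : s - 1 = (p :: M).length := by rw [hs, this]; simp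
    simp only [this, hlen]
    simp
  have hLfirst : ∀ h : 0 < L.length, (L[0]) = p := by
    intro h
    simp [hL]
  let f : ZMod s → κ := fun x => (L[x.val]'(hs ▸ ZMod.val_lt x)).1
  have hf : ∀ (m : ℕ) (hm : m < L.length), f (m : ZMod s) = (L[m]).1 := by
    intro m hm
    have hv : (m : ZMod s).val = m := ZMod.val_natCast_of_lt (hs ▸ hm)
    simp only [f, hv]
  have hne : ∀ x, f x ≠ f (x + 1) := by
    intro x
    have hx : ((x.val : ℕ) : ZMod s) = x := ZMod.natCast_zmod_val x
    have hxl : x.val < s := ZMod.val_lt x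
    by_cases hlast : x.val + 1 < s
    · have e1 : f x = (L[x.val]'(hs ▸ hxl)).1 := rfl
      have e2 : f (x + 1) = (L[x.val + 1]'(hs ▸ hlast)).1 := by
        have := hf (x.val + 1) (hs ▸ hlast)
        rw [← this]
        push_cast
        rw [hx]
      rw [e1, e2]
      exact (List.isChain_iff_getElem.1 hnf.1) x.val (by omega)
    · have hxv : x.val = s - 1 := by omega
      have e1 : f x = q.1 := by
        have : f x = (L[s - 1]'(by omega)).1 := by
          simp only [f, hxv]
        rw [this, hLlast]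
      have e2 : f (x + 1) = p.1 := by
        have hx1 : x + 1 = ((0 : ℕ) : ZMod s) := by
          rw [← hx, hxv]
          have : ((s - 1 : ℕ) : ZMod s) + 1 = ((s - 1 + 1 : ℕ) : ZMod s) := by push_cast; rfl
          rw [this, Nat.sub_add_cancel (by omega)]
          simp
        rw [hx1, hf 0 (by omega), hLfirst]
      rw [e1, e2]
      exact hqp
  refine ⟨s + 1, fun g => Tc s (rep1 (Nc f) (Nc_sq f hne) g : (Matrix (ZMod s) (ZMod s) ℤ)[X]),
    class_Tc _ _ _, ?_, ?_, ?_, ?_⟩
  · refine Pd_congr ?_ (Pd_Tc (Nc f) (Nc_sq f hne) s 1)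
    intro x; rw [one_mul]
  · show Tc s _ = 0
    unfold Tc
    rw [map_one, Units.val_one, Polynomial.coeff_one, if_neg (by omega), Matrix.trace_zero]
  · intro c
    show Tc s _ = 0
    unfold Tc
    rw [rep1_of, Polynomial.coeff_add, Polynomial.coeff_one, if_neg (by omega),
      Polynomial.coeff_C_mul_X, if_neg (by omega), add_zero, Matrix.trace_zero]
  · show Tc s _ ≠ 0
    have h1 := Tc_lp (Nc f) (Nc_sq f hne) L s hs
    rw [h1]
    have h2 := trace_pos L hs.symm f hf
    have h3 : (L.map fun p => p.2).prod ≠ 0 := by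
      apply List.prod_ne_zero
      intro h0
      rw [List.mem_map] at h0
      obtain ⟨r, hr, hr0⟩ := h0
      exact hnf.2 r hr hr0
    exact mul_ne_zero h3 (by omega)

/-- The exponent sum homomorphism. -/
def expo (c : κ) : FreeGroup κ →* Multiplicative ℤ :=
  FreeGroup.lift (fun d => if d = c then Multiplicative.ofAdd 1 else 1)

lemma expo_self (c : κ) (a : ℤ) : (expo c (of c ^ a)).toAdd = a := by
  rw [map_zpow]
  simp [expo]

lemma expo_ne {c d : κ} (h : d ≠ c) (a : ℤ) : (expo c (of d ^ a)).toAdd = 0 := by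
  rw [map_zpow]
  simp [expo, h]

lemma expo_class (c : κ) : IsClass (fun g => (expo c g).toAdd) := by
  intro g x
  show (expo c (g * x * g⁻¹)).toAdd = (expo c x).toAdd
  congr 1
  rw [map_mul, map_mul, map_inv, mul_comm (expo c g), mul_inv_cancel_right]

lemma expo_Pd (c : κ) : Pd 2 (fun g => (expo c g).toAdd) := by
  intro g h x
  show (expo c (x * h * g)).toAdd - (expo c (x * h)).toAdd -
    ((expo c (x * g)).toAdd - (expo c x).toAdd) = 0
  simp only [map_mul, toAdd_mul]
  ring

/-- Class functions of finite degree separate nontrivial elements from the identity. -/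
theorem exists_sep (g : FreeGroup κ) (hg : g ≠ 1) :
    ∃ (j : ℕ) (θ : FreeGroup κ → ℤ), Pd j θ ∧ θ g ≠ θ 1 := by
  obtain ⟨L, hL, rfl⟩ := exists_nf g
  obtain ⟨L', h1, h2, h3⟩ := exists_cyc L hL
  have hclass : ∀ θ : FreeGroup κ → ℤ, IsClass θ → θ (lp L) = θ (lp L') := by
    intro θ hθ
    obtain ⟨c, hc⟩ := isConj_iff.1 h1
    rw [← hc, hθ]
  rcases h3 with rfl | ⟨c, a, ha, rfl⟩ | ⟨p, q, M, rfl, hqp⟩
  · exfalso
    apply hg
    rw [lp_nil] at h1
    exact isConj_one_left.1 h1
  · refine ⟨2, _, expo_Pd c, ?_⟩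
    have e : (expo c (lp L)).toAdd = (expo c (lp [(c, a)])).toAdd := hclass _ (expo_class c)
    rw [e, lp_cons, lp_nil, mul_one, expo_self, map_one]
    exact ha
  · obtain ⟨j, θ, k1, k2, k3, k4, k5⟩ := exists_theta p q M h2 hqp
    refine ⟨j, θ, k2, ?_⟩
    rw [hclass θ k1, k3]
    exact k5

/-- An element with the same values of class functions of finite degree as a basis element is
conjugate to it. -/
theorem conj_of_class (g : FreeGroup κ) (c : κ)
    (h : ∀ (j : ℕ) (θ : FreeGroup κ → ℤ), IsClass θ → Pd j θ → θ g = θ (of c)) :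
    IsConj g (of c) := by
  obtain ⟨L, hL, rfl⟩ := exists_nf g
  obtain ⟨L', h1, h2, h3⟩ := exists_cyc L hL
  have hclass : ∀ θ : FreeGroup κ → ℤ, IsClass θ → θ (lp L) = θ (lp L') := by
    intro θ hθ
    obtain ⟨c, hc⟩ := isConj_iff.1 h1
    rw [← hc, hθ]
  have hexp : (expo c (lp L')).toAdd = 1 := by
    have h5 := h 2 _ (expo_class c) (expo_Pd c)
    have e : (expo c (lp L)).toAdd = (expo c (lp L')).toAdd := hclass _ (expo_class c)
    rw [← e]
    refine Eq.trans h5 ?_
    have := expo_self c 1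
    rwa [zpow_one] at this
  rcases h3 with rfl | ⟨d, a, ha, rfl⟩ | ⟨p, q, M, rfl, hqp⟩
  · rw [lp_nil, map_one] at hexp
    exact absurd hexp (by simp)
  · rw [lp_cons, lp_nil, mul_one] at hexp
    have hdc : d = c := by
      by_contra hdc
      rw [expo_ne hdc] at hexp
      omega
    subst hdc
    rw [expo_self] at hexp
    subst hexp
    simpa using h1
  · obtain ⟨j, θ, k1, k2, k3, k4, k5⟩ := exists_theta p q M h2 hqp
    have := h j θ k1 k2
    rw [hclass θ k1, k4] at this
    exact absurd this k5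

end cyc

end Pool.Agent.Helper460_OutF
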