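import Pool.Agent.Helper460_OutF.Defs

set_option autoImplicit false

/-! Definitions: orientation-preserving mapping class groups. -/

namespace Pool.Agent.Helper460_OutF

/-- The homomorphism to the rationals vanishes on the loops around the punctures. -/
def VanPunct {g p : ℕ} (f : Additive (SurfGrp g p) →+ ℚ) : Prop :=
  ∀ j : Fin p, f (Additive.ofMul (ploop g p j)) = 0

/-- The generator `a_i` or `b_i` of the surface group. -/
def sgen (g p : ℕ) (s : Fin g ⊕ Fin g) : SurfGrp g p :=
  (PresentedGroup.of (Sum.inl s) : PresentedGroup ({srel g p} : Set (FreeGroup (SGen g p))))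

/-- The intersection form `∑ i, f(a_i) k(b_i) - f(b_i) k(a_i)`. -/
def iform {g p : ℕ} (f k : Additive (SurfGrp g p) →+ ℚ) : ℚ :=
  ∑ i : Fin g, (f (Additive.ofMul (sgen g p (Sum.inl i))) *
      k (Additive.ofMul (sgen g p (Sum.inr i))) -
    f (Additive.ofMul (sgen g p (Sum.inr i))) * k (Additive.ofMul (sgen g p (Sum.inl i))))

/-- The pullback of a rational class by an automorphism. -/
def pull {g p : ℕ} (α : MulAut (SurfGrp g p)) (f : Additive (SurfGrp g p) →+ ℚ) :
    Additive (SurfGrp g p) →+ ℚ :=
  f.comp (MonoidHom.toAdditive (α : SurfGrp g p →* SurfGrp g p))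

/-- The automorphism preserves the intersection form on the classes vanishing on punctures. -/
def PresForm {g p : ℕ} (α : MulAut (SurfGrp g p)) : Prop :=
  ∀ f k : Additive (SurfGrp g p) →+ ℚ, VanPunct f → VanPunct k →
    iform (pull α f) (pull α k) = iform f k

lemma pull_mul {g p : ℕ} (α β : MulAut (SurfGrp g p)) (f : Additive (SurfGrp g p) →+ ℚ) :
    pull (α * β) f = pull β (pull α f) := rfl

lemma pull_one {g p : ℕ} (f : Additive (SurfGrp g p) →+ ℚ) :
    pull (1 : MulAut (SurfGrp g p)) f = f := rfl

lemma PresPeri.van {g p : ℕ} {α : MulAut (SurfGrp g p)} (hα : PresPeri α)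
    {f : Additive (SurfGrp g p) →+ ℚ} (hf : VanPunct f) : VanPunct (pull α f) := by
  intro j
  obtain ⟨k, hk⟩ := (hα (ploop g p j)).2 ⟨j, IsConj.refl _⟩
  obtain ⟨c, hc⟩ := isConj_iff.1 hk
  have h1 : f (Additive.ofMul (ploop g p k)) = f (Additive.ofMul (α (ploop g p j))) := by
    rw [← hc, ofMul_mul, ofMul_mul, ofMul_inv, map_add, map_add, map_neg]
    ring
  show f (Additive.ofMul (α (ploop g p j))) = 0
  rw [← h1]
  exact hf k

/-- The group of automorphisms preserving the set of peripheral elements and the intersection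
form. -/
def AutOr (g p : ℕ) : Subgroup (MulAut (SurfGrp g p)) where
  carrier := {α | PresPeri α ∧ PresForm α}
  mul_mem' := by
    rintro α β ⟨hα, hα'⟩ ⟨hβ, hβ'⟩
    refine ⟨hα.mul hβ, fun f k hf hk => ?_⟩
    rw [pull_mul, pull_mul, hβ' _ _ (hα.van hf) (hα.van hk), hα' f k hf hk]
  one_mem' := ⟨PresPeri.one, fun _ _ _ _ => rfl⟩
  inv_mem' := by
    rintro α ⟨hα, hα'⟩
    refine ⟨hα.inv, fun f k hf hk => ?_⟩
    have h := hα' (pull α⁻¹ f) (pull α⁻¹ k) (hα.inv.van hf) (hα.inv.van hk)
    rw [← pull_mul, ← pull_mul, inv_mul_cancel, pull_one, pull_one] at h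
    exact h.symm

/-- The mapping class group as a subgroup of the outer automorphism group: classes of
automorphisms preserving the set of peripheral elements and the intersection form. -/
def ModSub (g p : ℕ) : Subgroup (OutGrp (SurfGrp g p)) :=
  (AutOr g p).map (outCls (SurfGrp g p))

/-- The mapping class group of the surface of genus `g` with `p` punctures. -/
def ModG (g p : ℕ) : Type := ModSub g p

instance (g p : ℕ) : Group (ModG g p) := inferInstanceAs (Group (ModSub g p))

/-- The mapping class `x` moves the puncture `j` to the puncture `k`. -/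
def ModMoves {g p : ℕ} (x : ModG g p) (j k : Fin p) : Prop :=
  ∃ α : MulAut (SurfGrp g p), x.1 = outCls (SurfGrp g p) α ∧ IsConj (α (ploop g p j)) (ploop g p k)

/-- The set of punctures in the orbit of the puncture `j` under the image of `φ`. -/
def punctOrbit {n g p : ℕ} {Γ : Subgroup (OutF n)} (φ : Γ →* ModG g p) (j : Fin p) : Set (Fin p) :=
  {k | ∃ γ : Γ, ModMoves (φ γ) j k}

/-- The class contains an automorphism acting trivially on the abelianisation. -/
def IsTorelliCls {n : ℕ} (x : OutF n) : Prop :=
  ∃ α : MulAut (FreeGroup (Fin n)),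
    (∀ y, Abelianization.of (α y) = Abelianization.of y) ∧ outCls (FreeGroup (Fin n)) α = x

/-- The set of punctures in the orbit of the puncture `j` under the image of the Torelli group. -/
def torelliOrbit {n g p : ℕ} {Γ : Subgroup (OutF n)} (φ : Γ →* ModG g p) (j : Fin p) :
    Set (Fin p) :=
  {k | ∃ γ : Γ, IsTorelliCls γ.1 ∧ ModMoves (φ γ) j k}

end Pool.Agent.Helper460_OutF
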