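import Pool.Agent.Helper460_OutF.Defs2

set_option autoImplicit false

/-! Definitions: the Torelli subgroup and stabilisers of punctures. -/

namespace Pool.Agent.Helper460_OutF

/-- The automorphisms of the free group acting trivially on the abelianisation. -/
def TorelliAut (n : ℕ) : Subgroup (MulAut (FreeGroup (Fin n))) where
  carrier := {α | ∀ x, Abelianization.of (α x) = Abelianization.of x}
  mul_mem' := by
    intro a b ha hb x
    rw [MulAut.mul_apply, ha, hb]
  one_mem' := fun _ => rfl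
  inv_mem' := by
    intro a ha x
    have := ha (a⁻¹ x)
    rw [← MulAut.mul_apply, mul_inv_cancel, MulAut.one_apply] at this
    exact this.symm

/-- The Torelli subgroup of `Out(F_n)`. -/
def TorelliSub (n : ℕ) : Subgroup (OutF n) := (TorelliAut n).map (outCls (FreeGroup (Fin n)))

/-- The subgroup of the elements of `Γ` whose image under `φ` fixes the puncture `j`. -/
def punctStab {n g p : ℕ} {Γ : Subgroup (OutF n)} (φ : Γ →* ModG g p) (j : Fin p) :
    Subgroup (OutF n) where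
  carrier := {x | ∃ h : x ∈ Γ, ModMoves (φ ⟨x, h⟩) j j}
  mul_mem' := by
    rintro x y ⟨hx, α, hα, hα2⟩ ⟨hy, β, hβ, hβ2⟩
    refine ⟨Γ.mul_mem hx hy, α * β, ?_, ?_⟩
    · have e : (⟨x * y, Γ.mul_mem hx hy⟩ : Γ) = ⟨x, hx⟩ * ⟨y, hy⟩ := rfl
      rw [e, map_mul, map_mul, ← hα, ← hβ]
      rfl
    · rw [MulAut.mul_apply]
      exact (MonoidHom.map_isConj (α : SurfGrp g p →* SurfGrp g p) hβ2).trans hα2
  one_mem' := by
    refine ⟨Γ.one_mem, 1, ?_, IsConj.refl _⟩
    have e : (⟨1, Γ.one_mem⟩ : Γ) = 1 := rfl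
    rw [e, map_one, map_one]
    rfl
  inv_mem' := by
    rintro x ⟨hx, α, hα, hα2⟩
    refine ⟨Γ.inv_mem hx, α⁻¹, ?_, ?_⟩
    · have e : (⟨x⁻¹, Γ.inv_mem hx⟩ : Γ) = ⟨x, hx⟩⁻¹ := rfl
      rw [e, map_inv, map_inv, ← hα]
      rfl
    · have h := MonoidHom.map_isConj ((α⁻¹ : MulAut (SurfGrp g p)) : SurfGrp g p →* SurfGrp g p) hα2
      have e : ((α⁻¹ : MulAut (SurfGrp g p)) : SurfGrp g p →* SurfGrp g p) (α (ploop g p j)) =
          ploop g p j := by
        show α⁻¹ (α (ploop g p j)) = _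
        rw [← MulAut.mul_apply, inv_mul_cancel, MulAut.one_apply]
      rw [e] at h
      exact h.symm

end Pool.Agent.Helper460_OutF
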