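import Pool.Agent.Helper460_OutF.SurfMain2

set_option autoImplicit false
set_option linter.unusedSectionVars false
set_option linter.unusedSimpArgs false

namespace Pool.Agent.Helper460_OutF

open FreeGroup (of)

variable {ι : Type} [DecidableEq ι] [Fintype ι] {g p : ℕ}

/-- **The end of the argument.** -/
theorem end_game (h4 : 4 ≤ Fintype.card ι) (hTG : TG (SG g p)) (hAb : AbQ (SG g p)) {M : ℕ}
    (hM : 0 < M) (ψ : N1 ι M →* MCGo g p)
    (hψinn : ∀ x (h : MulAut.conj x ∈ N1 ι M), ψ ⟨MulAut.conj x, h⟩ = 1)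
    (hfix : ∀ (x : N1 ι M) (c), c ∈ peri g p → outConj _ (ψ x : Out (SG g p)) c = c)
    (hlin : ∀ (x : N1 ι M) (f : HQ (SG g p)), f ∈ VQ g p →
      outW _ (ψ x : Out (SG g p)) f = f) : ∀ x, ψ x = 1 := by
  let ψo : N1 ι M →* Out (SG g p) := (MCGo g p).subtype.comp ψ
  -- differences vanish on punctures
  have hdiff : ∀ (x : N1 ι M) (f : HQ (SG g p)), outW _ (ψo x) f - f ∈ VQ g p := by
    intro x f y hy
    show outW _ (ψo x) f (Additive.ofMul y) - f (Additive.ofMul y) = 0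
    obtain ⟨α, hα⟩ := QuotientGroup.mk_surjective (ψo x)
    rw [← hα, outW_mk]
    have h1 : outConj _ (ψo x⁻¹) _ = _ := hfix x⁻¹ _ hy
    rw [map_inv, ← hα] at h1
    have h2 : ConjClasses.mk (α⁻¹ y) = ConjClasses.mk y := h1
    rw [HQ_isConj f (ConjClasses.mk_eq_mk_iff_isConj.1 h2), sub_self]
  have hW : ∀ (x : N1 ι M) (f : HQ (SG g p)), outW _ (ψo x) f = f := by
    intro x f
    let D : N1 ι M →* Multiplicative (HQ (SG g p)) :=
      { toFun := fun x => Multiplicative.ofAdd (outW _ (ψo x) f - f)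
        map_one' := by
          rw [map_one, map_one]
          show Multiplicative.ofAdd (f - f) = 1
          rw [sub_self]; rfl
        map_mul' := by
          intro x y
          rw [← ofAdd_add]
          congr 1
          have h1 : outW _ (ψo x) _ = _ := hlin x _ (hdiff y f)
          rw [map_sub] at h1
          have h2 : outW _ (ψo (x * y)) f = outW _ (ψo x) (outW _ (ψo y) f) := by
            rw [map_mul, map_mul]; rfl
          rw [h2, sub_eq_iff_eq_add.1 h1]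
          abel }
    have h1 := N1_hom_trivial (by
      intro b m hm hb
      have h3 : m • (Multiplicative.toAdd b) = 0 := hb
      have h4 : (m : ℚ) • (Multiplicative.toAdd b) = 0 := by
        rw [Nat.cast_smul_eq_nsmul]; exact h3
      have h5 := (smul_eq_zero.1 h4).resolve_left (by exact_mod_cast hm.ne')
      exact h5) hM h4 D (by
        intro y h
        show Multiplicative.ofAdd (outW _ (ψo ⟨MulAut.conj y, h⟩) f - f) = 1
        have : ψo ⟨MulAut.conj y, h⟩ = 1 := by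
          show ((ψ ⟨MulAut.conj y, h⟩ : MCGo g p) : Out (SG g p)) = 1
          rw [hψinn]; rfl
        rw [this, map_one]
        show Multiplicative.ofAdd (f - f) = 1
        rw [sub_self]; rfl) x
    have h2 : outW _ (ψo x) f - f = 0 := h1
    exact sub_eq_zero.1 h2
  have hno := noHom_range hM h4 ψo (fun x h => by
    show ((ψ ⟨MulAut.conj x, h⟩ : MCGo g p) : Out (SG g p)) = 1
    rw [hψinn]; rfl)
  have htriv := hTG _ hno ψo.range.subtype (by
    rintro ⟨_, ⟨x, rfl⟩⟩ α hα y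
    have h1 : ψo x = (α : Out (SG g p)) := hα
    have h2 : Abelianization.of (α y * y⁻¹) = 1 := by
      apply hAb
      intro f
      have h3 := DFunLike.congr_fun (hW x f) (Additive.ofMul (α y))
      rw [h1, outW_mk, ← MulAut.mul_apply, inv_mul_cancel, MulAut.one_apply] at h3
      rw [ofMul_mul, ofMul_inv, map_add, map_neg, ← h3, add_neg_cancel]
    rw [map_mul, map_inv, mul_inv_eq_one] at h2
    exact h2)
  intro x
  have h1 : ψo x = 1 := htriv ⟨ψo x, ⟨x, rfl⟩⟩
  ext1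
  exact h1

/-- The preimage in the automorphism group. -/
def prA (Γ : Subgroup (Out (FreeGroup ι))) : Subgroup (MulAut (FreeGroup ι)) :=
  Γ.comap (QuotientGroup.mk' _)

/-- The homomorphism on the preimage. -/
def prH {H : Type} [Group H] (Γ : Subgroup (Out (FreeGroup ι))) (φ : Γ →* H) : prA Γ →* H :=
  φ.comp ((QuotientGroup.mk' (MulAut.conj : FreeGroup ι →* MulAut (FreeGroup ι)).range).subgroupComap Γ)

lemma prA_inn (Γ : Subgroup (Out (FreeGroup ι))) (g : FreeGroup ι) : MulAut.conj g ∈ prA Γ := by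
  show QuotientGroup.mk' _ (MulAut.conj g) ∈ Γ
  have : QuotientGroup.mk' (MulAut.conj : FreeGroup ι →* MulAut (FreeGroup ι)).range
      (MulAut.conj g) = 1 := (QuotientGroup.eq_one_iff _).2 ⟨g, rfl⟩
  rw [this]
  exact Γ.one_mem

lemma prH_inn {H : Type} [Group H] (Γ : Subgroup (Out (FreeGroup ι))) (φ : Γ →* H)
    (g : FreeGroup ι) (h : MulAut.conj g ∈ prA Γ) : prH Γ φ ⟨MulAut.conj g, h⟩ = 1 := by
  show φ _ = 1
  convert map_one φ
  ext1
  exact (QuotientGroup.eq_one_iff _).2 ⟨g, rfl⟩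

instance prA_fi (Γ : Subgroup (Out (FreeGroup ι))) [hfi : Γ.FiniteIndex] :
    (prA Γ).FiniteIndex := ⟨by
  unfold prA
  rw [Subgroup.index_comap_of_surjective Γ (QuotientGroup.mk'_surjective _)]
  exact hfi.index_ne_zero⟩

lemma prA_relIndex (Γ : Subgroup (Out (FreeGroup ι))) :
    (prA Γ).relIndex (IA (FreeGroup ι)) = Γ.relIndex (Torelli (FreeGroup ι)) := by
  unfold prA Torelli
  rw [Subgroup.relIndex_comap]

/-- Finiteness from the kernel. -/
theorem finite_of_ker {H : Type} [Group H] (h4 : 4 ≤ Fintype.card ι)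
    (Γ : Subgroup (Out (FreeGroup ι))) (φ : Γ →* H) {M : ℕ} (hM : 0 < M)
    (hN : N1 ι M ≤ kerA (prA Γ) (prH Γ φ)) : Finite φ.range := by
  have hN1f : (N1 ι M).FiniteIndex := (N1_step (ι := ι) hM).finiteIndex h4
  have hker : (N1 ι M).subgroupOf (prA Γ) ≤ (prH Γ φ).ker := by
    intro x hx
    rw [Subgroup.mem_subgroupOf] at hx
    rw [MonoidHom.mem_ker]
    obtain ⟨h2, h3⟩ := mem_kerA.1 (hN hx)
    exact h3
  have hfiK : (prH Γ φ).ker.FiniteIndex := Subgroup.finiteIndex_of_le hker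
  have hrange : (prH Γ φ).range = φ.range := by
    apply le_antisymm
    · rintro _ ⟨x, rfl⟩
      exact ⟨_, rfl⟩
    · rintro _ ⟨⟨y, hy⟩, rfl⟩
      obtain ⟨a, rfl⟩ := QuotientGroup.mk_surjective y
      exact ⟨⟨a, hy⟩, rfl⟩
  rw [← hrange]
  exact Finite.of_equiv _ (QuotientGroup.quotientKerEquivRange (prH Γ φ)).toEquiv

/-- **Main theorem for surfaces, general form.** -/
theorem main_surface4 (h4 : 4 ≤ Fintype.card ι) (hTG : TG (SG g p)) (hAb : AbQ (SG g p))
    (Γ : Subgroup (Out (FreeGroup ι))) (φ : Γ →* MCGo g p)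
    (hlinear : ∃ M, 0 < M ∧ N1 ι M ≤ kerA (prA Γ) ((actV g p).comp (prH Γ φ)))
    (hperi : ∀ c : peri g p, ∃ M, 0 < M ∧ ∀ x ∈ N1 ι M, ∃ h : x ∈ prA Γ,
      outConj _ (prH Γ φ ⟨x, h⟩ : Out (SG g p)) (c : ConjClasses (SG g p)) = c) :
    Finite φ.range := by
  classical
  obtain ⟨M1, hM1, hN1⟩ := hlinear
  have hperiFin : (peri g p).Finite := Set.finite_range _
  have _i1 : Finite (peri g p) := hperiFin
  have _i2 := Fintype.ofFinite (peri g p)
  choose Mc hMc hN2 using hperi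
  obtain ⟨M, hMdef⟩ : ∃ M, M = M1 * ∏ c, Mc c := ⟨_, rfl⟩
  have hM : 0 < M := by
    rw [hMdef]
    exact Nat.mul_pos hM1 (Finset.prod_pos fun c _ => hMc c)
  have hA : N1 ι M ≤ N1 ι M1 := N1_dvd_le hM (by rw [hMdef]; exact Dvd.intro _ rfl)
  have hB : ∀ c, N1 ι M ≤ N1 ι (Mc c) := fun c => N1_dvd_le hM (by
    rw [hMdef]
    exact Dvd.dvd.mul_left (Finset.dvd_prod_of_mem Mc (Finset.mem_univ c)) _)
  have hle : N1 ι M ≤ prA Γ := fun x hx => (mem_kerA.1 (hN1 (hA hx))).1
  apply finite_of_ker h4 Γ φ hM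
  apply kerA_of_le hle
  apply end_game h4 hTG hAb hM ((prH Γ φ).comp (Subgroup.inclusion hle))
  · intro x h
    exact prH_inn Γ φ x _
  · intro x c hc
    obtain ⟨h1, h2⟩ := hN2 ⟨c, hc⟩ x (hB ⟨c, hc⟩ x.2)
    exact h2
  · intro x f hf
    obtain ⟨h1, h2⟩ := mem_kerA.1 (hN1 (hA x.2))
    exact congrArg (fun e : (VQ g p ≃ₗ[ℚ] VQ g p) => ((e ⟨f, hf⟩ : VQ g p) : HQ (SG g p))) h2

end Pool.Agent.Helper460_OutF
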