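import Pool.Agent.Helper460_OutF.Lin2
import Pool.Agent.Helper460_OutF.B1

set_option autoImplicit false
set_option linter.unusedSectionVars false
set_option linter.unusedSimpArgs false

namespace Pool.Agent.Helper460_OutF

open FreeGroup (of)
open scoped commutatorElement Pointwise

section PPdef

variable {A : Type} [Group A] {K : Subgroup A} {H : Type} [Group H] (ρ : K →* H)

/-- Extension of a homomorphism by one. -/
noncomputable def PP (x : A) : H := by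
  classical exact if h : x ∈ K then ρ ⟨x, h⟩ else 1

variable {ρ}

lemma PP_mem {x : A} (h : x ∈ K) : PP ρ x = ρ ⟨x, h⟩ := by
  unfold PP
  exact dif_pos h

lemma PP_mul {x y : A} (hx : x ∈ K) (hy : y ∈ K) : PP ρ (x * y) = PP ρ x * PP ρ y := by
  rw [PP_mem hx, PP_mem hy, PP_mem (K.mul_mem hx hy), ← map_mul]
  rfl

lemma PP_inv {x : A} (hx : x ∈ K) : PP ρ x⁻¹ = (PP ρ x)⁻¹ := by
  rw [PP_mem hx, PP_mem (K.inv_mem hx), ← map_inv]
  rfl

lemma PP_pow {x : A} (hx : x ∈ K) (n : ℕ) : PP ρ (x ^ n) = PP ρ x ^ n := by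
  rw [PP_mem hx, PP_mem (K.pow_mem hx n), ← map_pow]
  rfl

end PPdef

variable {ι : Type} [DecidableEq ι] [Fintype ι]

/-- Conjugation. -/
def cjA (b : MulAut (FreeGroup ι)) : MulAut (FreeGroup ι) →* MulAut (FreeGroup ι) :=
  (MulAut.conj b : MulAut (MulAut (FreeGroup ι))).toMonoidHom

lemma cjA_apply (b x : MulAut (FreeGroup ι)) : cjA b x = b * x * b⁻¹ := rfl

lemma cjA_mul (b b' x : MulAut (FreeGroup ι)) : cjA (b * b') x = cjA b (cjA b' x) := by
  rw [cjA_apply, cjA_apply, cjA_apply]; group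

variable {K : Subgroup (MulAut (FreeGroup ι))} {H : Type} [Group H] (ρ : K →* H)

/-- The twisted conjugation homomorphism. -/
noncomputable def RB (i : ι) (b : MulAut (FreeGroup ι)) (w : FreeGroup ι) : H :=
  PP ρ (cjA b (cc i w))

/-- The twisted transvections. -/
noncomputable def UB (j k : ι) (e : ℕ) (b : MulAut (FreeGroup ι)) (c : ι) : H :=
  PP ρ (cjA b (rr c (⁅of j, of k⁆ ^ e)))

/-- All conjugates of the relevant elements lie in `K`. -/
structure Adm (K : Subgroup (MulAut (FreeGroup ι))) (e : ℕ) : Prop where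
  cc : ∀ (b : MulAut (FreeGroup ι)) (i : ι) (u v : FreeGroup ι), cjA b (cc i ⁅u, v⁆) ∈ K
  rr : ∀ (b : MulAut (FreeGroup ι)) (c j k : ι), c ≠ j → cjA b (rr c (⁅of j, of k⁆ ^ e)) ∈ K

lemma adm_of_N1 {M : ℕ} (hM : 0 < M) (h : N1 ι M ≤ K) : Adm K M :=
  ⟨fun b i u v => h ((N1_normal M).conj_mem _ ((N1_step hM).cc_comm i u v) b),
    fun b _ _ _ hcj => h ((N1_normal M).conj_mem _ ((N1_step hM).comm_pow hcj) b)⟩

lemma kil_comm_pow {c j k : ι} (hj : c ≠ j) (hk : c ≠ k) (e : ℕ) :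
    kil c (⁅of j, of k⁆ ^ e) = ⁅of j, of k⁆ ^ e := by
  rw [map_pow, kil_comm_of (Ne.symm hj) (Ne.symm hk)]

section

variable {ρ} {e : ℕ} (hK : Adm K e) {i j k : ι} (hij : i ≠ j) (hik : i ≠ k)
  {b : MulAut (FreeGroup ι)}

lemma RB_mul {v w : FreeGroup ι} (hv : cjA b (cc i v) ∈ K) (hw : cjA b (cc i w) ∈ K) :
    RB ρ i b (v * w) = RB ρ i b v * RB ρ i b w := by
  unfold RB
  rw [map_mul, map_mul, PP_mul hv hw]

lemma RB_pow {v : FreeGroup ι} (hv : cjA b (cc i v) ∈ K) (n : ℕ) :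
    RB ρ i b (v ^ n) = RB ρ i b v ^ n := by
  unfold RB
  rw [map_pow, map_pow, PP_pow hv]

/-- Changing the twist by an automorphism preserving the index. -/
lemma RB_twist {b' : MulAut (FreeGroup ι)} (hb : Pres i b') (w : FreeGroup ι) :
    RB ρ i (b * b') w = RB ρ i b (b' w) := by
  unfold RB
  rw [cjA_mul, cjA_apply b', hb.cc]

lemma mem_twist {b' : MulAut (FreeGroup ι)} (hb : Pres i b') (w : FreeGroup ι) :
    cjA (b * b') (cc i w) = cjA b (cc i (b' w)) := by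
  rw [cjA_mul, cjA_apply b', hb.cc]

include hK hij hik in
lemma UB_RB {c : ι} (hic : i ≠ c) (hcj : c ≠ j) {w : FreeGroup ι}
    (hw : cjA b (cc i w) ∈ K) (hw' : cjA b (cc i (rr c (⁅of j, of k⁆ ^ e) w)) ∈ K) :
    UB ρ j k e b c * RB ρ i b w = RB ρ i b (rr c (⁅of j, of k⁆ ^ e) w) * UB ρ j k e b c := by
  unfold UB RB
  rw [← PP_mul (hK.rr b c j k hcj) hw, ← PP_mul hw' (hK.rr b c j k hcj), ← map_mul, ← map_mul]
  congr 2
  rw [← mul_inv_eq_iff_eq_mul]
  exact (pres_rr hic (kil_comm_pow hij hik e)).cc w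

include hK hij hik in
lemma UB_RB_fix {c : ι} (hic : i ≠ c) (hcj : c ≠ j) {w : FreeGroup ι}
    (hw : cjA b (cc i w) ∈ K) (hfix : rr c (⁅of j, of k⁆ ^ e) w = w) :
    UB ρ j k e b c * RB ρ i b w = RB ρ i b w * UB ρ j k e b c := by
  have := UB_RB hK hij hik hic hcj hw (by rw [hfix]; exact hw) (ρ := ρ)
  rwa [hfix] at this

include hK hij hik in
lemma UB_RB_ne {c d : ι} (hic : i ≠ c) (hcj : c ≠ j) (hdc : d ≠ c)
    (hw : cjA b (cc i (of d)) ∈ K) :
    UB ρ j k e b c * RB ρ i b (of d) = RB ρ i b (of d) * UB ρ j k e b c :=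
  UB_RB_fix hK hij hik hic hcj hw (rr_ne hdc _)

include hK hij hik in
lemma UB_RB_u {c : ι} (hic : i ≠ c) (hcj : c ≠ j) (hck : c ≠ k) :
    UB ρ j k e b c * RB ρ i b ⁅of j, of k⁆ = RB ρ i b ⁅of j, of k⁆ * UB ρ j k e b c :=
  UB_RB_fix hK hij hik hic hcj (hK.cc b i _ _) (rr_fix c _ (kil_comm_of (Ne.symm hcj) (Ne.symm hck)))

include hK hij hik in
lemma UB_RB_self {c : ι} (hic : i ≠ c) (hcj : c ≠ j) (hck : c ≠ k)
    (hw : cjA b (cc i (of c)) ∈ K) :
    UB ρ j k e b c * RB ρ i b (of c) =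
      RB ρ i b (of c) * RB ρ i b ⁅of j, of k⁆ ^ e * UB ρ j k e b c := by
  have hu : cjA b (cc i ⁅of j, of k⁆) ∈ K := hK.cc b i _ _
  have hue : cjA b (cc i (⁅of j, of k⁆ ^ e)) ∈ K := by
    rw [map_pow, map_pow]; exact K.pow_mem hu e
  have e1 : rr c (⁅of j, of k⁆ ^ e) (of c) = of c * ⁅of j, of k⁆ ^ e := by
    rw [rr_self, kil_comm_pow hcj hck]
  have := UB_RB hK hij hik hic hcj hw (ρ := ρ) (by
    rw [e1, map_mul, map_mul]
    exact K.mul_mem hw hue)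
  rwa [e1, RB_mul hw hue, RB_pow hu] at this

include hK in
lemma UB_comm {c d : ι} (hcj : c ≠ j) (hck : c ≠ k) (hdj : d ≠ j) (hdk : d ≠ k) :
    UB ρ j k e b c * UB ρ j k e b d = UB ρ j k e b d * UB ρ j k e b c := by
  unfold UB
  rw [← PP_mul (hK.rr b c j k hcj) (hK.rr b d j k hdj),
    ← PP_mul (hK.rr b d j k hdj) (hK.rr b c j k hcj), ← map_mul, ← map_mul]
  by_cases hcd : c = d
  · subst hcd; rfl
  · congr 2
    show lr c (1, ⁅of j, of k⁆ ^ e) * lr d (1, ⁅of j, of k⁆ ^ e) = _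
    exact lr_lr_comm hcd (map_one _) (kil_comm_pow hdj hdk e) (map_one _) (kil_comm_pow hcj hck e)

lemma UB_twist {c d c0 : ι} (hcd : c ≠ d) (hc0 : c ≠ c0) (hdj : d ≠ j) (hdk : d ≠ k) :
    UB ρ j k e (b * rr d (of c0)) c = UB ρ j k e b c := by
  have h1 : cjA (rr d (of c0)) (rr c (⁅of j, of k⁆ ^ e)) = rr c (⁅of j, of k⁆ ^ e) := by
    have h2 : Pres c (rr d (of c0)) := pres_rr hcd (kil_ne (Ne.symm hc0))
    rw [cjA_apply, h2.rr, rr_fix d _ (kil_comm_pow hdj hdk e)]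
  unfold UB
  rw [cjA_mul, h1]

variable (ρ) in
/-- The index `c` is bad. -/
def BadB (i j k : ι) (e : ℕ) (b : MulAut (FreeGroup ι)) (c : ι) : Prop :=
  (UB ρ j k e b c) ^ 2 * (RB ρ i b (of c)) ^ 2 = (RB ρ i b (of c)) ^ 2 * (UB ρ j k e b c) ^ 2

include hK hij hik in
lemma BadB.conseq {c : ι} (hic : i ≠ c) (hcj : c ≠ j) (hck : c ≠ k)
    (hw : cjA b (cc i (of c)) ∈ K) (h : BadB ρ i j k e b c) :
    (RB ρ i b (of c))⁻¹ * (RB ρ i b ⁅of j, of k⁆ ^ e) ^ 2 * RB ρ i b (of c) =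
      ((RB ρ i b ⁅of j, of k⁆ ^ e) ^ 2)⁻¹ := by
  have hZ : Commute (UB ρ j k e b c) (RB ρ i b ⁅of j, of k⁆ ^ e) :=
    (show Commute (UB ρ j k e b c) (RB ρ i b ⁅of j, of k⁆) from
      UB_RB_u hK hij hik hic hcj hck).pow_right e
  unfold BadB at h
  exact (bad_grp (A := 1) (B := 1) (by simp) (by simp) hZ (UB_RB_self hK hij hik hic hcj hck hw) h
    (by simpa using h) (by simpa using h)).1

include hK hij hik in
/-- **Finite order of commutators, for a family of admissible indices.** -/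
theorem fo_S {r : ℕ} (hH : NoTri2Fam r H) (S : Finset ι) (hS : ∀ c ∈ S, c ≠ i ∧ c ≠ j ∧ c ≠ k)
    (hr : r + 2 ≤ 2 * S.card) (he : 0 < e) :
    ∀ (m : ℕ) (b : MulAut (FreeGroup ι)), (∀ c ∈ S, cjA b (cc i (of c)) ∈ K) →
      {c | c ∈ S ∧ BadB ρ i j k e b c}.ncard = m → IsOfFinOrder (RB ρ i b ⁅of j, of k⁆) := by
  classical
  intro m
  induction m using Nat.strong_induction_on with
  | _ m ih =>
  intro b hb hm
  by_cases h2 : ∃ c0 d, c0 ≠ d ∧ (c0 ∈ S ∧ BadB ρ i j k e b c0) ∧ (d ∈ S ∧ BadB ρ i j k e b d)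
  · obtain ⟨c0, d, hcd, ⟨hc0, hbc⟩, ⟨hd0, hbd⟩⟩ := h2
    obtain ⟨hc1, hc2, hc3⟩ := hS c0 hc0
    obtain ⟨hd1, hd2, hd3⟩ := hS d hd0
    have hp : Pres i (rr d (of c0)) := pres_rr (Ne.symm hd1) (kil_ne hc1)
    have eu : RB ρ i (b * rr d (of c0)) ⁅of j, of k⁆ = RB ρ i b ⁅of j, of k⁆ := by
      rw [RB_twist hp, rr_fix d _ (kil_comm_of (Ne.symm hd2) (Ne.symm hd3))]
    have ed : RB ρ i (b * rr d (of c0)) (of d) = RB ρ i b (of d) * RB ρ i b (of c0) := by
      rw [RB_twist hp, rr_self, kil_ne hcd, RB_mul (hb d hd0) (hb c0 hc0)]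
    have hb' : ∀ c ∈ S, cjA (b * rr d (of c0)) (cc i (of c)) ∈ K := by
      intro c hc
      rw [mem_twist hp]
      by_cases hcd' : c = d
      · subst hcd'
        rw [rr_self, kil_ne hcd, map_mul, map_mul]
        exact K.mul_mem (hb c hc) (hb c0 hc0)
      · rw [rr_ne hcd']
        exact hb c hc
    by_cases hd' : BadB ρ i j k e (b * rr d (of c0)) d
    · have q1 := hd'.conseq hK hij hik (Ne.symm hd1) hd2 hd3 (hb' d hd0)
      rw [eu, ed] at q1
      have q2 := hbd.conseq hK hij hik (Ne.symm hd1) hd2 hd3 (hb d hd0)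
      have q3 := hbc.conseq hK hij hik (Ne.symm hc1) hc2 hc3 (hb c0 hc0)
      obtain ⟨Y, hY⟩ : ∃ Y, Y = RB ρ i b ⁅of j, of k⁆ := ⟨_, rfl⟩
      rw [← hY] at q1 q2 q3 ⊢
      obtain ⟨Z, hZ⟩ : ∃ Z, Z = Y ^ e := ⟨_, rfl⟩
      rw [← hZ] at q1 q2 q3
      obtain ⟨C, hC⟩ : ∃ C, C = RB ρ i b (of c0) := ⟨_, rfl⟩
      obtain ⟨D, hD⟩ : ∃ D, D = RB ρ i b (of d) := ⟨_, rfl⟩
      rw [← hC, ← hD] at q1
      rw [← hD] at q2
      rw [← hC] at q3
      have q4 : (D * C)⁻¹ * Z ^ 2 * (D * C) = Z ^ 2 := by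
        calc (D * C)⁻¹ * Z ^ 2 * (D * C) = C⁻¹ * (D⁻¹ * Z ^ 2 * D) * C := by group
          _ = (C⁻¹ * Z ^ 2 * C)⁻¹ := by rw [q2]; group
          _ = Z ^ 2 := by rw [q3, inv_inv]
      rw [q4] at q1
      refine isOfFinOrder_iff_pow_eq_one.2 ⟨e * 4, by positivity, ?_⟩
      calc Y ^ (e * 4) = Z ^ 2 * Z ^ 2 := by rw [← pow_add, hZ, ← pow_mul]
        _ = 1 := by nth_rewrite 1 [q1]; exact inv_mul_cancel _
    · rw [← eu]
      refine ih _ ?_ (b * rr d (of c0)) hb' rfl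
      rw [← hm]
      apply Set.ncard_lt_ncard _ (Set.toFinite _)
      rw [Set.ssubset_iff_of_subset]
      · exact ⟨d, ⟨hd0, hbd⟩, fun h => hd' h.2⟩
      · rintro c ⟨hcS, hbad⟩
        refine ⟨hcS, ?_⟩
        have hcd' : c ≠ d := by rintro rfl; exact hd' hbad
        by_cases hcc : c = c0
        · subst hcc; exact hbc
        · have e1 : UB ρ j k e (b * rr d (of c0)) c = UB ρ j k e b c :=
            UB_twist hcd' hcc hd2 hd3
          have e2 : RB ρ i (b * rr d (of c0)) (of c) = RB ρ i b (of c) := by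
            rw [RB_twist hp, rr_ne hcd']
          unfold BadB at hbad ⊢
          rwa [e1, e2] at hbad
  · exfalso
    -- at most one bad index
    let S' := S.filter fun c => ¬ BadB ρ i j k e b c
    have hcard : S.card ≤ S'.card + 1 := by
      have h3 : (S.filter fun c => BadB ρ i j k e b c).card ≤ 1 := by
        rw [Finset.card_le_one]
        intro c hc d hd
        by_contra hne
        rw [Finset.mem_filter] at hc hd
        exact h2 ⟨c, d, hne, hc, hd⟩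
      have h4 := Finset.card_filter_add_card_filter_not (s := S) (fun c => BadB ρ i j k e b c)
      have h5 : S'.card = (S.filter fun c => ¬ BadB ρ i j k e b c).card := rfl
      rw [h5]
      omega
    have hmem : ∀ c : S', (c : ι) ∈ S ∧ ¬ BadB ρ i j k e b c := fun c => Finset.mem_filter.1 c.2
    obtain ⟨c, hc⟩ := famA hH (J := S') (by
        rw [Nat.card_eq_fintype_card, Fintype.card_coe]; omega)
      (fun c => UB ρ j k e b c) (fun c => RB ρ i b (of (c : ι)))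
      (fun c d => UB_comm hK (hS c (hmem c).1).2.1 (hS c (hmem c).1).2.2
        (hS d (hmem d).1).2.1 (hS d (hmem d).1).2.2)
      (fun c d hcd => UB_RB_ne hK hij hik (Ne.symm (hS c (hmem c).1).1) (hS c (hmem c).1).2.1
        (fun h => hcd (Subtype.ext h.symm)) (hb d (hmem d).1))
    exact (hmem c).2 hc

end

end Pool.Agent.Helper460_OutF
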