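import Pool.Agent.Helper460_OutF.Punct

set_option autoImplicit false

namespace Pool.Agent.Helper460_OutF

theorem final_surface (n g p : ℕ) (hn : 4 ≤ n) (hg : 2 * g + 2 ≤ n)
    (hTG : TG (SG g p)) (hAb : AbQ (SG g p))
    (Γ : Subgroup (OutF n)) (hfi : Γ.FiniteIndex) (hT : ContainsTorelli Γ)
    (φ : Γ →* MCG g p) (horb : ∀ j : Fin p, (pOrbit φ j).ncard ≤ n - 1) :
    Finite φ.range := by
  have h4 : 4 ≤ Fintype.card (Fin n) := by rw [Fintype.card_fin]; exact hn
  let Γ' : Subgroup (Out (FreeGroup (Fin n))) := Γ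
  let φ' : Γ' →* MCGo g p := φ
  have hfi' : Γ'.FiniteIndex := hfi
  have key : Finite φ'.range := by
    refine main_surface h4 (by rw [Fintype.card_fin]; exact hg) hTG hAb Γ' ?_ φ' ?_
    · rintro _ ⟨α, hα, rfl⟩
      exact hT α hα
    · rintro _ ⟨j, rfl⟩
      rw [Fintype.card_fin]
      have h1 : (Set.range fun γ : Γ' => outConj _ (φ' γ : Out (SG g p))
          (ConjClasses.mk (ploopo g p j))).ncard ≤ (pOrbit φ j).ncard := by
        refine le_trans (Set.ncard_le_ncard (t := (fun k => ConjClasses.mk (ploopo g p k)) ''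
          pOrbit φ j) ?_ ((Set.toFinite _).image _)) (Set.ncard_image_le (Set.toFinite _))
        rintro _ ⟨γ, rfl⟩
        obtain ⟨α, hα⟩ := QuotientGroup.mk_surjective (φ' γ : Out (SG g p))
        have h2 := ((mem_MCGo_iff _).1 (φ' γ).2 (ConjClasses.mk (ploopo g p j))).2 ⟨j, rfl⟩
        obtain ⟨k, hk⟩ := h2
        refine ⟨k, ⟨γ, α, hα.symm, ?_⟩, hk⟩
        rw [← hα] at hk
        have hk' : ConjClasses.mk (ploopo g p k) = ConjClasses.mk (α (ploopo g p j)) := hk
        exact (ConjClasses.mk_eq_mk_iff_isConj.1 hk').symm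
      have h3 := h1.trans (horb j)
      exact (Nat.add_le_add_right h3 1).trans (by omega)
  exact key

end Pool.Agent.Helper460_OutF
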