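import Pool.Agent.Helper460_OutF.SurfMain2

set_option autoImplicit false
set_option linter.unusedSectionVars false
set_option linter.unusedSimpArgs false

namespace Pool.Agent.Helper460_OutF

open FreeGroup (of)

variable {g p : ℕ}

/-- The isometry group of the intersection form. -/
def isoV (g p : ℕ) : Subgroup (VQ g p ≃ₗ[ℚ] VQ g p) where
  carrier := {e | ∀ x y, formV g p (e x) (e y) = formV g p x y}
  mul_mem' := by
    intro a b ha hb x y
    show formV g p (a (b x)) (a (b y)) = _
    rw [ha, hb]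
  one_mem' := fun _ _ => rfl
  inv_mem' := by
    intro a ha x y
    have h := ha (a⁻¹ x) (a⁻¹ y)
    have e : ∀ z, a (a⁻¹ z) = z := fun z => by
      show (a * a⁻¹) z = z
      rw [mul_inv_cancel]; rfl
    rw [e, e] at h
    exact h.symm

lemma noTri2Fam_isoV {n : ℕ} (h : g + 4 ≤ n) : NoTri2Fam (2 * n - 6) (isoV g p) := by
  intro J _ hJ
  refine noTri2_sp (ω := formV g p) formV_skew formV_nondeg (isoV g p).subtype
    (Subgroup.subtype_injective _) (fun e x y => e.2 x y) ?_
  have := finrank_VQ (g := g) (p := p)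
  omega

lemma lt_two_pow_sub {n : ℕ} (hn : 4 ≤ n) (h : g + 4 ≤ n) : 2 * g < 2 ^ (n - 3 + 1) := by
  obtain ⟨m, rfl⟩ : ∃ m, n = m + 4 := ⟨n - 4, by omega⟩
  have h1 : m < 2 ^ m := Nat.lt_two_pow_self
  have e : m + 4 - 3 + 1 = m + 2 := by omega
  rw [e, pow_add]
  omega

lemma noCube_isoV {n : ℕ} (hn : 4 ≤ n) (h : g + 4 ≤ n) : NoCube (n - 3) (isoV g p) := by
  refine NoCube.of_injective (isoV g p).subtype (Subgroup.subtype_injective _) ?_
  apply noCube_GLV
  exact lt_of_le_of_lt (finrank_VQ (g := g) (p := p)) (lt_two_pow_sub hn h)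

/-- Classes preserving the intersection form act by isometries. -/
lemma actV_iso (x : MCGo g p) (α : MulAut (SG g p)) (hx : (x : Out (SG g p)) = (α : Out (SG g p)))
    (hα : ∀ f k : HQ (SG g p), (∀ j, f (Additive.ofMul (ploopo g p j)) = 0) →
      (∀ j, k (Additive.ofMul (ploopo g p j)) = 0) →
      formO (f.comp (MonoidHom.toAdditive (α : SG g p →* SG g p)))
        (k.comp (MonoidHom.toAdditive (α : SG g p →* SG g p))) = formO f k) :
    actV g p x ∈ isoV g p := by
  have h1 : ∀ f : VQ g p, ((actV g p x f : VQ g p) : HQ (SG g p)).comp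
      (MonoidHom.toAdditive (α : SG g p →* SG g p)) = (f : HQ (SG g p)) := by
    intro f
    refine AddMonoidHom.ext fun y => ?_
    show outW _ (x : Out (SG g p)) (f : HQ (SG g p)) (Additive.ofMul (α (Additive.toMul y))) = _
    rw [hx, outW_mk, ← MulAut.mul_apply, inv_mul_cancel, MulAut.one_apply]
    rfl
  have h2 : ∀ f : VQ g p, ∀ j, (f : HQ (SG g p)) (Additive.ofMul (ploopo g p j)) = 0 :=
    fun f j => f.2 _ ⟨j, rfl⟩
  intro f k
  rw [formV_apply, formV_apply, ← hα _ _ (h2 _) (h2 _), h1, h1]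

/-- The inclusion of the mapping class group. -/
def modIncl (g p : ℕ) : ModG g p →* MCG g p :=
  Subgroup.inclusion (Subgroup.map_mono (fun _ h => h.1) : ModSub g p ≤ MCGsub g p)

lemma modIncl_inj : Function.Injective (modIncl g p) := Subgroup.inclusion_injective _

theorem final_surface2 (n g p : ℕ) (hn : 4 ≤ n) (hg : 2 * g + 2 ≤ n ∨ g + 4 ≤ n)
    (hTG : TG (SG g p)) (hAb : AbQ (SG g p))
    (Γ : Subgroup (OutF n)) (hfi : Γ.FiniteIndex) (hT : ContainsTorelli Γ)
    (φ : Γ →* ModG g p) (horb : ∀ j : Fin p, (punctOrbit φ j).ncard ≤ 2 ^ (n - 2)) :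
    Finite φ.range := by
  have h4 : 4 ≤ Fintype.card (Fin n) := by rw [Fintype.card_fin]; exact hn
  let Γ' : Subgroup (Out (FreeGroup (Fin n))) := Γ
  let φ' : Γ' →* MCGo g p := (modIncl g p).comp φ
  have hfi' : Γ'.FiniteIndex := hfi
  have key : Finite φ'.range := by
    refine main_surface2 h4 hTG hAb Γ' ?_ φ' ?_ ?_
    · rintro _ ⟨α, hα, rfl⟩
      exact hT α hα
    · rintro _ ⟨j, rfl⟩
      rw [Fintype.card_fin]
      have h1 : (Set.range fun γ : Γ' => outConj _ (φ' γ : Out (SG g p))
          (ConjClasses.mk (ploopo g p j))).ncard ≤ (punctOrbit φ j).ncard := by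
        refine le_trans (Set.ncard_le_ncard (t := (fun k => ConjClasses.mk (ploopo g p k)) ''
          punctOrbit φ j) ?_ ((Set.toFinite _).image _)) (Set.ncard_image_le (Set.toFinite _))
        rintro _ ⟨γ, rfl⟩
        obtain ⟨α, hα⟩ := QuotientGroup.mk_surjective (φ' γ : Out (SG g p))
        have h2 := ((mem_MCGo_iff _).1 (φ' γ).2 (ConjClasses.mk (ploopo g p j))).2 ⟨j, rfl⟩
        obtain ⟨k, hk⟩ := h2
        refine ⟨k, ⟨γ, α, hα.symm, ?_⟩, hk⟩
        rw [← hα] at hk
        have hk' : ConjClasses.mk (ploopo g p k) = ConjClasses.mk (α (ploopo g p j)) := hk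
        exact (ConjClasses.mk_eq_mk_iff_isConj.1 hk').symm
      exact h1.trans (horb j)
    · intro Γ0 _ _ hIA Φ0 hinn hrange
      rcases hg with hg | hg
      · exact exists_N1 h4 hIA ((actV g p).comp Φ0)
          (fun x h => by rw [MonoidHom.comp_apply, hinn, map_one])
          (noTriFam_GLV h4 (by
            rw [Fintype.card_fin]
            have := finrank_VQ (g := g) (p := p); omega))
      · have hmem : ∀ x : Γ0, ((actV g p).comp Φ0) x ∈ isoV g p := by
          intro x
          obtain ⟨y, hy⟩ := hrange x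
          obtain ⟨α, hα, hα2⟩ := (φ y).2
          refine actV_iso (Φ0 x) α ?_ ?_
          · rw [hy]
            exact hα2.symm
          · intro f k hf hk
            exact hα.2 f k hf hk
        let ρ : Γ0 →* isoV g p := ((actV g p).comp Φ0).codRestrict (isoV g p) hmem
        have hρ : ∀ x h, ρ ⟨MulAut.conj x, h⟩ = 1 := by
          intro x h
          ext1
          show ((actV g p).comp Φ0) ⟨MulAut.conj x, h⟩ = 1
          rw [MonoidHom.comp_apply, hinn, map_one]
        obtain ⟨M, hM, hle⟩ := N1_of_step (step_of_noTri2 h4 hIA ρ hρ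
          (by rw [Fintype.card_fin]; exact noTri2Fam_isoV hg)
          (by rw [Fintype.card_fin]; exact noCube_isoV hn hg))
        refine ⟨M, hM, fun x hx => ?_⟩
        obtain ⟨h1, h2⟩ := mem_kerA.1 (hle hx)
        exact mem_kerA.2 ⟨h1, congrArg Subtype.val h2⟩
  have hr : ∀ x : φ.range, modIncl g p x ∈ φ'.range := by
    rintro ⟨_, ⟨y, rfl⟩⟩
    exact ⟨y, rfl⟩
  exact Finite.of_injective (fun x : φ.range => (⟨modIncl g p x, hr x⟩ : φ'.range)) (by
    intro x y hxy
    exact Subtype.ext (modIncl_inj (congrArg Subtype.val hxy)))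

end Pool.Agent.Helper460_OutF
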