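import Pool.Agent.Helper460_OutF.Lin2

set_option autoImplicit false
set_option linter.unusedSectionVars false
set_option linter.unusedSimpArgs false

namespace Pool.Agent.Helper460_OutF

open FreeGroup (of)
open scoped commutatorElement Pointwise

section

variable {ι : Type} [DecidableEq ι] [Fintype ι] {H : Type} [Group H]
  {Γ : Subgroup (MulAut (FreeGroup ι))} {ρ : Γ →* H}

lemma triK2 [hN : Γ.Normal] {J : Type} (hJ : NoTri2 J H) (rk : J → ℕ)
    (g h : J → MulAut (FreeGroup ι)) (b : MulAut (FreeGroup ι))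
    (hg : ∀ j, g j ∈ Γ) (hh : ∀ j, h j ∈ Γ)
    (hc : ∀ i j, i ≠ j → rk i ≤ rk j →
      g i * h j * (g i)⁻¹ * (h j)⁻¹ ∈ (kerA Γ ρ).normalCore) :
    ∃ i, b * (g i ^ 2 * h i ^ 2 * (g i ^ 2)⁻¹ * (h i ^ 2)⁻¹) * b⁻¹ ∈ kerA Γ ρ := by
  have hg' : ∀ j, b * g j * b⁻¹ ∈ Γ := fun j => hN.conj_mem _ (hg j) b
  have hh' : ∀ j, b * h j * b⁻¹ ∈ Γ := fun j => hN.conj_mem _ (hh j) b
  have hmem : ∀ i j, b * (g i * h j * (g i)⁻¹ * (h j)⁻¹) * b⁻¹ ∈ Γ := fun i j =>
    hN.conj_mem _ (Γ.mul_mem (Γ.mul_mem (Γ.mul_mem (hg i) (hh j)) (Γ.inv_mem (hg i)))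
      (Γ.inv_mem (hh j))) b
  have hmem2 : ∀ i, b * (g i ^ 2 * h i ^ 2 * (g i ^ 2)⁻¹ * (h i ^ 2)⁻¹) * b⁻¹ ∈ Γ := fun i =>
    hN.conj_mem _ (Γ.mul_mem (Γ.mul_mem (Γ.mul_mem (Γ.pow_mem (hg i) 2) (Γ.pow_mem (hh i) 2))
      (Γ.inv_mem (Γ.pow_mem (hg i) 2))) (Γ.inv_mem (Γ.pow_mem (hh i) 2))) b
  have key : ∀ i j, ρ ⟨b * g i * b⁻¹, hg' i⟩ * ρ ⟨b * h j * b⁻¹, hh' j⟩ =
      ρ ⟨_, hmem i j⟩ * (ρ ⟨b * h j * b⁻¹, hh' j⟩ * ρ ⟨b * g i * b⁻¹, hg' i⟩) := by
    intro i j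
    rw [← map_mul, ← map_mul, ← map_mul]
    congr 1
    ext1
    show b * g i * b⁻¹ * (b * h j * b⁻¹) = b * (g i * h j * (g i)⁻¹ * (h j)⁻¹) * b⁻¹ *
      (b * h j * b⁻¹ * (b * g i * b⁻¹))
    group
  obtain ⟨i, hi⟩ := hJ rk (fun j => ρ ⟨b * g j * b⁻¹, hg' j⟩) (fun j => ρ ⟨b * h j * b⁻¹, hh' j⟩) (by
    intro i j hij hrk
    obtain ⟨h1, h2⟩ := mem_kerA.1 (hc i j hij hrk b)
    rw [key i j]
    have h3 : ρ ⟨_, hmem i j⟩ = 1 := h2
    rw [h3, one_mul])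
  refine ⟨i, mem_kerA.2 ⟨hmem2 i, ?_⟩⟩
  have hi' : ρ ⟨b * g i * b⁻¹, hg' i⟩ ^ 2 * ρ ⟨b * h i * b⁻¹, hh' i⟩ ^ 2 =
    ρ ⟨b * h i * b⁻¹, hh' i⟩ ^ 2 * ρ ⟨b * g i * b⁻¹, hg' i⟩ ^ 2 := hi
  have e : (⟨_, hmem2 i⟩ : Γ) = ⟨b * g i * b⁻¹, hg' i⟩ ^ 2 * ⟨b * h i * b⁻¹, hh' i⟩ ^ 2 *
      (⟨b * h i * b⁻¹, hh' i⟩ ^ 2 * ⟨b * g i * b⁻¹, hg' i⟩ ^ 2)⁻¹ := by
    ext1
    show b * (g i ^ 2 * h i ^ 2 * (g i ^ 2)⁻¹ * (h i ^ 2)⁻¹) * b⁻¹ =
      (b * g i * b⁻¹) ^ 2 * (b * h i * b⁻¹) ^ 2 *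
      ((b * h i * b⁻¹) ^ 2 * (b * g i * b⁻¹) ^ 2)⁻¹
    rw [conj_pow, conj_pow]
    group
  rw [e, map_mul, map_inv, map_mul, map_mul, map_pow, map_pow, hi', mul_inv_cancel]

/-- The doubled family with a middle pair. -/
lemma doubleK2 [hN : Γ.Normal] {r : ℕ} (hH : NoTri2Fam r H) {J : Type} [Finite J]
    (hr : r ≤ 2 * Nat.card J + 2)
    (u v : J → MulAut (FreeGroup ι)) (x y b : MulAut (FreeGroup ι))
    (hu : ∀ j, u j ∈ Γ) (hv : ∀ j, v j ∈ Γ) (hx : x ∈ Γ) (hy : y ∈ Γ)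
    (huu : ∀ i j, u i * u j * (u i)⁻¹ * (u j)⁻¹ ∈ (kerA Γ ρ).normalCore)
    (huv : ∀ i j, i ≠ j → u i * v j * (u i)⁻¹ * (v j)⁻¹ ∈ (kerA Γ ρ).normalCore)
    (hux : ∀ i, u i * x * (u i)⁻¹ * x⁻¹ ∈ (kerA Γ ρ).normalCore)
    (huy : ∀ i, u i * y * (u i)⁻¹ * y⁻¹ ∈ (kerA Γ ρ).normalCore) :
    (∃ i, b * (u i ^ 2 * v i ^ 2 * (u i ^ 2)⁻¹ * (v i ^ 2)⁻¹) * b⁻¹ ∈ kerA Γ ρ) ∨
      b * (x ^ 2 * y ^ 2 * (x ^ 2)⁻¹ * (y ^ 2)⁻¹) * b⁻¹ ∈ kerA Γ ρ := by
  set N := (kerA Γ ρ).normalCore with hNdef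
  have hinv : ∀ p q : MulAut (FreeGroup ι), p * q * p⁻¹ * q⁻¹ ∈ N → q * p * q⁻¹ * p⁻¹ ∈ N := by
    intro p q h
    have := N.inv_mem h
    convert this using 1
    group
  have hinvK : ∀ p q : MulAut (FreeGroup ι), b * (p * q * p⁻¹ * q⁻¹) * b⁻¹ ∈ kerA Γ ρ →
      b * (q * p * q⁻¹ * p⁻¹) * b⁻¹ ∈ kerA Γ ρ := by
    intro p q h
    have := (kerA Γ ρ).inv_mem h
    convert this using 1
    group
  have hself : ∀ p : MulAut (FreeGroup ι), p * p * p⁻¹ * p⁻¹ ∈ N := by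
    intro p
    convert N.one_mem using 1
    group
  let rk : (J ⊕ J) ⊕ Bool → ℕ := Sum.elim (Sum.elim (fun _ => 0) (fun _ => 3))
    (fun t => if t then 1 else 2)
  let G : (J ⊕ J) ⊕ Bool → MulAut (FreeGroup ι) := Sum.elim (Sum.elim u v)
    (fun t => if t then x else y)
  let L : (J ⊕ J) ⊕ Bool → MulAut (FreeGroup ι) := Sum.elim (Sum.elim v u)
    (fun t => if t then y else x)
  have hcard : r ≤ Nat.card ((J ⊕ J) ⊕ Bool) := by
    rw [Nat.card_sum, Nat.card_sum, Nat.card_eq_fintype_card (α := Bool), Fintype.card_bool]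
    omega
  obtain ⟨i, hi⟩ := triK2 (ρ := ρ) (hH _ hcard) rk G L b
    (by rintro ((j | j) | (_ | _)) <;> simp [G, hu, hv, hx, hy])
    (by rintro ((j | j) | (_ | _)) <;> simp [L, hu, hv, hx, hy])
    (by
      rintro ((i | i) | (_ | _)) ((j | j) | (_ | _)) hij hrk
      · exact huv i j (fun h => hij (by rw [h]))
      · exact huu i j
      · exact hux i
      · exact huy i
      · simp [rk] at hrk
      · exact hinv _ _ (huv j i (fun h => hij (by rw [h])))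
      · simp [rk] at hrk
      · simp [rk] at hrk
      · simp [rk] at hrk
      · exact hinv _ _ (huy j)
      · exact absurd rfl hij
      · simp [rk] at hrk
      · simp [rk] at hrk
      · exact hinv _ _ (hux j)
      · exact hself x
      · exact absurd rfl hij)
  rcases i with ((i | i) | (_ | _))
  · exact Or.inl ⟨i, hi⟩
  · exact Or.inl ⟨i, hinvK _ _ hi⟩
  · exact Or.inr (hinvK _ _ hi)
  · exact Or.inr hi

/-- The first conclusion for the normal core. -/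
lemma cck_core [hN : Γ.Normal] (hIA : IA (FreeGroup ι) ≤ Γ) (hC : NoCube (Fintype.card ι - 3) H)
    (hfin : ∀ (ρ' : Γ →* H) (i j k : ι), i ≠ j → i ≠ k →
      IsOfFinOrder ⁅RR hIA ρ' i (of j), RR hIA ρ' i (of k)⁆) (ρ : Γ →* H) :
    ∀ i j k, i ≠ j → i ≠ k → cc i ⁅of j, of k⁆ ∈ (kerA Γ ρ).normalCore := by
  intro i j k hij hik b
  have h1 := cck_of_fin hIA (twist b ρ) hC hij hik (hfin (twist b ρ) i j k hij hik)
  rw [← map_commutatorElement, RR_apply hIA _ i _ (hIA (cc_mem_IA _ _))] at h1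
  have h2 : b * cc i ⁅of j, of k⁆ * b⁻¹ ∈ Γ := hN.conj_mem _ (hIA (cc_mem_IA _ _)) b
  exact mem_kerA.2 ⟨h2, h1⟩

/-- **The linear step, up to squares.** -/
theorem step_of_cck [hN : Γ.Normal] [hfi : Γ.FiniteIndex] (h4 : 4 ≤ Fintype.card ι)
    (hIA : IA (FreeGroup ι) ≤ Γ)
    (ρ : Γ →* H) (hinn : ∀ g (h : MulAut.conj g ∈ Γ), ρ ⟨MulAut.conj g, h⟩ = 1)
    (hH : NoTri2Fam (2 * Fintype.card ι - 4) H)
    (hcck : ∀ i j k, i ≠ j → i ≠ k → cc i ⁅of j, of k⁆ ∈ (kerA Γ ρ).normalCore) :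
    ∃ M, Step ((kerA Γ ρ).normalCore) M := by
  set K := kerA Γ ρ with hK
  set N := K.normalCore with hNdef
  have hmN : ∀ x, x ∈ N ↔ ∀ b, b * x * b⁻¹ ∈ K := fun x => Iff.rfl
  have hNnorm : N.Normal := Subgroup.normalCore_normal K
  have hcomm1 : ∀ p q : MulAut (FreeGroup ι), p * q = q * p → p * q * p⁻¹ * q⁻¹ ∈ N := by
    intro p q h
    rw [h]
    convert N.one_mem using 1
    group
  have hIK : ∀ g, MulAut.conj g ∈ N := by
    intro g
    rw [hmN]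
    intro b
    have e : b * MulAut.conj g * b⁻¹ = MulAut.conj (b g) := by
      rw [mul_inv_eq_iff_eq_mul]
      ext x
      simp [MulAut.conj_apply]
    rw [e]
    exact mem_kerA.2 ⟨hIA (conj_mem_IA _), hinn _ _⟩
  -- the quotient homomorphism
  let q : MulAut (FreeGroup ι) →* MulAut (FreeGroup ι) ⧸ N := QuotientGroup.mk' N
  have hq1 : ∀ x, q x = 1 ↔ x ∈ N := fun x => QuotientGroup.eq_one_iff x
  have hqc : ∀ x y, Commute (q x) (q y) → x * y * x⁻¹ * y⁻¹ ∈ N := by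
    intro x y h
    rw [← hq1, map_mul, map_mul, map_mul, map_inv, map_inv, h.eq]
    group
  have hkills : Kills q := ⟨fun g => (hq1 _).2 (hIK g),
    fun i j k h1 h2 => (hq1 _).2 (hcck i j k h1 h2)⟩
  let m := Γ.index
  have hm0 : 0 < m := Nat.pos_of_ne_zero hfi.index_ne_zero
  have hpow : ∀ a : MulAut (FreeGroup ι), a ^ m ∈ Γ := fun a => Γ.pow_index_mem a
  have hNK : N ≤ K := Subgroup.normalCore_le K
  -- step 2a
  have h2a : ∀ i p l, i ≠ p → i ≠ l → p ≠ l → rr i ⁅of p ^ (4 * m * m), of l⁆ ∈ N := by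
    intro i p l hip hil hpl
    rw [hmN]
    intro b
    have hr : 2 * Fintype.card ι - 4 ≤ 2 * Nat.card {c : ι // c ≠ i ∧ c ≠ p ∧ c ≠ l} + 2 := by
      have := card_ne3 i p l
      omega
    have hT : (rr i ⁅of p ^ m, of l⁆) ^ (4 * m) * (rr i ⁅of p ^ (4 * m * m), of l⁆)⁻¹ ∈ N := by
      rw [← hq1, map_mul, map_inv, map_pow, mul_inv_eq_one]
      show (tt q i (of p ^ m) (of l)) ^ (4 * m) = tt q i (of p ^ (4 * m * m)) (of l)
      rw [mul_comm (4 * m) m, pow_mul (of p), hkills.tt_pow_left i (of p ^ m)]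
    have hfin : b * (rr i ⁅of p ^ m, of l⁆) ^ 4 * b⁻¹ ∈ K →
        b * rr i ⁅of p ^ (4 * m * m), of l⁆ * b⁻¹ ∈ K := by
      intro h
      have h1 := K.pow_mem h m
      rw [conj_pow, ← pow_mul] at h1
      have h2 := hNK (hNnorm.conj_mem _ hT b)
      have h3 := K.mul_mem (K.inv_mem h2) h1
      convert h3 using 1
      group
    rcases doubleK2 (ρ := ρ) hH hr (fun c : {c : ι // c ≠ i ∧ c ≠ p ∧ c ≠ l} =>
        rr i ⁅of (c : ι), of l⁆) (fun c => rr (c : ι) (of p ^ m)) (rr i (of p ^ m))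
      (rr i (of l ^ m)) b
      (fun c => hIA (rr_comm_mem_IA _ _ _)) (fun c => by rw [map_pow]; exact hpow _)
      (by rw [map_pow]; exact hpow _) (by rw [map_pow]; exact hpow _) (by
        rintro ⟨c, hc1, hc2, hc3⟩ ⟨d, hd1, hd2, hd3⟩
        apply hqc
        exact hkills.tt_comm i (of c) (of l) (of d) (of l)) (by
        rintro ⟨d, hd1, hd2, hd3⟩ ⟨c, hc1, hc2, hc3⟩ hcd
        apply hcomm1
        have hcd' : d ≠ c := fun h => hcd (by subst h; rfl)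
        have hk : kil i (of p ^ m) = of p ^ m := by rw [map_pow, kil_ne (Ne.symm hip)]
        have := (pres_rr (i := i) (p := c) (Ne.symm hc1) hk).rr ⁅of d, of l⁆
        rw [mul_inv_eq_iff_eq_mul, rr_fix c _ (kil_comm_of hcd' (Ne.symm hc3))] at this
        exact this.symm) (by
        rintro ⟨c, hc1, hc2, hc3⟩
        apply hqc
        exact hkills.tt_rr i (of c) (of l) _) (by
        rintro ⟨c, hc1, hc2, hc3⟩
        apply hqc
        exact hkills.tt_rr i (of c) (of l) _) with ⟨⟨c, hc1, hc2, hc3⟩, hc⟩ | hc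
    · apply hfin
      have hk : kil i (of p ^ m) = of p ^ m := by rw [map_pow, kil_ne (Ne.symm hip)]
      have hk2 : kil c (of p ^ m) = of p ^ m := by rw [map_pow, kil_ne (Ne.symm hc2)]
      have e1 : rr c (of p ^ m) ^ 2 * rr i ⁅of c, of l⁆ ^ 2 * (rr c (of p ^ m) ^ 2)⁻¹ =
          (rr i ⁅of c * of p ^ (m + m), of l⁆) ^ 2 := by
        have hk3 : kil i (of p ^ (m + m)) = of p ^ (m + m) := by
          rw [map_pow, kil_ne (Ne.symm hip)]
        have hk4 : kil c (of p ^ (m + m)) = of p ^ (m + m) := by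
          rw [map_pow, kil_ne (Ne.symm hc2)]
        have e0 : rr c (of p ^ m) ^ 2 = rr c (of p ^ (m + m)) := by
          rw [← map_pow, ← pow_mul]
          congr 2
          omega
        rw [e0, ← conj_pow, (pres_rr (i := i) (p := c) (Ne.symm hc1) hk3).rr,
          map_commutatorElement, rr_self, rr_ne (Ne.symm hc3), hk4]
      have e2 : (rr i ⁅of c, of l⁆ ^ 2 * rr c (of p ^ m) ^ 2 * (rr i ⁅of c, of l⁆ ^ 2)⁻¹ *
          (rr c (of p ^ m) ^ 2)⁻¹) * rr i ⁅of p ^ m, of l⁆ ^ 4 ∈ N := by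
        have e1' : rr i ⁅of c, of l⁆ ^ 2 * rr c (of p ^ m) ^ 2 * (rr i ⁅of c, of l⁆ ^ 2)⁻¹ *
          (rr c (of p ^ m) ^ 2)⁻¹ =
            rr i ⁅of c, of l⁆ ^ 2 * ((rr i ⁅of c * of p ^ (m + m), of l⁆) ^ 2)⁻¹ := by
          rw [← e1]; group
        rw [← hq1, e1', map_mul, map_mul, map_inv, map_pow, map_pow, map_pow]
        show (tt q i (of c) (of l)) ^ 2 * ((tt q i (of c * of p ^ (m + m)) (of l)) ^ 2)⁻¹ *
          (tt q i (of p ^ m) (of l)) ^ 4 = 1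
        have hcm := hkills.tt_comm i (of c) (of l) (of p ^ m) (of l)
        have e6 : tt q i (of c * of p ^ (m + m)) (of l) =
            tt q i (of c) (of l) * (tt q i (of p ^ m) (of l)) ^ 2 := by
          rw [pow_add, hkills.tt_mul_left, hkills.tt_mul_left, pow_two]
        rw [e6, (hcm.pow_right 2).mul_pow, ← pow_mul]
        have hcm2 : Commute (tt q i (of c) (of l) ^ 2) (tt q i (of p ^ m) (of l) ^ (2 * 2)) :=
          (hcm.pow_left 2).pow_right _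
        rw [hcm2.eq]
        group
      have e3 := hNK (hNnorm.conj_mem _ e2 b)
      have e4 := K.mul_mem (K.inv_mem hc) e3
      convert e4 using 1
      group
    · have e2 : (rr i (of p ^ m) ^ 2 * rr i (of l ^ m) ^ 2 * (rr i (of p ^ m) ^ 2)⁻¹ *
          (rr i (of l ^ m) ^ 2)⁻¹)⁻¹ * rr i ⁅of p ^ (4 * m * m), of l⁆ ∈ N := by
        have e1 : rr i (of p ^ m) ^ 2 * rr i (of l ^ m) ^ 2 * (rr i (of p ^ m) ^ 2)⁻¹ *
            (rr i (of l ^ m) ^ 2)⁻¹ = rr i ⁅of p ^ (m * 2), of l ^ (m * 2)⁆ := by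
          rw [map_commutatorElement, pow_mul, pow_mul, map_pow (rr i) (of p ^ m),
            map_pow (rr i) (of l ^ m)]
          rfl
        rw [e1, ← hq1, map_mul, map_inv, inv_mul_eq_one]
        show tt q i (of p ^ (m * 2)) (of l ^ (m * 2)) = tt q i (of p ^ (4 * m * m)) (of l)
        rw [hkills.tt_swap i (of l ^ (m * 2)) (of p ^ (m * 2)), hkills.tt_pow_left,
          hkills.tt_swap i (of p ^ (m * 2)) (of l), hkills.tt_pow_left, hkills.tt_pow_left,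
          inv_pow, inv_inv, ← pow_mul]
        congr 1
        ring
      have e3 := hNK (hNnorm.conj_mem _ e2 b)
      have e4 := K.mul_mem hc e3
      convert e4 using 1
      group
  have h2a' : ∀ i p l, i ≠ p → q (rr i ⁅of p ^ (4 * m * m), of l⁆) = 1 := by
    intro i p l hip
    by_cases hil : i = l
    · subst hil
      exact hkills.tt_self' i _
    by_cases hpl : p = l
    · subst hpl
      have : ⁅of p ^ (4 * m * m), of p⁆ = (1 : FreeGroup ι) := by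
        rw [commutatorElement_eq_one_iff_commute]
        exact (Commute.refl _).pow_left _
      rw [this, map_one, map_one]
    · exact (hq1 _).2 (h2a i p l hip hil hpl)
  -- step 2b
  obtain ⟨m2, hm2⟩ : ∃ m2, m2 = 4 * m * m := ⟨_, rfl⟩
  rw [← hm2] at h2a'
  have hm20 : 0 < m2 := by rw [hm2]; positivity
  have hpow2 : ∀ a : MulAut (FreeGroup ι), a ^ m2 ∈ Γ := fun a => by
    rw [hm2, pow_mul]; exact hpow _
  have h2b : ∀ i p, i ≠ p → (rr i (of p)) ^ (4 * m2 * m2) ∈ N := by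
    intro i p hip
    obtain ⟨l, hli, hlp, -⟩ := exists_ne3 h4 i p p
    rw [hmN]
    intro b
    have hr : 2 * Fintype.card ι - 4 ≤ 2 * Nat.card {c : ι // c ≠ i ∧ c ≠ p ∧ c ≠ l} + 2 := by
      have := card_ne3 i p l
      omega
    have hcom : ∀ c d, c ≠ i → d ≠ i →
        Commute (q (rr i (of c ^ m2))) (q (rr i (of d))) := by
      intro c d hc hd
      have := h2a' i c d (Ne.symm hc)
      rwa [map_commutatorElement, map_commutatorElement,
        commutatorElement_eq_one_iff_commute] at this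
    have hcom2 : ∀ c d, c ≠ i → d ≠ i →
        Commute (q (rr i (of c ^ m2))) (q (rr i (of d ^ m2))) := by
      intro c d hc hd
      rw [map_pow (rr i) (of d), map_pow q]
      exact (hcom c d hc hd).pow_right _
    have hk : kil i (of p ^ m2) = of p ^ m2 := by rw [map_pow, kil_ne (Ne.symm hip)]
    -- the key computation
    have key : ∀ c, c ≠ i → c ≠ p → b * (rr i (of c ^ m2) ^ 2 * rr c (of p ^ m2) ^ 2 *
        (rr i (of c ^ m2) ^ 2)⁻¹ * (rr c (of p ^ m2) ^ 2)⁻¹) * b⁻¹ ∈ K →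
        b * (rr i (of p)) ^ (4 * m2 * m2) * b⁻¹ ∈ K := by
      intro c hc1 hc2 hc
      have e1 : rr c (of p ^ m2) ^ 2 * rr i (of c ^ m2) ^ 2 * (rr c (of p ^ m2) ^ 2)⁻¹ =
          rr i ((of c * of p ^ (m2 * 2)) ^ (m2 * 2)) := by
        have hk3 : kil i (of p ^ (m2 * 2)) = of p ^ (m2 * 2) := by
          rw [map_pow, kil_ne (Ne.symm hip)]
        have hk4 : kil c (of p ^ (m2 * 2)) = of p ^ (m2 * 2) := by
          rw [map_pow, kil_ne (Ne.symm hc2)]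
        rw [← map_pow, ← map_pow, ← pow_mul, ← pow_mul,
          (pres_rr (i := i) (p := c) (Ne.symm hc1) hk3).rr, map_pow, rr_self, hk4]
      have hcomm : Commute (q (rr i (of c))) (q (rr i (of p ^ (m2 * 2)))) := by
        rw [pow_mul, map_pow (rr i), map_pow q]
        exact ((hcom p c (Ne.symm hip) hc1).symm).pow_right 2
      have e5 : q (rr i ((of c * of p ^ (m2 * 2)) ^ (m2 * 2))) =
          q (rr i (of c)) ^ (m2 * 2) * (q (rr i (of p))) ^ (4 * m2 * m2) := by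
        calc q (rr i ((of c * of p ^ (m2 * 2)) ^ (m2 * 2)))
            = (q (rr i (of c)) * q (rr i (of p ^ (m2 * 2)))) ^ (m2 * 2) := by
              rw [map_pow (rr i), map_pow q, map_mul (rr i), map_mul q]
          _ = q (rr i (of c)) ^ (m2 * 2) * (q (rr i (of p ^ (m2 * 2)))) ^ (m2 * 2) :=
              hcomm.mul_pow _
          _ = _ := by
              rw [map_pow (rr i) (of p), map_pow q, ← pow_mul]
              congr 2
              ring
      have e2 : (rr i (of c ^ m2) ^ 2 * rr c (of p ^ m2) ^ 2 *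
          (rr i (of c ^ m2) ^ 2)⁻¹ * (rr c (of p ^ m2) ^ 2)⁻¹) *
            (rr i (of p)) ^ (4 * m2 * m2) ∈ N := by
        have e1' : rr i (of c ^ m2) ^ 2 * rr c (of p ^ m2) ^ 2 * (rr i (of c ^ m2) ^ 2)⁻¹ *
            (rr c (of p ^ m2) ^ 2)⁻¹ =
            rr i (of c ^ m2) ^ 2 * (rr i ((of c * of p ^ (m2 * 2)) ^ (m2 * 2)))⁻¹ := by
          rw [← e1]; group
        rw [← hq1, e1', map_mul, map_mul, map_inv, e5, map_pow, map_pow, map_pow, map_pow,
          ← pow_mul]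
        have hcomm2 : Commute (q (rr i (of c)) ^ (m2 * 2)) (q (rr i (of p)) ^ (4 * m2 * m2)) := by
          have : q (rr i (of p)) ^ (4 * m2 * m2) = (q (rr i (of p ^ (m2 * 2)))) ^ (m2 * 2) := by
            rw [map_pow, map_pow, ← pow_mul]
            congr 1
            ring
          rw [this]
          exact (hcomm.pow_left _).pow_right _
        rw [hcomm2.eq]
        group
      have e3 := hNK (hNnorm.conj_mem _ e2 b)
      have e4 := K.mul_mem (K.inv_mem hc) e3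
      convert e4 using 1
      group
    rcases doubleK2 (ρ := ρ) hH hr (fun c : {c : ι // c ≠ i ∧ c ≠ p ∧ c ≠ l} =>
        rr i (of (c : ι) ^ m2)) (fun c => rr (c : ι) (of p ^ m2)) (rr i (of l ^ m2))
        (rr l (of p ^ m2)) b
      (fun c => by rw [map_pow]; exact hpow2 _) (fun c => by rw [map_pow]; exact hpow2 _)
      (by rw [map_pow]; exact hpow2 _) (by rw [map_pow]; exact hpow2 _) (by
        rintro ⟨c, hc1, hc2, hc3⟩ ⟨d, hd1, hd2, hd3⟩
        apply hqc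
        exact hcom2 c d hc1 hd1) (by
        rintro ⟨d, hd1, hd2, hd3⟩ ⟨c, hc1, hc2, hc3⟩ hcd
        apply hcomm1
        have hcd' : d ≠ c := fun h => hcd (by subst h; rfl)
        have := (pres_rr (i := i) (p := c) (Ne.symm hc1) hk).rr (of d ^ m2)
        rw [mul_inv_eq_iff_eq_mul, rr_fix c _ (by rw [map_pow, kil_ne hcd'])] at this
        exact this.symm) (by
        rintro ⟨c, hc1, hc2, hc3⟩
        apply hqc
        exact hcom2 c l hc1 hli) (by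
        rintro ⟨c, hc1, hc2, hc3⟩
        apply hcomm1
        have := (pres_rr (i := i) (p := l) (Ne.symm hli) hk).rr (of c ^ m2)
        rw [mul_inv_eq_iff_eq_mul, rr_fix l _ (by rw [map_pow, kil_ne hc3])] at this
        exact this.symm) with ⟨⟨c, hc1, hc2, hc3⟩, hc⟩ | hc
    · exact key c hc1 hc2 hc
    · exact key l hli hlp hc
  exact ⟨4 * m2 * m2, by positivity, hIK, hcck, h2b⟩

/-- The linear step for the weaker bound. -/
theorem step_of_noTri2 [hN : Γ.Normal] [hfi : Γ.FiniteIndex] (h4 : 4 ≤ Fintype.card ι)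
    (hIA : IA (FreeGroup ι) ≤ Γ)
    (ρ : Γ →* H) (hinn : ∀ g (h : MulAut.conj g ∈ Γ), ρ ⟨MulAut.conj g, h⟩ = 1)
    (hH : NoTri2Fam (2 * Fintype.card ι - 6) H) (hC : NoCube (Fintype.card ι - 3) H) :
    ∃ M, Step ((kerA Γ ρ).normalCore) M :=
  step_of_cck h4 hIA ρ hinn (fun J _ hJ => hH J (by omega))
    (cck_core hIA hC (fun ρ' i j k hij hik => fin_order hIA h4 hH hij hik _ ρ' rfl) ρ)

end

end Pool.Agent.Helper460_OutF
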