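import Pool.Agent.Helper460_OutF.Lin6
import Pool.Agent.Helper460_OutF.Lin3

set_option autoImplicit false
set_option linter.unusedSectionVars false
set_option linter.unusedSimpArgs false

namespace Pool.Agent.Helper460_OutF

open FreeGroup (of)
open scoped commutatorElement Pointwise

variable {ι : Type} [DecidableEq ι] [Fintype ι] {H : Type} [Group H]
  {Γ : Subgroup (MulAut (FreeGroup ι))} {ρ : Γ →* H}

/-- The linear step, up to squares, with the better bound. -/
theorem step_sharp [hN : Γ.Normal] [hfi : Γ.FiniteIndex] (h4 : 4 ≤ Fintype.card ι)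
    (hIA : IA (FreeGroup ι) ≤ Γ)
    (ρ : Γ →* H) (hinn : ∀ g (h : MulAut.conj g ∈ Γ), ρ ⟨MulAut.conj g, h⟩ = 1)
    (hH : NoTri2Fam (2 * Fintype.card ι - 5) H) (hC : NoCube (Fintype.card ι - 3) H)
    (hU : NoCubeU (Fintype.card ι - 3) H) :
    ∃ M, Step ((kerA Γ ρ).normalCore) M :=
  step_of_cck h4 hIA ρ hinn (fun J _ hJ => hH J (by omega))
    (cck_core hIA hC (fun ρ' i j k hij hik => fin_comm_RR hIA h4
      (Nat.pos_of_ne_zero hfi.index_ne_zero) hH hC hU ρ' hij hik) ρ)

end Pool.Agent.Helper460_OutF
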