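import Pool.Agent.Helper460_OutF.SurfMain2

set_option autoImplicit false
set_option linter.unusedSectionVars false
set_option linter.unusedSimpArgs false

namespace Pool.Agent.Helper460_OutF

open FreeGroup (of)

variable {ι : Type} [DecidableEq ι] [Fintype ι] {g p : ℕ}

instance Torelli_normal (G : Type) [Group G] : (Torelli G).Normal := by
  constructor
  rintro _ ⟨α, hα, rfl⟩ y
  obtain ⟨β, rfl⟩ := QuotientGroup.mk_surjective y
  exact ⟨β * α * β⁻¹, (IA_normal G).conj_mem α hα β, rfl⟩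

/-- The orbit of a conjugacy class under the Torelli subgroup. -/
def orbT (Γ : Subgroup (Out (FreeGroup ι))) (φ : Γ →* MCGo g p) (c : ConjClasses (SG g p)) :
    Set (ConjClasses (SG g p)) :=
  {d | ∃ t : Γ, (t : Out (FreeGroup ι)) ∈ Torelli (FreeGroup ι) ∧
    outConj _ (φ t : Out (SG g p)) c = d}

lemma outConj_mul (Γ : Subgroup (Out (FreeGroup ι))) (φ : Γ →* MCGo g p) (x y : Γ)
    (c : ConjClasses (SG g p)) : outConj _ (φ (x * y) : Out (SG g p)) c =
      outConj _ (φ x : Out (SG g p)) (outConj _ (φ y : Out (SG g p)) c) := by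
  rw [map_mul, Subgroup.coe_mul, map_mul]; rfl

lemma outConj_inv_eq (Γ : Subgroup (Out (FreeGroup ι))) (φ : Γ →* MCGo g p) (x : Γ)
    {c d : ConjClasses (SG g p)} (h : outConj _ (φ x : Out (SG g p)) c = d) :
    outConj _ (φ x⁻¹ : Out (SG g p)) d = c := by
  rw [← h, ← outConj_mul, inv_mul_cancel, map_one, Subgroup.coe_one, map_one]; rfl

/-- The subgroup preserving the Torelli orbits of the punctures. -/
def GT (Γ : Subgroup (Out (FreeGroup ι))) (φ : Γ →* MCGo g p) : Subgroup (Out (FreeGroup ι)) where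
  carrier := {x | ∃ h : x ∈ Γ, ∀ c ∈ peri g p, outConj _ (φ ⟨x, h⟩ : Out (SG g p)) c ∈ orbT Γ φ c}
  mul_mem' := by
    rintro x y ⟨hx, hx2⟩ ⟨hy, hy2⟩
    refine ⟨Γ.mul_mem hx hy, fun c hc => ?_⟩
    obtain ⟨t, ht, e⟩ := hy2 c hc
    obtain ⟨t', ht', e'⟩ := hx2 c hc
    refine ⟨⟨x, hx⟩ * t * ⟨x, hx⟩⁻¹ * t', ?_, ?_⟩
    · exact (Torelli (FreeGroup ι)).mul_mem ((Torelli_normal _).conj_mem _ ht _) ht'
    · have h1 : outConj _ (φ ⟨x * y, Γ.mul_mem hx hy⟩ : Out (SG g p)) c =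
          outConj _ (φ ⟨x, hx⟩ : Out (SG g p)) (outConj _ (φ ⟨y, hy⟩ : Out (SG g p)) c) :=
        outConj_mul Γ φ ⟨x, hx⟩ ⟨y, hy⟩ c
      rw [h1, outConj_mul, outConj_mul, outConj_mul, e', ← e]
      congr 1
      congr 1
      exact outConj_inv_eq Γ φ ⟨x, hx⟩ rfl
  one_mem' := by
    refine ⟨Γ.one_mem, fun c _ => ⟨1, (Torelli (FreeGroup ι)).one_mem, rfl⟩⟩
  inv_mem' := by
    rintro x ⟨hx, hx2⟩
    refine ⟨Γ.inv_mem hx, fun c hc => ?_⟩
    obtain ⟨t, ht, e⟩ := hx2 c hc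
    refine ⟨⟨x, hx⟩⁻¹ * t⁻¹ * ⟨x, hx⟩, ?_, ?_⟩
    · have := (Torelli_normal (FreeGroup ι)).conj_mem _
        ((Torelli (FreeGroup ι)).inv_mem ht) x⁻¹
      rw [inv_inv] at this
      exact this
    · have h1 : outConj _ (φ ⟨x⁻¹, Γ.inv_mem hx⟩ : Out (SG g p)) c =
          outConj _ (φ (⟨x, hx⟩⁻¹ : Γ) : Out (SG g p)) c := rfl
      rw [h1, outConj_mul, outConj_mul, ← e]
      congr 1
      exact outConj_inv_eq Γ φ t rfl

lemma GT_le (Γ : Subgroup (Out (FreeGroup ι))) (φ : Γ →* MCGo g p) : GT Γ φ ≤ Γ :=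
  fun _ h => h.1

lemma Torelli_le_GT (Γ : Subgroup (Out (FreeGroup ι))) (φ : Γ →* MCGo g p)
    (hT : Torelli (FreeGroup ι) ≤ Γ) : Torelli (FreeGroup ι) ≤ GT Γ φ :=
  fun x hx => ⟨hT hx, fun _ _ => ⟨⟨x, hT hx⟩, hx, rfl⟩⟩

/-- The action on the punctures. -/
def periAct (Γ : Subgroup (Out (FreeGroup ι))) (φ : Γ →* MCGo g p) : Γ →* Equiv.Perm (peri g p) where
  toFun x :=
    { toFun := fun c => ⟨outConj _ (φ x : Out (SG g p)) c, ((mem_MCGo_iff _).1 (φ x).2 c).2 c.2⟩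
      invFun := fun c => ⟨outConj _ (φ x⁻¹ : Out (SG g p)) c,
        ((mem_MCGo_iff _).1 (φ x⁻¹).2 c).2 c.2⟩
      left_inv := fun c => Subtype.ext (outConj_inv_eq Γ φ x rfl)
      right_inv := fun c => Subtype.ext (by
        have := outConj_inv_eq Γ φ x⁻¹ (c := c) rfl
        rw [inv_inv] at this
        exact this) }
  map_one' := by
    ext1 c
    ext1
    show outConj _ (φ 1 : Out (SG g p)) (c : ConjClasses (SG g p)) = c
    rw [map_one, Subgroup.coe_one, map_one]; rfl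
  map_mul' := by
    intro x y
    ext1 c
    ext1
    exact outConj_mul Γ φ x y c

lemma GT_finiteIndex (Γ : Subgroup (Out (FreeGroup ι))) [hfi : Γ.FiniteIndex]
    (φ : Γ →* MCGo g p) : (GT Γ φ).FiniteIndex := by
  have hperiFin : (peri g p).Finite := Set.finite_range _
  have _i1 : Finite (peri g p) := hperiFin
  have hK : ((periAct Γ φ).ker).FiniteIndex := inferInstance
  have hle : (periAct Γ φ).ker.map Γ.subtype ≤ GT Γ φ := by
    rintro _ ⟨x, hx, rfl⟩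
    refine ⟨x.2, fun c hc => ⟨1, (Torelli (FreeGroup ι)).one_mem, ?_⟩⟩
    have h1 := congrArg (fun σ : Equiv.Perm (peri g p) => ((σ ⟨c, hc⟩ : peri g p) :
      ConjClasses (SG g p))) ((MonoidHom.mem_ker).1 hx)
    have h2 : outConj _ (φ x : Out (SG g p)) c = c := h1
    have h3 : outConj _ (φ ⟨(x : Out (FreeGroup ι)), x.2⟩ : Out (SG g p)) c = c := h2
    show outConj _ (φ 1 : Out (SG g p)) c = outConj _ (φ ⟨(x : Out (FreeGroup ι)), x.2⟩ :
      Out (SG g p)) c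
    rw [h3, map_one, Subgroup.coe_one, map_one]; rfl
  have hmap : ((periAct Γ φ).ker.map Γ.subtype).FiniteIndex := by
    refine ⟨?_⟩
    rw [Subgroup.index_map_subtype]
    exact mul_ne_zero hK.index_ne_zero hfi.index_ne_zero
  exact Subgroup.finiteIndex_of_le hle

/-- Finite image can be tested on a finite-index subgroup. -/
lemma finite_range_of_sub {G G' : Type} [Group G] [Group G'] (A B : Subgroup G) (h : B ≤ A)
    [hB : B.FiniteIndex] (φ : A →* G') (hf : Finite (φ.comp (Subgroup.inclusion h)).range) :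
    Finite φ.range := by
  have h1 : ((φ.comp (Subgroup.inclusion h)).ker).FiniteIndex := inferInstance
  have h2 : (((φ.comp (Subgroup.inclusion h)).ker).map B.subtype).FiniteIndex := by
    refine ⟨?_⟩
    rw [Subgroup.index_map_subtype]
    exact mul_ne_zero h1.index_ne_zero hB.index_ne_zero
  have h3 : ((φ.comp (Subgroup.inclusion h)).ker).map B.subtype ≤ φ.ker.map A.subtype := by
    rintro _ ⟨x, hx, rfl⟩
    exact ⟨⟨x, h x.2⟩, hx, rfl⟩
  have h4 : (φ.ker.map A.subtype).FiniteIndex := Subgroup.finiteIndex_of_le h3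
  have h5 : φ.ker.FiniteIndex := by
    refine ⟨?_⟩
    have := h4.index_ne_zero
    rw [Subgroup.index_map_subtype] at this
    exact left_ne_zero_of_mul this
  exact Finite.of_equiv _ (QuotientGroup.quotientKerEquivRange φ).toEquiv

/-- **Main theorem for surfaces, with Torelli orbits.** -/
theorem main_surface3 (h4 : 4 ≤ Fintype.card ι)
    (hTG : TG (SG g p)) (hAb : AbQ (SG g p))
    (Γ : Subgroup (Out (FreeGroup ι))) [hfi : Γ.FiniteIndex]
    (hT : Torelli (FreeGroup ι) ≤ Γ) (φ : Γ →* MCGo g p)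
    (horb : ∀ c ∈ peri g p, (orbT Γ φ c).ncard ≤ 2 ^ (Fintype.card ι - 2))
    (hlinear : ∀ (Γ0 : Subgroup (MulAut (FreeGroup ι))) [Γ0.Normal] [Γ0.FiniteIndex]
      (_ : IA (FreeGroup ι) ≤ Γ0) (Φ0 : Γ0 →* MCGo g p)
      (_ : ∀ g (h : MulAut.conj g ∈ Γ0), Φ0 ⟨MulAut.conj g, h⟩ = 1)
      (_ : ∀ x : Γ0, ∃ y : Γ, Φ0 x = φ y),
      ∃ M, 0 < M ∧ N1 ι M ≤ kerA Γ0 ((actV g p).comp Φ0)) :
    Finite φ.range := by
  have hGT := GT_finiteIndex Γ φ
  apply finite_range_of_sub Γ (GT Γ φ) (GT_le Γ φ) φ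
  apply main_surface2 h4 hTG hAb (GT Γ φ) (Torelli_le_GT Γ φ hT)
  · intro c hc
    refine le_trans (Set.ncard_le_ncard ?_ ?_) (horb c hc)
    · rintro _ ⟨x, rfl⟩
      exact x.2.2 c hc
    · have hperiFin : (peri g p).Finite := Set.finite_range _
      refine hperiFin.subset ?_
      rintro _ ⟨t, -, rfl⟩
      exact ((mem_MCGo_iff _).1 (φ t).2 c).2 hc
  · intro Γ0 _ _ hIA Φ0 hinn hrange
    refine hlinear Γ0 hIA Φ0 hinn (fun x => ?_)
    obtain ⟨y, hy⟩ := hrange x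
    exact ⟨_, hy⟩

end Pool.Agent.Helper460_OutF
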