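import Pool.Agent.Helper460_OutF.Final2
import Pool.Agent.Helper460_OutF.TorOrb
import Pool.Agent.Helper460_OutF.Lin7

set_option autoImplicit false
set_option linter.unusedSectionVars false
set_option linter.unusedSimpArgs false

namespace Pool.Agent.Helper460_OutF

open FreeGroup (of)

variable {g p : ℕ}

lemma noTri2Fam_isoV' {n : ℕ} (hn : 4 ≤ n) (h : g + 3 ≤ n) :
    NoTri2Fam (2 * n - 5) (isoV g p) := by
  intro J _ hJ
  refine noTri2_sp (ω := formV g p) formV_skew formV_nondeg (isoV g p).subtype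
    (Subgroup.subtype_injective _) (fun e x y => e.2 x y) ?_
  have := finrank_VQ (g := g) (p := p)
  omega

lemma lt_two_pow_sub' {n : ℕ} (hn : 4 ≤ n) (h : g + 3 ≤ n) : 2 * g < 2 ^ (n - 3 + 1) := by
  obtain ⟨m, rfl⟩ : ∃ m, n = m + 3 := ⟨n - 3, by omega⟩
  have h1 : m < 2 ^ m := Nat.lt_two_pow_self
  have e : m + 3 - 3 + 1 = m + 1 := by omega
  rw [e, pow_succ]
  omega

lemma noCube_isoV' {n : ℕ} (hn : 4 ≤ n) (h : g + 3 ≤ n) : NoCube (n - 3) (isoV g p) := by
  refine NoCube.of_injective (isoV g p).subtype (Subgroup.subtype_injective _) ?_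
  apply noCube_GLV
  exact lt_of_le_of_lt (finrank_VQ (g := g) (p := p)) (lt_two_pow_sub' hn h)

lemma noCubeU_isoV' {n : ℕ} (hn : 4 ≤ n) (h : g + 3 ≤ n) : NoCubeU (n - 3) (isoV g p) := by
  refine NoCubeU.of_injective (isoV g p).subtype (Subgroup.subtype_injective _) ?_
  apply noCubeU_GLV
  exact lt_of_le_of_lt (finrank_VQ (g := g) (p := p)) (lt_two_pow_sub' hn h)

theorem final_surface3 (n g p : ℕ) (hn : 4 ≤ n) (hg : g + 3 ≤ n)
    (hTG : TG (SG g p)) (hAb : AbQ (SG g p))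
    (Γ : Subgroup (OutF n)) (hfi : Γ.FiniteIndex) (hT : ContainsTorelli Γ)
    (φ : Γ →* ModG g p) (horb : ∀ j : Fin p, (torelliOrbit φ j).ncard ≤ 2 ^ (n - 2)) :
    Finite φ.range := by
  have h4 : 4 ≤ Fintype.card (Fin n) := by rw [Fintype.card_fin]; exact hn
  let Γ' : Subgroup (Out (FreeGroup (Fin n))) := Γ
  let φ' : Γ' →* MCGo g p := (modIncl g p).comp φ
  have hfi' : Γ'.FiniteIndex := hfi
  have key : Finite φ'.range := by
    refine main_surface3 h4 hTG hAb Γ' ?_ φ' ?_ ?_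
    · rintro _ ⟨α, hα, rfl⟩
      exact hT α hα
    · rintro _ ⟨j, rfl⟩
      rw [Fintype.card_fin]
      have h1 : (orbT Γ' φ' (ConjClasses.mk (ploopo g p j))).ncard ≤
          (torelliOrbit φ j).ncard := by
        refine le_trans (Set.ncard_le_ncard (t := (fun k => ConjClasses.mk (ploopo g p k)) ''
          torelliOrbit φ j) ?_ ((Set.toFinite _).image _)) (Set.ncard_image_le (Set.toFinite _))
        rintro _ ⟨γ, ⟨β, hβ, hβγ⟩, rfl⟩
        obtain ⟨α, hα⟩ := QuotientGroup.mk_surjective (φ' γ : Out (SG g p))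
        have h2 := ((mem_MCGo_iff _).1 (φ' γ).2 (ConjClasses.mk (ploopo g p j))).2 ⟨j, rfl⟩
        obtain ⟨k, hk⟩ := h2
        refine ⟨k, ⟨γ, ⟨β, hβ, hβγ⟩, α, hα.symm, ?_⟩, hk⟩
        rw [← hα] at hk
        have hk' : ConjClasses.mk (ploopo g p k) = ConjClasses.mk (α (ploopo g p j)) := hk
        exact (ConjClasses.mk_eq_mk_iff_isConj.1 hk').symm
      exact h1.trans (horb j)
    · intro Γ0 _ _ hIA Φ0 hinn hrange
      have hmem : ∀ x : Γ0, ((actV g p).comp Φ0) x ∈ isoV g p := by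
        intro x
        obtain ⟨y, hy⟩ := hrange x
        obtain ⟨α, hα, hα2⟩ := (φ y).2
        refine actV_iso (Φ0 x) α ?_ ?_
        · rw [hy]
          exact hα2.symm
        · intro f k hf hk
          exact hα.2 f k hf hk
      let ρ : Γ0 →* isoV g p := ((actV g p).comp Φ0).codRestrict (isoV g p) hmem
      have hρ : ∀ x h, ρ ⟨MulAut.conj x, h⟩ = 1 := by
        intro x h
        ext1
        show ((actV g p).comp Φ0) ⟨MulAut.conj x, h⟩ = 1
        rw [MonoidHom.comp_apply, hinn, map_one]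
      obtain ⟨M, hM, hle⟩ := N1_of_step (step_sharp h4 hIA ρ hρ
        (by rw [Fintype.card_fin]; exact noTri2Fam_isoV' hn hg)
        (by rw [Fintype.card_fin]; exact noCube_isoV' hn hg)
        (by rw [Fintype.card_fin]; exact noCubeU_isoV' hn hg))
      refine ⟨M, hM, fun x hx => ?_⟩
      obtain ⟨h1, h2⟩ := mem_kerA.1 (hle hx)
      exact mem_kerA.2 ⟨h1, congrArg Subtype.val h2⟩
  have hr : ∀ x : φ.range, modIncl g p x ∈ φ'.range := by
    rintro ⟨_, ⟨y, rfl⟩⟩
    exact ⟨y, rfl⟩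
  exact Finite.of_injective (fun x : φ.range => (⟨modIncl g p x, hr x⟩ : φ'.range)) (by
    intro x y hxy
    exact Subtype.ext (modIncl_inj (congrArg Subtype.val hxy)))

end Pool.Agent.Helper460_OutF
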