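import Pool.Agent.Helper460_OutF.Ind

set_option autoImplicit false
set_option linter.unusedSectionVars false
set_option linter.unusedSimpArgs false

/-! Forms on induced modules. -/

namespace Pool.Agent.Helper460_OutF

variable {G : Type} [Group G] {K : Subgroup G} [hfi : K.FiniteIndex] {V : Type} [AddCommGroup V]
  [Module ℚ V] (ρ : K →* (V ≃ₗ[ℚ] V)) (ω : V →ₗ[ℚ] V →ₗ[ℚ] ℚ)

noncomputable instance fintypeQuot : Fintype (G ⧸ K) := Fintype.ofFinite _

/-- The form on the induced module. -/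
noncomputable def indForm : IndV ρ →ₗ[ℚ] IndV ρ →ₗ[ℚ] ℚ :=
  LinearMap.mk₂ ℚ (fun f f' => ∑ q : G ⧸ K, ω ((f : G → V) q.out) ((f' : G → V) q.out))
    (by
      intro f f' k
      rw [← Finset.sum_add_distrib]
      refine Finset.sum_congr rfl fun q _ => ?_
      show ω ((f : G → V) q.out + (f' : G → V) q.out) _ = _
      rw [map_add]; rfl)
    (by
      intro c f k
      rw [smul_eq_mul, Finset.mul_sum]
      refine Finset.sum_congr rfl fun q _ => ?_
      show ω (c • (f : G → V) q.out) _ = _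
      rw [map_smul]; rfl)
    (by
      intro f k k'
      rw [← Finset.sum_add_distrib]
      refine Finset.sum_congr rfl fun q _ => ?_
      show ω _ ((k : G → V) q.out + (k' : G → V) q.out) = _
      rw [map_add])
    (by
      intro c f k
      rw [smul_eq_mul, Finset.mul_sum]
      refine Finset.sum_congr rfl fun q _ => ?_
      show ω _ (c • (k : G → V) q.out) = _
      rw [map_smul]; rfl)

lemma indForm_apply (f f' : IndV ρ) :
    indForm ρ ω f f' = ∑ q : G ⧸ K, ω ((f : G → V) q.out) ((f' : G → V) q.out) := rfl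

variable {ρ ω}

lemma form_rep (hω : ∀ (k : K) (v w : V), ω (ρ k v) (ρ k w) = ω v w) (f f' : IndV ρ) (x : G) :
    ω ((f : G → V) x) ((f' : G → V) x) = ω ((f : G → V) (QuotientGroup.mk x : G ⧸ K).out)
      ((f' : G → V) (QuotientGroup.mk x : G ⧸ K).out) := by
  have h1 : (QuotientGroup.mk x : G ⧸ K).out⁻¹ * x ∈ K :=
    QuotientGroup.eq.1 (QuotientGroup.out_eq' (QuotientGroup.mk x : G ⧸ K))
  have e : x = (QuotientGroup.mk x : G ⧸ K).out * (⟨_, h1⟩ : K) := by
    show x = _ * (_⁻¹ * x)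
    rw [mul_inv_cancel_left]
  have h2 : ∀ (k : K) (v w : V), ω ((ρ k)⁻¹ v) ((ρ k)⁻¹ w) = ω v w := by
    intro k v w
    rw [← map_inv]
    exact hω _ _ _
  have e1 : (f : G → V) x = (ρ ⟨_, h1⟩)⁻¹ ((f : G → V) (QuotientGroup.mk x : G ⧸ K).out) := by
    conv_lhs => rw [e]
    exact IndV_mul f _ _
  have e2 : (f' : G → V) x = (ρ ⟨_, h1⟩)⁻¹ ((f' : G → V) (QuotientGroup.mk x : G ⧸ K).out) := by
    conv_lhs => rw [e]
    exact IndV_mul f' _ _
  rw [e1, e2, h2]

lemma indForm_inv (hω : ∀ (k : K) (v w : V), ω (ρ k v) (ρ k w) = ω v w) (g : G) (f f' : IndV ρ) :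
    indForm ρ ω (ind ρ g f) (ind ρ g f') = indForm ρ ω f f' := by
  rw [indForm_apply, indForm_apply]
  have h1 : ∀ q : G ⧸ K, ω (((ind ρ g f : IndV ρ) : G → V) q.out)
      (((ind ρ g f' : IndV ρ) : G → V) q.out) =
      ω ((f : G → V) (g⁻¹ • q).out) ((f' : G → V) (g⁻¹ • q).out) := by
    intro q
    rw [ind_apply, ind_apply, form_rep hω f f']
    have e : (QuotientGroup.mk (g⁻¹ * q.out) : G ⧸ K) = g⁻¹ • q := by
      conv_rhs => rw [← QuotientGroup.out_eq' q]
      rfl
    rw [e]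
  rw [Finset.sum_congr rfl fun q _ => h1 q]
  exact Equiv.sum_comp (MulAction.toPerm g⁻¹ : Equiv.Perm (G ⧸ K))
    (fun q => ω ((f : G → V) q.out) ((f' : G → V) q.out))

lemma indForm_skew (hskew : ∀ x y, ω x y = - ω y x) (f f' : IndV ρ) :
    indForm ρ ω f f' = - indForm ρ ω f' f := by
  rw [indForm_apply, indForm_apply, ← Finset.sum_neg_distrib]
  exact Finset.sum_congr rfl fun q _ => hskew _ _

lemma indForm_nondeg (hω : ∀ (k : K) (v w : V), ω (ρ k v) (ρ k w) = ω v w)
    (hnd : ∀ x, (∀ y, ω y x = 0) → x = 0) (f : IndV ρ) (h : ∀ f', indForm ρ ω f' f = 0) :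
    f = 0 := by
  ext x
  show (f : G → V) x = 0
  apply hnd
  intro y
  have h1 := h (ind ρ x (extV ρ y))
  rw [indForm_apply, Finset.sum_eq_single (QuotientGroup.mk x : G ⧸ K)] at h1
  · rw [← form_rep hω, ind_apply, inv_mul_cancel, extV_mem ρ y K.one_mem] at h1
    have e2 : (⟨1, K.one_mem⟩ : K) = 1 := rfl
    rw [e2, map_one, inv_one] at h1
    exact h1
  · intro q _ hq
    rw [ind_apply]
    have h2 : x⁻¹ * q.out ∉ K := by
      intro h3
      apply hq
      rw [← QuotientGroup.out_eq' q]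
      exact (QuotientGroup.eq.2 h3).symm
    have h3 : (extV ρ y : G → V) (x⁻¹ * q.out) = 0 := by
      unfold extV
      simp only [h2, dif_neg, not_false_eq_true]
    rw [h3, map_zero]
    rfl
  · intro h; exact absurd (Finset.mem_univ _) h

end Pool.Agent.Helper460_OutF
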