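import Pool.Agent.Helper460_OutF.Lin3

set_option autoImplicit false
set_option linter.unusedSectionVars false
set_option linter.unusedSimpArgs false

namespace Pool.Agent.Helper460_OutF

open FreeGroup (of)
open scoped commutatorElement Pointwise

section

variable {ι : Type} [DecidableEq ι] [Fintype ι] {H : Type} [Group H]
  {Γ : Subgroup (MulAut (FreeGroup ι))} {ρ : Γ →* H}

/-- **The second linear step, for subgroups not containing all of `IA`.** -/
theorem step_gen [hN : Γ.Normal] [hfi : Γ.FiniteIndex] (h4 : 4 ≤ Fintype.card ι)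
    (hinnΓ : ∀ g, MulAut.conj g ∈ Γ)
    (ρ : Γ →* H) (hinn : ∀ g (h : MulAut.conj g ∈ Γ), ρ ⟨MulAut.conj g, h⟩ = 1)
    (hH : NoTri2Fam (2 * Fintype.card ι - 4) H)
    (hcck : ∀ i j k, i ≠ j → i ≠ k → cc i ⁅of j, of k⁆ ∈ (kerA Γ ρ).normalCore) :
    ∃ M, Step ((kerA Γ ρ).normalCore) M := by
  set K := kerA Γ ρ with hK
  set N := K.normalCore with hNdef
  have hmN : ∀ x, x ∈ N ↔ ∀ b, b * x * b⁻¹ ∈ K := fun x => Iff.rfl
  have hNnorm : N.Normal := Subgroup.normalCore_normal K
  have hcomm1 : ∀ p q : MulAut (FreeGroup ι), p * q = q * p → p * q * p⁻¹ * q⁻¹ ∈ N := by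
    intro p q h
    rw [h]
    convert N.one_mem using 1
    group
  have hIK : ∀ g, MulAut.conj g ∈ N := by
    intro g
    rw [hmN]
    intro b
    have e : b * MulAut.conj g * b⁻¹ = MulAut.conj (b g) := by
      rw [mul_inv_eq_iff_eq_mul]
      ext x
      simp [MulAut.conj_apply]
    rw [e]
    exact mem_kerA.2 ⟨hinnΓ _, hinn _ _⟩
  -- the quotient homomorphism
  let q : MulAut (FreeGroup ι) →* MulAut (FreeGroup ι) ⧸ N := QuotientGroup.mk' N
  have hq1 : ∀ x, q x = 1 ↔ x ∈ N := fun x => QuotientGroup.eq_one_iff x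
  have hqc : ∀ x y, Commute (q x) (q y) → x * y * x⁻¹ * y⁻¹ ∈ N := by
    intro x y h
    rw [← hq1, map_mul, map_mul, map_mul, map_inv, map_inv, h.eq]
    group
  have hkills : Kills q := ⟨fun g => (hq1 _).2 (hIK g),
    fun i j k h1 h2 => (hq1 _).2 (hcck i j k h1 h2)⟩
  let m := Γ.index
  have hm0 : 0 < m := Nat.pos_of_ne_zero hfi.index_ne_zero
  have hpow : ∀ a : MulAut (FreeGroup ι), a ^ m ∈ Γ := fun a => Γ.pow_index_mem a
  have hNK : N ≤ K := Subgroup.normalCore_le K
  -- step 2a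
  have h2a : ∀ i p l, i ≠ p → i ≠ l → p ≠ l → rr i ⁅of p ^ (4 * m * m), of l⁆ ∈ N := by
    intro i p l hip hil hpl
    rw [hmN]
    intro b
    have hr : 2 * Fintype.card ι - 4 ≤ 2 * Nat.card {c : ι // c ≠ i ∧ c ≠ p ∧ c ≠ l} + 2 := by
      have := card_ne3 i p l
      omega
    have hcmem : ∀ c : ι, rr i ⁅of c ^ m, of l⁆ ∈ Γ := by
      intro c
      rw [map_commutatorElement, map_pow, commutatorElement_def, mul_assoc, mul_assoc, ← mul_assoc
        (rr i (of l))]
      exact Γ.mul_mem (hpow _) (hN.conj_mem _ (Γ.inv_mem (hpow _)) _)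
    rcases doubleK2 (ρ := ρ) hH hr (fun c : {c : ι // c ≠ i ∧ c ≠ p ∧ c ≠ l} =>
        rr i ⁅of (c : ι) ^ m, of l⁆) (fun c => rr (c : ι) (of p ^ m)) (rr i (of p ^ m))
      (rr i (of l ^ m)) b
      (fun c => hcmem c) (fun c => by rw [map_pow]; exact hpow _)
      (by rw [map_pow]; exact hpow _) (by rw [map_pow]; exact hpow _) (by
        rintro ⟨c, hc1, hc2, hc3⟩ ⟨d, hd1, hd2, hd3⟩
        apply hqc
        exact hkills.tt_comm i (of c ^ m) (of l) (of d ^ m) (of l)) (by
        rintro ⟨d, hd1, hd2, hd3⟩ ⟨c, hc1, hc2, hc3⟩ hcd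
        apply hcomm1
        have hcd' : d ≠ c := fun h => hcd (by subst h; rfl)
        have hk : kil i (of p ^ m) = of p ^ m := by rw [map_pow, kil_ne (Ne.symm hip)]
        have hkc : kil c (⁅of d ^ m, of l⁆ : FreeGroup ι) = ⁅of d ^ m, of l⁆ := by
          rw [map_commutatorElement, map_pow, kil_ne hcd', kil_ne (Ne.symm hc3)]
        have := (pres_rr (i := i) (p := c) (Ne.symm hc1) hk).rr ⁅of d ^ m, of l⁆
        rw [mul_inv_eq_iff_eq_mul, rr_fix c _ hkc] at this
        exact this.symm) (by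
        rintro ⟨c, hc1, hc2, hc3⟩
        apply hqc
        exact hkills.tt_rr i (of c ^ m) (of l) _) (by
        rintro ⟨c, hc1, hc2, hc3⟩
        apply hqc
        exact hkills.tt_rr i (of c ^ m) (of l) _) with ⟨⟨c, hc1, hc2, hc3⟩, hc⟩ | hc
    · have hk : kil i (of p ^ m) = of p ^ m := by rw [map_pow, kil_ne (Ne.symm hip)]
      have hk2 : kil c (of p ^ m) = of p ^ m := by rw [map_pow, kil_ne (Ne.symm hc2)]
      have e1 : rr c (of p ^ m) ^ 2 * rr i ⁅of c ^ m, of l⁆ ^ 2 * (rr c (of p ^ m) ^ 2)⁻¹ =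
          (rr i ⁅(of c * of p ^ (m + m)) ^ m, of l⁆) ^ 2 := by
        have hk3 : kil i (of p ^ (m + m)) = of p ^ (m + m) := by
          rw [map_pow, kil_ne (Ne.symm hip)]
        have hk4 : kil c (of p ^ (m + m)) = of p ^ (m + m) := by
          rw [map_pow, kil_ne (Ne.symm hc2)]
        have e0 : rr c (of p ^ m) ^ 2 = rr c (of p ^ (m + m)) := by
          rw [← map_pow, ← pow_mul]
          congr 2
          omega
        rw [e0, ← conj_pow, (pres_rr (i := i) (p := c) (Ne.symm hc1) hk3).rr,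
          map_commutatorElement, map_pow, rr_self, rr_ne (Ne.symm hc3), hk4]
      have e2 : (rr i ⁅of c ^ m, of l⁆ ^ 2 * rr c (of p ^ m) ^ 2 * (rr i ⁅of c ^ m, of l⁆ ^ 2)⁻¹ *
          (rr c (of p ^ m) ^ 2)⁻¹) * rr i ⁅of p ^ (4 * m * m), of l⁆ ∈ N := by
        have e1' : rr i ⁅of c ^ m, of l⁆ ^ 2 * rr c (of p ^ m) ^ 2 *
            (rr i ⁅of c ^ m, of l⁆ ^ 2)⁻¹ * (rr c (of p ^ m) ^ 2)⁻¹ =
            rr i ⁅of c ^ m, of l⁆ ^ 2 * ((rr i ⁅(of c * of p ^ (m + m)) ^ m, of l⁆) ^ 2)⁻¹ := by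
          rw [← e1]; group
        rw [← hq1, e1', map_mul, map_mul, map_inv, map_pow, map_pow]
        show (tt q i (of c ^ m) (of l)) ^ 2 *
          ((tt q i ((of c * of p ^ (m + m)) ^ m) (of l)) ^ 2)⁻¹ *
          (tt q i (of p ^ (4 * m * m)) (of l)) = 1
        have hcm := hkills.tt_comm i (of c) (of l) (of p) (of l)
        have e6 : tt q i ((of c * of p ^ (m + m)) ^ m) (of l) =
            tt q i (of c) (of l) ^ m * (tt q i (of p) (of l)) ^ (2 * m * m) := by
          rw [hkills.tt_pow_left, hkills.tt_mul_left, hkills.tt_pow_left,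
            (hcm.pow_right (m + m)).mul_pow, ← pow_mul]
          congr 2
          ring
        rw [e6, hkills.tt_pow_left, hkills.tt_pow_left,
          ((hcm.pow_left m).pow_right (2 * m * m)).mul_pow, ← pow_mul, ← pow_mul]
        have e7 : 2 * m * m * 2 = 4 * m * m := by ring
        rw [e7]
        have hcm2 : Commute (tt q i (of c) (of l) ^ (m * 2)) (tt q i (of p) (of l) ^ (4 * m * m)) :=
          (hcm.pow_left _).pow_right _
        rw [hcm2.eq]
        group
      have e3 := hNK (hNnorm.conj_mem _ e2 b)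
      have e4 := K.mul_mem (K.inv_mem hc) e3
      convert e4 using 1
      group
    · have e2 : (rr i (of p ^ m) ^ 2 * rr i (of l ^ m) ^ 2 * (rr i (of p ^ m) ^ 2)⁻¹ *
          (rr i (of l ^ m) ^ 2)⁻¹)⁻¹ * rr i ⁅of p ^ (4 * m * m), of l⁆ ∈ N := by
        have e1 : rr i (of p ^ m) ^ 2 * rr i (of l ^ m) ^ 2 * (rr i (of p ^ m) ^ 2)⁻¹ *
            (rr i (of l ^ m) ^ 2)⁻¹ = rr i ⁅of p ^ (m * 2), of l ^ (m * 2)⁆ := by
          rw [map_commutatorElement, pow_mul, pow_mul, map_pow (rr i) (of p ^ m),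
            map_pow (rr i) (of l ^ m)]
          rfl
        rw [e1, ← hq1, map_mul, map_inv, inv_mul_eq_one]
        show tt q i (of p ^ (m * 2)) (of l ^ (m * 2)) = tt q i (of p ^ (4 * m * m)) (of l)
        rw [hkills.tt_swap i (of l ^ (m * 2)) (of p ^ (m * 2)), hkills.tt_pow_left,
          hkills.tt_swap i (of p ^ (m * 2)) (of l), hkills.tt_pow_left, hkills.tt_pow_left,
          inv_pow, inv_inv, ← pow_mul]
        congr 1
        ring
      have e3 := hNK (hNnorm.conj_mem _ e2 b)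
      have e4 := K.mul_mem hc e3
      convert e4 using 1
      group
  have h2a' : ∀ i p l, i ≠ p → q (rr i ⁅of p ^ (4 * m * m), of l⁆) = 1 := by
    intro i p l hip
    by_cases hil : i = l
    · subst hil
      exact hkills.tt_self' i _
    by_cases hpl : p = l
    · subst hpl
      have : ⁅of p ^ (4 * m * m), of p⁆ = (1 : FreeGroup ι) := by
        rw [commutatorElement_eq_one_iff_commute]
        exact (Commute.refl _).pow_left _
      rw [this, map_one, map_one]
    · exact (hq1 _).2 (h2a i p l hip hil hpl)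
  -- step 2b
  obtain ⟨m2, hm2⟩ : ∃ m2, m2 = 4 * m * m := ⟨_, rfl⟩
  rw [← hm2] at h2a'
  have hm20 : 0 < m2 := by rw [hm2]; positivity
  have hpow2 : ∀ a : MulAut (FreeGroup ι), a ^ m2 ∈ Γ := fun a => by
    rw [hm2, pow_mul]; exact hpow _
  have h2b : ∀ i p, i ≠ p → (rr i (of p)) ^ (4 * m2 * m2) ∈ N := by
    intro i p hip
    obtain ⟨l, hli, hlp, -⟩ := exists_ne3 h4 i p p
    rw [hmN]
    intro b
    have hr : 2 * Fintype.card ι - 4 ≤ 2 * Nat.card {c : ι // c ≠ i ∧ c ≠ p ∧ c ≠ l} + 2 := by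
      have := card_ne3 i p l
      omega
    have hcom : ∀ c d, c ≠ i → d ≠ i →
        Commute (q (rr i (of c ^ m2))) (q (rr i (of d))) := by
      intro c d hc hd
      have := h2a' i c d (Ne.symm hc)
      rwa [map_commutatorElement, map_commutatorElement,
        commutatorElement_eq_one_iff_commute] at this
    have hcom2 : ∀ c d, c ≠ i → d ≠ i →
        Commute (q (rr i (of c ^ m2))) (q (rr i (of d ^ m2))) := by
      intro c d hc hd
      rw [map_pow (rr i) (of d), map_pow q]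
      exact (hcom c d hc hd).pow_right _
    have hk : kil i (of p ^ m2) = of p ^ m2 := by rw [map_pow, kil_ne (Ne.symm hip)]
    -- the key computation
    have key : ∀ c, c ≠ i → c ≠ p → b * (rr i (of c ^ m2) ^ 2 * rr c (of p ^ m2) ^ 2 *
        (rr i (of c ^ m2) ^ 2)⁻¹ * (rr c (of p ^ m2) ^ 2)⁻¹) * b⁻¹ ∈ K →
        b * (rr i (of p)) ^ (4 * m2 * m2) * b⁻¹ ∈ K := by
      intro c hc1 hc2 hc
      have e1 : rr c (of p ^ m2) ^ 2 * rr i (of c ^ m2) ^ 2 * (rr c (of p ^ m2) ^ 2)⁻¹ =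
          rr i ((of c * of p ^ (m2 * 2)) ^ (m2 * 2)) := by
        have hk3 : kil i (of p ^ (m2 * 2)) = of p ^ (m2 * 2) := by
          rw [map_pow, kil_ne (Ne.symm hip)]
        have hk4 : kil c (of p ^ (m2 * 2)) = of p ^ (m2 * 2) := by
          rw [map_pow, kil_ne (Ne.symm hc2)]
        rw [← map_pow, ← map_pow, ← pow_mul, ← pow_mul,
          (pres_rr (i := i) (p := c) (Ne.symm hc1) hk3).rr, map_pow, rr_self, hk4]
      have hcomm : Commute (q (rr i (of c))) (q (rr i (of p ^ (m2 * 2)))) := by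
        rw [pow_mul, map_pow (rr i), map_pow q]
        exact ((hcom p c (Ne.symm hip) hc1).symm).pow_right 2
      have e5 : q (rr i ((of c * of p ^ (m2 * 2)) ^ (m2 * 2))) =
          q (rr i (of c)) ^ (m2 * 2) * (q (rr i (of p))) ^ (4 * m2 * m2) := by
        calc q (rr i ((of c * of p ^ (m2 * 2)) ^ (m2 * 2)))
            = (q (rr i (of c)) * q (rr i (of p ^ (m2 * 2)))) ^ (m2 * 2) := by
              rw [map_pow (rr i), map_pow q, map_mul (rr i), map_mul q]
          _ = q (rr i (of c)) ^ (m2 * 2) * (q (rr i (of p ^ (m2 * 2)))) ^ (m2 * 2) :=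
              hcomm.mul_pow _
          _ = _ := by
              rw [map_pow (rr i) (of p), map_pow q, ← pow_mul]
              congr 2
              ring
      have e2 : (rr i (of c ^ m2) ^ 2 * rr c (of p ^ m2) ^ 2 *
          (rr i (of c ^ m2) ^ 2)⁻¹ * (rr c (of p ^ m2) ^ 2)⁻¹) *
            (rr i (of p)) ^ (4 * m2 * m2) ∈ N := by
        have e1' : rr i (of c ^ m2) ^ 2 * rr c (of p ^ m2) ^ 2 * (rr i (of c ^ m2) ^ 2)⁻¹ *
            (rr c (of p ^ m2) ^ 2)⁻¹ =
            rr i (of c ^ m2) ^ 2 * (rr i ((of c * of p ^ (m2 * 2)) ^ (m2 * 2)))⁻¹ := by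
          rw [← e1]; group
        rw [← hq1, e1', map_mul, map_mul, map_inv, e5, map_pow, map_pow, map_pow, map_pow,
          ← pow_mul]
        have hcomm2 : Commute (q (rr i (of c)) ^ (m2 * 2)) (q (rr i (of p)) ^ (4 * m2 * m2)) := by
          have : q (rr i (of p)) ^ (4 * m2 * m2) = (q (rr i (of p ^ (m2 * 2)))) ^ (m2 * 2) := by
            rw [map_pow, map_pow, ← pow_mul]
            congr 1
            ring
          rw [this]
          exact (hcomm.pow_left _).pow_right _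
        rw [hcomm2.eq]
        group
      have e3 := hNK (hNnorm.conj_mem _ e2 b)
      have e4 := K.mul_mem (K.inv_mem hc) e3
      convert e4 using 1
      group
    rcases doubleK2 (ρ := ρ) hH hr (fun c : {c : ι // c ≠ i ∧ c ≠ p ∧ c ≠ l} =>
        rr i (of (c : ι) ^ m2)) (fun c => rr (c : ι) (of p ^ m2)) (rr i (of l ^ m2))
        (rr l (of p ^ m2)) b
      (fun c => by rw [map_pow]; exact hpow2 _) (fun c => by rw [map_pow]; exact hpow2 _)
      (by rw [map_pow]; exact hpow2 _) (by rw [map_pow]; exact hpow2 _) (by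
        rintro ⟨c, hc1, hc2, hc3⟩ ⟨d, hd1, hd2, hd3⟩
        apply hqc
        exact hcom2 c d hc1 hd1) (by
        rintro ⟨d, hd1, hd2, hd3⟩ ⟨c, hc1, hc2, hc3⟩ hcd
        apply hcomm1
        have hcd' : d ≠ c := fun h => hcd (by subst h; rfl)
        have := (pres_rr (i := i) (p := c) (Ne.symm hc1) hk).rr (of d ^ m2)
        rw [mul_inv_eq_iff_eq_mul, rr_fix c _ (by rw [map_pow, kil_ne hcd'])] at this
        exact this.symm) (by
        rintro ⟨c, hc1, hc2, hc3⟩
        apply hqc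
        exact hcom2 c l hc1 hli) (by
        rintro ⟨c, hc1, hc2, hc3⟩
        apply hcomm1
        have := (pres_rr (i := i) (p := l) (Ne.symm hli) hk).rr (of c ^ m2)
        rw [mul_inv_eq_iff_eq_mul, rr_fix l _ (by rw [map_pow, kil_ne hc3])] at this
        exact this.symm) with ⟨⟨c, hc1, hc2, hc3⟩, hc⟩ | hc
    · exact key c hc1 hc2 hc
    · exact key l hli hlp hc
  exact ⟨4 * m2 * m2, by positivity, hIK, hcck, h2b⟩


end

end Pool.Agent.Helper460_OutF
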