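import Pool.Agent.Helper460_OutF.Tors
import Pool.Agent.Helper460_OutF.Lin7
import Pool.Agent.Helper460_OutF.Lin8
import Pool.Agent.Helper460_OutF.IndForm

set_option autoImplicit false
set_option linter.unusedSectionVars false
set_option linter.unusedSimpArgs false

namespace Pool.Agent.Helper460_OutF

open FreeGroup (of)
open scoped commutatorElement Pointwise

variable {ι : Type} [DecidableEq ι] [Fintype ι]

section

variable {V : Type} [AddCommGroup V] [Module ℚ V]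

/-- The isometry group of a form. -/
def isoW (ω : V →ₗ[ℚ] V →ₗ[ℚ] ℚ) : Subgroup (V ≃ₗ[ℚ] V) where
  carrier := {e | ∀ x y, ω (e x) (e y) = ω x y}
  mul_mem' := by
    intro a b ha hb x y
    show ω (a (b x)) (a (b y)) = _
    rw [ha, hb]
  one_mem' := fun _ _ => rfl
  inv_mem' := by
    intro a ha x y
    have h := ha (a⁻¹ x) (a⁻¹ y)
    have e : ∀ z, a (a⁻¹ z) = z := fun z => by
      show (a * a⁻¹) z = z
      rw [mul_inv_cancel]; rfl
    rw [e, e] at h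
    exact h.symm

variable [FiniteDimensional ℚ V] {ω : V →ₗ[ℚ] V →ₗ[ℚ] ℚ}

lemma noTri2Fam_isoW (hskew : ∀ x y, ω x y = - ω y x) (hnd : ∀ x, (∀ y, ω y x = 0) → x = 0)
    {r : ℕ} (hr : Module.finrank ℚ V < r) : NoTri2Fam r (isoW ω) := by
  intro J _ hJ
  exact noTri2_sp (ω := ω) hskew hnd (isoW ω).subtype (Subgroup.subtype_injective _)
    (fun e x y => e.2 x y) (lt_of_lt_of_le hr hJ)

variable (hskew : ∀ x y, ω x y = - ω y x) (hnd : ∀ x, (∀ y, ω y x = 0) → x = 0)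
  (K : Subgroup (MulAut (FreeGroup ι))) [hfi : K.FiniteIndex] (ρ : K →* (V ≃ₗ[ℚ] V))
  (hω : ∀ (x : K) (v w : V), ω (ρ x v) (ρ x w) = ω v w)
  (hρ : ∀ g (h : MulAut.conj g ∈ K), ρ ⟨MulAut.conj g, h⟩ = 1)

include hskew hnd hω hρ

/-- **The linear part, first form.** -/
theorem linear_B (h4 : 4 ≤ Fintype.card ι) {M0 : ℕ} (hM0 : 0 < M0) (hle : N1 ι M0 ≤ K)
    (h1 : Module.finrank ℚ V + 3 ≤
      2 * (Fintype.card ι - 3 - Nat.log 2 (K.relIndex (IA (FreeGroup ι)))))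
    (h2 : K.relIndex (IA (FreeGroup ι)) * Module.finrank ℚ V < 2 ^ (Fintype.card ι - 3 + 1)) :
    ∃ M, 0 < M ∧ N1 ι M ≤ kerA K ρ := by
  have hadm := adm_of_N1 hM0 hle
  let ρ1 : K →* isoW ω := ρ.codRestrict (isoW ω) (fun x v w => hω x v w)
  have hP : ∀ x, x ∈ K → PP ρ x = ((PP ρ1 x : isoW ω) : V ≃ₗ[ℚ] V) := by
    intro x hx
    rw [PP_mem hx, PP_mem hx]
    rfl
  have hfo : ∀ (b : MulAut (FreeGroup ι)) (i j k : ι), i ≠ j → i ≠ k →
      IsOfFinOrder (RB ρ i b ⁅of j, of k⁆) := by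
    intro b i j k hij hik
    have := fo_all ρ1 hadm hM0 (noTri2Fam_isoW hskew hnd (Nat.lt_succ_self _)) (by omega) hij hik b
    have h3 : RB ρ i b ⁅of j, of k⁆ = ((RB ρ1 i b ⁅of j, of k⁆ : isoW ω) : V ≃ₗ[ℚ] V) :=
      hP _ (hadm.cc b i _ _)
    rw [h3]
    exact MonoidHom.isOfFinOrder (isoW ω).subtype this
  have htriv := fun b {i j k : ι} hij hik => tors_trivial K ρ hadm h2 hfo b (i := i) (j := j)
    (k := k) hij hik
  have hNn : (N1 ι M0).Normal := N1_normal M0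
  have hNf : (N1 ι M0).FiniteIndex := (N1_step (ι := ι) hM0).finiteIndex h4
  let ρN : N1 ι M0 →* isoW ω := ρ1.comp (Subgroup.inclusion hle)
  obtain ⟨M, hM, hN⟩ := N1_of_step (step_gen (ρ := ρN) h4 (N1_step hM0).inn (by
      intro g h
      ext1
      exact hρ g _) (noTri2Fam_isoW hskew hnd (by omega)) (by
      intro i j k hij hik b
      have hmem := hNn.conj_mem _ ((N1_step (ι := ι) hM0).cck i j k hij hik) b
      refine mem_kerA.2 ⟨hmem, ?_⟩
      ext1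
      have h5 : PP ρ (b * cc i ⁅of j, of k⁆ * b⁻¹) = 1 := htriv b hij hik
      rw [PP_mem (hle hmem)] at h5
      exact h5))
  refine ⟨M, hM, fun x hx => ?_⟩
  obtain ⟨h5, h6⟩ := mem_kerA.1 (hN hx)
  exact mem_kerA.2 ⟨hle h5, congrArg Subtype.val h6⟩

/-- **The linear part, second form.** -/
theorem linear_A (h4 : 4 ≤ Fintype.card ι) {M0 : ℕ} (hM0 : 0 < M0) (hle : N1 ι M0 ≤ K)
    (h1 : K.relIndex (IA (FreeGroup ι)) * Module.finrank ℚ V + 6 ≤ 2 * Fintype.card ι) :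
    ∃ M, 0 < M ∧ N1 ι M ≤ kerA K ρ := by
  have hskew' := indForm_skew (ρ := rhoS K ρ) hskew
  have hωS : ∀ (k : K.subgroupOf (KH K)) (v w : V), ω (rhoS K ρ k v) (rhoS K ρ k w) = ω v w :=
    fun k v w => hω _ v w
  have hnd' := indForm_nondeg (ρ := rhoS K ρ) hωS hnd
  have hfr := finrank_rhoH K ρ
  have hpow : 2 * Fintype.card ι - 6 < 2 ^ (Fintype.card ι - 3 + 1) := by
    obtain ⟨m, hm⟩ : ∃ m, Fintype.card ι = m + 3 := ⟨Fintype.card ι - 3, by omega⟩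
    rw [hm]
    have h5 : m < 2 ^ m := Nat.lt_two_pow_self
    have e : m + 3 - 3 + 1 = m + 1 := by omega
    rw [e, pow_succ]
    omega
  let ρ1 : G0 K →* isoW (indForm (rhoS K ρ) ω) := (rhoH K ρ).codRestrict _
    (fun x v w => indForm_inv hωS _ v w)
  have hinn1 : ∀ g (h : MulAut.conj g ∈ G0 K), ρ1 ⟨MulAut.conj g, h⟩ = 1 := by
    intro g h
    ext1
    show rhoH K ρ ⟨MulAut.conj g, h⟩ = 1
    apply ind_one
    intro x
    have e : ((x⁻¹ * ⟨MulAut.conj g, G0_le K h⟩ * x : KH K) : MulAut (FreeGroup ι)) =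
        MulAut.conj ((x : MulAut (FreeGroup ι))⁻¹ g) := by
      rw [← conj_mul_aut, inv_inv]
      rfl
    have hinnK : ∀ g, MulAut.conj g ∈ K := fun g => hle ((N1_step hM0).inn g)
    have h3 : x⁻¹ * (⟨MulAut.conj g, G0_le K h⟩ : KH K) * x ∈ K.subgroupOf (KH K) := by
      rw [Subgroup.mem_subgroupOf, e]
      exact hinnK _
    refine ⟨h3, ?_⟩
    have e2 : rhoS K ρ ⟨_, h3⟩ = PP ρ (MulAut.conj ((x : MulAut (FreeGroup ι))⁻¹ g)) := by
      rw [rhoS_apply, e]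
    have e3 : rhoS K ρ ⟨_, h3⟩ = 1 := by
      rw [e2, PP_mem (hinnK _)]
      exact hρ _ _
    exact e3
  obtain ⟨M, hM, hN⟩ := N1_of_step (step_sharp h4 (IA_le_G0 K) ρ1 hinn1
    (noTri2Fam_isoW hskew' hnd' (by omega))
    (NoCube.of_injective (isoW _).subtype (Subgroup.subtype_injective _)
      (noCube_GLV (lt_of_le_of_lt (hfr.trans (by omega)) hpow)))
    (NoCubeU.of_injective (isoW _).subtype (Subgroup.subtype_injective _)
      (noCubeU_GLV (lt_of_le_of_lt (hfr.trans (by omega)) hpow))))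
  have hMM : 0 < M * M0 := Nat.mul_pos hM hM0
  refine ⟨M * M0, hMM, fun x hx => ?_⟩
  have hx1 : x ∈ N1 ι M := N1_dvd_le hMM (Dvd.intro _ rfl) hx
  have hx2 : x ∈ K := hle (N1_dvd_le hMM (Dvd.intro_left _ rfl) hx)
  obtain ⟨h5, h6⟩ := mem_kerA.1 (hN hx1)
  have h7 := of_rhoH K ρ h5 hx2 (congrArg Subtype.val h6)
  rw [PP_mem hx2] at h7
  exact mem_kerA.2 ⟨hx2, h7⟩

end

end Pool.Agent.Helper460_OutF
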