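import Pool.Agent.Helper460_OutF.Defs3
import Pool.Agent.Helper460_OutF.LinGen
import Pool.Agent.Helper460_OutF.End2
import Pool.Agent.Helper460_OutF.TorOrb
import Pool.Agent.Helper460_OutF.Final2

set_option autoImplicit false
set_option linter.unusedSectionVars false
set_option linter.unusedSimpArgs false

namespace Pool.Agent.Helper460_OutF

open FreeGroup (of)

section

variable {ι : Type} [DecidableEq ι] [Fintype ι] {g p : ℕ}

/-- The stabiliser of a peripheral class. -/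
def stC (Γ : Subgroup (Out (FreeGroup ι))) (φ : Γ →* MCGo g p) (c : ConjClasses (SG g p)) :
    Subgroup (Out (FreeGroup ι)) where
  carrier := {x | ∃ h : x ∈ Γ, outConj _ (φ ⟨x, h⟩ : Out (SG g p)) c = c}
  mul_mem' := by
    rintro x y ⟨hx, hx2⟩ ⟨hy, hy2⟩
    refine ⟨Γ.mul_mem hx hy, ?_⟩
    have h1 : outConj _ (φ ⟨x * y, Γ.mul_mem hx hy⟩ : Out (SG g p)) c =
        outConj _ (φ ⟨x, hx⟩ : Out (SG g p)) (outConj _ (φ ⟨y, hy⟩ : Out (SG g p)) c) :=
      outConj_mul Γ φ ⟨x, hx⟩ ⟨y, hy⟩ c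
    rw [h1, hy2, hx2]
  one_mem' := by
    refine ⟨Γ.one_mem, ?_⟩
    have e : (⟨1, Γ.one_mem⟩ : Γ) = 1 := rfl
    rw [e, map_one, Subgroup.coe_one, map_one]; rfl
  inv_mem' := by
    rintro x ⟨hx, hx2⟩
    exact ⟨Γ.inv_mem hx, outConj_inv_eq Γ φ ⟨x, hx⟩ hx2⟩

lemma stC_finiteIndex (Γ : Subgroup (Out (FreeGroup ι))) [hfi : Γ.FiniteIndex]
    (φ : Γ →* MCGo g p) {c : ConjClasses (SG g p)} (hc : c ∈ peri g p) :
    (stC Γ φ c).FiniteIndex := by
  have hperiFin : (peri g p).Finite := Set.finite_range _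
  have _i1 : Finite (peri g p) := hperiFin
  have hK : ((periAct Γ φ).ker).FiniteIndex := inferInstance
  have hle : (periAct Γ φ).ker.map Γ.subtype ≤ stC Γ φ c := by
    rintro _ ⟨x, hx, rfl⟩
    refine ⟨x.2, ?_⟩
    have h1 := congrArg (fun σ : Equiv.Perm (peri g p) => ((σ ⟨c, hc⟩ : peri g p) :
      ConjClasses (SG g p))) ((MonoidHom.mem_ker).1 hx)
    exact h1
  have hmap : ((periAct Γ φ).ker.map Γ.subtype).FiniteIndex := by
    refine ⟨?_⟩
    rw [Subgroup.index_map_subtype]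
    exact mul_ne_zero hK.index_ne_zero hfi.index_ne_zero
  exact Subgroup.finiteIndex_of_le hle

lemma exists_N1_stC (Γ : Subgroup (Out (FreeGroup ι))) [hfi : Γ.FiniteIndex]
    (φ : Γ →* MCGo g p) {c : ConjClasses (SG g p)} (hc : c ∈ peri g p)
    (h : (stC Γ φ c).relIndex (Torelli (FreeGroup ι)) ≤ 2 ^ (Fintype.card ι - 3 + 1)) :
    ∃ M, 0 < M ∧ ∀ x ∈ N1 ι M, ∃ h : x ∈ prA Γ,
      outConj _ (prH Γ φ ⟨x, h⟩ : Out (SG g p)) c = c := by
  have h1 := stC_finiteIndex Γ φ hc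
  obtain ⟨M, hM, hle⟩ := exists_N1_le (prA (stC Γ φ c)) (prA_inn _) (by
    rw [prA_relIndex]; exact h)
  refine ⟨M, hM, fun x hx => ?_⟩
  obtain ⟨h2, h3⟩ := hle hx
  exact ⟨h2, h3⟩

end

/-- The mapping class group of the sphere is trivial. -/
lemma finite_sphere {n : ℕ} {Γ : Subgroup (OutF n)} (φ : Γ →* ModG 0 0) : Finite φ.range := by
  have hE : IsEmpty (SGen 0 0) := inferInstance
  have h1 : ∀ x : SurfGrp 0 0, x = 1 := by
    intro x
    obtain ⟨w, rfl⟩ := PresentedGroup.mk_surjective ({srel 0 0} : Set (FreeGroup (SGen 0 0))) x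
    have : w = 1 := Subsingleton.elim _ _
    rw [this]
    exact map_one _
  have h2 : ∀ α : MulAut (SurfGrp 0 0), α = 1 := by
    intro α
    ext x
    rw [h1 (α x), h1 ((1 : MulAut (SurfGrp 0 0)) x)]
  have h3 : ∀ x : ModG 0 0, x = 1 := by
    rintro ⟨x, hx⟩
    obtain ⟨α, hα, rfl⟩ := hx
    apply Subtype.ext
    show outCls _ α = 1
    rw [h2 α, map_one]
  have h4 : Subsingleton φ.range := ⟨fun x y => Subtype.ext ((h3 x.1).trans (h3 y.1).symm)⟩
  exact Finite.of_subsingleton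

theorem final_surface4 (n g p : ℕ) (hn : 4 ≤ n)
    (hTG : TG (SG g p)) (hAb : AbQ (SG g p))
    (Γ : Subgroup (OutF n)) (hfi : Γ.FiniteIndex)
    (hg : g * Γ.relIndex (TorelliSub n) + 3 ≤ n ∨
      g + 5 + Nat.log 2 (Γ.relIndex (TorelliSub n)) ≤ n)
    (φ : Γ →* ModG g p)
    (hp : ∀ j : Fin p, (punctStab φ j).relIndex (TorelliSub n) ≤ 2 ^ (n - 2)) :
    Finite φ.range := by
  have h4 : 4 ≤ Fintype.card (Fin n) := by rw [Fintype.card_fin]; exact hn
  have hcard : Fintype.card (Fin n) = n := Fintype.card_fin n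
  have hpw : (2 : ℕ) ^ (n - 3 + 1) = 2 ^ (n - 2) := by
    congr 1
    omega
  let Γ' : Subgroup (Out (FreeGroup (Fin n))) := Γ
  let φ' : Γ' →* MCGo g p := (modIncl g p).comp φ
  have hfi' : Γ'.FiniteIndex := hfi
  have hT : TorelliSub n = Torelli (FreeGroup (Fin n)) := rfl
  obtain ⟨m, hm⟩ : ∃ m, m = Γ'.relIndex (Torelli (FreeGroup (Fin n))) := ⟨_, rfl⟩
  have hg' : g * m + 3 ≤ n ∨ g + 5 + Nat.log 2 m ≤ n := by rw [hm]; exact hg
  have hm0 : 0 < m := by
    rw [hm]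
    exact Nat.pos_of_ne_zero
      (inferInstance : (Γ'.subgroupOf (Torelli (FreeGroup (Fin n)))).FiniteIndex).index_ne_zero
  have hmlt : m < 2 ^ (Nat.log 2 m + 1) := Nat.lt_pow_succ_log_self (by norm_num) m
  -- the punctures
  have hperi : ∀ c : peri g p, ∃ M, 0 < M ∧ ∀ x ∈ N1 (Fin n) M, ∃ h : x ∈ prA Γ',
      outConj _ (prH Γ' φ' ⟨x, h⟩ : Out (SG g p)) (c : ConjClasses (SG g p)) = c := by
    rintro ⟨_, ⟨j, rfl⟩⟩
    apply exists_N1_stC Γ' φ' ⟨j, rfl⟩
    rw [hcard, hpw]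
    have h1 : punctStab φ j = stC Γ' φ' (ConjClasses.mk (ploopo g p j)) := by
      ext x
      constructor
      · rintro ⟨h, α, hα, hα2⟩
        refine ⟨h, ?_⟩
        let α' : MulAut (SG g p) := α
        have h2 : (φ' ⟨x, h⟩ : Out (SG g p)) = (α' : Out (SG g p)) := hα
        rw [h2]
        show ConjClasses.mk (α' (ploopo g p j)) = _
        exact ConjClasses.mk_eq_mk_iff_isConj.2 hα2
      · rintro ⟨h, h2⟩
        obtain ⟨α, hα⟩ := QuotientGroup.mk_surjective (φ' ⟨x, h⟩ : Out (SG g p))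
        refine ⟨h, α, hα.symm, ?_⟩
        rw [← hα] at h2
        exact ConjClasses.mk_eq_mk_iff_isConj.1 h2
    have h3 := hp j
    rw [h1] at h3
    exact h3
  by_cases h00 : g = 0 ∧ p = 0
  · obtain ⟨rfl, rfl⟩ := h00
    exact finite_sphere φ
  -- a first subgroup
  have hN : ∃ M, 0 < M ∧ N1 (Fin n) M ≤ prA Γ' := by
    rcases Nat.eq_zero_or_pos p with hp0 | hp0
    · apply exists_N1_le (prA Γ') (prA_inn _)
      rw [prA_relIndex, hcard, ← hm]
      rcases hg' with hA | hB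
      · have hg1 : 1 ≤ g := Nat.pos_of_ne_zero (fun h => h00 ⟨h, hp0⟩)
        have h1 : m ≤ g * m := Nat.le_mul_of_pos_left _ hg1
        have h2 : n - 3 + 1 < 2 ^ (n - 3 + 1) := Nat.lt_two_pow_self
        omega
      · exact hmlt.le.trans (Nat.pow_le_pow_right (by norm_num) (by omega))
    · obtain ⟨M, hM, h1⟩ := hperi ⟨_, ⟨⟨0, hp0⟩, rfl⟩⟩
      exact ⟨M, hM, fun x hx => (h1 x hx).1⟩
  obtain ⟨M0, hM0, hle0⟩ := hN
  have hfr := finrank_VQ (g := g) (p := p)
  have key : Finite φ'.range := by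
    refine main_surface4 h4 hTG hAb Γ' φ' ?_ hperi
    have hω : ∀ (x : prA Γ') (v w : VQ g p),
        formV g p (((actV g p).comp (prH Γ' φ')) x v) (((actV g p).comp (prH Γ' φ')) x w) =
          formV g p v w := by
      intro x
      have hmem : ((actV g p).comp (prH Γ' φ')) x ∈ isoV g p := by
        obtain ⟨α, hα, hα2⟩ := (φ ⟨QuotientGroup.mk' _ (x : MulAut (FreeGroup (Fin n))), x.2⟩).2
        refine actV_iso (prH Γ' φ' x) α ?_ ?_
        · exact hα2.symm
        · intro f k hf hk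
          exact hα.2 f k hf hk
      exact hmem
    have hρ : ∀ x (h : MulAut.conj x ∈ prA Γ'),
        ((actV g p).comp (prH Γ' φ')) ⟨MulAut.conj x, h⟩ = 1 := by
      intro x h
      rw [MonoidHom.comp_apply, prH_inn, map_one]
    rcases hg' with hA | hB
    · apply linear_A formV_skew formV_nondeg (prA Γ') _ hω hρ h4 hM0 hle0
      rw [prA_relIndex, hcard, ← hm]
      have h1 : m * Module.finrank ℚ (VQ g p) ≤ m * (2 * g) := Nat.mul_le_mul_left _ hfr
      have h2 : m * (2 * g) = 2 * (g * m) := by ring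
      omega
    · apply linear_B formV_skew formV_nondeg (prA Γ') _ hω hρ h4 hM0 hle0
      · rw [prA_relIndex, hcard, ← hm]
        omega
      · rw [prA_relIndex, hcard, ← hm]
        rcases Nat.eq_zero_or_pos g with hg0 | hg0
        · have : Module.finrank ℚ (VQ g p) = 0 := by omega
          rw [this, mul_zero]
          positivity
        · have h1 : m * Module.finrank ℚ (VQ g p) ≤ m * (2 * g) := Nat.mul_le_mul_left _ hfr
          have h2 : m * (2 * g) < 2 ^ (Nat.log 2 m + 1) * (2 * g) :=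
            Nat.mul_lt_mul_of_pos_right hmlt (by omega)
          have h3 : g < 2 ^ g := Nat.lt_two_pow_self
          have h5 : 2 ^ (Nat.log 2 m + 1) * (2 * g) ≤ 2 ^ (Nat.log 2 m + 1) * (2 * 2 ^ g) :=
            Nat.mul_le_mul_left _ (by omega)
          have h6 : 2 ^ (Nat.log 2 m + 1) * (2 * 2 ^ g) = 2 ^ (Nat.log 2 m + 1 + 1 + g) := by
            rw [pow_add 2 (Nat.log 2 m + 1 + 1), pow_succ 2 (Nat.log 2 m + 1)]
            ring
          have h7 : 2 ^ (Nat.log 2 m + 1 + 1 + g) ≤ 2 ^ (n - 3 + 1) :=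
            Nat.pow_le_pow_right (by norm_num) (by omega)
          omega
  have hr : ∀ x : φ.range, modIncl g p x ∈ φ'.range := by
    rintro ⟨_, ⟨y, rfl⟩⟩
    exact ⟨y, rfl⟩
  exact Finite.of_injective (fun x : φ.range => (⟨modIncl g p x, hr x⟩ : φ'.range)) (by
    intro x y hxy
    exact Subtype.ext (modIncl_inj (congrArg Subtype.val hxy)))

end Pool.Agent.Helper460_OutF
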