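import Pool.Agent.Helper460_OutF.Sanov

set_option autoImplicit false
set_option linter.unusedSectionVars false
set_option linter.unusedSimpArgs false

namespace Pool.Agent.Helper460_OutF

open FreeGroup (of)
open Filter Topology

/-- The matrix of eigenvectors of the commutator. -/
noncomputable def eS : Matrix (Fin 2) (Fin 2) ℝ := !![2, 2; 3 - √5, 3 + √5]

/-- Its inverse. -/
noncomputable def eSi : Matrix (Fin 2) (Fin 2) ℝ :=
  !![(3 + √5) / (4 * √5), -2 / (4 * √5); -(3 - √5) / (4 * √5), 2 / (4 * √5)]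

lemma s5_pos : (0 : ℝ) < √5 := Real.sqrt_pos.2 (by norm_num)

lemma s5_sq : √5 * √5 = (5 : ℝ) := Real.mul_self_sqrt (by norm_num)

lemma eSi_eS : eSi * eS = 1 := by
  have h := s5_pos
  unfold eSi eS
  rw [Matrix.mul_fin_two, Matrix.one_fin_two]
  congr 1
  ext i j
  fin_cases i <;> fin_cases j <;> simp <;> field_simp <;> ring

lemma eS_eSi : eS * eSi = 1 := mul_eq_one_comm.1 eSi_eS

/-- The real representation in the eigenbasis of the commutator. -/
noncomputable def TT (u : F2) : Matrix (Fin 2) (Fin 2) ℝ :=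
  eSi * ((sanov u : Matrix (Fin 2) (Fin 2) ℤ).map (Int.castRingHom ℝ)) * eS

lemma TT_mul (u v : F2) : TT (u * v) = TT u * TT v := by
  unfold TT
  rw [map_mul, Matrix.SpecialLinearGroup.coe_mul, Matrix.map_mul]
  calc _ = eSi * ((sanov u : Matrix (Fin 2) (Fin 2) ℤ).map (Int.castRingHom ℝ)) * 1 *
        (((sanov v : Matrix (Fin 2) (Fin 2) ℤ).map (Int.castRingHom ℝ)) * eS) := by
        rw [mul_one]; simp only [mul_assoc]
    _ = _ := by rw [← eS_eSi]; simp only [mul_assoc]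

lemma TT_one : TT 1 = 1 := by
  unfold TT
  rw [map_one, Matrix.SpecialLinearGroup.coe_one]
  have : (1 : Matrix (Fin 2) (Fin 2) ℤ).map (Int.castRingHom ℝ) = 1 := by
    rw [Matrix.map_one _ (map_zero _) (map_one _)]
  rw [this, mul_one, eSi_eS]

/-- The large eigenvalue. -/
noncomputable def lam : ℝ := 9 + 4 * √5

/-- The small eigenvalue. -/
noncomputable def lam' : ℝ := 9 - 4 * √5

lemma lam_mul : lam * lam' = 1 := by
  unfold lam lam'
  have := s5_sq
  linear_combination (-16) * this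

lemma lam'_pos : 0 < lam' := by
  unfold lam'
  nlinarith [s5_sq, s5_pos]

lemma lam'_lt : lam' < 1 := by
  unfold lam'
  nlinarith [s5_sq, s5_pos]

/-- First integer invariant. -/
def ivX (u : F2) : ℤ := 6 * (sanov u).1 0 0 + 14 * (sanov u).1 0 1 - 4 * (sanov u).1 1 0 -
  6 * (sanov u).1 1 1

/-- Second integer invariant. -/
def ivY (u : F2) : ℤ := 2 * (sanov u).1 0 0 + 6 * (sanov u).1 0 1 - 2 * (sanov u).1 1 1

lemma TT_entries (u : F2) :
    TT u 0 1 = ((ivX u : ℝ) + √5 * (ivY u : ℝ)) / (4 * √5) ∧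
    TT u 1 0 = -((ivX u : ℝ) - √5 * (ivY u : ℝ)) / (4 * √5) := by
  have h := s5_pos
  have h2 := s5_sq
  have h3 : (√5 : ℝ) ^ 2 = 5 := by rw [sq]; exact h2
  have hT : TT u = !![(3 + √5) / (4 * √5), -2 / (4 * √5); -(3 - √5) / (4 * √5), 2 / (4 * √5)] *
      !![((sanov u).1 0 0 : ℝ), ((sanov u).1 0 1 : ℝ); ((sanov u).1 1 0 : ℝ),
        ((sanov u).1 1 1 : ℝ)] * !![2, 2; 3 - √5, 3 + √5] := by
    unfold TT eSi eS
    congr 2
    ext i j
    fin_cases i <;> fin_cases j <;> simp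
  rw [hT, Matrix.mul_fin_two, Matrix.mul_fin_two]
  unfold ivX ivY
  push_cast
  generalize ((sanov u).1 0 0 : ℝ) = a
  generalize ((sanov u).1 0 1 : ℝ) = b
  generalize ((sanov u).1 1 0 : ℝ) = c
  generalize ((sanov u).1 1 1 : ℝ) = d
  constructor
  · simp only [Matrix.cons_val', Matrix.cons_val_zero, Matrix.cons_val_one, Matrix.of_apply,
      Matrix.cons_val_fin_one]
    field_simp
    ring_nf
    rw [h3]
    ring
  · simp only [Matrix.cons_val', Matrix.cons_val_zero, Matrix.cons_val_one, Matrix.of_apply,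
      Matrix.cons_val_fin_one]
    field_simp
    ring_nf
    rw [h3]
    ring

lemma irr5 {x y : ℤ} (h : (x : ℝ) + √5 * y = 0) : x = 0 ∧ y = 0 := by
  have hirr : Irrational (√5 : ℝ) := by
    have := Nat.Prime.irrational_sqrt (p := 5) (by norm_num)
    exact_mod_cast this
  by_cases hy : y = 0
  · subst hy
    refine ⟨?_, rfl⟩
    simpa using h
  · exfalso
    apply hirr
    refine ⟨(-x : ℚ) / y, ?_⟩
    have hy' : (y : ℝ) ≠ 0 := by exact_mod_cast hy
    push_cast
    field_simp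
    linarith

/-- An element is nondegenerate if it is not a power of the commutator. -/
def ND (u : F2) : Prop := ¬ ∃ k : ℤ, u = cm ^ k

lemma ivXY {u : F2} (hu : ND u) : ¬ (ivX u = 0 ∧ ivY u = 0) := by
  rintro ⟨h1, h2⟩
  apply hu
  apply cm_centralizer
  apply sanov_injective
  rw [map_mul, map_mul]
  apply Subtype.ext
  show (sanov u).1 * (sanov cm).1 = (sanov cm).1 * (sanov u).1
  have h3 : (sanov u).1 0 0 - (sanov u).1 1 1 = -3 * (sanov u).1 0 1 := by
    unfold ivY at h2; linarith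
  have h4 : (sanov u).1 1 0 = - (sanov u).1 0 1 := by
    unfold ivX at h1; linarith
  have hu' : (sanov u : Matrix (Fin 2) (Fin 2) ℤ) =
      !![(sanov u).1 0 0, (sanov u).1 0 1; (sanov u).1 1 0, (sanov u).1 1 1] :=
    Matrix.eta_fin_two _
  rw [sanov_cm, hu', Matrix.mul_fin_two, Matrix.mul_fin_two]
  rw [h4]
  generalize (sanov u).1 0 0 = a at *
  generalize (sanov u).1 0 1 = b at *
  generalize (sanov u).1 1 1 = d at *
  have h5 : a = d - 3 * b := by linarith
  subst h5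
  ext i j
  fin_cases i <;> fin_cases j <;> simp <;> ring

lemma TT_ne {u : F2} (hu : ND u) : TT u 0 1 ≠ 0 ∧ TT u 1 0 ≠ 0 := by
  have h := s5_pos
  obtain ⟨h1, h2⟩ := TT_entries u
  constructor
  · rw [h1]
    intro h3
    rw [div_eq_zero_iff] at h3
    rcases h3 with h3 | h3
    · exact ivXY hu (irr5 h3)
    · linarith
  · rw [h2]
    intro h3
    rw [div_eq_zero_iff] at h3
    rcases h3 with h3 | h3
    · have h4 : ((ivX u : ℤ) : ℝ) + √5 * ((-ivY u : ℤ) : ℝ) = 0 := by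
        push_cast; linarith
      obtain ⟨h5, h6⟩ := irr5 h4
      exact ivXY hu ⟨h5, by linarith⟩
    · linarith

lemma TT_cm : TT cm = !![lam, 0; 0, lam'] := by
  have h := s5_pos
  have h2 := s5_sq
  have h3 : (√5 : ℝ) ^ 2 = 5 := by rw [sq]; exact h2
  have hT : TT cm = !![(3 + √5) / (4 * √5), -2 / (4 * √5); -(3 - √5) / (4 * √5), 2 / (4 * √5)] *
      !![21, -8; 8, -3] * !![2, 2; 3 - √5, 3 + √5] := by
    unfold TT eSi eS
    rw [sanov_cm]
    congr 2
    ext i j
    fin_cases i <;> fin_cases j <;> simp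
  rw [hT, Matrix.mul_fin_two, Matrix.mul_fin_two]
  unfold lam lam'
  congr 1
  ext i j
  fin_cases i <;> fin_cases j <;>
    simp only [Matrix.cons_val', Matrix.cons_val_zero, Matrix.cons_val_one, Matrix.of_apply,
      Matrix.cons_val_fin_one, Fin.zero_eta, Fin.mk_one] <;>
    field_simp <;> ring_nf <;> rw [h3] <;> ring

/-- The shrinking factor. -/
noncomputable def qN (N : ℕ) : ℝ := lam' ^ N * lam' ^ N

lemma qN_tendsto : Tendsto qN atTop (𝓝 0) := by
  have h1 := tendsto_pow_atTop_nhds_zero_of_lt_one lam'_pos.le lam'_lt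
  have := h1.mul h1
  rwa [mul_zero] at this

lemma TT_cm_pow (N : ℕ) : TT (cm ^ N) = !![lam ^ N, 0; 0, lam' ^ N] := by
  induction N with
  | zero => rw [pow_zero, TT_one, pow_zero, pow_zero, Matrix.one_fin_two]
  | succ N ih =>
    rw [pow_succ, TT_mul, ih, TT_cm, Matrix.mul_fin_two, pow_succ, pow_succ]
    congr 1
    ext i j
    fin_cases i <;> fin_cases j <;> simp

lemma TT_cm_pow_inv (N : ℕ) : TT ((cm ^ N)⁻¹) = !![lam' ^ N, 0; 0, lam ^ N] := by
  have h1 : TT (cm ^ N) * TT ((cm ^ N)⁻¹) = 1 := by rw [← TT_mul, mul_inv_cancel, TT_one]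
  have h2 : !![lam' ^ N, 0; 0, lam ^ N] * TT (cm ^ N) = 1 := by
    rw [TT_cm_pow, Matrix.mul_fin_two, Matrix.one_fin_two, ← mul_pow, mul_comm lam', lam_mul,
      one_pow]
    simp
    rw [← mul_pow, lam_mul, one_pow]
  calc TT ((cm ^ N)⁻¹) = 1 * TT ((cm ^ N)⁻¹) := (one_mul _).symm
    _ = !![lam' ^ N, 0; 0, lam ^ N] * (TT (cm ^ N) * TT ((cm ^ N)⁻¹)) := by
      rw [← h2, mul_assoc]
    _ = _ := by rw [h1, mul_one]

/-- The rescaled syllable. -/
noncomputable def ZZ (u : F2) (q : ℝ) : Matrix (Fin 2) (Fin 2) ℝ :=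
  !![q * TT u 0 0, TT u 0 1; q ^ 2 * TT u 1 0, q * TT u 1 1]

lemma ZZ_eq (u : F2) (N : ℕ) : ZZ u (qN N) = qN N • TT (cm ^ N * u * (cm ^ N)⁻¹) := by
  rw [TT_mul, TT_mul, TT_cm_pow, TT_cm_pow_inv]
  have h1 : lam ^ N * lam' ^ N = 1 := by rw [← mul_pow, lam_mul, one_pow]
  rw [Matrix.eta_fin_two (TT u), Matrix.mul_fin_two, Matrix.mul_fin_two]
  unfold ZZ qN
  generalize lam ^ N = x at *
  generalize lam' ^ N = y at *
  ext i j
  fin_cases i <;> fin_cases j <;>
    simp only [Matrix.smul_apply, smul_eq_mul, Matrix.cons_val', Matrix.cons_val_zero,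
      Matrix.cons_val_one, Matrix.of_apply, Matrix.cons_val_fin_one, Fin.zero_eta, Fin.mk_one]
  · linear_combination (-(y * y * TT u 0 0)) * h1
  · linear_combination (-(TT u 0 1) * (x * y + 1)) * h1
  · ring
  · linear_combination (-(y * y * TT u 1 1)) * h1

/-- The twisted word. -/
def tw (N : ℕ) (L : List (F2 × F2)) : F2 :=
  (L.map fun p => cm ^ N * p.1 * (cm ^ N)⁻¹ * p.2).prod

/-- The rescaled product. -/
noncomputable def PZ (q : ℝ) (L : List (F2 × F2)) : Matrix (Fin 2) (Fin 2) ℝ :=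
  (L.map fun p => ZZ p.1 q * TT p.2).prod

lemma PZ_eq (N : ℕ) (L : List (F2 × F2)) : PZ (qN N) L = (qN N) ^ L.length • TT (tw N L) := by
  induction L with
  | nil => simp [PZ, tw, TT_one]
  | cons p L ih =>
    have h1 : PZ (qN N) (p :: L) = ZZ p.1 (qN N) * TT p.2 * PZ (qN N) L := by simp [PZ]
    have h2 : tw N (p :: L) = cm ^ N * p.1 * (cm ^ N)⁻¹ * p.2 * tw N L := by simp [tw]
    rw [h1, h2, ih, ZZ_eq, List.length_cons, pow_succ', TT_mul _ (tw N L), TT_mul _ p.2]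
    simp only [Matrix.smul_mul, Matrix.mul_smul, smul_smul]
    rw [mul_comm (qN N ^ L.length)]

lemma PZ_cont (L : List (F2 × F2)) : Continuous fun q => PZ q L := by
  induction L with
  | nil => exact continuous_const
  | cons p L ih =>
    have h1 : (fun q => PZ q (p :: L)) = fun q => ZZ p.1 q * TT p.2 * PZ q L := by
      funext q; simp [PZ]
    rw [h1]
    refine (Continuous.mul ?_ continuous_const).mul ih
    apply continuous_matrix
    intro i j
    fin_cases i <;> fin_cases j <;> simp only [ZZ] <;> simp <;> fun_prop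

lemma PZ_tendsto (L : List (F2 × F2)) :
    Tendsto (fun N => (qN N) ^ L.length • TT (tw N L)) atTop (𝓝 (PZ 0 L)) := by
  have h1 := ((PZ_cont L).tendsto 0).comp qN_tendsto
  refine h1.congr ?_
  intro N
  exact PZ_eq N L

lemma PZ_zero (M : List (F2 × F2)) (hM : ∀ p ∈ M, ND p.1 ∧ ND p.2) (α w : F2) (hα : ND α) :
    ∃ κ : ℝ, κ ≠ 0 ∧ PZ 0 (M ++ [(α, w)]) = κ • (!![0, 1; 0, 0] * TT w) := by
  induction M with
  | nil =>
    refine ⟨TT α 0 1, (TT_ne hα).1, ?_⟩
    have h1 : PZ 0 ([] ++ [(α, w)]) = ZZ α 0 * TT w := by simp [PZ]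
    rw [h1, ← Matrix.smul_mul]
    congr 1
    unfold ZZ
    ext i j
    fin_cases i <;> fin_cases j <;> simp
  | cons p M ih =>
    obtain ⟨κ, hκ, h1⟩ := ih (fun p hp => hM p (List.mem_cons_of_mem _ hp))
    obtain ⟨hp1, hp2⟩ := hM p (by simp)
    refine ⟨TT p.1 0 1 * TT p.2 1 0 * κ, mul_ne_zero (mul_ne_zero (TT_ne hp1).1 (TT_ne hp2).2) hκ, ?_⟩
    have h2 : PZ 0 (p :: M ++ [(α, w)]) = ZZ p.1 0 * TT p.2 * PZ 0 (M ++ [(α, w)]) := by
      simp [PZ]
    rw [h2, h1]
    have h3 : ZZ p.1 0 * TT p.2 * !![0, 1; 0, 0] = (TT p.1 0 1 * TT p.2 1 0) •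
        (!![0, 1; 0, 0] : Matrix (Fin 2) (Fin 2) ℝ) := by
      unfold ZZ
      rw [Matrix.eta_fin_two (TT p.2), Matrix.mul_fin_two, Matrix.mul_fin_two]
      ext i j
      fin_cases i <;> fin_cases j <;> simp
    rw [Matrix.mul_smul, ← mul_assoc, h3, Matrix.smul_mul, smul_smul, mul_comm κ]

/-- First nontriviality statement. -/
theorem big1 (M : List (F2 × F2)) (hM : ∀ p ∈ M, ND p.1 ∧ ND p.2) (w0 α w : F2) (hα : ND α) :
    ¬ ∀ N : ℕ, w0 * tw N (M ++ [(α, w)]) = 1 := by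
  intro h
  obtain ⟨κ, hκ, h1⟩ := PZ_zero M hM α w hα
  have h2 := PZ_tendsto (M ++ [(α, w)])
  have h3 : ∀ N : ℕ, tw N (M ++ [(α, w)]) = w0⁻¹ := fun N => (inv_eq_of_mul_eq_one_right (h N)).symm
  have h4 : Tendsto (fun N => (qN N) ^ (M ++ [(α, w)]).length • TT w0⁻¹) atTop (𝓝 0) := by
    have h5 : Tendsto (fun N => (qN N) ^ (M ++ [(α, w)]).length) atTop (𝓝 0) := by
      have := qN_tendsto.pow (M ++ [(α, w)]).length
      rwa [zero_pow (by simp)] at this
    have := h5.smul_const (TT w0⁻¹)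
    rwa [zero_smul] at this
  have h5 : PZ 0 (M ++ [(α, w)]) = 0 := by
    refine tendsto_nhds_unique ?_ h4
    refine h2.congr ?_
    intro N
    rw [h3]
  rw [h1, smul_eq_zero] at h5
  rcases h5 with h5 | h5
  · exact hκ h5
  · have h6 : (!![0, 1; 0, 0] : Matrix (Fin 2) (Fin 2) ℝ) = 0 := by
      calc (!![0, 1; 0, 0] : Matrix (Fin 2) (Fin 2) ℝ) = !![0, 1; 0, 0] * (TT w * TT w⁻¹) := by
            rw [← TT_mul, mul_inv_cancel, TT_one, mul_one]
        _ = 0 := by rw [← mul_assoc, h5, zero_mul]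
    have := congrFun (congrFun h6 0) 1
    simp at this

lemma TT_trace (u : F2) : (TT u).trace = (((sanov u : Matrix (Fin 2) (Fin 2) ℤ).trace : ℤ) : ℝ) := by
  unfold TT
  rw [mul_assoc, Matrix.trace_mul_comm, mul_assoc, eS_eSi, mul_one]
  simp [Matrix.trace, Fin.sum_univ_two]

lemma TT_trace_conj {u v : F2} (h : IsConj u v) : (TT u).trace = (TT v).trace := by
  obtain ⟨c, rfl⟩ := isConj_iff.1 h
  rw [TT_mul (c * u), Matrix.trace_mul_comm, ← TT_mul, ← mul_assoc, inv_mul_cancel, one_mul]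

/-- Second nontriviality statement. -/
theorem big2 (L : List (F2 × F2)) (hne : L ≠ []) (hL : ∀ p ∈ L, ND p.1 ∧ ND p.2) (z : F2) :
    ¬ ∀ N : ℕ, IsConj (tw N L) z := by
  intro h
  obtain ⟨M, ⟨α, w⟩, rfl⟩ : ∃ M p, L = M ++ [p] := ⟨L.dropLast, L.getLast hne,
    (List.dropLast_append_getLast hne).symm⟩
  obtain ⟨hα, hw⟩ := hL (α, w) (by simp)
  obtain ⟨κ, hκ, h1⟩ := PZ_zero M (fun p hp => hL p (by simp [hp])) α w hα
  have h2 := PZ_tendsto (M ++ [(α, w)])
  have h3 : Tendsto (fun N => ((qN N) ^ (M ++ [(α, w)]).length • TT (tw N (M ++ [(α, w)]))).trace)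
      atTop (𝓝 (PZ 0 (M ++ [(α, w)])).trace) :=
    ((continuous_id.matrix_trace).tendsto _).comp h2
  have h4 : Tendsto (fun N => ((qN N) ^ (M ++ [(α, w)]).length • TT (tw N (M ++ [(α, w)]))).trace)
      atTop (𝓝 0) := by
    have h5 : Tendsto (fun N => (qN N) ^ (M ++ [(α, w)]).length) atTop (𝓝 0) := by
      have := qN_tendsto.pow (M ++ [(α, w)]).length
      rwa [zero_pow (by simp)] at this
    have := h5.smul_const ((TT z).trace)
    rw [zero_smul] at this
    refine this.congr ?_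
    intro N
    rw [Matrix.trace_smul, TT_trace_conj (h N)]
  have h5 := tendsto_nhds_unique h3 h4
  rw [h1, Matrix.trace_smul, smul_eq_zero] at h5
  rcases h5 with h5 | h5
  · exact hκ h5
  · apply (TT_ne hw).2
    rw [Matrix.eta_fin_two (TT w), Matrix.mul_fin_two] at h5
    simpa [Matrix.trace, Fin.sum_univ_two] using h5

end Pool.Agent.Helper460_OutF
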