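import Mathlib

set_option autoImplicit false
set_option linter.unusedSectionVars false
set_option linter.unusedSimpArgs false

/-! Induced modules. -/

namespace Pool.Agent.Helper460_OutF

variable {G : Type} [Group G] {K : Subgroup G} {V : Type} [AddCommGroup V] [Module ℚ V]
  (ρ : K →* (V ≃ₗ[ℚ] V))

/-- The induced module. -/
def IndV : Submodule ℚ (G → V) where
  carrier := {f | ∀ (x : G) (k : K), f (x * k) = (ρ k)⁻¹ (f x)}
  add_mem' := by
    intro f f' hf hf' x k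
    show f _ + f' _ = _
    rw [hf, hf', ← map_add]
    rfl
  zero_mem' := by
    intro x k
    show (0 : V) = (ρ k)⁻¹ 0
    rw [map_zero]
  smul_mem' := by
    intro c f hf x k
    show c • f _ = (ρ k)⁻¹ (c • f x)
    rw [hf, map_smul]

variable {ρ}

lemma IndV_mul (f : IndV ρ) (x : G) (k : K) : (f : G → V) (x * k) = (ρ k)⁻¹ ((f : G → V) x) :=
  f.2 x k

variable (ρ)

/-- The translate. -/
def trans (g : G) (f : IndV ρ) : IndV ρ :=
  ⟨fun x => (f : G → V) (g⁻¹ * x), by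
    intro x k
    show (f : G → V) (g⁻¹ * (x * k)) = _
    rw [← mul_assoc]
    exact f.2 _ k⟩

lemma trans_apply (g : G) (f : IndV ρ) (x : G) :
    ((trans ρ g f : IndV ρ) : G → V) x = (f : G → V) (g⁻¹ * x) := rfl

lemma trans_mul (g h : G) (f : IndV ρ) : trans ρ (g * h) f = trans ρ g (trans ρ h f) := by
  ext x
  show (f : G → V) ((g * h)⁻¹ * x) = (f : G → V) (h⁻¹ * (g⁻¹ * x))
  rw [mul_inv_rev, mul_assoc]

lemma trans_one (f : IndV ρ) : trans ρ 1 f = f := by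
  ext x
  show (f : G → V) ((1 : G)⁻¹ * x) = (f : G → V) x
  rw [inv_one, one_mul]

/-- The action on the induced module. -/
def ind : G →* (IndV ρ ≃ₗ[ℚ] IndV ρ) where
  toFun g :=
    { toFun := trans ρ g
      invFun := trans ρ g⁻¹
      map_add' := fun f f' => rfl
      map_smul' := fun c f => rfl
      left_inv := fun f => by rw [← trans_mul, inv_mul_cancel, trans_one]
      right_inv := fun f => by rw [← trans_mul, mul_inv_cancel, trans_one] }
  map_one' := by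
    ext1 f
    exact trans_one ρ f
  map_mul' g h := by
    ext1 f
    exact trans_mul ρ g h f

lemma ind_apply (g : G) (f : IndV ρ) (x : G) :
    ((ind ρ g f : IndV ρ) : G → V) x = (f : G → V) (g⁻¹ * x) := rfl

/-- Extension of a vector by zero. -/
noncomputable def extV (v : V) : IndV ρ := by
  classical
  exact ⟨fun x => if h : x ∈ K then (ρ ⟨x, h⟩)⁻¹ v else 0, by
    intro x k
    by_cases h : x ∈ K
    · have h' : x * k ∈ K := K.mul_mem h k.2
      simp only [h, h', dif_pos]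
      have e : (⟨x * k, h'⟩ : K) = ⟨x, h⟩ * k := rfl
      rw [e, map_mul, mul_inv_rev]
      rfl
    · have h' : x * k ∉ K := fun h' => h (by
        have := K.mul_mem h' (K.inv_mem k.2)
        rwa [mul_inv_cancel_right] at this)
      simp only [h, h', dif_neg, not_false_eq_true]
      rw [map_zero]⟩

lemma extV_mem (v : V) {x : G} (h : x ∈ K) : (extV ρ v : G → V) x = (ρ ⟨x, h⟩)⁻¹ v := by
  unfold extV
  simp only [h, dif_pos]

/-- If an element of `K` acts trivially on the induced module it acts trivially on `V`. -/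
lemma of_ind {g : G} (hg : g ∈ K) (h : ind ρ g = 1) : ρ ⟨g, hg⟩ = 1 := by
  ext1 v
  have h1 : ((ind ρ g (extV ρ v) : IndV ρ) : G → V) 1 = (extV ρ v : G → V) 1 := by rw [h]; rfl
  rw [ind_apply, mul_one, extV_mem ρ v (K.inv_mem hg), extV_mem ρ v K.one_mem] at h1
  have e1 : (⟨g⁻¹, K.inv_mem hg⟩ : K) = ⟨g, hg⟩⁻¹ := rfl
  have e2 : (⟨1, K.one_mem⟩ : K) = 1 := rfl
  rw [e1, e2, map_inv, inv_inv, map_one, inv_one] at h1
  exact h1

/-- Elements whose conjugates act trivially on `V` act trivially on the induced module. -/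
lemma ind_one {g : G} (hg : ∀ x : G, ∃ h : x⁻¹ * g * x ∈ K, ρ ⟨x⁻¹ * g * x, h⟩ = 1) :
    ind ρ g = 1 := by
  ext1 f
  ext x
  rw [ind_apply]
  obtain ⟨h, h2⟩ := hg x
  have e : g⁻¹ * x = x * ((⟨x⁻¹ * g * x, h⟩ : K)⁻¹ : K) := by
    show g⁻¹ * x = x * (x⁻¹ * g * x)⁻¹
    group
  rw [e, IndV_mul, map_inv, h2]
  rfl

/-- Finite order in the induced module. -/
lemma ind_finOrder [K.FiniteIndex] {g : G} (hg : ∀ x : G, ∃ h : x⁻¹ * g * x ∈ K,
    IsOfFinOrder (ρ ⟨x⁻¹ * g * x, h⟩)) : IsOfFinOrder (ind ρ g) := by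
  classical
  have hfin : Finite (G ⧸ K) := inferInstance
  have _inst := Fintype.ofFinite (G ⧸ K)
  have hex : ∀ q : G ⧸ K, ∃ n : ℕ, 0 < n ∧ ∀ x : G, (QuotientGroup.mk x : G ⧸ K) = q →
      ∃ h : x⁻¹ * g * x ∈ K, ρ ⟨x⁻¹ * g * x, h⟩ ^ n = 1 := by
    intro q
    obtain ⟨y, rfl⟩ := QuotientGroup.mk_surjective q
    obtain ⟨h, hfo⟩ := hg y
    obtain ⟨n, hn, e⟩ := isOfFinOrder_iff_pow_eq_one.1 hfo
    refine ⟨n, hn, fun x hx => ?_⟩
    obtain ⟨h', -⟩ := hg x
    refine ⟨h', ?_⟩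
    have hk : x⁻¹ * y ∈ K := QuotientGroup.eq.1 hx
    have e2 : (⟨x⁻¹ * g * x, h'⟩ : K) = ⟨x⁻¹ * y, hk⟩ * ⟨y⁻¹ * g * y, h⟩ * ⟨x⁻¹ * y, hk⟩⁻¹ := by
      ext1
      show x⁻¹ * g * x = x⁻¹ * y * (y⁻¹ * g * y) * (x⁻¹ * y)⁻¹
      group
    rw [e2, map_mul, map_mul, map_inv, conj_pow, e, mul_one, mul_inv_cancel]
  choose n hn hn2 using hex
  refine isOfFinOrder_iff_pow_eq_one.2 ⟨∏ q, n q, Finset.prod_pos fun q _ => hn q, ?_⟩
  rw [← map_pow]
  apply ind_one
  intro x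
  obtain ⟨h, h2⟩ := hn2 (QuotientGroup.mk x) x rfl
  obtain ⟨m, hm⟩ := Finset.dvd_prod_of_mem n (Finset.mem_univ (QuotientGroup.mk x : G ⧸ K))
  have e : x⁻¹ * g ^ (∏ q, n q) * x = (x⁻¹ * g * x) ^ (∏ q, n q) := by
    have := conj_pow (i := ∏ q, n q) (a := x⁻¹) (b := g)
    rw [inv_inv] at this
    exact this.symm
  have h3 : x⁻¹ * g ^ (∏ q, n q) * x ∈ K := by rw [e]; exact K.pow_mem h _
  refine ⟨h3, ?_⟩
  have e3 : (⟨x⁻¹ * g ^ (∏ q, n q) * x, h3⟩ : K) = ⟨x⁻¹ * g * x, h⟩ ^ (∏ q, n q) := by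
    ext1
    exact e
  rw [e3, map_pow, hm, pow_mul, h2, one_pow]

/-- Evaluation on representatives. -/
noncomputable def evR : IndV ρ →ₗ[ℚ] (G ⧸ K → V) where
  toFun f q := (f : G → V) q.out
  map_add' _ _ := rfl
  map_smul' _ _ := rfl

lemma evR_inj : Function.Injective (evR ρ) := by
  rw [injective_iff_map_eq_zero]
  intro f hf
  ext x
  have h1 : (QuotientGroup.mk x : G ⧸ K).out⁻¹ * x ∈ K :=
    QuotientGroup.eq.1 (QuotientGroup.out_eq' (QuotientGroup.mk x : G ⧸ K))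
  have e : x = (QuotientGroup.mk x : G ⧸ K).out * (⟨_, h1⟩ : K) := by
    show x = _ * (_⁻¹ * x)
    rw [mul_inv_cancel_left]
  rw [e, IndV_mul]
  have h2 : (f : G → V) (QuotientGroup.mk x : G ⧸ K).out = 0 := congrFun hf _
  rw [h2, map_zero]
  rfl

instance [K.FiniteIndex] [FiniteDimensional ℚ V] : FiniteDimensional ℚ (IndV ρ) := by
  have hfin : Finite (G ⧸ K) := inferInstance
  exact FiniteDimensional.of_injective (evR ρ) (evR_inj ρ)

lemma finrank_IndV [K.FiniteIndex] [FiniteDimensional ℚ V] :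
    Module.finrank ℚ (IndV ρ) ≤ Nat.card (G ⧸ K) * Module.finrank ℚ V := by
  have hfin : Finite (G ⧸ K) := inferInstance
  have _inst := Fintype.ofFinite (G ⧸ K)
  have := LinearMap.finrank_le_finrank_of_injective (f := evR ρ) (evR_inj ρ)
  rw [Module.finrank_pi_fintype, Finset.sum_const, Finset.card_univ, smul_eq_mul,
    ← Nat.card_eq_fintype_card] at this
  exact this

end Pool.Agent.Helper460_OutF
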