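import Mathlib

set_option autoImplicit false

namespace Pool.Agent.Helper460_OutF

open Matrix

/-- A group has no triangular families indexed by `J`: for every rank function `rk`, whenever
`g i` commutes with `h j` for all `i ≠ j` with `rk i ≤ rk j`, some `g i` commutes with `h i`. -/
def NoTri (J : Type) (G : Type) [Group G] : Prop :=
  ∀ (rk : J → ℕ) (g h : J → G), (∀ i j, i ≠ j → rk i ≤ rk j → g i * h j = h j * g i) →
    ∃ i, g i * h i = h i * g i

lemma matrix_rank_add_le {K : Type*} [Field K] {m n : Type*} [Fintype m] [Fintype n]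
    (A B : Matrix m n K) : (A + B).rank ≤ A.rank + B.rank := by
  have h : LinearMap.range (A + B).mulVecLin ≤
      LinearMap.range A.mulVecLin ⊔ LinearMap.range B.mulVecLin := by
    rw [Matrix.mulVecLin_add]
    exact LinearMap.range_add_le _ _
  exact (Submodule.finrank_mono h).trans (Submodule.finrank_add_le_finrank_add_finrank _ _)

lemma rank_lt_of_mulVec_eq_zero {K : Type*} [Field K] {n : Type*} [Fintype n] [DecidableEq n]
    (E : Matrix n n K)
    (v : n → K) (hv : v ≠ 0) (h : E *ᵥ v = 0) : E.rank ≤ Fintype.card n - 1 := by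
  have h1 : Module.finrank K (LinearMap.range E.mulVecLin) +
      Module.finrank K (LinearMap.ker E.mulVecLin) = Fintype.card n := by
    rw [LinearMap.finrank_range_add_finrank_ker]; simp
  have h2 : 0 < Module.finrank K (LinearMap.ker E.mulVecLin) := by
    rw [Module.finrank_pos_iff_exists_ne_zero]
    refine ⟨⟨v, by simpa using h⟩, fun h' => hv ?_⟩
    simpa using congrArg Subtype.val h'
  have h3 : E.rank = Module.finrank K (LinearMap.range E.mulVecLin) := rfl
  omega

/-- Triangular matrices with nonzero diagonal have full rank. -/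
lemma rank_of_tri {K : Type*} [Field K] {J : Type*} [Fintype J] [DecidableEq J] (rk : J → ℕ)
    (D : Matrix J J K) (h1 : ∀ i j, i ≠ j → rk i ≤ rk j → D i j = 0) (h2 : ∀ i, D i i ≠ 0) :
    D.rank = Fintype.card J := by
  classical
  have hker : LinearMap.ker D.mulVecLin = ⊥ := by
    rw [LinearMap.ker_eq_bot']
    intro x hx
    by_contra hne
    have hS : (Finset.univ.filter (fun j => x j ≠ 0)).Nonempty := by
      by_contra hemp
      rw [Finset.not_nonempty_iff_eq_empty] at hemp
      apply hne
      funext j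
      by_contra hj
      have : j ∈ Finset.univ.filter (fun j => x j ≠ 0) := by simpa using hj
      rw [hemp] at this
      exact absurd this (Finset.notMem_empty j)
    obtain ⟨i, hi, hmin⟩ := Finset.exists_min_image _ rk hS
    have hxi : x i ≠ 0 := (Finset.mem_filter.1 hi).2
    have hrow := congrFun hx i
    have hsum : (D *ᵥ x) i = D i i * x i := by
      rw [Matrix.mulVec, dotProduct]
      rw [Finset.sum_eq_single i]
      · intro j _ hji
        by_cases hxj : x j = 0
        · rw [hxj, mul_zero]
        · rw [h1 i j (Ne.symm hji) (hmin j (by simpa using hxj)), zero_mul]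
      · intro h; exact absurd (Finset.mem_univ i) h
    have : D i i * x i = 0 := by rw [← hsum]; exact hrow
    exact (mul_ne_zero (h2 i) hxi) this
  have h3 : Module.finrank K (LinearMap.range D.mulVecLin) +
      Module.finrank K (LinearMap.ker D.mulVecLin) = Fintype.card J := by
    rw [LinearMap.finrank_range_add_finrank_ker]; simp
  rw [hker, finrank_bot, add_zero] at h3
  exact h3

theorem matrix_tri {K : Type*} [Field K] [Infinite K] {n : Type*} [Fintype n] [DecidableEq n]
    {J : Type*} [Fintype J] [DecidableEq J] (rk : J → ℕ) (g h : J → Matrix n n K)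
    (hc : ∀ i j, i ≠ j → rk i ≤ rk j → g i * h j = h j * g i)
    (hn : ∀ i, g i * h i ≠ h i * g i) :
    Fintype.card J ≤ 2 * (Fintype.card n - 1) := by
  classical
  rcases isEmpty_or_nonempty J with hJ | ⟨⟨i0⟩⟩
  · simp
  let C : J → Matrix n n K := fun i => g i * h i - h i * g i
  have hC : ∀ i, C i ≠ 0 := fun i => sub_ne_zero.2 (hn i)
  obtain ⟨v, hv⟩ := Submodule.exists_forall_notMem_of_forall_ne_top
    (fun i : J => LinearMap.ker (C i).mulVecLin) (by
      intro i htop
      apply hC i
      have := LinearMap.ker_eq_top.1 htop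
      apply Matrix.toLin'.injective
      rw [map_zero]
      exact this)
  have hCv : ∀ i, C i *ᵥ v ≠ 0 := fun i h0 => hv i (by simpa using h0)
  have hv0 : v ≠ 0 := fun h0 => hCv i0 (by rw [h0]; simp)
  obtain ⟨f, hf⟩ := Module.exists_dual_forall_apply_ne_zero (K := K)
    (fun o : Option J => o.elim v (fun i => C i *ᵥ v)) (by
      rintro (_ | i)
      · exact hv0
      · exact hCv i)
  obtain ⟨l, hl⟩ : ∃ l : n → K, ∀ x, f x = l ⬝ᵥ x := by
    refine ⟨fun a => f (Pi.single a 1), fun x => ?_⟩
    conv_lhs => rw [← LinearMap.sum_single_apply (fun _ => K) x]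
    rw [map_sum, dotProduct]
    refine Finset.sum_congr rfl fun a _ => ?_
    have : (Pi.single a (x a) : n → K) = x a • Pi.single a 1 := by
      rw [← Pi.single_smul]; simp
    rw [this, map_smul, smul_eq_mul, mul_comm]
  have hlv : l ⬝ᵥ v ≠ 0 := by rw [← hl]; exact hf none
  have hlC : ∀ i, l ⬝ᵥ (C i *ᵥ v) ≠ 0 := fun i => by rw [← hl]; exact hf (some i)
  let E : Matrix n n K := (l ⬝ᵥ v) • (1 : Matrix n n K) - vecMulVec v l
  have hE : E *ᵥ v = 0 := by
    simp only [E, Matrix.sub_mulVec, Matrix.smul_mulVec, Matrix.one_mulVec]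
    rw [Matrix.vecMulVec_mulVec]
    ext a
    simp
  have hEr : E.rank ≤ Fintype.card n - 1 := rank_lt_of_mulVec_eq_zero E v hv0 hE
  have hEapp : ∀ x, E *ᵥ x = (l ⬝ᵥ v) • x - (l ⬝ᵥ x) • v := by
    intro x
    simp only [E, Matrix.sub_mulVec, Matrix.smul_mulVec, Matrix.one_mulVec]
    rw [Matrix.vecMulVec_mulVec]
    ext a
    simp
  have key : ∀ (a b : J → Matrix n n K),
      (Matrix.of (fun i j => l ⬝ᵥ (a i *ᵥ (E *ᵥ (b j *ᵥ v)))) : Matrix J J K).rank ≤
        Fintype.card n - 1 := by
    intro a b
    have : (Matrix.of (fun i j => l ⬝ᵥ (a i *ᵥ (E *ᵥ (b j *ᵥ v)))) : Matrix J J K) =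
        (Matrix.of (fun i => l ᵥ* a i) : Matrix J n K) * E *
          (Matrix.of (fun j => b j *ᵥ v) : Matrix J n K)ᵀ := by
      ext i j
      rw [Matrix.mul_assoc, Matrix.mul_apply, Matrix.of_apply]
      rw [Matrix.dotProduct_mulVec]
      rfl
    rw [this, Matrix.mul_assoc]
    refine (Matrix.rank_mul_le_right _ _).trans ?_
    exact (Matrix.rank_mul_le_left _ _).trans hEr
  let P : Matrix J J K := Matrix.of (fun i j => l ⬝ᵥ (g i *ᵥ (E *ᵥ (h j *ᵥ v))))
  let Q : Matrix J J K := Matrix.of (fun i j => l ⬝ᵥ (h i *ᵥ (E *ᵥ ((-g j) *ᵥ v))))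
  have hPQ : ∀ i j, (P + Qᵀ) i j = (l ⬝ᵥ v) * (l ⬝ᵥ ((g i * h j - h j * g i) *ᵥ v)) := by
    intro i j
    simp only [P, Q, Matrix.of_apply, Matrix.add_apply, Matrix.transpose_apply, hEapp,
      Matrix.mulVec_sub, Matrix.mulVec_smul, dotProduct_sub, dotProduct_smul, smul_eq_mul,
      Matrix.mulVec_mulVec, Matrix.neg_mulVec, Matrix.mulVec_neg, dotProduct_neg,
      Matrix.sub_mulVec]
    ring
  have hD : (P + Qᵀ).rank = Fintype.card J := by
    apply rank_of_tri rk
    · intro i j hij hrk
      rw [hPQ, hc i j hij hrk, sub_self, Matrix.zero_mulVec, dotProduct_zero, mul_zero]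
    · intro i
      rw [hPQ]
      exact mul_ne_zero hlv (hlC i)
  have h1 : (P + Qᵀ).rank ≤ P.rank + Qᵀ.rank := matrix_rank_add_le _ _
  have h2 : Qᵀ.rank ≤ Fintype.card n - 1 := by
    rw [Matrix.rank_transpose]
    exact key h (fun j => - g j)
  have h3 : P.rank ≤ Fintype.card n - 1 := key g h
  omega

/-- Matrix groups over domains have no large triangular families. -/
theorem noTri_GL {R : Type} [CommRing R] [IsDomain R] {n : Type} [Fintype n] [DecidableEq n]
    {J : Type} [Finite J] (hJ : 2 * Fintype.card n < Nat.card J + 2) (hJ1 : Nonempty J) :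
    NoTri J (Matrix n n R)ˣ := by
  classical
  have _inst := Fintype.ofFinite J
  intro rk g h hc
  by_contra hne
  push Not at hne
  let K := FractionRing R
  let L := AlgebraicClosure K
  let i : R →+* L := (algebraMap K L).comp (algebraMap R K)
  have hi : Function.Injective i :=
    (algebraMap K L).injective.comp (IsFractionRing.injective R K)
  let φ : Matrix n n R →+* Matrix n n L := i.mapMatrix
  have hφ : Function.Injective φ := by
    intro A B hAB
    ext a b
    have := congrFun (congrFun hAB a) b
    exact hi this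
  have : Infinite L := IsAlgClosed.instInfinite
  have := matrix_tri (K := L) rk (fun j => φ (g j : Matrix n n R))
    (fun j => φ (h j : Matrix n n R)) (by
      intro i j hij hrk
      rw [← map_mul, ← map_mul]
      congr 1
      have := congrArg (fun u : (Matrix n n R)ˣ => (u : Matrix n n R)) (hc i j hij hrk)
      simpa using this) (by
      intro i h'
      rw [← map_mul, ← map_mul] at h'
      apply hne i
      ext1
      simpa using hφ h')
  rw [Nat.card_eq_fintype_card] at hJ
  have : 0 < Fintype.card J := Fintype.card_pos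
  omega

end Pool.Agent.Helper460_OutF
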