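import Pool.Agent.Helper460_OutF.Symp

set_option autoImplicit false
set_option linter.unusedSectionVars false
set_option linter.unusedSimpArgs false

namespace Pool.Agent.Helper460_OutF

open FreeGroup (of)
open scoped commutatorElement Pointwise

section grp

variable {H : Type} [Group H]

/-- If all squares in `⟨A, B⟩` commute and `A`, `B` commute with `⁅A, B⁆²`, the commutator has
finite order. -/
lemma sq_finite {A B : H}
    (hsq : ∀ x ∈ Subgroup.closure ({A, B} : Set H), ∀ y ∈ Subgroup.closure ({A, B} : Set H),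
      x ^ 2 * y ^ 2 = y ^ 2 * x ^ 2)
    (hA : A * ⁅A, B⁆ ^ 2 = ⁅A, B⁆ ^ 2 * A) (hB : B * ⁅A, B⁆ ^ 2 = ⁅A, B⁆ ^ 2 * B) :
    ⁅A, B⁆ ^ 8 = 1 := by
  set Q := Subgroup.closure ({A, B} : Set H) with hQ
  have hAQ : A ∈ Q := Subgroup.subset_closure (by simp)
  have hBQ : B ∈ Q := Subgroup.subset_closure (by simp)
  -- every commutator is a product of three squares
  have h3 : ∀ x y : H, ⁅x, y⁆ = (x * y) ^ 2 * (y⁻¹ * x⁻¹ * y) ^ 2 * (y⁻¹) ^ 2 := by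
    intro x y
    rw [commutatorElement_def, pow_two, pow_two, pow_two]
    group
  have hcs : ∀ x ∈ Q, ∀ y ∈ Q, ∀ z ∈ Q, Commute ⁅x, y⁆ (z ^ 2) := by
    intro x hx y hy z hz
    rw [h3]
    refine Commute.mul_left (Commute.mul_left ?_ ?_) ?_
    · exact hsq _ (Q.mul_mem hx hy) _ hz
    · exact hsq _ (Q.mul_mem (Q.mul_mem (Q.inv_mem hy) (Q.inv_mem hx)) hy) _ hz
    · exact hsq _ (Q.inv_mem hy) _ hz
  have hcc : ∀ x ∈ Q, ∀ y ∈ Q, ∀ z ∈ Q, ∀ w ∈ Q, Commute ⁅x, y⁆ ⁅z, w⁆ := by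
    intro x hx y hy z hz w hw
    rw [h3 z w]
    refine Commute.mul_right (Commute.mul_right ?_ ?_) ?_
    · exact hcs _ hx _ hy _ (Q.mul_mem hz hw)
    · exact hcs _ hx _ hy _ (Q.mul_mem (Q.mul_mem (Q.inv_mem hw) (Q.inv_mem hz)) hw)
    · exact hcs _ hx _ hy _ (Q.inv_mem hw)
  obtain ⟨Z, hZ⟩ : ∃ Z, Z = ⁅A, B⁆ := ⟨_, rfl⟩
  rw [← hZ] at hA hB ⊢
  obtain ⟨Z', hZ'⟩ : ∃ Z', Z' = A * Z * A⁻¹ := ⟨_, rfl⟩
  have hZZ' : Commute Z' Z := by
    have e : Z' = ⁅A, A * B * A⁻¹⁆ := by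
      rw [hZ', hZ, commutatorElement_def, commutatorElement_def]; group
    rw [e, hZ]
    exact hcc _ hAQ _ (Q.mul_mem (Q.mul_mem hAQ hBQ) (Q.inv_mem hAQ)) _ hAQ _ hBQ
  obtain ⟨T, hT⟩ : ∃ T, T = Z' * Z := ⟨_, rfl⟩
  have hTB : A ^ 2 * B * (A ^ 2)⁻¹ = T * B := by
    rw [hT, hZ', hZ, commutatorElement_def, pow_two]; group
  have hTBT : T * B * T = B := by
    have h1 := hsq _ hAQ _ hBQ
    have h2 : (A ^ 2 * B * (A ^ 2)⁻¹) ^ 2 = B ^ 2 := by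
      rw [conj_pow, h1, mul_inv_cancel_right]
    rw [hTB, pow_two, pow_two, ← mul_assoc] at h2
    exact mul_right_cancel h2
  have hZ'2 : Z' ^ 2 = Z ^ 2 := by
    rw [hZ', conj_pow, hA, mul_inv_cancel_right]
  have hT2 : T ^ 2 = Z ^ 4 := by
    rw [hT, hZZ'.mul_pow, hZ'2, ← pow_add]
  have hBT : B * T ^ 2 = T ^ 2 * B := by
    rw [hT2, show 4 = 2 * 2 from rfl, pow_mul]
    exact ((show Commute B (Z ^ 2) from hB).pow_right 2).eq
  have h5 : T ^ 2 * B * T ^ 2 = B := by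
    calc T ^ 2 * B * T ^ 2 = T * (T * B * T) * T := by rw [pow_two]; group
      _ = B := by rw [hTBT, hTBT]
  have h6 : T ^ 2 * T ^ 2 = 1 := by
    rw [mul_assoc, hBT, ← mul_assoc] at h5
    exact mul_eq_right.1 h5
  calc Z ^ 8 = Z ^ 4 * Z ^ 4 := by rw [← pow_add]
    _ = 1 := by rw [← hT2, h6]

/-- Consequences of commuting squares. -/
lemma bad_grp {A B C U Z : H} (hUA : U * A = A * U) (hUB : U * B = B * U) (hUZ : U * Z = Z * U)
    (hUC : U * C = C * Z * U)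
    (h1 : U ^ 2 * C ^ 2 = C ^ 2 * U ^ 2) (h2 : U ^ 2 * (C * A) ^ 2 = (C * A) ^ 2 * U ^ 2)
    (h3 : U ^ 2 * (C * B) ^ 2 = (C * B) ^ 2 * U ^ 2) :
    C⁻¹ * Z ^ 2 * C = (Z ^ 2)⁻¹ ∧ A * Z ^ 2 = Z ^ 2 * A ∧ B * Z ^ 2 = Z ^ 2 * B := by
  have hU1 : C⁻¹ * U * C = Z * U := by rw [mul_assoc, hUC]; group
  have hU2 : C⁻¹ * U ^ 2 * C = Z ^ 2 * U ^ 2 := by
    have : C⁻¹ * U ^ 2 * C = (C⁻¹ * U * C) ^ 2 := by rw [pow_two, pow_two]; group
    rw [this, hU1]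
    exact (show Commute Z U from hUZ.symm).mul_pow 2
  have key : ∀ D : H, Commute U D → U ^ 2 * (C * D) ^ 2 = (C * D) ^ 2 * U ^ 2 →
      C⁻¹ * (D⁻¹ * Z ^ 2 * D) * C = (Z ^ 2)⁻¹ := by
    intro D hD hsq
    have e1 : (C * D)⁻¹ * U ^ 2 * (C * D) = D⁻¹ * Z ^ 2 * D * U ^ 2 := by
      have : (C * D)⁻¹ * U ^ 2 * (C * D) = D⁻¹ * (C⁻¹ * U ^ 2 * C) * D := by group
      rw [this, hU2, mul_assoc, mul_assoc, (hD.pow_left 2).eq]
      group
    have e2 : ((C * D) ^ 2)⁻¹ * U ^ 2 * (C * D) ^ 2 = U ^ 2 := by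
      rw [mul_assoc, hsq, inv_mul_cancel_left]
    have e3 : ((C * D) ^ 2)⁻¹ * U ^ 2 * (C * D) ^ 2 =
        (C * D)⁻¹ * ((C * D)⁻¹ * U ^ 2 * (C * D)) * (C * D) := by
      rw [pow_two (C * D)]; group
    rw [e1] at e3
    have e4 : (C * D)⁻¹ * (D⁻¹ * Z ^ 2 * D * U ^ 2) * (C * D) =
        ((C * D)⁻¹ * (D⁻¹ * Z ^ 2 * D) * (C * D)) * ((C * D)⁻¹ * U ^ 2 * (C * D)) := by group
    rw [e4, e1, e2] at e3
    have e5 : (C * D)⁻¹ * (D⁻¹ * Z ^ 2 * D) * (C * D) * (D⁻¹ * Z ^ 2 * D) = 1 := by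
      have := e3
      rw [← mul_assoc] at this
      exact (right_eq_mul.1 (this.trans (by rfl)))
    have e6 : D⁻¹ * (C⁻¹ * (D⁻¹ * Z ^ 2 * D) * C) * D * (D⁻¹ * Z ^ 2 * D) = 1 := by
      rw [← e5]; group
    have e7 : C⁻¹ * (D⁻¹ * Z ^ 2 * D) * C * Z ^ 2 = 1 := by
      have : D⁻¹ * (C⁻¹ * (D⁻¹ * Z ^ 2 * D) * C) * D * (D⁻¹ * Z ^ 2 * D) =
          D⁻¹ * (C⁻¹ * (D⁻¹ * Z ^ 2 * D) * C * Z ^ 2) * D := by group
      rw [this] at e6
      have := congrArg (fun x => D * x * D⁻¹) e6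
      simpa [mul_assoc] using this
    exact eq_inv_of_mul_eq_one_left e7
  have k0 : C⁻¹ * Z ^ 2 * C = (Z ^ 2)⁻¹ := by
    have := key 1 (Commute.one_right _) (by simpa using h1)
    simpa using this
  have kk : ∀ D : H, C⁻¹ * (D⁻¹ * Z ^ 2 * D) * C = (Z ^ 2)⁻¹ → D * Z ^ 2 = Z ^ 2 * D := by
    intro D hD
    rw [← k0] at hD
    have h4 : D⁻¹ * Z ^ 2 * D = Z ^ 2 := by
      have := congrArg (fun x => C * x * C⁻¹) hD
      simpa [mul_assoc] using this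
    have := congrArg (fun x => D * x) h4
    simpa [mul_assoc] using this.symm
  exact ⟨k0, kk A (key A hUA h2), kk B (key B hUB h3)⟩

lemma famA {r : ℕ} (hH : NoTri2Fam r H) {J : Type} [Finite J] (hr : r ≤ 2 * Nat.card J)
    (u v : J → H) (huu : ∀ i j, u i * u j = u j * u i)
    (huv : ∀ i j, i ≠ j → u i * v j = v j * u i) :
    ∃ i, u i ^ 2 * v i ^ 2 = v i ^ 2 * u i ^ 2 := by
  let rk : J ⊕ J → ℕ := Sum.elim (fun _ => 0) (fun _ => 1)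
  have hcard : r ≤ Nat.card (J ⊕ J) := by rw [Nat.card_sum]; omega
  obtain ⟨i, hi⟩ := hH _ hcard rk (Sum.elim u v) (Sum.elim v u) (by
    rintro (i | i) (j | j) hij hrk
    · exact huv i j (fun h => hij (by rw [h]))
    · exact huu i j
    · simp [rk] at hrk
    · exact (huv j i (fun h => hij (by rw [h]))).symm)
  rcases i with i | i
  · exact ⟨i, hi⟩
  · exact ⟨i, hi.symm⟩

lemma famB {r : ℕ} (hH : NoTri2Fam r H) {J : Type} [Finite J] (hr : r ≤ 2 * Nat.card J + 2)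
    (u v : J → H) (x y : H) (huu : ∀ i j, u i * u j = u j * u i)
    (huv : ∀ i j, i ≠ j → u i * v j = v j * u i) (hux : ∀ i, u i * x = x * u i)
    (huy : ∀ i, u i * y = y * u i) :
    (∃ i, u i ^ 2 * v i ^ 2 = v i ^ 2 * u i ^ 2) ∨ x ^ 2 * y ^ 2 = y ^ 2 * x ^ 2 := by
  let rk : (J ⊕ J) ⊕ Bool → ℕ := Sum.elim (Sum.elim (fun _ => 0) (fun _ => 3))
    (fun t => if t then 1 else 2)
  let G : (J ⊕ J) ⊕ Bool → H := Sum.elim (Sum.elim u v) (fun t => if t then x else y)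
  let L : (J ⊕ J) ⊕ Bool → H := Sum.elim (Sum.elim v u) (fun t => if t then y else x)
  have hcard : r ≤ Nat.card ((J ⊕ J) ⊕ Bool) := by
    rw [Nat.card_sum, Nat.card_sum, Nat.card_eq_fintype_card (α := Bool), Fintype.card_bool]
    omega
  obtain ⟨i, hi⟩ := hH _ hcard rk G L (by
    rintro ((i | i) | (_ | _)) ((j | j) | (_ | _)) hij hrk
    · exact huv i j (fun h => hij (by rw [h]))
    · exact huu i j
    · exact hux i
    · exact huy i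
    · simp [rk] at hrk
    · exact (huv j i (fun h => hij (by rw [h]))).symm
    · simp [rk] at hrk
    · simp [rk] at hrk
    · simp [rk] at hrk
    · exact (huy j).symm
    · exact absurd rfl hij
    · simp [rk] at hrk
    · simp [rk] at hrk
    · exact (hux j).symm
    · rfl
    · exact absurd rfl hij)
  rcases i with ((i | i) | (_ | _))
  · exact Or.inl ⟨i, hi⟩
  · exact Or.inl ⟨i, hi.symm⟩
  · exact Or.inr hi.symm
  · exact Or.inr hi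

end grp

section

variable {ι : Type} [DecidableEq ι] [Fintype ι] {H : Type} [Group H]
  {Γ : Subgroup (MulAut (FreeGroup ι))}

/-- Twisting a homomorphism by an ambient automorphism. -/
def twist [Γ.Normal] (b : MulAut (FreeGroup ι)) (ρ : Γ →* H) : Γ →* H :=
  ρ.comp ((MulAut.conjNormal b : MulAut Γ) : Γ →* Γ)

lemma twist_apply [Γ.Normal] (b : MulAut (FreeGroup ι)) (ρ : Γ →* H) {x : MulAut (FreeGroup ι)}
    (hx : x ∈ Γ) (hx' : b * x * b⁻¹ ∈ Γ) : twist b ρ ⟨x, hx⟩ = ρ ⟨b * x * b⁻¹, hx'⟩ := rfl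

/-- The homomorphism `w ↦ ρ (cc i w)`. -/
def RR (hIA : IA (FreeGroup ι) ≤ Γ) (ρ : Γ →* H) (i : ι) : FreeGroup ι →* H :=
  ρ.comp ((cc i).codRestrict Γ (fun w => hIA (cc_mem_IA i w)))

/-- The elements `ρ (rr c ⁅x_j, x_k⁆)`. -/
def UU (hIA : IA (FreeGroup ι) ≤ Γ) (ρ : Γ →* H) (j k c : ι) : H :=
  ρ ⟨rr c ⁅of j, of k⁆, hIA (rr_comm_mem_IA _ _ _)⟩

variable (hIA : IA (FreeGroup ι) ≤ Γ) (ρ : Γ →* H)

lemma RR_apply (i : ι) (w : FreeGroup ι) (h : cc i w ∈ Γ) : RR hIA ρ i w = ρ ⟨cc i w, h⟩ := rfl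

lemma UU_RR {i j k c : ι} (hij : i ≠ j) (hik : i ≠ k) (hic : i ≠ c) (w : FreeGroup ι) :
    UU hIA ρ j k c * RR hIA ρ i w = RR hIA ρ i (rr c ⁅of j, of k⁆ w) * UU hIA ρ j k c := by
  unfold UU
  rw [RR_apply hIA ρ i w (hIA (cc_mem_IA _ _)), RR_apply hIA ρ i _ (hIA (cc_mem_IA _ _)),
    ← map_mul, ← map_mul]
  congr 1
  ext1
  show rr c ⁅of j, of k⁆ * cc i w = cc i _ * rr c ⁅of j, of k⁆
  rw [← mul_inv_eq_iff_eq_mul]
  exact (pres_rr hic (kil_comm_of (Ne.symm hij) (Ne.symm hik))).cc w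

lemma UU_comm {j k c d : ι} (hcj : c ≠ j) (hck : c ≠ k) (hdj : d ≠ j) (hdk : d ≠ k) :
    UU hIA ρ j k c * UU hIA ρ j k d = UU hIA ρ j k d * UU hIA ρ j k c := by
  unfold UU
  rw [← map_mul, ← map_mul]
  congr 1
  ext1
  show rr c ⁅of j, of k⁆ * rr d ⁅of j, of k⁆ = rr d ⁅of j, of k⁆ * rr c ⁅of j, of k⁆
  by_cases hcd : c = d
  · subst hcd; rfl
  · show lr c (1, ⁅of j, of k⁆) * lr d (1, ⁅of j, of k⁆) = _
    exact lr_lr_comm hcd (map_one _) (kil_comm_of (Ne.symm hdj) (Ne.symm hdk))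
      (map_one _) (kil_comm_of (Ne.symm hcj) (Ne.symm hck))

lemma UU_RR_ne {i j k c d : ι} (hij : i ≠ j) (hik : i ≠ k) (hic : i ≠ c) (hdc : d ≠ c) :
    UU hIA ρ j k c * RR hIA ρ i (of d) = RR hIA ρ i (of d) * UU hIA ρ j k c := by
  have := UU_RR hIA ρ hij hik hic (of d)
  rwa [rr_ne hdc] at this

lemma UU_RR_self {i j k c : ι} (hij : i ≠ j) (hik : i ≠ k) (hic : i ≠ c) (hcj : c ≠ j)
    (hck : c ≠ k) :
    UU hIA ρ j k c * RR hIA ρ i (of c) =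
      RR hIA ρ i (of c) * ⁅RR hIA ρ i (of j), RR hIA ρ i (of k)⁆ * UU hIA ρ j k c := by
  have := UU_RR hIA ρ hij hik hic (of c)
  rwa [rr_self, kil_comm_of (Ne.symm hcj) (Ne.symm hck), map_mul, map_commutatorElement] at this

lemma RR_twist [Γ.Normal] {i : ι} {b : MulAut (FreeGroup ι)} (hb : Pres i b) (w : FreeGroup ι) :
    RR hIA (twist b ρ) i w = RR hIA ρ i (b w) := by
  rw [RR_apply hIA _ i w (hIA (cc_mem_IA _ _)), RR_apply hIA ρ i _ (hIA (cc_mem_IA _ _)),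
    twist_apply b ρ _ (by rw [hb.cc]; exact hIA (cc_mem_IA _ _))]
  congr 1
  ext1
  exact hb.cc w

lemma UU_twist [hN : Γ.Normal] {j k c d c0 : ι} (hcd : c ≠ d) (hc0 : c ≠ c0) (hdj : d ≠ j)
    (hdk : d ≠ k) :
    UU hIA (twist (rr d (of c0)) ρ) j k c = UU hIA ρ j k c := by
  have h1 : rr d (of c0) * rr c ⁅of j, of k⁆ * (rr d (of c0))⁻¹ = rr c ⁅of j, of k⁆ := by
    have h2 : Pres c (rr d (of c0)) := pres_rr hcd (kil_ne (Ne.symm hc0))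
    rw [h2.rr, rr_fix d _ (kil_comm_of (Ne.symm hdj) (Ne.symm hdk))]
  unfold UU
  rw [twist_apply (rr d (of c0)) ρ _ (by rw [h1]; exact hIA (rr_comm_mem_IA _ _ _))]
  congr 1
  ext1
  exact h1

/-- The index `c` is bad. -/
def Bad (i j k c : ι) : Prop :=
  (UU hIA ρ j k c) ^ 2 * (RR hIA ρ i (of c)) ^ 2 = (RR hIA ρ i (of c)) ^ 2 * (UU hIA ρ j k c) ^ 2 ∧
  (UU hIA ρ j k c) ^ 2 * (RR hIA ρ i (of c) * RR hIA ρ i (of j)) ^ 2 =
    (RR hIA ρ i (of c) * RR hIA ρ i (of j)) ^ 2 * (UU hIA ρ j k c) ^ 2 ∧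
  (UU hIA ρ j k c) ^ 2 * (RR hIA ρ i (of c) * RR hIA ρ i (of k)) ^ 2 =
    (RR hIA ρ i (of c) * RR hIA ρ i (of k)) ^ 2 * (UU hIA ρ j k c) ^ 2

variable {hIA} {ρ}

lemma Bad.conseq {i j k c : ι} (hij : i ≠ j) (hik : i ≠ k) (hic : i ≠ c) (hcj : c ≠ j)
    (hck : c ≠ k) (h : Bad hIA ρ i j k c) :
    (RR hIA ρ i (of c))⁻¹ * ⁅RR hIA ρ i (of j), RR hIA ρ i (of k)⁆ ^ 2 * RR hIA ρ i (of c) =
      (⁅RR hIA ρ i (of j), RR hIA ρ i (of k)⁆ ^ 2)⁻¹ ∧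
    RR hIA ρ i (of j) * ⁅RR hIA ρ i (of j), RR hIA ρ i (of k)⁆ ^ 2 =
      ⁅RR hIA ρ i (of j), RR hIA ρ i (of k)⁆ ^ 2 * RR hIA ρ i (of j) ∧
    RR hIA ρ i (of k) * ⁅RR hIA ρ i (of j), RR hIA ρ i (of k)⁆ ^ 2 =
      ⁅RR hIA ρ i (of j), RR hIA ρ i (of k)⁆ ^ 2 * RR hIA ρ i (of k) := by
  have hA : Commute (UU hIA ρ j k c) (RR hIA ρ i (of j)) := UU_RR_ne hIA ρ hij hik hic (Ne.symm hcj)
  have hB : Commute (UU hIA ρ j k c) (RR hIA ρ i (of k)) := UU_RR_ne hIA ρ hij hik hic (Ne.symm hck)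
  have hZ : Commute (UU hIA ρ j k c) ⁅RR hIA ρ i (of j), RR hIA ρ i (of k)⁆ := by
    rw [commutatorElement_def]
    exact ((hA.mul_right hB).mul_right hA.inv_right).mul_right hB.inv_right
  exact bad_grp hA hB hZ (UU_RR_self hIA ρ hij hik hic hcj hck) h.1 h.2.1 h.2.2

variable (hIA) (ρ)

/-- A witness that an index is not bad. -/
lemma not_bad {i j k c : ι} (h : ¬ Bad hIA ρ i j k c) :
    ∃ y : H, (y = RR hIA ρ i (of c) ∨ y = RR hIA ρ i (of c) * RR hIA ρ i (of j) ∨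
      y = RR hIA ρ i (of c) * RR hIA ρ i (of k)) ∧
      (UU hIA ρ j k c) ^ 2 * y ^ 2 ≠ y ^ 2 * (UU hIA ρ j k c) ^ 2 := by
  by_contra hcon
  push Not at hcon
  exact h ⟨hcon _ (Or.inl rfl), hcon _ (Or.inr (Or.inl rfl)), hcon _ (Or.inr (Or.inr rfl))⟩

lemma card_ne4 (a b c d : ι) :
    Fintype.card ι - 4 ≤ Nat.card {j : ι // j ≠ a ∧ j ≠ b ∧ j ≠ c ∧ j ≠ d} := by
  classical
  rw [Nat.card_eq_fintype_card, Fintype.card_subtype]
  have : (Finset.univ.filter (fun j : ι => j ≠ a ∧ j ≠ b ∧ j ≠ c ∧ j ≠ d)) =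
      Finset.univ \ {a, b, c, d} := by
    ext j
    simp only [Finset.mem_filter, Finset.mem_univ, true_and, Finset.mem_sdiff,
      Finset.mem_insert, Finset.mem_singleton, not_or]
  rw [this]
  have h1 := Finset.le_card_sdiff ({a, b, c, d} : Finset ι) Finset.univ
  have h2 : ({a, b, c, d} : Finset ι).card ≤ 4 := Finset.card_le_four
  rw [Finset.card_univ] at h1
  omega

/-- Elements commuting with the witnesses. -/
lemma UU_wit {i j k c d : ι} (hij : i ≠ j) (hik : i ≠ k) (hic : i ≠ c) (hcj : c ≠ j)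
    (hck : c ≠ k) (hdc : d ≠ c) {y : H}
    (hy : y = RR hIA ρ i (of d) ∨ y = RR hIA ρ i (of d) * RR hIA ρ i (of j) ∨
      y = RR hIA ρ i (of d) * RR hIA ρ i (of k)) :
    UU hIA ρ j k c * y = y * UU hIA ρ j k c := by
  have hA : Commute (UU hIA ρ j k c) (RR hIA ρ i (of j)) := UU_RR_ne hIA ρ hij hik hic (Ne.symm hcj)
  have hB : Commute (UU hIA ρ j k c) (RR hIA ρ i (of k)) := UU_RR_ne hIA ρ hij hik hic (Ne.symm hck)
  have hD : Commute (UU hIA ρ j k c) (RR hIA ρ i (of d)) := UU_RR_ne hIA ρ hij hik hic hdc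
  rcases hy with rfl | rfl | rfl
  · exact hD
  · exact hD.mul_right hA
  · exact hD.mul_right hB

/-- **Finite order of the images of commutator conjugations.** -/
theorem fin_order [hN : Γ.Normal] (h4 : 4 ≤ Fintype.card ι)
    (hH : NoTri2Fam (2 * Fintype.card ι - 6) H) {i j k : ι} (hij : i ≠ j) (hik : i ≠ k) :
    ∀ (m : ℕ) (ρ : Γ →* H), {c | (c ≠ i ∧ c ≠ j ∧ c ≠ k) ∧ Bad hIA ρ i j k c}.ncard = m →
      IsOfFinOrder ⁅RR hIA ρ i (of j), RR hIA ρ i (of k)⁆ := by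
  intro m
  induction m using Nat.strong_induction_on with
  | _ m ih =>
  intro ρ hm
  by_cases h2 : ∃ c0 d, c0 ≠ d ∧ ((c0 ≠ i ∧ c0 ≠ j ∧ c0 ≠ k) ∧ Bad hIA ρ i j k c0) ∧
      ((d ≠ i ∧ d ≠ j ∧ d ≠ k) ∧ Bad hIA ρ i j k d)
  · obtain ⟨c0, d, hcd, ⟨⟨hc1, hc2, hc3⟩, hbc⟩, ⟨hd1, hd2, hd3⟩, hbd⟩ := h2
    have hb : Pres i (rr d (of c0)) := pres_rr (Ne.symm hd1) (kil_ne hc1)
    have ej : RR hIA (twist (rr d (of c0)) ρ) i (of j) = RR hIA ρ i (of j) := by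
      rw [RR_twist hIA ρ hb, rr_ne (Ne.symm hd2)]
    have ek : RR hIA (twist (rr d (of c0)) ρ) i (of k) = RR hIA ρ i (of k) := by
      rw [RR_twist hIA ρ hb, rr_ne (Ne.symm hd3)]
    have ed : RR hIA (twist (rr d (of c0)) ρ) i (of d) = RR hIA ρ i (of d) * RR hIA ρ i (of c0) := by
      rw [RR_twist hIA ρ hb, rr_self, kil_ne hcd, map_mul]
    by_cases hd' : Bad hIA (twist (rr d (of c0)) ρ) i j k d
    · have q1 := (hd'.conseq hij hik (Ne.symm hd1) hd2 hd3).1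
      rw [ej, ek, ed] at q1
      have q2 := (hbd.conseq hij hik (Ne.symm hd1) hd2 hd3).1
      have q3 := (hbc.conseq hij hik (Ne.symm hc1) hc2 hc3).1
      obtain ⟨Z, hZ⟩ : ∃ Z, Z = ⁅RR hIA ρ i (of j), RR hIA ρ i (of k)⁆ := ⟨_, rfl⟩
      rw [← hZ] at q1 q2 q3 ⊢
      obtain ⟨C, hC⟩ : ∃ C, C = RR hIA ρ i (of c0) := ⟨_, rfl⟩
      obtain ⟨D, hD⟩ : ∃ D, D = RR hIA ρ i (of d) := ⟨_, rfl⟩
      rw [← hC, ← hD] at q1
      rw [← hD] at q2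
      rw [← hC] at q3
      have q4 : (D * C)⁻¹ * Z ^ 2 * (D * C) = Z ^ 2 := by
        calc (D * C)⁻¹ * Z ^ 2 * (D * C) = C⁻¹ * (D⁻¹ * Z ^ 2 * D) * C := by group
          _ = (C⁻¹ * Z ^ 2 * C)⁻¹ := by rw [q2]; group
          _ = Z ^ 2 := by rw [q3, inv_inv]
      rw [q4] at q1
      refine isOfFinOrder_iff_pow_eq_one.2 ⟨4, by norm_num, ?_⟩
      calc Z ^ 4 = Z ^ 2 * Z ^ 2 := by rw [← pow_add]
        _ = 1 := by nth_rewrite 1 [q1]; exact inv_mul_cancel _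
    · rw [← ej, ← ek]
      refine ih _ ?_ (twist (rr d (of c0)) ρ) rfl
      rw [← hm]
      apply Set.ncard_lt_ncard _ (Set.toFinite _)
      rw [Set.ssubset_iff_of_subset]
      · exact ⟨d, ⟨⟨hd1, hd2, hd3⟩, hbd⟩, fun h => hd' h.2⟩
      · rintro c ⟨⟨h1, h2, h3⟩, hbad⟩
        refine ⟨⟨h1, h2, h3⟩, ?_⟩
        have hcd' : c ≠ d := by rintro rfl; exact hd' hbad
        by_cases hcc : c = c0
        · subst hcc; exact hbc
        · have e1 : UU hIA (twist (rr d (of c0)) ρ) j k c = UU hIA ρ j k c :=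
            UU_twist hIA ρ hcd' hcc hd2 hd3
          have e2 : RR hIA (twist (rr d (of c0)) ρ) i (of c) = RR hIA ρ i (of c) := by
            rw [RR_twist hIA ρ hb, rr_ne hcd']
          unfold Bad at hbad ⊢
          rwa [e1, e2, ej, ek] at hbad
  · by_cases h1 : ∃ c0, (c0 ≠ i ∧ c0 ≠ j ∧ c0 ≠ k) ∧ Bad hIA ρ i j k c0
    · obtain ⟨c0, ⟨hc1, hc2, hc3⟩, hbc⟩ := h1
      obtain ⟨-, qA, qB⟩ := hbc.conseq hij hik (Ne.symm hc1) hc2 hc3
      by_cases hsq : ∀ x ∈ Subgroup.closure ({RR hIA ρ i (of j), RR hIA ρ i (of k)} : Set H),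
          ∀ y ∈ Subgroup.closure ({RR hIA ρ i (of j), RR hIA ρ i (of k)} : Set H),
          x ^ 2 * y ^ 2 = y ^ 2 * x ^ 2
      · exact isOfFinOrder_iff_pow_eq_one.2 ⟨8, by norm_num, sq_finite hsq qA qB⟩
      · exfalso
        push Not at hsq
        obtain ⟨x, hx, y, hy, hxy⟩ := hsq
        have hgood : ∀ c : {c : ι // c ≠ i ∧ c ≠ j ∧ c ≠ k ∧ c ≠ c0}, ¬ Bad hIA ρ i j k c := by
          rintro ⟨c, h1, h2', h3, h4'⟩ hb
          exact h2 ⟨c0, c, Ne.symm h4', ⟨⟨hc1, hc2, hc3⟩, hbc⟩, ⟨h1, h2', h3⟩, hb⟩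
        choose v hv1 hv2 using fun c => not_bad hIA ρ (hgood c)
        have hcl : ∀ (c : {c : ι // c ≠ i ∧ c ≠ j ∧ c ≠ k ∧ c ≠ c0}) (z : H),
            z ∈ Subgroup.closure ({RR hIA ρ i (of j), RR hIA ρ i (of k)} : Set H) →
            UU hIA ρ j k c * z = z * UU hIA ρ j k c := by
          rintro ⟨c, h1, h2', h3, h4'⟩ z hz
          have hle : Subgroup.closure ({RR hIA ρ i (of j), RR hIA ρ i (of k)} : Set H) ≤
              Subgroup.centralizer {UU hIA ρ j k c} := by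
            rw [Subgroup.closure_le]
            rintro w (rfl | rfl)
            · rw [SetLike.mem_coe, Subgroup.mem_centralizer_singleton_iff]
              exact (UU_RR_ne hIA ρ hij hik (Ne.symm h1) (Ne.symm h2')).symm
            · rw [SetLike.mem_coe, Subgroup.mem_centralizer_singleton_iff]
              exact (UU_RR_ne hIA ρ hij hik (Ne.symm h1) (Ne.symm h3)).symm
          exact (Subgroup.mem_centralizer_singleton_iff.1 (hle hz)).symm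
        rcases famB hH (by have := card_ne4 i j k c0; omega)
          (fun c : {c : ι // c ≠ i ∧ c ≠ j ∧ c ≠ k ∧ c ≠ c0} => UU hIA ρ j k c) v x y
          (fun c d => UU_comm hIA ρ c.2.2.1 c.2.2.2.1 d.2.2.1 d.2.2.2.1)
          (fun c d hcd => UU_wit hIA ρ hij hik (Ne.symm c.2.1) c.2.2.1 c.2.2.2.1
            (fun h => hcd (Subtype.ext h.symm)) (hv1 d))
          (fun c => hcl c x hx) (fun c => hcl c y hy) with ⟨c, hc⟩ | h
        · exact hv2 c hc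
        · exact hxy h
    · exfalso
      have hgood : ∀ c : {c : ι // c ≠ i ∧ c ≠ j ∧ c ≠ k}, ¬ Bad hIA ρ i j k c := by
        rintro ⟨c, h1', h2', h3⟩ hb
        exact h1 ⟨c, ⟨h1', h2', h3⟩, hb⟩
      choose v hv1 hv2 using fun c => not_bad hIA ρ (hgood c)
      obtain ⟨c, hc⟩ := famA hH (by have := card_ne3 i j k; omega)
          (fun c : {c : ι // c ≠ i ∧ c ≠ j ∧ c ≠ k} => UU hIA ρ j k c) v
          (fun c d => UU_comm hIA ρ c.2.2.1 c.2.2.2 d.2.2.1 d.2.2.2)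
          (fun c d hcd => UU_wit hIA ρ hij hik (Ne.symm c.2.1) c.2.2.1 c.2.2.2
            (fun h => hcd (Subtype.ext h.symm)) (hv1 d))
      exact hv2 c hc

/-- The images of commutator conjugations are trivial once they have finite order. -/
theorem cck_of_fin [hN : Γ.Normal] (hC : NoCube (Fintype.card ι - 3) H) {i j k : ι}
    (hij : i ≠ j) (hik : i ≠ k)
    (hfin : IsOfFinOrder ⁅RR hIA ρ i (of j), RR hIA ρ i (of k)⁆) :
    ⁅RR hIA ρ i (of j), RR hIA ρ i (of k)⁆ = 1 := by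
  refine hC {c : ι // c ≠ i ∧ c ≠ j ∧ c ≠ k} (card_ne3 i j k) _ _
    (fun c => UU hIA ρ j k c) (fun c => RR hIA ρ i (of (c : ι))) ?_ ?_ ?_ ?_ ?_ hfin
  · rintro ⟨c, h1, h2, h3⟩
    exact (UU_RR_ne hIA ρ hij hik (Ne.symm h1) (Ne.symm h2)).symm
  · rintro ⟨c, h1, h2, h3⟩
    exact (UU_RR_ne hIA ρ hij hik (Ne.symm h1) (Ne.symm h3)).symm
  · rintro ⟨c, h1, h2, h3⟩ ⟨d, h1', h2', h3'⟩
    exact UU_comm hIA ρ h2 h3 h2' h3'
  · rintro ⟨c, h1, h2, h3⟩ ⟨d, h1', h2', h3'⟩ hcd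
    exact UU_RR_ne hIA ρ hij hik (Ne.symm h1) (fun h => hcd (by subst h; rfl))
  · rintro ⟨c, h1, h2, h3⟩
    have h := UU_RR_self hIA ρ hij hik (Ne.symm h1) h2 h3
    have hA : Commute (UU hIA ρ j k c) (RR hIA ρ i (of j)) :=
      UU_RR_ne hIA ρ hij hik (Ne.symm h1) (Ne.symm h2)
    have hB : Commute (UU hIA ρ j k c) (RR hIA ρ i (of k)) :=
      UU_RR_ne hIA ρ hij hik (Ne.symm h1) (Ne.symm h3)
    show (RR hIA ρ i (of c))⁻¹ * UU hIA ρ j k c * RR hIA ρ i (of c) = _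
    rw [mul_assoc, h]; group

end

end Pool.Agent.Helper460_OutF
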