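import Pool.Agent.Helper460_OutF.CubeGrp

set_option autoImplicit false
set_option linter.unusedSectionVars false
set_option linter.unusedSimpArgs false

namespace Pool.Agent.Helper460_OutF

open Module Module.End
open scoped commutatorElement

/-- The element behaves like a unipotent matrix. -/
def UL {H : Type} [Group H] (z : H) : Prop :=
  ∀ (h : H) (k : ℕ), 0 < k → (z ^ k * h = h * z ^ k → z * h = h * z) ∧
    (z ^ k * h * z ^ k = h → z * h * z = h)

lemma UL.of_injective {H H' : Type} [Group H] [Group H'] (f : H →* H')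
    (hf : Function.Injective f) {z : H} (h : UL (f z)) : UL z := by
  intro x k hk
  refine ⟨fun h1 => hf ?_, fun h1 => hf ?_⟩
  · rw [map_mul, map_mul]
    apply ((h (f x) k hk).1 _)
    rw [← map_pow, ← map_mul, h1, map_mul]
  · rw [map_mul, map_mul]
    apply ((h (f x) k hk).2 _)
    rw [← map_pow, ← map_mul, ← map_mul, h1]

/-- In the group, commutators of torsion poison families of size at least `r` behave like unipotent
elements. -/
def NoCubeU (r : ℕ) (H : Type) [Group H] : Prop :=
  ∀ (J : Type) [Finite J], r ≤ Nat.card J → ∀ (a b : H) (u v : J → H),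
    (∀ c, a * u c = u c * a) → (∀ c, b * u c = u c * b) → (∀ c d, u c * u d = u d * u c) →
    (∀ c d, c ≠ d → u c * v d = v d * u c) → (∀ c, (v c)⁻¹ * u c * v c = ⁅a, b⁆ * u c) →
    UL ⁅a, b⁆

lemma NoCubeU.of_injective {r : ℕ} {H H' : Type} [Group H] [Group H'] (f : H →* H')
    (hf : Function.Injective f) (h : NoCubeU r H') : NoCubeU r H := by
  intro J _ hJ a b u v h1 h2 h3 h4 h5
  apply UL.of_injective f hf
  rw [map_commutatorElement]
  refine h J hJ (f a) (f b) (fun c => f (u c)) (fun c => f (v c)) ?_ ?_ ?_ ?_ ?_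
  · intro c; rw [← map_mul, h1, map_mul]
  · intro c; rw [← map_mul, h2, map_mul]
  · intro c d; rw [← map_mul, h3, map_mul]
  · intro c d hcd; rw [← map_mul, h4 c d hcd, map_mul]
  · intro c; rw [← map_inv, ← map_mul, ← map_mul, h5, map_mul, map_commutatorElement]

section lin

variable {K V : Type} [Field K] [CharZero K] [AddCommGroup V] [Module K V]

/-- A vector fixed by a power of a unipotent operator is fixed. -/
lemma fix_of_pow_fix (N : End K V) (hN : IsNilpotent (N - 1)) {k : ℕ} (hk : 0 < k) {x : V}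
    (h : (N ^ k) x = x) : N x = x := by
  obtain ⟨s, hs⟩ := hN
  have hu : (∑ i ∈ Finset.range k, N ^ i) * (N - 1) = N ^ k - 1 := geom_sum_mul N k
  have hcomm : (∑ i ∈ Finset.range k, N ^ i) * (N - 1) = (N - 1) * (∑ i ∈ Finset.range k, N ^ i) := by
    rw [hu, mul_geom_sum]
  have key : ∀ (s : ℕ) (y : V), (∑ i ∈ Finset.range k, N ^ i) y = 0 → ((N - 1) ^ s) y = 0 →
      y = 0 := by
    intro s
    induction s with
    | zero => intro y _ h2; simpa using h2
    | succ s ih =>
      intro y h1 h2
      have h3 : (N - 1) y = 0 := by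
        apply ih
        · have := congrArg (fun T : End K V => T y) hcomm
          simp only [Module.End.mul_apply] at this
          rw [this, h1, map_zero]
        · rw [pow_succ, Module.End.mul_apply] at h2
          exact h2
      have h4 : N y = y := by
        rw [LinearMap.sub_apply, Module.End.one_apply, sub_eq_zero] at h3
        exact h3
      have h5 : ∀ i : ℕ, (N ^ i) y = y := by
        intro i
        induction i with
        | zero => simp
        | succ i ih => rw [pow_succ, Module.End.mul_apply, h4, ih]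
      rw [LinearMap.sum_apply, Finset.sum_congr rfl (fun i _ => h5 i), Finset.sum_const,
        Finset.card_range, ← Nat.cast_smul_eq_nsmul K] at h1
      rcases smul_eq_zero.1 h1 with h6 | h6
      · exact absurd h6 (by exact_mod_cast hk.ne')
      · exact h6
  have h1 : (N - 1) x = 0 := by
    apply key s
    · have := congrArg (fun T : End K V => T x) hu
      simp only [Module.End.mul_apply, LinearMap.sub_apply, Module.End.one_apply] at this
      rw [h, sub_self] at this
      rw [LinearMap.sub_apply, Module.End.one_apply]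
      exact this
    · rw [hs, LinearMap.zero_apply]
  rw [LinearMap.sub_apply, Module.End.one_apply, sub_eq_zero] at h1
  exact h1

lemma nilp_two (a b : End K V) (ha : IsNilpotent (a - 1)) (hb : IsNilpotent (b - 1)) :
    IsNilpotent (LinearMap.mulLeft K a * LinearMap.mulRight K b - 1) := by
  have h1 : IsNilpotent (LinearMap.mulLeft K (a - 1)) := (LinearMap.isNilpotent_mulLeft_iff K _).2 ha
  have h2 : IsNilpotent (LinearMap.mulRight K (b - 1)) :=
    (LinearMap.isNilpotent_mulRight_iff K _).2 hb
  have e : LinearMap.mulLeft K a * LinearMap.mulRight K b - 1 =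
      LinearMap.mulLeft K (a - 1) * LinearMap.mulRight K b + LinearMap.mulRight K (b - 1) := by
    ext X : 1
    simp only [LinearMap.sub_apply, Module.End.mul_apply, LinearMap.mulLeft_apply,
      LinearMap.mulRight_apply, Module.End.one_apply, LinearMap.add_apply]
    rw [sub_mul, mul_sub, one_mul, mul_one]
    abel
  rw [e]
  have hc : ∀ x y : End K V, Commute (LinearMap.mulLeft K x) (LinearMap.mulRight K y) :=
    fun x y => LinearMap.commute_mulLeft_right x y
  have hc2 : Commute (LinearMap.mulRight K b) (LinearMap.mulRight K (b - 1)) := by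
    show _ * _ = _ * _
    ext X : 1
    simp only [Module.End.mul_apply, LinearMap.mulRight_apply]
    rw [mul_assoc, mul_assoc]
    congr 1
    rw [sub_mul, mul_sub, one_mul, mul_one]
  refine Commute.isNilpotent_add ?_ ?_ h2
  · exact (hc _ _).mul_left hc2
  · exact (hc _ _).isNilpotent_mul_right h1

lemma ul_of_nilp {Z : (End K V)ˣ} (h : IsNilpotent ((Z : End K V) - 1)) : UL Z := by
  have hinv : IsNilpotent (((Z⁻¹ : (End K V)ˣ) : End K V) - 1) := by
    have e : ((Z⁻¹ : (End K V)ˣ) : End K V) - 1 =
        (-((Z⁻¹ : (End K V)ˣ) : End K V)) * ((Z : End K V) - 1) := by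
      rw [mul_sub, neg_mul, Units.inv_mul, mul_one]
      abel
    rw [e]
    have hc : Commute (-((Z⁻¹ : (End K V)ˣ) : End K V)) ((Z : End K V) - 1) := by
      apply Commute.neg_left
      show _ * _ = _ * _
      rw [mul_sub, sub_mul, Units.inv_mul, Units.mul_inv, mul_one, one_mul]
    exact hc.isNilpotent_mul_left h
  have hpow : ∀ (a b x : End K V) (k : ℕ),
      ((LinearMap.mulLeft K a * LinearMap.mulRight K b) ^ k) x = a ^ k * x * b ^ k := by
    intro a b x k
    rw [(LinearMap.commute_mulLeft_right (R := K) a b).mul_pow, Module.End.mul_apply,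
      LinearMap.pow_mulLeft, LinearMap.pow_mulRight, LinearMap.mulLeft_apply,
      LinearMap.mulRight_apply, mul_assoc]
  intro x k hk
  constructor
  · intro h1
    have h2 := fix_of_pow_fix _ (nilp_two (Z : End K V) ((Z⁻¹ : (End K V)ˣ) : End K V) h hinv) hk
      (x := (x : End K V)) (by
        rw [hpow, ← Units.val_pow_eq_pow_val, ← Units.val_pow_eq_pow_val, ← Units.val_mul,
          ← Units.val_mul, h1, inv_pow, mul_inv_cancel_right])
    rw [Module.End.mul_apply, LinearMap.mulLeft_apply, LinearMap.mulRight_apply,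
      ← Units.val_mul, ← Units.val_mul, Units.val_inj, ← mul_assoc, mul_inv_eq_iff_eq_mul] at h2
    exact h2
  · intro h1
    have h2 := fix_of_pow_fix _ (nilp_two (Z : End K V) (Z : End K V) h h) hk
      (x := (x : End K V)) (by
        rw [hpow, ← Units.val_pow_eq_pow_val, ← Units.val_mul, ← Units.val_mul, h1])
    rw [Module.End.mul_apply, LinearMap.mulLeft_apply, LinearMap.mulRight_apply,
      ← Units.val_mul, ← Units.val_mul, Units.val_inj, ← mul_assoc] at h2
    exact h2

end lin

lemma nilp_of_eig {K V : Type} [Field K] [IsAlgClosed K] [AddCommGroup V] [Module K V]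
    [FiniteDimensional K V] (Z : End K V)
    (h : ∀ x : V, x ≠ 0 → ∀ ζ : K, Z x = ζ • x → ζ = 1) : IsNilpotent (Z - 1) := by
  have h1 : ∀ μ : K, μ ≠ 1 → Z.maxGenEigenspace μ = ⊥ := by
    intro μ hμ
    by_contra hne
    obtain ⟨y, hy, hy0, ν, hν⟩ := exists_eig hne Z
      (fun x hx => mapsTo_maxGenEigenspace_of_comm (Commute.refl Z) μ hx)
    apply hμ
    rw [← eig_of_mem_gen hy0 hν hy]
    exact h y hy0 ν hν
  have h2 : Z.maxGenEigenspace 1 = ⊤ := by
    rw [eq_top_iff, ← Module.End.iSup_maxGenEigenspace_eq_top Z]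
    apply iSup_le
    intro μ
    by_cases hμ : μ = 1
    · rw [hμ]
    · rw [h1 μ hμ]
      exact bot_le
  rw [Module.End.maxGenEigenspace_eq_genEigenspace_finrank] at h2
  refine ⟨finrank K V, ?_⟩
  ext x
  have h3 : x ∈ Z.genEigenspace 1 (finrank K V) := by rw [h2]; trivial
  rw [Module.End.mem_genEigenspace_nat] at h3
  have h4 : ((Z - (1 : K) • (1 : End K V)) ^ finrank K V) x = 0 := h3
  rw [one_smul] at h4
  rw [h4]; rfl

theorem noCubeU_units {K V : Type} [Field K] [IsAlgClosed K] [CharZero K] [AddCommGroup V]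
    [Module K V] [FiniteDimensional K V] {r : ℕ} (hV : finrank K V < 2 ^ (r + 1)) :
    NoCubeU r (End K V)ˣ := by
  classical
  intro J _ hJ a b u v h1 h2 h3 h4 h5
  have _inst := Fintype.ofFinite J
  apply ul_of_nilp
  apply nilp_of_eig
  intro x hx0 ζ hζ
  by_contra hζ1
  have hall : ∀ f : (End K V)ˣ, InvU (⊤ : Submodule K V) f := fun f =>
    ⟨fun _ _ => trivial, fun _ _ => trivial⟩
  have key := cube a b u v h1 h2 h4 h3 h5 Finset.univ ⊤ (hall _) (hall _) (fun c _ => hall _)
    (fun c _ => hall _) ⟨x, trivial, hx0, ζ, hζ1, hζ⟩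
  rw [finrank_top, Finset.card_univ, ← Nat.card_eq_fintype_card] at key
  have : 2 ^ (r + 1) ≤ 2 ^ (Nat.card J + 1) := Nat.pow_le_pow_right (by norm_num) (by omega)
  omega

theorem noCubeU_matrix {n : Type} [Fintype n] [DecidableEq n] {r : ℕ}
    (hn : Fintype.card n < 2 ^ (r + 1)) : NoCubeU r (Matrix n n ℚ)ˣ := by
  let L := AlgebraicClosure ℚ
  let i : ℚ →+* L := algebraMap ℚ L
  let e : (Matrix n n L)ˣ ≃* (End L (n → L))ˣ :=
    Units.mapEquiv (Matrix.toLinAlgEquiv' (R := L) (n := n)).toMulEquiv
  have h1 : NoCubeU r (Matrix n n L)ˣ := by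
    apply NoCubeU.of_injective e.toMonoidHom e.injective
    apply noCubeU_units
    rw [Module.finrank_fintype_fun_eq_card]
    exact hn
  apply NoCubeU.of_injective (Units.map (i.mapMatrix : Matrix n n ℚ →+* Matrix n n L).toMonoidHom) ?_ h1
  apply Units.map_injective
  intro A B hAB
  ext a b
  have := congrFun (congrFun hAB a) b
  exact i.injective this

lemma noCubeU_GLV {V : Type} [AddCommGroup V] [Module ℚ V] [FiniteDimensional ℚ V]
    {r : ℕ} (hV : Module.finrank ℚ V < 2 ^ (r + 1)) : NoCubeU r (V ≃ₗ[ℚ] V) := by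
  let b := Module.finBasis ℚ V
  let e : (V ≃ₗ[ℚ] V) ≃* (Matrix (Fin (Module.finrank ℚ V)) (Fin (Module.finrank ℚ V)) ℚ)ˣ :=
    (LinearMap.GeneralLinearGroup.generalLinearEquiv ℚ V).symm.trans
      (Units.mapEquiv (LinearMap.toMatrixAlgEquiv b).toMulEquiv)
  refine NoCubeU.of_injective e.toMonoidHom e.injective (noCubeU_matrix ?_)
  rwa [Fintype.card_fin]

end Pool.Agent.Helper460_OutF
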