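import Pool.Agent.Helper460_OutF.Lin2
import Pool.Agent.Helper460_OutF.Unip

set_option autoImplicit false
set_option linter.unusedSectionVars false
set_option linter.unusedSimpArgs false

namespace Pool.Agent.Helper460_OutF

open FreeGroup (of)
open scoped commutatorElement Pointwise

section grp

variable {H : Type} [Group H]

lemma famC {r : ℕ} (hH : NoTri2Fam r H) {J : Type} [Finite J] (hr : r ≤ 2 * Nat.card J + 3)
    (u v : J → H) (t a x y : H) (huu : ∀ i j, u i * u j = u j * u i)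
    (huv : ∀ i j, i ≠ j → u i * v j = v j * u i) (hut : ∀ i, u i * t = t * u i)
    (hua : ∀ i, u i * a = a * u i) (hux : ∀ i, u i * x = x * u i)
    (huy : ∀ i, u i * y = y * u i) (htx : t * x = x * t) (hty : t * y = y * t) :
    (∃ i, u i ^ 2 * v i ^ 2 = v i ^ 2 * u i ^ 2) ∨ t ^ 2 * a ^ 2 = a ^ 2 * t ^ 2 ∨
      x ^ 2 * y ^ 2 = y ^ 2 * x ^ 2 := by
  let rk : (J ⊕ J) ⊕ (Unit ⊕ Bool) → ℕ := Sum.elim (Sum.elim (fun _ => 0) (fun _ => 4))
    (Sum.elim (fun _ => 1) (fun t => if t then 2 else 3))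
  let G : (J ⊕ J) ⊕ (Unit ⊕ Bool) → H := Sum.elim (Sum.elim u v)
    (Sum.elim (fun _ => t) (fun s => if s then x else y))
  let L : (J ⊕ J) ⊕ (Unit ⊕ Bool) → H := Sum.elim (Sum.elim v u)
    (Sum.elim (fun _ => a) (fun s => if s then y else x))
  have hcard : r ≤ Nat.card ((J ⊕ J) ⊕ (Unit ⊕ Bool)) := by
    rw [Nat.card_sum, Nat.card_sum, Nat.card_sum, Nat.card_eq_fintype_card (α := Bool),
      Fintype.card_bool, Nat.card_unique (α := Unit)]
    omega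
  obtain ⟨i, hi⟩ := hH _ hcard rk G L (by
    rintro ((i | i) | (i | (_ | _))) ((j | j) | (j | (_ | _))) hij hrk
    · exact huv i j (fun h => hij (by rw [h]))
    · exact huu i j
    · exact hua i
    · exact hux i
    · exact huy i
    · simp [rk] at hrk
    · exact (huv j i (fun h => hij (by rw [h]))).symm
    · simp [rk] at hrk
    · simp [rk] at hrk
    · simp [rk] at hrk
    · simp [rk] at hrk
    · exact (hut j).symm
    · exact absurd rfl hij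
    · exact htx
    · exact hty
    · simp [rk] at hrk
    · exact (huy j).symm
    · simp [rk] at hrk
    · exact absurd rfl hij
    · simp [rk] at hrk
    · simp [rk] at hrk
    · exact (hux j).symm
    · simp [rk] at hrk
    · rfl
    · exact absurd rfl hij)
  rcases i with ((i | i) | (i | (_ | _)))
  · exact Or.inl ⟨i, hi⟩
  · exact Or.inl ⟨i, hi.symm⟩
  · exact Or.inr (Or.inl hi)
  · exact Or.inr (Or.inr hi.symm)
  · exact Or.inr (Or.inr hi)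

/-- Commuting generators. -/
lemma comm_closure {A B : H} (h : A * B = B * A) :
    ∀ x ∈ Subgroup.closure ({A, B} : Set H), ∀ y ∈ Subgroup.closure ({A, B} : Set H),
      x * y = y * x := by
  have h1 : Subgroup.closure ({A, B} : Set H) ≤ Subgroup.centralizer {A, B} := by
    rw [Subgroup.closure_le]
    rintro w (rfl | rfl)
    · rw [SetLike.mem_coe, Subgroup.mem_centralizer_iff]
      rintro z (rfl | rfl)
      · rfl
      · exact h.symm
    · rw [SetLike.mem_coe, Subgroup.mem_centralizer_iff]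
      rintro z (rfl | rfl)
      · exact h
      · rfl
  intro x hx y hy
  have h2 : Subgroup.closure ({A, B} : Set H) ≤ Subgroup.centralizer {x} := by
    rw [Subgroup.closure_le]
    intro w hw
    rw [SetLike.mem_coe, Subgroup.mem_centralizer_singleton_iff]
    exact (Subgroup.mem_centralizer_iff.1 (h1 hx) w hw)
  exact (Subgroup.mem_centralizer_singleton_iff.1 (h2 hy)).symm

lemma sq_closure {A B : H} (h : A * B = B * A) :
    ∀ x ∈ Subgroup.closure ({A, B} : Set H), ∀ y ∈ Subgroup.closure ({A, B} : Set H),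
      x ^ 2 * y ^ 2 = y ^ 2 * x ^ 2 := by
  intro x hx y hy
  exact ((show Commute x y from comm_closure h x hx y hy).pow_pow 2 2).eq

/-- Commuting squares give an inversion. -/
lemma inv1 {T C B : H} {s : ℕ} (h1 : T * C = C * B ^ s * T) (h2 : T * B = B * T)
    (h3 : T ^ 2 * C ^ 2 = C ^ 2 * T ^ 2) : B ^ (2 * s) * C * B ^ (2 * s) = C := by
  have e1 : T * C * T⁻¹ = C * B ^ s := by rw [h1]; group
  have e2 : T * B ^ s * T⁻¹ = B ^ s := by
    rw [((show Commute T B from h2).pow_right s).eq, mul_inv_cancel_right]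
  have e3 : T ^ 2 * C * (T ^ 2)⁻¹ = C * B ^ (2 * s) := by
    calc T ^ 2 * C * (T ^ 2)⁻¹ = T * (T * C * T⁻¹) * T⁻¹ := by rw [pow_two]; group
      _ = T * (C * B ^ s) * T⁻¹ := by rw [e1]
      _ = (T * C * T⁻¹) * (T * B ^ s * T⁻¹) := by group
      _ = C * B ^ (2 * s) := by rw [e1, e2, mul_assoc, ← pow_add, two_mul]
  have e4 : (C * B ^ (2 * s)) ^ 2 = C ^ 2 := by
    rw [← e3, conj_pow, h3, mul_inv_cancel_right]
  rw [pow_two, pow_two] at e4
  have e5 : C * (B ^ (2 * s) * C * B ^ (2 * s)) = C * C := by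
    rw [← e4]; group
  exact mul_left_cancel e5

lemma heis_pow {A B Z : H} (hZ : A * B = Z * B * A) (hA : A * Z = Z * A) (hB : B * Z = Z * B)
    (p q : ℕ) : A ^ p * B ^ q = Z ^ (p * q) * B ^ q * A ^ p := by
  have cA : Commute A Z := hA
  have cB : Commute B Z := hB
  have h1 : ∀ q : ℕ, A * B ^ q = Z ^ q * B ^ q * A := by
    intro q
    induction q with
    | zero => simp
    | succ q ih =>
      calc A * B ^ (q + 1) = (A * B ^ q) * B := by rw [pow_succ, mul_assoc]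
        _ = Z ^ q * B ^ q * (A * B) := by rw [ih, mul_assoc]
        _ = Z ^ q * (B ^ q * Z) * B * A := by rw [hZ]; group
        _ = Z ^ q * (Z * B ^ q) * B * A := by rw [(cB.pow_left q).eq]
        _ = Z ^ (q + 1) * B ^ (q + 1) * A := by rw [pow_succ Z, pow_succ B]; group
  induction p with
  | zero => simp
  | succ p ih =>
    calc A ^ (p + 1) * B ^ q = A * (A ^ p * B ^ q) := by rw [pow_succ', mul_assoc]
      _ = A * Z ^ (p * q) * B ^ q * A ^ p := by rw [ih]; group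
      _ = Z ^ (p * q) * (A * B ^ q) * A ^ p := by rw [(cA.pow_right (p * q)).eq]; group
      _ = Z ^ (p * q) * Z ^ q * B ^ q * (A * A ^ p) := by rw [h1]; group
      _ = Z ^ ((p + 1) * q) * B ^ q * A ^ (p + 1) := by
        rw [← pow_add, ← pow_succ', add_mul, one_mul]

/-- In a Heisenberg group with a twisting element, commuting squares force finite order. -/
lemma heis1 {A B Z T : H} {s : ℕ} (hZ : A * B = Z * B * A) (hA : A * Z = Z * A)
    (hB : B * Z = Z * B) (h1 : T * A = A * B ^ s * T) (h2 : T * B = B * T)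
    (h3 : T ^ 2 * A ^ 2 = A ^ 2 * T ^ 2) : Z ^ (4 * s) = 1 := by
  have cA : Commute A Z := hA
  have cB : Commute B Z := hB
  have e1 := inv1 h1 h2 h3
  have e2 := heis_pow hZ hA hB 1 (2 * s)
  rw [pow_one, one_mul] at e2
  have e3 : Z ^ (2 * s) * B ^ (4 * s) = 1 := by
    have : B ^ (2 * s) * (A * B ^ (2 * s)) = A := by rw [← mul_assoc]; exact e1
    rw [e2] at this
    have h5 : Z ^ (2 * s) * B ^ (4 * s) * A = A := by
      calc Z ^ (2 * s) * B ^ (4 * s) * A = Z ^ (2 * s) * (B ^ (2 * s) * B ^ (2 * s)) * A := by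
            rw [← pow_add]; congr 3; omega
        _ = (Z ^ (2 * s) * B ^ (2 * s)) * B ^ (2 * s) * A := by group
        _ = (B ^ (2 * s) * Z ^ (2 * s)) * B ^ (2 * s) * A := by
            rw [((cB.pow_left (2 * s)).pow_right (2 * s)).eq]
        _ = A := by rw [← mul_assoc, ← mul_assoc] at this; exact this
    exact mul_eq_right.1 h5
  have e4 : B ^ (4 * s) = (Z ^ (2 * s))⁻¹ := (inv_eq_of_mul_eq_one_right e3).symm
  have e5 : Commute A (B ^ (4 * s)) := by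
    rw [e4]
    exact (cA.pow_right _).inv_right
  have e6 := heis_pow hZ hA hB 1 (4 * s)
  rw [pow_one, one_mul, e5.eq] at e6
  have e7 : Z ^ (4 * s) * (B ^ (4 * s) * A) = B ^ (4 * s) * A := by rw [← mul_assoc, ← e6]
  exact mul_eq_right.1 e7

/-- Inverting both generators and the centre of a Heisenberg group. -/
lemma heis2 {A B Z C : H} {s : ℕ} (hZ : A * B = Z * B * A) (hA : A * Z = Z * A)
    (hB : B * Z = Z * B) (hC : Z * C * Z = C) (h1 : A ^ (2 * s) * C * A ^ (2 * s) = C)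
    (h2 : B ^ (2 * s) * C * B ^ (2 * s) = C) : Z ^ (2 * ((2 * s) * (2 * s))) = 1 := by
  have cA : Commute A Z := hA
  have cB : Commute B Z := hB
  have e1 := heis_pow hZ hA hB (2 * s) (2 * s)
  obtain ⟨a, ha⟩ : ∃ a, a = A ^ (2 * s) := ⟨_, rfl⟩
  obtain ⟨b, hb⟩ : ∃ b, b = B ^ (2 * s) := ⟨_, rfl⟩
  obtain ⟨ζ, hζ⟩ : ∃ ζ, ζ = Z ^ ((2 * s) * (2 * s)) := ⟨_, rfl⟩
  have caζ : Commute a ζ := by rw [ha, hζ]; exact (cA.pow_left _).pow_right _
  have cbζ : Commute b ζ := by rw [hb, hζ]; exact (cB.pow_left _).pow_right _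
  rw [← ha, ← hb, ← hζ] at e1
  rw [← ha] at h1
  rw [← hb] at h2
  have h1' : C⁻¹ * a * C = a⁻¹ := by
    rw [eq_inv_iff_mul_eq_one]
    calc C⁻¹ * a * C * a = C⁻¹ * (a * C * a) := by group
      _ = 1 := by rw [h1, inv_mul_cancel]
  have h2' : C⁻¹ * b * C = b⁻¹ := by
    rw [eq_inv_iff_mul_eq_one]
    calc C⁻¹ * b * C * b = C⁻¹ * (b * C * b) := by group
      _ = 1 := by rw [h2, inv_mul_cancel]
  have hZ' : C⁻¹ * Z * C = Z⁻¹ := by
    rw [eq_inv_iff_mul_eq_one]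
    calc C⁻¹ * Z * C * Z = C⁻¹ * (Z * C * Z) := by group
      _ = 1 := by rw [hC, inv_mul_cancel]
  have hζ' : C⁻¹ * ζ * C = ζ⁻¹ := by
    have := conj_pow (i := (2 * s) * (2 * s)) (a := C⁻¹) (b := Z)
    rw [inv_inv] at this
    rw [hζ, ← this, hZ', inv_pow]
  have e2 : a⁻¹ * b⁻¹ = ζ⁻¹ * b⁻¹ * a⁻¹ := by
    calc a⁻¹ * b⁻¹ = (C⁻¹ * a * C) * (C⁻¹ * b * C) := by rw [h1', h2']
      _ = C⁻¹ * (a * b) * C := by group
      _ = (C⁻¹ * ζ * C) * (C⁻¹ * b * C) * (C⁻¹ * a * C) := by rw [e1]; group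
      _ = ζ⁻¹ * b⁻¹ * a⁻¹ := by rw [hζ', h1', h2']
  have e3 : a⁻¹ * b⁻¹ = ζ * b⁻¹ * a⁻¹ := by
    have h4 : b * a = ζ⁻¹ * (a * b) := by rw [e1]; group
    calc a⁻¹ * b⁻¹ = (b * a)⁻¹ := by group
      _ = (ζ⁻¹ * (a * b))⁻¹ := by rw [h4]
      _ = (b⁻¹ * a⁻¹) * ζ := by group
      _ = ζ * (b⁻¹ * a⁻¹) := by
        rw [((cbζ.inv_left).mul_left (caζ.inv_left)).eq]
      _ = ζ * b⁻¹ * a⁻¹ := by rw [mul_assoc]
  have e4 : ζ⁻¹ = ζ := by
    have h5 : ζ⁻¹ * (b⁻¹ * a⁻¹) = ζ * (b⁻¹ * a⁻¹) := by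
      rw [← mul_assoc, ← mul_assoc, ← e2, ← e3]
    exact mul_right_cancel h5
  calc Z ^ (2 * ((2 * s) * (2 * s))) = ζ * ζ := by rw [two_mul, pow_add, hζ]
    _ = 1 := by nth_rewrite 1 [← e4]; exact inv_mul_cancel _

end grp

section

variable {ι : Type} [DecidableEq ι] [Fintype ι] {H : Type} [Group H]
  {Γ : Subgroup (MulAut (FreeGroup ι))} [hN : Γ.Normal]

/-- The image of a power of a transvection. -/
noncomputable def TW (ρ : Γ →* H) (p l : ι) : H := ρ ⟨(rr p (of l)) ^ Γ.index, Γ.pow_index_mem _⟩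

variable (hIA : IA (FreeGroup ι) ≤ Γ) (ρ : Γ →* H)

lemma rrpow (p l : ι) (m : ℕ) : (rr p (of l)) ^ m = rr p (of l ^ m) := by rw [map_pow]

lemma TW_RR {i p l : ι} (hip : i ≠ p) (hil : i ≠ l) (w : FreeGroup ι) :
    TW ρ p l * RR hIA ρ i w = RR hIA ρ i (rr p (of l ^ Γ.index) w) * TW ρ p l := by
  unfold TW
  rw [RR_apply hIA ρ i w (hIA (cc_mem_IA _ _)), RR_apply hIA ρ i _ (hIA (cc_mem_IA _ _)),
    ← map_mul, ← map_mul]
  congr 1
  ext1
  show (rr p (of l)) ^ Γ.index * cc i w = cc i _ * (rr p (of l)) ^ Γ.index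
  rw [rrpow, ← mul_inv_eq_iff_eq_mul]
  exact (pres_rr hip (by rw [map_pow, kil_ne (Ne.symm hil)])).cc w

lemma TW_RR_ne {i p l d : ι} (hip : i ≠ p) (hil : i ≠ l) (hdp : d ≠ p) :
    TW ρ p l * RR hIA ρ i (of d) = RR hIA ρ i (of d) * TW ρ p l := by
  rw [TW_RR hIA ρ hip hil, rr_ne hdp]

lemma TW_RR_self {i p l : ι} (hip : i ≠ p) (hil : i ≠ l) (hlp : l ≠ p) :
    TW ρ p l * RR hIA ρ i (of p) =
      RR hIA ρ i (of p) * RR hIA ρ i (of l) ^ Γ.index * TW ρ p l := by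
  rw [TW_RR hIA ρ hip hil, rr_self, map_pow, kil_ne hlp, map_mul, map_pow]

lemma TW_UU {j k c p l : ι} (hcp : c ≠ p) (hcl : c ≠ l)
    (hfix : rr p (of l ^ Γ.index) ⁅of j, of k⁆ = ⁅of j, of k⁆) :
    UU hIA ρ j k c * TW ρ p l = TW ρ p l * UU hIA ρ j k c := by
  unfold UU TW
  rw [← map_mul, ← map_mul]
  congr 1
  ext1
  show rr c ⁅of j, of k⁆ * (rr p (of l)) ^ Γ.index = (rr p (of l)) ^ Γ.index * rr c ⁅of j, of k⁆
  rw [rrpow]
  have h1 : Pres c (rr p (of l ^ Γ.index)) := pres_rr hcp (by rw [map_pow, kil_ne (Ne.symm hcl)])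
  have h2 := h1.rr ⁅of j, of k⁆
  rw [hfix, mul_inv_eq_iff_eq_mul] at h2
  exact h2.symm

lemma TW_TW {p q l : ι} (hpq : p ≠ q) (hlp : l ≠ p) (hlq : l ≠ q) :
    TW ρ p l * TW ρ q l = TW ρ q l * TW ρ p l := by
  unfold TW
  rw [← map_mul, ← map_mul]
  congr 1
  ext1
  show (rr p (of l)) ^ Γ.index * (rr q (of l)) ^ Γ.index =
    (rr q (of l)) ^ Γ.index * (rr p (of l)) ^ Γ.index
  rw [rrpow, rrpow]
  show lr p (1, of l ^ Γ.index) * lr q (1, of l ^ Γ.index) = _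
  exact lr_lr_comm hpq (map_one _) (by rw [map_pow, kil_ne hlq]) (map_one _)
    (by rw [map_pow, kil_ne hlp])

lemma comm_fix1 (j k : ι) (hjk : j ≠ k) (m : ℕ) :
    rr j (of k ^ m) ⁅of j, of k⁆ = (⁅of j, of k⁆ : FreeGroup ι) := by
  rw [map_commutatorElement, rr_self, rr_ne (Ne.symm hjk), map_pow, kil_ne (Ne.symm hjk),
    commutatorElement_def, commutatorElement_def]
  group

lemma comm_fix2 (j k : ι) (hjk : j ≠ k) (m : ℕ) :
    rr k (of j ^ m) ⁅of j, of k⁆ = (⁅of j, of k⁆ : FreeGroup ι) := by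
  rw [map_commutatorElement, rr_self, rr_ne hjk, map_pow, kil_ne hjk,
    commutatorElement_def, commutatorElement_def]
  group

lemma comm_fix3 (j k c l : ι) (hcj : c ≠ j) (hck : c ≠ k) (m : ℕ) :
    rr c (of l ^ m) ⁅of j, of k⁆ = (⁅of j, of k⁆ : FreeGroup ι) :=
  rr_fix c _ (kil_comm_of (Ne.symm hcj) (Ne.symm hck))

/-- If exactly one index is bad the commutator has finite order. -/
lemma one_bad (hH : NoTri2Fam (2 * Fintype.card ι - 5) H) (h4 : 4 ≤ Fintype.card ι)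
    {i j k c0 : ι} (hij : i ≠ j) (hik : i ≠ k) (hjk : j ≠ k)
    (hc1 : c0 ≠ i) (hc2 : c0 ≠ j) (hc3 : c0 ≠ k)
    (hgood : ∀ c, c ≠ i → c ≠ j → c ≠ k → c ≠ c0 → ¬ Bad hIA ρ i j k c)
    (hA : RR hIA ρ i (of j) * ⁅RR hIA ρ i (of j), RR hIA ρ i (of k)⁆ =
      ⁅RR hIA ρ i (of j), RR hIA ρ i (of k)⁆ * RR hIA ρ i (of j))
    (hB : RR hIA ρ i (of k) * ⁅RR hIA ρ i (of j), RR hIA ρ i (of k)⁆ =
      ⁅RR hIA ρ i (of j), RR hIA ρ i (of k)⁆ * RR hIA ρ i (of k))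
    (hC : ⁅RR hIA ρ i (of j), RR hIA ρ i (of k)⁆ * RR hIA ρ i (of c0) *
      ⁅RR hIA ρ i (of j), RR hIA ρ i (of k)⁆ = RR hIA ρ i (of c0))
    (hidx : 0 < Γ.index) :
    IsOfFinOrder ⁅RR hIA ρ i (of j), RR hIA ρ i (of k)⁆ := by
  have hAB : RR hIA ρ i (of j) * RR hIA ρ i (of k) =
      ⁅RR hIA ρ i (of j), RR hIA ρ i (of k)⁆ * RR hIA ρ i (of k) * RR hIA ρ i (of j) := by
    rw [commutatorElement_def]; group
  have hg : ∀ c : {c : ι // c ≠ i ∧ c ≠ j ∧ c ≠ k ∧ c ≠ c0}, ¬ Bad hIA ρ i j k c :=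
    fun c => hgood c c.2.1 c.2.2.1 c.2.2.2.1 c.2.2.2.2
  choose v hv1 hv2 using fun c => not_bad hIA ρ (hg c)
  have hcard : 2 * Fintype.card ι - 5 ≤
      2 * Nat.card {c : ι // c ≠ i ∧ c ≠ j ∧ c ≠ k ∧ c ≠ c0} + 3 := by
    have := card_ne4 i j k c0
    omega
  -- first family
  have f1 := famC hH hcard
    (fun c : {c : ι // c ≠ i ∧ c ≠ j ∧ c ≠ k ∧ c ≠ c0} => UU hIA ρ j k c) v
    (TW ρ j k) (RR hIA ρ i (of j)) (TW ρ c0 k) (RR hIA ρ i (of c0))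
    (fun c d => UU_comm hIA ρ c.2.2.1 c.2.2.2.1 d.2.2.1 d.2.2.2.1)
    (fun c d hcd => UU_wit hIA ρ hij hik (Ne.symm c.2.1) c.2.2.1 c.2.2.2.1
      (fun h => hcd (Subtype.ext h.symm)) (hv1 d))
    (fun c => TW_UU hIA ρ c.2.2.1 c.2.2.2.1 (comm_fix1 j k hjk _))
    (fun c => UU_RR_ne hIA ρ hij hik (Ne.symm c.2.1) (Ne.symm c.2.2.1))
    (fun c => TW_UU hIA ρ c.2.2.2.2 c.2.2.2.1 (comm_fix3 j k c0 k hc2 hc3 _))
    (fun c => UU_RR_ne hIA ρ hij hik (Ne.symm c.2.1) (Ne.symm c.2.2.2.2))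
    (TW_TW ρ (Ne.symm hc2) (Ne.symm hjk) (Ne.symm hc3))
    (TW_RR_ne hIA ρ hij hik hc2)
  have f2 := famC hH hcard
    (fun c : {c : ι // c ≠ i ∧ c ≠ j ∧ c ≠ k ∧ c ≠ c0} => UU hIA ρ j k c) v
    (TW ρ k j) (RR hIA ρ i (of k)) (TW ρ c0 j) (RR hIA ρ i (of c0))
    (fun c d => UU_comm hIA ρ c.2.2.1 c.2.2.2.1 d.2.2.1 d.2.2.2.1)
    (fun c d hcd => UU_wit hIA ρ hij hik (Ne.symm c.2.1) c.2.2.1 c.2.2.2.1
      (fun h => hcd (Subtype.ext h.symm)) (hv1 d))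
    (fun c => TW_UU hIA ρ c.2.2.2.1 c.2.2.1 (comm_fix2 j k hjk _))
    (fun c => UU_RR_ne hIA ρ hij hik (Ne.symm c.2.1) (Ne.symm c.2.2.2.1))
    (fun c => TW_UU hIA ρ c.2.2.2.2 c.2.2.1 (comm_fix3 j k c0 j hc2 hc3 _))
    (fun c => UU_RR_ne hIA ρ hij hik (Ne.symm c.2.1) (Ne.symm c.2.2.2.2))
    (TW_TW ρ (Ne.symm hc3) hjk (Ne.symm hc2))
    (TW_RR_ne hIA ρ hik hij hc3)
  rcases f1 with ⟨c, hc⟩ | h | h1
  · exact absurd hc (hv2 c)
  · exact isOfFinOrder_iff_pow_eq_one.2 ⟨4 * Γ.index, by omega, heis1 hAB hA hB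
      (TW_RR_self hIA ρ hij hik (Ne.symm hjk)) (TW_RR_ne hIA ρ hij hik (Ne.symm hjk)) h⟩
  rcases f2 with ⟨c, hc⟩ | h | h2
  · exact absurd hc (hv2 c)
  · have hBA : RR hIA ρ i (of k) * RR hIA ρ i (of j) =
        (⁅RR hIA ρ i (of j), RR hIA ρ i (of k)⁆)⁻¹ * RR hIA ρ i (of j) * RR hIA ρ i (of k) := by
      rw [commutatorElement_def]; group
    have cA : Commute (RR hIA ρ i (of j)) ⁅RR hIA ρ i (of j), RR hIA ρ i (of k)⁆ := hA
    have cB : Commute (RR hIA ρ i (of k)) ⁅RR hIA ρ i (of j), RR hIA ρ i (of k)⁆ := hB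
    have h5 := heis1 hBA cB.inv_right.eq cA.inv_right.eq
      (TW_RR_self hIA ρ hik hij hjk) (TW_RR_ne hIA ρ hik hij hjk) h
    rw [inv_pow, inv_eq_one] at h5
    exact isOfFinOrder_iff_pow_eq_one.2 ⟨4 * Γ.index, by omega, h5⟩
  · have g1 := inv1 (TW_RR_self hIA ρ (Ne.symm hc1) hik (Ne.symm hc3))
      (TW_RR_ne hIA ρ (Ne.symm hc1) hik (Ne.symm hc3)) h1
    have g2 := inv1 (TW_RR_self hIA ρ (Ne.symm hc1) hij (Ne.symm hc2))
      (TW_RR_ne hIA ρ (Ne.symm hc1) hij (Ne.symm hc2)) h2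
    exact isOfFinOrder_iff_pow_eq_one.2 ⟨_, by positivity, heis2 hAB hA hB hC g2 g1⟩

end

end Pool.Agent.Helper460_OutF
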