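import Pool.Agent.Helper460_OutF.Lin4

set_option autoImplicit false
set_option linter.unusedSectionVars false
set_option linter.unusedSimpArgs false

namespace Pool.Agent.Helper460_OutF

open FreeGroup (of)
open scoped commutatorElement Pointwise

section

variable {ι : Type} [DecidableEq ι] [Fintype ι] {H : Type} [Group H]
  {Γ : Subgroup (MulAut (FreeGroup ι))} [hN : Γ.Normal]

variable (hIA : IA (FreeGroup ι) ≤ Γ)

/-- The unipotent-like property of the commutators. -/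
lemma ul_comm (hU : NoCubeU (Fintype.card ι - 3) H) (ρ : Γ →* H) {i j k : ι}
    (hij : i ≠ j) (hik : i ≠ k) : UL ⁅RR hIA ρ i (of j), RR hIA ρ i (of k)⁆ := by
  refine hU {c : ι // c ≠ i ∧ c ≠ j ∧ c ≠ k} (card_ne3 i j k) _ _
    (fun c => UU hIA ρ j k c) (fun c => RR hIA ρ i (of (c : ι))) ?_ ?_ ?_ ?_ ?_
  · rintro ⟨c, h1, h2, h3⟩
    exact (UU_RR_ne hIA ρ hij hik (Ne.symm h1) (Ne.symm h2)).symm
  · rintro ⟨c, h1, h2, h3⟩
    exact (UU_RR_ne hIA ρ hij hik (Ne.symm h1) (Ne.symm h3)).symm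
  · rintro ⟨c, h1, h2, h3⟩ ⟨d, h1', h2', h3'⟩
    exact UU_comm hIA ρ h2 h3 h2' h3'
  · rintro ⟨c, h1, h2, h3⟩ ⟨d, h1', h2', h3'⟩ hcd
    exact UU_RR_ne hIA ρ hij hik (Ne.symm h1) (fun h => hcd (by subst h; rfl))
  · rintro ⟨c, h1, h2, h3⟩
    have h := UU_RR_self hIA ρ hij hik (Ne.symm h1) h2 h3
    have hA : Commute (UU hIA ρ j k c) (RR hIA ρ i (of j)) :=
      UU_RR_ne hIA ρ hij hik (Ne.symm h1) (Ne.symm h2)
    have hB : Commute (UU hIA ρ j k c) (RR hIA ρ i (of k)) :=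
      UU_RR_ne hIA ρ hij hik (Ne.symm h1) (Ne.symm h3)
    show (RR hIA ρ i (of c))⁻¹ * UU hIA ρ j k c * RR hIA ρ i (of c) = _
    rw [mul_assoc, h]; group

/-- **Squares commute.** -/
theorem sqcomm (h4 : 4 ≤ Fintype.card ι) (hidx : 0 < Γ.index)
    (hH : NoTri2Fam (2 * Fintype.card ι - 5) H) (hC : NoCube (Fintype.card ι - 3) H)
    (hU : NoCubeU (Fintype.card ι - 3) H) {i j k : ι} (hij : i ≠ j) (hik : i ≠ k) (hjk : j ≠ k) :
    ∀ (m : ℕ) (ρ : Γ →* H), {c | (c ≠ i ∧ c ≠ j ∧ c ≠ k) ∧ Bad hIA ρ i j k c}.ncard = m →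
      ∀ x ∈ Subgroup.closure ({RR hIA ρ i (of j), RR hIA ρ i (of k)} : Set H),
      ∀ y ∈ Subgroup.closure ({RR hIA ρ i (of j), RR hIA ρ i (of k)} : Set H),
        x ^ 2 * y ^ 2 = y ^ 2 * x ^ 2 := by
  intro m
  induction m using Nat.strong_induction_on with
  | _ m ih =>
  intro ρ hm
  by_cases hfin : IsOfFinOrder ⁅RR hIA ρ i (of j), RR hIA ρ i (of k)⁆
  · have h1 := cck_of_fin hIA ρ hC hij hik hfin
    rw [commutatorElement_eq_one_iff_mul_comm] at h1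
    exact sq_closure h1
  by_cases h2 : ∃ c0 d, c0 ≠ d ∧ ((c0 ≠ i ∧ c0 ≠ j ∧ c0 ≠ k) ∧ Bad hIA ρ i j k c0) ∧
      ((d ≠ i ∧ d ≠ j ∧ d ≠ k) ∧ Bad hIA ρ i j k d)
  · obtain ⟨c0, d, hcd, ⟨⟨hc1, hc2, hc3⟩, hbc⟩, ⟨hd1, hd2, hd3⟩, hbd⟩ := h2
    have hb : Pres i (rr d (of c0)) := pres_rr (Ne.symm hd1) (kil_ne hc1)
    have ej : RR hIA (twist (rr d (of c0)) ρ) i (of j) = RR hIA ρ i (of j) := by
      rw [RR_twist hIA ρ hb, rr_ne (Ne.symm hd2)]
    have ek : RR hIA (twist (rr d (of c0)) ρ) i (of k) = RR hIA ρ i (of k) := by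
      rw [RR_twist hIA ρ hb, rr_ne (Ne.symm hd3)]
    have ed : RR hIA (twist (rr d (of c0)) ρ) i (of d) = RR hIA ρ i (of d) * RR hIA ρ i (of c0) := by
      rw [RR_twist hIA ρ hb, rr_self, kil_ne hcd, map_mul]
    by_cases hd' : Bad hIA (twist (rr d (of c0)) ρ) i j k d
    · exfalso
      apply hfin
      have q1 := (hd'.conseq hij hik (Ne.symm hd1) hd2 hd3).1
      rw [ej, ek, ed] at q1
      have q2 := (hbd.conseq hij hik (Ne.symm hd1) hd2 hd3).1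
      have q3 := (hbc.conseq hij hik (Ne.symm hc1) hc2 hc3).1
      obtain ⟨Z, hZ⟩ : ∃ Z, Z = ⁅RR hIA ρ i (of j), RR hIA ρ i (of k)⁆ := ⟨_, rfl⟩
      rw [← hZ] at q1 q2 q3 ⊢
      obtain ⟨C, hC⟩ : ∃ C, C = RR hIA ρ i (of c0) := ⟨_, rfl⟩
      obtain ⟨D, hD⟩ : ∃ D, D = RR hIA ρ i (of d) := ⟨_, rfl⟩
      rw [← hC, ← hD] at q1
      rw [← hD] at q2
      rw [← hC] at q3
      have q4 : (D * C)⁻¹ * Z ^ 2 * (D * C) = Z ^ 2 := by
        calc (D * C)⁻¹ * Z ^ 2 * (D * C) = C⁻¹ * (D⁻¹ * Z ^ 2 * D) * C := by group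
          _ = (C⁻¹ * Z ^ 2 * C)⁻¹ := by rw [q2]; group
          _ = Z ^ 2 := by rw [q3, inv_inv]
      rw [q4] at q1
      refine isOfFinOrder_iff_pow_eq_one.2 ⟨4, by norm_num, ?_⟩
      calc Z ^ 4 = Z ^ 2 * Z ^ 2 := by rw [← pow_add]
        _ = 1 := by nth_rewrite 1 [q1]; exact inv_mul_cancel _
    · rw [← ej, ← ek]
      refine ih _ ?_ (twist (rr d (of c0)) ρ) rfl
      rw [← hm]
      apply Set.ncard_lt_ncard _ (Set.toFinite _)
      rw [Set.ssubset_iff_of_subset]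
      · exact ⟨d, ⟨⟨hd1, hd2, hd3⟩, hbd⟩, fun h => hd' h.2⟩
      · rintro c ⟨⟨h1, h2, h3⟩, hbad⟩
        refine ⟨⟨h1, h2, h3⟩, ?_⟩
        have hcd' : c ≠ d := by rintro rfl; exact hd' hbad
        by_cases hcc : c = c0
        · subst hcc; exact hbc
        · have e1 : UU hIA (twist (rr d (of c0)) ρ) j k c = UU hIA ρ j k c :=
            UU_twist hIA ρ hcd' hcc hd2 hd3
          have e2 : RR hIA (twist (rr d (of c0)) ρ) i (of c) = RR hIA ρ i (of c) := by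
            rw [RR_twist hIA ρ hb, rr_ne hcd']
          unfold Bad at hbad ⊢
          rwa [e1, e2, ej, ek] at hbad
  by_cases h1 : ∃ c0, (c0 ≠ i ∧ c0 ≠ j ∧ c0 ≠ k) ∧ Bad hIA ρ i j k c0
  · obtain ⟨c0, ⟨hc1, hc2, hc3⟩, hbc⟩ := h1
    exfalso
    apply hfin
    obtain ⟨q0, qA, qB⟩ := hbc.conseq hij hik (Ne.symm hc1) hc2 hc3
    have hul := ul_comm hIA hU ρ hij hik
    have hA := (hul (RR hIA ρ i (of j)) 2 (by norm_num)).1 qA.symm
    have hB := (hul (RR hIA ρ i (of k)) 2 (by norm_num)).1 qB.symm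
    have hCz := (hul (RR hIA ρ i (of c0)) 2 (by norm_num)).2 (by
      rw [mul_assoc] at q0
      rw [mul_assoc]
      have : ⁅RR hIA ρ i (of j), RR hIA ρ i (of k)⁆ ^ 2 * RR hIA ρ i (of c0) =
          RR hIA ρ i (of c0) * (⁅RR hIA ρ i (of j), RR hIA ρ i (of k)⁆ ^ 2)⁻¹ := by
        rw [← q0, mul_inv_cancel_left]
      rw [← mul_assoc, this, inv_mul_cancel_right])
    exact one_bad hIA ρ hH h4 hij hik hjk hc1 hc2 hc3
      (fun c h1 h2' h3 h4' hb => h2 ⟨c0, c, Ne.symm h4', ⟨⟨hc1, hc2, hc3⟩, hbc⟩,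
        ⟨h1, h2', h3⟩, hb⟩) hA.symm hB.symm hCz hidx
  · have hgood : ∀ c : {c : ι // c ≠ i ∧ c ≠ j ∧ c ≠ k}, ¬ Bad hIA ρ i j k c := by
      rintro ⟨c, h1', h2', h3⟩ hb
      exact h1 ⟨c, ⟨h1', h2', h3⟩, hb⟩
    choose v hv1 hv2 using fun c => not_bad hIA ρ (hgood c)
    have hcl : ∀ (c : {c : ι // c ≠ i ∧ c ≠ j ∧ c ≠ k}) (z : H),
        z ∈ Subgroup.closure ({RR hIA ρ i (of j), RR hIA ρ i (of k)} : Set H) →
        UU hIA ρ j k c * z = z * UU hIA ρ j k c := by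
      rintro ⟨c, h1, h2', h3⟩ z hz
      have hle : Subgroup.closure ({RR hIA ρ i (of j), RR hIA ρ i (of k)} : Set H) ≤
          Subgroup.centralizer {UU hIA ρ j k c} := by
        rw [Subgroup.closure_le]
        rintro w (rfl | rfl)
        · rw [SetLike.mem_coe, Subgroup.mem_centralizer_singleton_iff]
          exact (UU_RR_ne hIA ρ hij hik (Ne.symm h1) (Ne.symm h2')).symm
        · rw [SetLike.mem_coe, Subgroup.mem_centralizer_singleton_iff]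
          exact (UU_RR_ne hIA ρ hij hik (Ne.symm h1) (Ne.symm h3)).symm
      exact (Subgroup.mem_centralizer_singleton_iff.1 (hle hz)).symm
    intro x hx y hy
    rcases famB hH (by have := card_ne3 i j k; omega)
      (fun c : {c : ι // c ≠ i ∧ c ≠ j ∧ c ≠ k} => UU hIA ρ j k c) v x y
      (fun c d => UU_comm hIA ρ c.2.2.1 c.2.2.2 d.2.2.1 d.2.2.2)
      (fun c d hcd => UU_wit hIA ρ hij hik (Ne.symm c.2.1) c.2.2.1 c.2.2.2
        (fun h => hcd (Subtype.ext h.symm)) (hv1 d))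
      (fun c => hcl c x hx) (fun c => hcl c y hy) with ⟨c, hc⟩ | h
    · exact absurd hc (hv2 c)
    · exact h

end

end Pool.Agent.Helper460_OutF
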