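import Pool.Agent.Helper460_OutF.Lin5

set_option autoImplicit false
set_option linter.unusedSectionVars false
set_option linter.unusedSimpArgs false

namespace Pool.Agent.Helper460_OutF

open FreeGroup (of)
open scoped commutatorElement Pointwise

section grp

variable {H : Type} [Group H]

/-- The element `X` inverts a positive power of `Y`. -/
def InvP (X Y : H) : Prop := ∃ t : ℕ, 0 < t ∧ X⁻¹ * Y ^ t * X = (Y ^ t)⁻¹

lemma inv2 {T X Y : H} {s : ℕ} (h1 : T * X = X * Y ^ s * T) (h2 : T * Y = Y * T)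
    (h3 : T ^ 2 * (X ^ 2) ^ 2 = (X ^ 2) ^ 2 * T ^ 2)
    (hsq : ∀ x ∈ Subgroup.closure ({X, Y} : Set H), ∀ y ∈ Subgroup.closure ({X, Y} : Set H),
      x ^ 2 * y ^ 2 = y ^ 2 * x ^ 2) :
    X⁻¹ * Y ^ (4 * s) * X = (Y ^ (4 * s))⁻¹ := by
  have hXQ : X ∈ Subgroup.closure ({X, Y} : Set H) := Subgroup.subset_closure (by simp)
  have hYQ : Y ∈ Subgroup.closure ({X, Y} : Set H) := Subgroup.subset_closure (by simp)
  have e1 : T * X * T⁻¹ = X * Y ^ s := by rw [h1]; group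
  have e2 : T * Y ^ s * T⁻¹ = Y ^ s := by
    rw [((show Commute T Y from h2).pow_right s).eq, mul_inv_cancel_right]
  have e3 : T ^ 2 * X * (T ^ 2)⁻¹ = X * Y ^ (2 * s) := by
    calc T ^ 2 * X * (T ^ 2)⁻¹ = T * (T * X * T⁻¹) * T⁻¹ := by rw [pow_two]; group
      _ = T * (X * Y ^ s) * T⁻¹ := by rw [e1]
      _ = (T * X * T⁻¹) * (T * Y ^ s * T⁻¹) := by group
      _ = X * Y ^ (2 * s) := by rw [e1, e2, mul_assoc, ← pow_add, two_mul]
  have e4 : ((X * Y ^ (2 * s)) ^ 2) ^ 2 = (X ^ 2) ^ 2 := by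
    rw [← e3, conj_pow, conj_pow, h3, mul_inv_cancel_right]
  obtain ⟨α, hα⟩ : ∃ α, α = X ^ 2 := ⟨_, rfl⟩
  obtain ⟨β, hβ⟩ : ∃ β, β = (Y ^ s) ^ 2 := ⟨_, rfl⟩
  obtain ⟨β', hβ'⟩ : ∃ β', β' = (X⁻¹ * Y ^ s * X) ^ 2 := ⟨_, rfl⟩
  have hYs : Y ^ s ∈ Subgroup.closure ({X, Y} : Set H) := Subgroup.pow_mem _ hYQ s
  have hYx : X⁻¹ * Y ^ s * X ∈ Subgroup.closure ({X, Y} : Set H) :=
    Subgroup.mul_mem _ (Subgroup.mul_mem _ (Subgroup.inv_mem _ hXQ) hYs) hXQ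
  have c1 : Commute α β := by rw [hα, hβ]; exact hsq _ hXQ _ hYs
  have c2 : Commute α β' := by rw [hα, hβ']; exact hsq _ hXQ _ hYx
  have c3 : Commute β' β := by rw [hβ, hβ']; exact hsq _ hYx _ hYs
  have hβ'2 : β' = X⁻¹ * β * X := by
    have := conj_pow (i := 2) (a := X⁻¹) (b := Y ^ s)
    rw [inv_inv] at this
    rw [hβ', this, hβ]
  have e5 : (X * Y ^ (2 * s)) ^ 2 = α * (β' * β) := by
    have : Y ^ (2 * s) = β := by rw [hβ, ← pow_mul, mul_comm]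
    rw [this, hβ'2, hα, pow_two, pow_two]
    group
  rw [e5, (c2.mul_right c1).mul_pow, c3.mul_pow, ← hα] at e4
  have e6 : β' ^ 2 * β ^ 2 = 1 := mul_eq_left.1 e4
  have e7 : β ^ 2 = Y ^ (4 * s) := by
    rw [hβ, ← pow_mul, ← pow_mul]
    congr 1
    ring
  have e8 : β' ^ 2 = X⁻¹ * Y ^ (4 * s) * X := by
    have := conj_pow (i := 2) (a := X⁻¹) (b := β)
    rw [inv_inv] at this
    rw [hβ'2, this, e7]
  rw [← e8, ← e7]
  exact eq_inv_of_mul_eq_one_left e6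

lemma inv3 {L B : H} {s t : ℕ} (hs : 0 < s) (ht : 0 < t)
    (hsq : ∀ x ∈ Subgroup.closure ({L, B} : Set H), ∀ y ∈ Subgroup.closure ({L, B} : Set H),
      x ^ 2 * y ^ 2 = y ^ 2 * x ^ 2)
    (h1 : B⁻¹ * L ^ s * B = (L ^ s)⁻¹)
    (h2 : B⁻¹ * (L * B ^ 2) ^ t * B = ((L * B ^ 2) ^ t)⁻¹) : InvP L B := by
  have hLQ : L ∈ Subgroup.closure ({L, B} : Set H) := Subgroup.subset_closure (by simp)
  have hBQ : B ∈ Subgroup.closure ({L, B} : Set H) := Subgroup.subset_closure (by simp)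
  have hBL : L⁻¹ * B * L ∈ Subgroup.closure ({L, B} : Set H) :=
    Subgroup.mul_mem _ (Subgroup.mul_mem _ (Subgroup.inv_mem _ hLQ) hBQ) hLQ
  obtain ⟨α, hα⟩ : ∃ α, α = L ^ 2 := ⟨_, rfl⟩
  obtain ⟨β, hβ⟩ : ∃ β, β = B ^ 2 := ⟨_, rfl⟩
  obtain ⟨β', hβ'⟩ : ∃ β', β' = (L⁻¹ * B * L) ^ 2 := ⟨_, rfl⟩
  have c1 : Commute α β := by rw [hα, hβ]; exact hsq _ hLQ _ hBQ
  have c2 : Commute α β' := by rw [hα, hβ']; exact hsq _ hLQ _ hBL
  have c3 : Commute β' β := by rw [hβ, hβ']; exact hsq _ hBL _ hBQ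
  have hβ'2 : β' = L⁻¹ * β * L := by
    have := conj_pow (i := 2) (a := L⁻¹) (b := B)
    rw [inv_inv] at this
    rw [hβ', this, hβ]
  have cj : ∀ (x : H) (n : ℕ), B⁻¹ * x ^ n * B = (B⁻¹ * x * B) ^ n := by
    intro x n
    have := conj_pow (i := n) (a := B⁻¹) (b := x)
    rw [inv_inv] at this
    exact this.symm
  -- conjugation by `B` fixes `β'`
  have f3 : B⁻¹ * β' * B = β' := by
    obtain ⟨κ, hκ⟩ : ∃ κ, κ = B⁻¹ * L⁻¹ * B * L := ⟨_, rfl⟩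
    have hκ2 : κ = (B⁻¹ * L⁻¹) ^ 2 * (L * B * L⁻¹) ^ 2 * L ^ 2 := by
      rw [hκ, pow_two, pow_two, pow_two]; group
    have hc : Commute κ β' := by
      rw [hκ2, hβ']
      refine Commute.mul_left (Commute.mul_left ?_ ?_) ?_
      · exact hsq _ (Subgroup.mul_mem _ (Subgroup.inv_mem _ hBQ) (Subgroup.inv_mem _ hLQ)) _ hBL
      · exact hsq _ (Subgroup.mul_mem _ (Subgroup.mul_mem _ hLQ hBQ) (Subgroup.inv_mem _ hLQ)) _ hBL
      · exact hsq _ hLQ _ hBL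
    have : B⁻¹ * β' * B = κ * β' * κ⁻¹ := by
      rw [hβ'2, hβ, hκ, pow_two]; group
    rw [this, hc.eq, mul_inv_cancel_right]
  have f2 : B⁻¹ * β * B = β := by rw [hβ, pow_two]; group
  have f1 : B⁻¹ * α ^ (s * t) * B = (α ^ (s * t))⁻¹ := by
    have : α ^ (s * t) = (L ^ s) ^ (2 * t) := by
      rw [hα, ← pow_mul, ← pow_mul]
      congr 1
      ring
    rw [this, cj, h1, inv_pow]
  have e5 : (L * B ^ 2) ^ 2 = α * (β' * β) := by
    rw [hβ'2, hα, hβ, pow_two, pow_two, pow_two]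
    group
  have e6 : (L * B ^ 2) ^ (2 * (s * t)) = α ^ (s * t) * (β' ^ (s * t) * β ^ (s * t)) := by
    rw [pow_mul, e5, (c2.mul_right c1).mul_pow, c3.mul_pow]
  have e7 : B⁻¹ * (L * B ^ 2) ^ (2 * (s * t)) * B = ((L * B ^ 2) ^ (2 * (s * t)))⁻¹ := by
    have : (L * B ^ 2) ^ (2 * (s * t)) = ((L * B ^ 2) ^ t) ^ (2 * s) := by
      rw [← pow_mul]
      congr 1
      ring
    rw [this, cj, h2, inv_pow]
  have e8 : B⁻¹ * (L * B ^ 2) ^ (2 * (s * t)) * B =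
      (α ^ (s * t))⁻¹ * (β' ^ (s * t) * β ^ (s * t)) := by
    calc B⁻¹ * (L * B ^ 2) ^ (2 * (s * t)) * B
        = (B⁻¹ * α ^ (s * t) * B) * ((B⁻¹ * β' ^ (s * t) * B) * (B⁻¹ * β ^ (s * t) * B)) := by
          rw [e6]; group
      _ = _ := by rw [f1, cj, cj, f3, f2]
  have c4 : Commute (α ^ (s * t)) (β' ^ (s * t) * β ^ (s * t)) :=
    (c2.pow_pow _ _).mul_right (c1.pow_pow _ _)
  have e9 : β' ^ (s * t) * β ^ (s * t) = (β' ^ (s * t) * β ^ (s * t))⁻¹ := by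
    rw [e7, e6, mul_inv_rev, ← (c4.inv_left.inv_right).eq] at e8
    exact (mul_left_cancel e8).symm
  refine ⟨4 * (s * t), by positivity, ?_⟩
  have c5 : Commute (β' ^ (s * t)) (β ^ (s * t)) := c3.pow_pow _ _
  have e10 : β' ^ (s * t) * β' ^ (s * t) * (β ^ (s * t) * β ^ (s * t)) = 1 := by
    calc β' ^ (s * t) * β' ^ (s * t) * (β ^ (s * t) * β ^ (s * t))
        = β' ^ (s * t) * (β' ^ (s * t) * β ^ (s * t)) * β ^ (s * t) := by group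
      _ = β' ^ (s * t) * (β ^ (s * t) * β' ^ (s * t)) * β ^ (s * t) := by rw [c5.eq]
      _ = (β' ^ (s * t) * β ^ (s * t)) * (β' ^ (s * t) * β ^ (s * t)) := by group
      _ = 1 := by nth_rewrite 1 [e9]; exact inv_mul_cancel _
  have e11 : β ^ (s * t) * β ^ (s * t) = B ^ (4 * (s * t)) := by
    rw [← pow_add, hβ, ← pow_mul]
    congr 1
    ring
  have e12 : β' ^ (s * t) * β' ^ (s * t) = L⁻¹ * B ^ (4 * (s * t)) * L := by
    rw [← e11, hβ'2]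
    have := conj_pow (i := s * t) (a := L⁻¹) (b := β)
    rw [inv_inv] at this
    rw [this]; group
  rw [← e11, ← e12] at *
  rw [e12, e11] at e10
  rw [e12, e11]
  exact eq_inv_of_mul_eq_one_left e10

lemma InvP.mul_fin {X X' Y : H} (h1 : InvP X Y) (h2 : InvP X' Y) (h3 : InvP (X * X') Y) :
    IsOfFinOrder Y := by
  obtain ⟨t1, ht1, e1⟩ := h1
  obtain ⟨t2, ht2, e2⟩ := h2
  obtain ⟨t3, ht3, e3⟩ := h3
  have cj : ∀ (x y : H) (n : ℕ), x⁻¹ * y ^ n * x = (x⁻¹ * y * x) ^ n := by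
    intro x y n
    have := conj_pow (i := n) (a := x⁻¹) (b := y)
    rw [inv_inv] at this
    exact this.symm
  obtain ⟨W, hW⟩ : ∃ W, W = Y ^ (t1 * t2 * t3) := ⟨_, rfl⟩
  have g1 : X⁻¹ * W * X = W⁻¹ := by
    have : W = (Y ^ t1) ^ (t2 * t3) := by rw [hW, ← pow_mul]; congr 1; ring
    rw [this, cj, e1, inv_pow]
  have g2 : X'⁻¹ * W * X' = W⁻¹ := by
    have : W = (Y ^ t2) ^ (t1 * t3) := by rw [hW, ← pow_mul]; congr 1; ring
    rw [this, cj, e2, inv_pow]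
  have g3 : (X * X')⁻¹ * W * (X * X') = W⁻¹ := by
    have : W = (Y ^ t3) ^ (t1 * t2) := by rw [hW, ← pow_mul]; congr 1; ring
    rw [this, cj, e3, inv_pow]
  have g4 : (X * X')⁻¹ * W * (X * X') = W := by
    calc (X * X')⁻¹ * W * (X * X') = X'⁻¹ * (X⁻¹ * W * X) * X' := by group
      _ = (X'⁻¹ * W * X')⁻¹ := by rw [g1]; group
      _ = W := by rw [g2, inv_inv]
  rw [g4] at g3
  refine isOfFinOrder_iff_pow_eq_one.2 ⟨2 * (t1 * t2 * t3), by positivity, ?_⟩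
  rw [two_mul, pow_add, ← hW]
  nth_rewrite 1 [g3]
  exact inv_mul_cancel _

lemma isOfFinOrder_conj' {x y : H} (h : IsOfFinOrder y) : IsOfFinOrder (x * y * x⁻¹) := by
  obtain ⟨n, hn, e⟩ := isOfFinOrder_iff_pow_eq_one.1 h
  exact isOfFinOrder_iff_pow_eq_one.2 ⟨n, hn, by rw [conj_pow, e, mul_one, mul_inv_cancel]⟩

lemma fin_comm {A B : H}
    (hsq : ∀ x ∈ Subgroup.closure ({A, B} : Set H), ∀ y ∈ Subgroup.closure ({A, B} : Set H),
      x ^ 2 * y ^ 2 = y ^ 2 * x ^ 2)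
    (hA : IsOfFinOrder A) (hB : IsOfFinOrder B) (hAB : IsOfFinOrder (A * B)) :
    IsOfFinOrder ⁅A, B⁆ := by
  have hAQ : A ∈ Subgroup.closure ({A, B} : Set H) := Subgroup.subset_closure (by simp)
  have hBQ : B ∈ Subgroup.closure ({A, B} : Set H) := Subgroup.subset_closure (by simp)
  have hC : B⁻¹ * A⁻¹ * B ∈ Subgroup.closure ({A, B} : Set H) :=
    Subgroup.mul_mem _ (Subgroup.mul_mem _ (Subgroup.inv_mem _ hBQ) (Subgroup.inv_mem _ hAQ)) hBQ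
  have h3 : ⁅A, B⁆ = ((A * B) ^ 2 * (B⁻¹ * A⁻¹ * B) ^ 2) * (B⁻¹) ^ 2 := by
    rw [commutatorElement_def, pow_two, pow_two, pow_two]
    group
  rw [h3]
  have c1 : Commute ((A * B) ^ 2) ((B⁻¹ * A⁻¹ * B) ^ 2) :=
    hsq _ (Subgroup.mul_mem _ hAQ hBQ) _ hC
  have c2 : Commute ((A * B) ^ 2) ((B⁻¹) ^ 2) :=
    hsq _ (Subgroup.mul_mem _ hAQ hBQ) _ (Subgroup.inv_mem _ hBQ)
  have c3 : Commute ((B⁻¹ * A⁻¹ * B) ^ 2) ((B⁻¹) ^ 2) := hsq _ hC _ (Subgroup.inv_mem _ hBQ)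
  refine (c2.mul_left c3).isOfFinOrder_mul (c1.isOfFinOrder_mul hAB.pow ?_) hB.inv.pow
  have h4 : B⁻¹ * A⁻¹ * B = B⁻¹ * A⁻¹ * (B⁻¹)⁻¹ := by rw [inv_inv]
  rw [h4]
  exact (isOfFinOrder_conj' hA.inv).pow

end grp

section

variable {ι : Type} [DecidableEq ι] [Fintype ι] {H : Type} [Group H]
  {Γ : Subgroup (MulAut (FreeGroup ι))} [hN : Γ.Normal]

variable (hIA : IA (FreeGroup ι) ≤ Γ)

/-- The dichotomy: an inversion among the remaining generators, or of the next one. -/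
lemma dich (h4 : 4 ≤ Fintype.card ι) (hidx : 0 < Γ.index)
    (hH : NoTri2Fam (2 * Fintype.card ι - 5) H) {i : ι}
    (hP : ∀ (ρ : Γ →* H) (j k : ι), i ≠ j → i ≠ k → j ≠ k →
      ∀ x ∈ Subgroup.closure ({RR hIA ρ i (of j), RR hIA ρ i (of k)} : Set H),
      ∀ y ∈ Subgroup.closure ({RR hIA ρ i (of j), RR hIA ρ i (of k)} : Set H),
        x ^ 2 * y ^ 2 = y ^ 2 * x ^ 2)
    (ρ : Γ →* H) {j0 k l : ι} (hij0 : i ≠ j0) (hik : i ≠ k) (hil : i ≠ l) (hkl : k ≠ l)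
    (hS : ∀ c, c ≠ i → c ≠ k → InvP (RR hIA ρ i (of c)) (RR hIA ρ i (of k)) → c = j0) :
    InvP (RR hIA ρ i (of k)) (RR hIA ρ i (of l)) := by
  have hmem1 : ∀ (X Y : H), X ∈ Subgroup.closure ({X, Y} : Set H) := fun X Y =>
    Subgroup.subset_closure (by simp)
  have hmem2 : ∀ (X Y : H), Y ∈ Subgroup.closure ({X, Y} : Set H) := fun X Y =>
    Subgroup.subset_closure (by simp)
  rcases famB hH (by have := card_ne3 i j0 k; omega)
    (fun c : {c : ι // c ≠ i ∧ c ≠ j0 ∧ c ≠ k} => (RR hIA ρ i (of (c : ι))) ^ 2)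
    (fun c => TW ρ (c : ι) k) ((RR hIA ρ i (of k)) ^ 2) (TW ρ k l)
    (by
      rintro ⟨c, h1, h2, h3⟩ ⟨d, h1', h2', h3'⟩
      by_cases hcd : c = d
      · subst hcd; rfl
      · exact hP ρ c d (Ne.symm h1) (Ne.symm h1') hcd _ (hmem1 _ _) _ (hmem2 _ _))
    (by
      rintro ⟨c, h1, h2, h3⟩ ⟨d, h1', h2', h3'⟩ hcd
      have hcd' : c ≠ d := fun h => hcd (by subst h; rfl)
      exact ((show Commute (TW ρ d k) (RR hIA ρ i (of c)) from
        TW_RR_ne hIA ρ (Ne.symm h1') hik hcd').pow_right 2).symm.eq)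
    (by
      rintro ⟨c, h1, h2, h3⟩
      exact hP ρ c k (Ne.symm h1) hik h3 _ (hmem1 _ _) _ (hmem2 _ _))
    (by
      rintro ⟨c, h1, h2, h3⟩
      exact ((show Commute (TW ρ k l) (RR hIA ρ i (of c)) from
        TW_RR_ne hIA ρ hik hil h3).pow_right 2).symm.eq) with ⟨⟨c, h1, h2, h3⟩, hc⟩ | h
  · exfalso
    apply h2
    apply hS c h1 h3
    exact ⟨4 * Γ.index, by omega, inv2 (TW_RR_self hIA ρ (Ne.symm h1) hik (Ne.symm h3))
      (TW_RR_ne hIA ρ (Ne.symm h1) hik (Ne.symm h3)) hc.symm (hP ρ c k (Ne.symm h1) hik h3)⟩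
  · exact ⟨4 * Γ.index, by omega, inv2 (TW_RR_self hIA ρ hik hil (Ne.symm hkl))
      (TW_RR_ne hIA ρ hik hil (Ne.symm hkl)) h.symm (hP ρ k l hik hil hkl)⟩

/-- The generators have finite order. -/
theorem fin_gen (h4 : 4 ≤ Fintype.card ι) (hidx : 0 < Γ.index)
    (hH : NoTri2Fam (2 * Fintype.card ι - 5) H) {i : ι}
    (hP : ∀ (ρ : Γ →* H) (j k : ι), i ≠ j → i ≠ k → j ≠ k →
      ∀ x ∈ Subgroup.closure ({RR hIA ρ i (of j), RR hIA ρ i (of k)} : Set H),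
      ∀ y ∈ Subgroup.closure ({RR hIA ρ i (of j), RR hIA ρ i (of k)} : Set H),
        x ^ 2 * y ^ 2 = y ^ 2 * x ^ 2) {k : ι} (hik : i ≠ k) :
    ∀ (m : ℕ) (ρ : Γ →* H),
      {c | (c ≠ i ∧ c ≠ k) ∧ InvP (RR hIA ρ i (of c)) (RR hIA ρ i (of k))}.ncard = m →
      IsOfFinOrder (RR hIA ρ i (of k)) := by
  intro m
  induction m using Nat.strong_induction_on with
  | _ m ih =>
  intro ρ hm
  by_contra hfin
  by_cases h2 : ∃ c d, c ≠ d ∧ ((c ≠ i ∧ c ≠ k) ∧ InvP (RR hIA ρ i (of c)) (RR hIA ρ i (of k))) ∧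
      ((d ≠ i ∧ d ≠ k) ∧ InvP (RR hIA ρ i (of d)) (RR hIA ρ i (of k)))
  · obtain ⟨c, d, hcd, ⟨⟨hc1, hc2⟩, hbc⟩, ⟨hd1, hd2⟩, hbd⟩ := h2
    have hb : Pres i (rr d (of c)) := pres_rr (Ne.symm hd1) (kil_ne hc1)
    have ek : RR hIA (twist (rr d (of c)) ρ) i (of k) = RR hIA ρ i (of k) := by
      rw [RR_twist hIA ρ hb, rr_ne (Ne.symm hd2)]
    have ed : RR hIA (twist (rr d (of c)) ρ) i (of d) = RR hIA ρ i (of d) * RR hIA ρ i (of c) := by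
      rw [RR_twist hIA ρ hb, rr_self, kil_ne hcd, map_mul]
    have hd' : ¬ InvP (RR hIA (twist (rr d (of c)) ρ) i (of d))
        (RR hIA (twist (rr d (of c)) ρ) i (of k)) := by
      rw [ed, ek]
      intro h
      exact hfin (hbd.mul_fin hbc h)
    apply hfin
    rw [← ek]
    refine ih _ ?_ (twist (rr d (of c)) ρ) rfl
    rw [← hm]
    apply Set.ncard_lt_ncard _ (Set.toFinite _)
    rw [Set.ssubset_iff_of_subset]
    · exact ⟨d, ⟨⟨hd1, hd2⟩, hbd⟩, fun h => hd' h.2⟩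
    · rintro e ⟨⟨h1, h2⟩, hbad⟩
      refine ⟨⟨h1, h2⟩, ?_⟩
      have hed : e ≠ d := by rintro rfl; exact hd' hbad
      have e2 : RR hIA (twist (rr d (of c)) ρ) i (of e) = RR hIA ρ i (of e) := by
        rw [RR_twist hIA ρ hb, rr_ne hed]
      rwa [e2, ek] at hbad
  · have hex : ∃ j0, i ≠ j0 ∧ ∀ c, c ≠ i → c ≠ k →
        InvP (RR hIA ρ i (of c)) (RR hIA ρ i (of k)) → c = j0 := by
      by_cases h1 : ∃ c0, (c0 ≠ i ∧ c0 ≠ k) ∧ InvP (RR hIA ρ i (of c0)) (RR hIA ρ i (of k))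
      · obtain ⟨c0, ⟨hc1, hc2⟩, hbc⟩ := h1
        refine ⟨c0, Ne.symm hc1, fun c h1 h2' h3 => ?_⟩
        by_contra hne
        exact h2 ⟨c0, c, fun h => hne h.symm, ⟨⟨hc1, hc2⟩, hbc⟩, ⟨h1, h2'⟩, h3⟩
      · obtain ⟨j0, h1', -, -⟩ := exists_ne3 h4 i i i
        exact ⟨j0, Ne.symm h1', fun c h2' h3 h4' => absurd ⟨c, ⟨h2', h3⟩, h4'⟩ h1⟩
    obtain ⟨j0, hij0, hS⟩ := hex
    obtain ⟨l, hli, hlk, hlj⟩ := exists_ne3 h4 i k j0
    have hlS : ¬ InvP (RR hIA ρ i (of l)) (RR hIA ρ i (of k)) := fun h => hlj (hS l hli hlk h)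
    obtain ⟨s, hs, e1⟩ := dich hIA h4 hidx hH hP ρ hij0 hik (Ne.symm hli) (Ne.symm hlk) hS
    have hb : Pres i (rr l (of k ^ 2)) := pres_rr (Ne.symm hli) (by rw [map_pow, kil_ne (Ne.symm hik)])
    have ek : RR hIA (twist (rr l (of k ^ 2)) ρ) i (of k) = RR hIA ρ i (of k) := by
      rw [RR_twist hIA ρ hb, rr_ne (Ne.symm hlk)]
    have el : RR hIA (twist (rr l (of k ^ 2)) ρ) i (of l) =
        RR hIA ρ i (of l) * RR hIA ρ i (of k) ^ 2 := by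
      rw [RR_twist hIA ρ hb, rr_self, map_pow, kil_ne (Ne.symm hlk), map_mul, map_pow]
    have hS' : ∀ c, c ≠ i → c ≠ k → InvP (RR hIA (twist (rr l (of k ^ 2)) ρ) i (of c))
        (RR hIA (twist (rr l (of k ^ 2)) ρ) i (of k)) → c = j0 := by
      intro c hc1 hc2 hc
      by_cases hcl : c = l
      · subst hcl
        exfalso
        apply hlS
        rw [el, ek] at hc
        obtain ⟨t, ht, e⟩ := hc
        refine ⟨t, ht, ?_⟩
        obtain ⟨B, hB⟩ : ∃ B, B = RR hIA ρ i (of k) := ⟨_, rfl⟩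
        rw [← hB] at e ⊢
        have h5 : (RR hIA ρ i (of c))⁻¹ * B ^ t * RR hIA ρ i (of c) =
            B ^ 2 * ((RR hIA ρ i (of c) * B ^ 2)⁻¹ * B ^ t * (RR hIA ρ i (of c) * B ^ 2)) *
              (B ^ 2)⁻¹ := by group
        rw [h5, e]
        have h6 : Commute (B ^ 2) (B ^ t)⁻¹ := ((Commute.refl B).pow_pow 2 t).inv_right
        rw [h6.eq, mul_inv_cancel_right]
      · apply hS c hc1 hc2
        have ec : RR hIA (twist (rr l (of k ^ 2)) ρ) i (of c) = RR hIA ρ i (of c) := by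
          rw [RR_twist hIA ρ hb, rr_ne hcl]
        rwa [ec, ek] at hc
    obtain ⟨t, ht, e2⟩ := dich hIA h4 hidx hH hP (twist (rr l (of k ^ 2)) ρ) hij0 hik
      (Ne.symm hli) (Ne.symm hlk) hS'
    rw [ek, el] at e2
    exact hlS (inv3 hs ht (hP ρ l k (Ne.symm hli) hik hlk) e1 e2)

/-- The commutators have finite order. -/
theorem fin_comm_RR (h4 : 4 ≤ Fintype.card ι) (hidx : 0 < Γ.index)
    (hH : NoTri2Fam (2 * Fintype.card ι - 5) H) (hC : NoCube (Fintype.card ι - 3) H)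
    (hU : NoCubeU (Fintype.card ι - 3) H) (ρ : Γ →* H) {i j k : ι} (hij : i ≠ j) (hik : i ≠ k) :
    IsOfFinOrder ⁅RR hIA ρ i (of j), RR hIA ρ i (of k)⁆ := by
  by_cases hjk : j = k
  · subst hjk
    rw [commutatorElement_self]
    exact IsOfFinOrder.one
  have hP : ∀ (ρ : Γ →* H) (j k : ι), i ≠ j → i ≠ k → j ≠ k →
      ∀ x ∈ Subgroup.closure ({RR hIA ρ i (of j), RR hIA ρ i (of k)} : Set H),
      ∀ y ∈ Subgroup.closure ({RR hIA ρ i (of j), RR hIA ρ i (of k)} : Set H),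
        x ^ 2 * y ^ 2 = y ^ 2 * x ^ 2 :=
    fun ρ j k h1 h2 h3 => sqcomm hIA h4 hidx hH hC hU h1 h2 h3 _ ρ rfl
  have hF : ∀ (ρ : Γ →* H) (k : ι), i ≠ k → IsOfFinOrder (RR hIA ρ i (of k)) :=
    fun ρ k h => fin_gen hIA h4 hidx hH hP h _ ρ rfl
  have hb : Pres i (rr j (of k)) := pres_rr hij (kil_ne (Ne.symm hik))
  have ej : RR hIA (twist (rr j (of k)) ρ) i (of j) = RR hIA ρ i (of j) * RR hIA ρ i (of k) := by
    rw [RR_twist hIA ρ hb, rr_self, kil_ne (Ne.symm hjk), map_mul]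
  refine fin_comm (hP ρ j k hij hik hjk) (hF ρ j hij) (hF ρ k hik) ?_
  rw [← ej]
  exact hF _ j hij

end

end Pool.Agent.Helper460_OutF
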