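import Pool.Agent.Helper460_OutF.Lin

set_option autoImplicit false
set_option linter.unusedSectionVars false
set_option linter.unusedSimpArgs false

namespace Pool.Agent.Helper460_OutF

open scoped commutatorElement

section general

variable {F : Type} [Group F]

/-- `Pd j θ` says that `θ` is a polynomial function of degree less than `j`. -/
def Pd : ℕ → (F → ℤ) → Prop
  | 0, θ => ∀ x, θ x = 0
  | j + 1, θ => ∀ g, Pd j (fun x => θ (x * g) - θ x)

lemma Pd_congr {j : ℕ} {θ φ : F → ℤ} (h : ∀ x, θ x = φ x) (hθ : Pd j θ) : Pd j φ := by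
  have : θ = φ := funext h
  rwa [← this]

lemma Pd_zero' (j : ℕ) : Pd j (fun _ : F => (0 : ℤ)) := by
  induction j with
  | zero => intro x; rfl
  | succ j ih => intro g; simpa using ih

lemma Pd_succ {j : ℕ} {θ : F → ℤ} (h : Pd j θ) : Pd (j + 1) θ := by
  induction j generalizing θ with
  | zero =>
    intro g
    intro x
    show θ (x * g) - θ x = 0
    rw [h, h, sub_zero]
  | succ j ih =>
    intro g
    exact ih (h g)

lemma Pd_add {j : ℕ} {θ φ : F → ℤ} (h1 : Pd j θ) (h2 : Pd j φ) : Pd j (fun x => θ x + φ x) := by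
  induction j generalizing θ φ with
  | zero => intro x; show θ x + φ x = 0; rw [h1, h2, add_zero]
  | succ j ih =>
    intro g
    refine Pd_congr ?_ (ih (h1 g) (h2 g))
    intro x; ring

lemma Pd_neg {j : ℕ} {θ : F → ℤ} (h1 : Pd j θ) : Pd j (fun x => -θ x) := by
  induction j generalizing θ with
  | zero => intro x; show -θ x = 0; rw [h1, neg_zero]
  | succ j ih =>
    intro g
    refine Pd_congr ?_ (ih (h1 g))
    intro x; ring

lemma Pd_sub {j : ℕ} {θ φ : F → ℤ} (h1 : Pd j θ) (h2 : Pd j φ) : Pd j (fun x => θ x - φ x) :=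
  Pd_congr (fun x => by ring) (Pd_add h1 (Pd_neg h2))

lemma Pd_right {j : ℕ} {θ : F → ℤ} (h : Pd j θ) (g : F) : Pd j (fun x => θ (x * g)) := by
  cases j with
  | zero => intro x; exact h _
  | succ j =>
    exact Pd_congr (fun x => by ring) (Pd_add (Pd_succ (h g)) h)

lemma Pd_left {j : ℕ} {θ : F → ℤ} (h : Pd j θ) (g : F) : Pd j (fun x => θ (g * x)) := by
  induction j generalizing θ with
  | zero => intro x; exact h _
  | succ j ih =>
    intro k
    refine Pd_congr ?_ (ih (h k))
    intro x
    simp only [mul_assoc]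

/-- The degree drops by two along the commutator subgroup. -/
lemma Pd_commutator {κ : F} (hκ : κ ∈ commutator F) {j : ℕ} {θ : F → ℤ} (h : Pd (j + 2) θ) :
    Pd j (fun x => θ (x * κ) - θ x) := by
  have key : ∀ (a b : F) {θ : F → ℤ}, Pd (j + 2) θ →
      Pd j (fun x => θ (x * (a * b)) - θ (x * (b * a))) := by
    intro a b θ h
    have h1 : Pd j (fun x => (θ (x * a * b) - θ (x * a)) - (θ (x * b) - θ x)) := h b a
    have h2 : Pd j (fun x => (θ (x * b * a) - θ (x * b)) - (θ (x * a) - θ x)) := h a b
    refine Pd_congr ?_ (Pd_sub h1 h2)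
    intro x
    simp only [mul_assoc]
    ring
  let S : Subgroup F :=
    { carrier := {κ | ∀ θ : F → ℤ, Pd (j + 2) θ → Pd j (fun x => θ (x * κ) - θ x)}
      mul_mem' := by
        intro a b ha hb θ h
        have h1 := Pd_right (hb θ h) a
        refine Pd_congr ?_ (Pd_add h1 (ha θ h))
        intro x
        simp only [mul_assoc]
        ring
      one_mem' := by
        intro θ _
        refine Pd_congr ?_ (Pd_zero' j)
        intro x; simp
      inv_mem' := by
        intro a ha θ h
        have h1 := Pd_neg (Pd_right (ha θ h) a⁻¹)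
        refine Pd_congr ?_ h1
        intro x
        simp }
  have hS : commutator F ≤ S := by
    rw [commutator_def, Subgroup.commutator_le]
    intro a _ b _
    intro θ h
    refine Pd_congr ?_ (Pd_right (key a⁻¹ b⁻¹ h) (a * b))
    intro x
    have e1 : x * (a * b) * (a⁻¹ * b⁻¹) = x * ⁅a, b⁆ := by
      simp only [commutatorElement_def]; group
    have e2 : x * (a * b) * (b⁻¹ * a⁻¹) = x := by group
    show θ (x * (a * b) * (a⁻¹ * b⁻¹)) - θ (x * (a * b) * (b⁻¹ * a⁻¹)) = θ (x * ⁅a, b⁆) - θ x
    rw [e1, e2]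
  exact hS hκ θ h

lemma Pd_comp {j : ℕ} {θ : F → ℤ} (h : Pd j θ) (α : MulAut F) : Pd j (fun x => θ (α x)) := by
  induction j generalizing θ with
  | zero => intro x; exact h _
  | succ j ih =>
    intro g
    refine Pd_congr ?_ (ih (h (α g)))
    intro x
    simp only [map_mul]

lemma IA_inv_mul {α : MulAut F} (hα : α ∈ IA F) (g : F) : g⁻¹ * α g ∈ commutator F := by
  have h1 := hα g
  rw [← Abelianization.ker_of, MonoidHom.mem_ker, map_mul, map_inv, h1, inv_mul_cancel]

/-- Automorphisms acting trivially on the abelianisation act unipotently on polynomial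
functions. -/
lemma Pd_IA {α : MulAut F} (hα : α ∈ IA F) {j : ℕ} {θ : F → ℤ} (h : Pd (j + 1) θ) :
    Pd j (fun x => θ (α x) - θ x) := by
  induction j generalizing θ with
  | zero =>
    intro x
    have := h (x⁻¹ * α x) x
    simpa using this
  | succ j ih =>
    intro g
    have h1 := ih (h (α g))
    have h2 := Pd_right (Pd_commutator (IA_inv_mul hα g) h) g
    refine Pd_congr ?_ (Pd_add h1 h2)
    intro x
    have e : x * g * (g⁻¹ * α g) = x * α g := by group
    show θ (α x * α g) - θ (α x) - (θ (x * α g) - θ x) + (θ (x * g * (g⁻¹ * α g)) - θ (x * g)) =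
      θ (α (x * g)) - θ (x * g) - (θ (α x) - θ x)
    rw [e, map_mul]
    ring

/-- A group without nontrivial homomorphisms to torsion-free abelian groups. -/
def NoHom (Λ : Type) [Group Λ] : Prop :=
  ∀ (B : Type) [CommGroup B], (∀ (b : B) (m : ℕ), 0 < m → b ^ m = 1 → b = 1) →
    ∀ f : Λ →* B, ∀ x, f x = 1

lemma NoHom.fun_eq {Λ : Type} [Group Λ] (h : NoHom Λ) {X : Type} (D : Λ → X → ℤ)
    (hD : ∀ a b x, D (a * b) x = D a x + D b x) : ∀ a x, D a x = 0 := by
  have h1 : ∀ x, D 1 x = 0 := by
    intro x
    have := hD 1 1 x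
    rw [one_mul] at this
    omega
  let f : Λ →* Multiplicative (X → ℤ) :=
    { toFun := fun a => Multiplicative.ofAdd (D a)
      map_one' := by
        have : D 1 = 0 := funext h1
        rw [this]; rfl
      map_mul' := by
        intro a b
        have : D (a * b) = D a + D b := funext (hD a b)
        rw [this]; rfl }
  intro a x
  have h2 := h (Multiplicative (X → ℤ)) (by
    intro b m hm hb
    have h3 : m • (Multiplicative.toAdd b) = 0 := hb
    have h4 : Multiplicative.toAdd b = 0 := by
      funext y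
      have := congrFun h3 y
      simp only [Pi.smul_apply, Pi.zero_apply, nsmul_eq_mul, mul_eq_zero] at this
      rcases this with h5 | h5
      · exact absurd (by exact_mod_cast h5) hm.ne'
      · exact h5
    exact h4) f a
  have h3 : D a = 0 := h2
  rw [h3]; rfl

/-- Class functions. -/
def IsClass (θ : F → ℤ) : Prop := ∀ g x, θ (g * x * g⁻¹) = θ x

/-- Outer version of the unipotence lemma. -/
theorem class_inv {Λ : Type} [Group Λ] (hno : NoHom Λ) (rep : Λ → MulAut F)
    (hrep : ∀ a b, ∃ g, rep (a * b) = MulAut.conj g * (rep a * rep b))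
    (hIA : ∀ a, rep a ∈ IA F) (j : ℕ) :
    ∀ θ : F → ℤ, IsClass θ → Pd j θ → ∀ a x, θ (rep a x) = θ x := by
  induction j with
  | zero => intro θ _ h a x; rw [h, h]
  | succ j ih =>
    intro θ hc h a x
    have key := hno.fun_eq (fun a x => θ (rep a x) - θ x) (by
      intro a b x
      have hcD : IsClass (fun x => θ (rep a x) - θ x) := by
        intro g y
        show θ (rep a (g * y * g⁻¹)) - θ (g * y * g⁻¹) = θ (rep a y) - θ y
        rw [map_mul, map_mul, map_inv, hc, hc]
      have hD := ih (fun x => θ (rep a x) - θ x) hcD (Pd_IA (hIA a) h) b x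
      obtain ⟨g, hg⟩ := hrep a b
      have e : θ (rep (a * b) x) = θ (rep a (rep b x)) := by
        rw [hg, MulAut.mul_apply, MulAut.conj_apply, hc, MulAut.mul_apply]
      have hD' : θ (rep a (rep b x)) - θ (rep b x) = θ (rep a x) - θ x := hD
      show θ (rep (a * b) x) - θ x = (θ (rep a x) - θ x) + (θ (rep b x) - θ x)
      rw [e]
      omega)
    have := key a x
    omega

/-- Version for genuine actions. -/
theorem hom_inv {Λ : Type} [Group Λ] (hno : NoHom Λ) (rep : Λ →* MulAut F)
    (hIA : ∀ a, rep a ∈ IA F) (j : ℕ) :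
    ∀ θ : F → ℤ, Pd j θ → ∀ a x, θ (rep a x) = θ x := by
  induction j with
  | zero => intro θ h a x; rw [h, h]
  | succ j ih =>
    intro θ h a x
    have key := hno.fun_eq (fun a x => θ (rep a x) - θ x) (by
      intro a b x
      have hD := ih (fun x => θ (rep a x) - θ x) (Pd_IA (hIA a) h) b x
      have e : θ (rep (a * b) x) = θ (rep a (rep b x)) := by
        rw [map_mul, MulAut.mul_apply]
      have hD' : θ (rep a (rep b x)) - θ (rep b x) = θ (rep a x) - θ x := hD
      show θ (rep (a * b) x) - θ x = (θ (rep a x) - θ x) + (θ (rep b x) - θ x)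
      rw [e]
      omega)
    have := key a x
    omega

end general

end Pool.Agent.Helper460_OutF
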