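import Pool.Agent.Helper460_OutF.SurfMain

set_option autoImplicit false
set_option linter.unusedSectionVars false
set_option linter.unusedSimpArgs false

namespace Pool.Agent.Helper460_OutF

open FreeGroup (of)
open scoped commutatorElement

section free

variable {κ : Type} [DecidableEq κ] [Fintype κ]

lemma expo_of (c d : κ) : (expo c (of d)).toAdd = if c = d then 1 else 0 := by
  by_cases h : c = d
  · subst h
    rw [if_pos rfl]
    have := expo_self c 1
    rwa [zpow_one] at this
  · rw [if_neg h]
    have := expo_ne (Ne.symm h) 1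
    rwa [zpow_one] at this

lemma ab_prod (w : FreeGroup κ) : Abelianization.of w =
    ∏ c, Abelianization.of (of c) ^ (expo c w).toAdd := by
  induction w using FreeGroup.induction_on with
  | C1 => simp
  | of d =>
    rw [Finset.prod_eq_single d]
    · rw [expo_of, if_pos rfl, zpow_one]
    · intro c _ hcd
      rw [expo_of, if_neg hcd, zpow_zero]
    · intro h; exact absurd (Finset.mem_univ d) h
  | inv_of d ih =>
    rw [map_inv, ih, ← Finset.prod_inv_distrib]
    refine Finset.prod_congr rfl fun e _ => ?_
    rw [map_inv, toAdd_inv, zpow_neg]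
  | mul a b ha hb =>
    rw [map_mul, ha, hb, ← Finset.prod_mul_distrib]
    refine Finset.prod_congr rfl fun e _ => ?_
    rw [map_mul, toAdd_mul, zpow_add]

/-- The rational version of the exponent. -/
def expoQ (c : κ) : HQ (FreeGroup κ) :=
  (Int.castAddHom ℚ).comp (AddMonoidHom.toMultiplicativeRight.symm (expo c) : Additive (FreeGroup κ) →+ ℤ)

lemma AbQ_free : AbQ (FreeGroup κ) := by
  intro x hx
  rw [ab_prod]
  apply Finset.prod_eq_one
  intro c _
  have h1 := hx (expoQ c)
  have h2 : ((expo c x).toAdd : ℚ) = 0 := h1
  have h3 : (expo c x).toAdd = 0 := by exact_mod_cast h2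
  rw [h3, zpow_zero]

end free

section puncture

variable (g q : ℕ)

lemma map_srel {g p : ℕ} {H : Type*} [Group H] (f : FreeGroup (SGen g p) →* H) :
    f (srel g p) = (List.ofFn fun i : Fin g =>
      ⁅f (of (Sum.inl (Sum.inl i))), f (of (Sum.inl (Sum.inr i)))⁆).prod *
      (List.ofFn fun j : Fin p => f (of (Sum.inr j))).prod := by
  unfold srel
  rw [map_mul, map_list_prod, map_list_prod, List.map_ofFn, List.map_ofFn]
  congr 2
  congr 1
  funext i
  simp only [Function.comp_apply, map_commutatorElement]

lemma map_srel_succ {g q : ℕ} {H : Type*} [Group H] (f : FreeGroup (SGen g (q + 1)) →* H) :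
    f (srel g (q + 1)) = (List.ofFn fun i : Fin g =>
      ⁅f (of (Sum.inl (Sum.inl i))), f (of (Sum.inl (Sum.inr i)))⁆).prod *
      (List.ofFn fun j : Fin q => f (of (Sum.inr j.castSucc))).prod *
      f (of (Sum.inr (Fin.last q))) := by
  rw [map_srel, List.ofFn_succ', List.concat_eq_append, List.prod_append, List.prod_singleton,
    ← mul_assoc]

/-- Images of the generators in the free group. -/
def pgen : SGen g (q + 1) → FreeGroup (SGen g q) :=
  Sum.elim (fun s => of (Sum.inl s)) (Fin.lastCases (srel g q)⁻¹ (fun j => of (Sum.inr j)))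

lemma pgen_rel : FreeGroup.lift (pgen g q) (srel g (q + 1)) = 1 := by
  rw [map_srel_succ]
  simp only [FreeGroup.lift_apply_of, pgen, Sum.elim_inl, Sum.elim_inr, Fin.lastCases_castSucc,
    Fin.lastCases_last]
  exact mul_inv_cancel _

/-- The map to the free group. -/
def toF : SG g (q + 1) →* FreeGroup (SGen g q) :=
  PresentedGroup.toGroup (f := pgen g q) (by
    intro r hr
    rw [Set.mem_singleton_iff] at hr
    subst hr
    exact pgen_rel g q)

/-- The map from the free group. -/
def fromF : FreeGroup (SGen g q) →* SG g (q + 1) :=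
  FreeGroup.lift (Sum.elim (fun s => PresentedGroup.of (Sum.inl s))
    (fun j => PresentedGroup.of (Sum.inr j.castSucc)))

lemma fromF_rel : fromF g q (srel g q) *
    (PresentedGroup.of (Sum.inr (Fin.last q)) : SG g (q + 1)) = 1 := by
  have h0 : (PresentedGroup.mk ({srel g (q + 1)} : Set (FreeGroup (SGen g (q + 1)))))
      (srel g (q + 1)) = 1 := PresentedGroup.one_of_mem (Set.mem_singleton _)
  rw [map_srel_succ] at h0
  rw [map_srel]
  simp only [fromF, FreeGroup.lift_apply_of, Sum.elim_inl, Sum.elim_inr]
  exact h0

/-- The surface group of a punctured surface is free. -/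
def eqF : SG g (q + 1) ≃* FreeGroup (SGen g q) :=
  MonoidHom.toMulEquiv (toF g q) (fromF g q)
    (by
      apply PresentedGroup.ext
      rintro (s | j)
      · simp [toF, fromF, pgen]
      · refine Fin.lastCases ?_ (fun j => ?_) j
        · have h := fromF_rel g q
          have h1 : toF g q (PresentedGroup.of (Sum.inr (Fin.last q))) = (srel g q)⁻¹ := by
            simp [toF, pgen]
          rw [MonoidHom.comp_apply, h1, map_inv, MonoidHom.id_apply]
          exact inv_eq_of_mul_eq_one_right h
        · simp [toF, fromF, pgen])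
    (by
      ext x
      rcases x with (s | j)
      · simp [toF, fromF, pgen]
      · simp [toF, fromF, pgen])

lemma TG_punct : TG (SG g (q + 1)) := TG.of_equiv (eqF g q) (TG_free _)

lemma AbQ_punct : AbQ (SG g (q + 1)) := AbQ.of_equiv (eqF g q) AbQ_free

end puncture

end Pool.Agent.Helper460_OutF
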