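import Pool.Agent.Helper460_OutF.FinLem

set_option autoImplicit false
set_option linter.unusedSectionVars false
set_option linter.unusedSimpArgs false

namespace Pool.Agent.Helper460_OutF

open scoped Pointwise commutatorElement IsMulCommutative

variable {ι : Type} [DecidableEq ι] [Fintype ι] {G : Type} [Group G]

/-- Elements satisfying the relations of elementary matrices modulo `M`. -/
structure StRel (e : ι → ι → G) (M : ℕ) : Prop where
  comm : ∀ i j k l, i ≠ j → k ≠ l → j ≠ k → i ≠ l → e i j * e k l = e k l * e i j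
  rel : ∀ i j k, i ≠ j → j ≠ k → i ≠ k → e j k * e i j = e i j * e i k * e j k
  pw : ∀ i j, i ≠ j → e i j ^ M = 1

/-- The set of elements `e i j` with `P i j`. -/
def gs (e : ι → ι → G) (P : ι → ι → Prop) : Set G := {g | ∃ i j, i ≠ j ∧ P i j ∧ g = e i j}

lemma gs_finite (e : ι → ι → G) (P : ι → ι → Prop) : (gs e P).Finite := by
  refine (Set.finite_range (fun p : ι × ι => e p.1 p.2)).subset ?_
  rintro _ ⟨i, j, _, _, rfl⟩
  exact ⟨(i, j), rfl⟩

lemma mem_gs {e : ι → ι → G} {P : ι → ι → Prop} {i j : ι} (h : i ≠ j) (hP : P i j) :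
    e i j ∈ Subgroup.closure (gs e P) := Subgroup.subset_closure ⟨i, j, h, hP, rfl⟩

/-- The dual family. -/
def dual (e : ι → ι → G) : ι → ι → G := fun i j => (e j i)⁻¹

lemma StRel.dual {e : ι → ι → G} {M : ℕ} (h : StRel e M) : StRel (dual e) M where
  comm i j k l h1 h2 h3 h4 := by
    have := h.comm j i l k h1.symm h2.symm h4 h3
    show (e j i)⁻¹ * (e l k)⁻¹ = (e l k)⁻¹ * (e j i)⁻¹
    rw [← mul_inv_rev, ← mul_inv_rev, this]
  rel i j k h1 h2 h3 := by
    have := h.rel k j i h2.symm h1.symm h3.symm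
    show (e k j)⁻¹ * (e j i)⁻¹ = (e j i)⁻¹ * (e k i)⁻¹ * (e k j)⁻¹
    rw [← mul_inv_rev, this]
    group
  pw i j h1 := by
    show (e j i)⁻¹ ^ M = 1
    rw [inv_pow, h.pw j i h1.symm, inv_one]

lemma closure_dual (e : ι → ι → G) (P Q : ι → ι → Prop) (hPQ : ∀ i j, P i j ↔ Q j i) :
    Subgroup.closure (gs (dual e) P) = Subgroup.closure (gs e Q) := by
  apply le_antisymm
  · rw [Subgroup.closure_le]
    rintro _ ⟨i, j, h1, h2, rfl⟩
    exact Subgroup.inv_mem _ (mem_gs h1.symm ((hPQ i j).1 h2))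
  · rw [Subgroup.closure_le]
    rintro _ ⟨i, j, h1, h2, rfl⟩
    have : (dual e j i)⁻¹ ∈ Subgroup.closure (gs (dual e) P) :=
      Subgroup.inv_mem _ (mem_gs h1.symm ((hPQ j i).2 h2))
    simpa [dual] using this

section

variable {e : ι → ι → G} {M : ℕ}

lemma StRel.col_finite (h : StRel e M) (hM : 0 < M) (n : ι) :
    Finite (Subgroup.closure (gs e (fun _ j => j = n))) := by
  apply finite_closure_of_comm (gs_finite _ _) _ hM
  · rintro _ ⟨i, j, h1, h2, rfl⟩
    exact h.pw i j h1
  · rintro _ ⟨i, j, h1, rfl, rfl⟩ _ ⟨k, l, h3, rfl, rfl⟩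
    exact h.comm i _ k _ h1 h3 h3.symm h1

lemma StRel.row_finite (h : StRel e M) (hM : 0 < M) (n : ι) :
    Finite (Subgroup.closure (gs e (fun i _ => i = n))) := by
  apply finite_closure_of_comm (gs_finite _ _) _ hM
  · rintro _ ⟨i, j, h1, h2, rfl⟩
    exact h.pw i j h1
  · rintro _ ⟨i, j, h1, rfl, rfl⟩ _ ⟨k, l, h3, rfl, rfl⟩
    exact h.comm _ j _ l h1 h3 h1.symm h3

lemma StRel.col_norm (h : StRel e M) (hM : 0 < M) {n i j : ι} (hij : i ≠ j) (hi : i ≠ n)
    (hj : j ≠ n) :
    e i j ∈ Subgroup.normalizer (Subgroup.closure (gs e (fun _ j => j = n)) : Set G) := by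
  have := h.col_finite hM n
  rw [← inv_inv (e i j)]
  refine Subgroup.inv_mem _ (mem_normalizer_closure ?_)
  rintro _ ⟨k, l, h3, rfl, rfl⟩
  by_cases hk : k = j
  · subst hk
    have : (e i k)⁻¹ * e k l * (e i k)⁻¹⁻¹ = e i l * e k l := by
      rw [inv_inv, mul_assoc, h.rel i k l hij hj hi]; group
    rw [this]
    exact Subgroup.mul_mem _ (mem_gs hi rfl) (mem_gs h3 rfl)
  · have : (e i j)⁻¹ * e k l * (e i j)⁻¹⁻¹ = e k l := by
      rw [inv_inv, mul_assoc, ← h.comm i j k l hij h3 (Ne.symm hk) hi]; group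
    rw [this]
    exact mem_gs h3 rfl

lemma StRel.row_norm (h : StRel e M) (hM : 0 < M) {n i j : ι} (hij : i ≠ j) (hi : i ≠ n)
    (hj : j ≠ n) :
    e i j ∈ Subgroup.normalizer (Subgroup.closure (gs e (fun i _ => i = n)) : Set G) := by
  have := h.row_finite hM n
  refine mem_normalizer_closure ?_
  rintro _ ⟨l, k, h3, rfl, rfl⟩
  by_cases hk : k = i
  · subst hk
    have : e k j * e l k * (e k j)⁻¹ = e l k * e l j := by
      rw [h.rel l k j h3 hij hj.symm]; group
    rw [this]
    exact Subgroup.mul_mem _ (mem_gs h3 rfl) (mem_gs hj.symm rfl)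
  · have : e i j * e l k * (e i j)⁻¹ = e l k := by
      rw [h.comm i j l k hij h3 hj (Ne.symm hk)]; group
    rw [this]
    exact mem_gs h3 rfl

lemma StRel.le_col_norm (h : StRel e M) (hM : 0 < M) (n : ι) (P : ι → ι → Prop)
    (hP : ∀ i j, P i j → i ≠ n ∧ j ≠ n) :
    Subgroup.closure (gs e P) ≤
      Subgroup.normalizer (Subgroup.closure (gs e (fun _ j => j = n)) : Set G) := by
  rw [Subgroup.closure_le]
  rintro _ ⟨i, j, h1, h2, rfl⟩
  exact h.col_norm hM h1 (hP i j h2).1 (hP i j h2).2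

lemma StRel.le_row_norm (h : StRel e M) (hM : 0 < M) (n : ι) (P : ι → ι → Prop)
    (hP : ∀ i j, P i j → i ≠ n ∧ j ≠ n) :
    Subgroup.closure (gs e P) ≤
      Subgroup.normalizer (Subgroup.closure (gs e (fun i _ => i = n)) : Set G) := by
  rw [Subgroup.closure_le]
  rintro _ ⟨i, j, h1, h2, rfl⟩
  exact h.row_norm hM h1 (hP i j h2).1 (hP i j h2).2

lemma exists_ne3 (hcard : 4 ≤ Fintype.card ι) (a b c : ι) : ∃ d, d ≠ a ∧ d ≠ b ∧ d ≠ c := by
  by_contra hne
  push Not at hne
  have : (Finset.univ : Finset ι) ⊆ {a, b, c} := by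
    intro d _
    simp only [Finset.mem_insert, Finset.mem_singleton]
    by_cases h1 : d = a
    · exact Or.inl h1
    · by_cases h2 : d = b
      · exact Or.inr (Or.inl h2)
      · exact Or.inr (Or.inr (hne d h1 h2))
  have h2 := Finset.card_le_card this
  have h3 : ({a, b, c} : Finset ι).card ≤ 3 := Finset.card_le_three
  rw [Finset.card_univ] at h2
  omega

lemma StRel.comm_eq (h : StRel e M) {i k j : ι} (hij : i ≠ j) (hik : i ≠ k) (hkj : k ≠ j) :
    ⁅e k j, e i k⁆ = e i j := by
  rw [commutatorElement_def, h.rel i k j hik hkj hij]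
  have := h.comm i k i j hik hij hik.symm hij
  rw [this]
  group

lemma StRel.block_finite (h : StRel e M) (hM : 0 < M) (hcard : 4 ≤ Fintype.card ι) (n : ι) :
    Finite (Subgroup.closure (gs e (fun i j => i ≠ n ∧ j ≠ n))) := by
  classical
  set K := Subgroup.closure (gs e (fun i j => i ≠ n ∧ j ≠ n)) with hK
  set C := Subgroup.closure (gs e (fun _ j => j = n)) with hC
  set R := Subgroup.closure (gs e (fun i _ => i = n)) with hR
  have fC : Finite C := h.col_finite hM n
  have fR : Finite R := h.row_finite hM n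
  have hKC : K ≤ Subgroup.normalizer (C : Set G) := h.le_col_norm hM n _ (fun _ _ h => h)
  have hKR : K ≤ Subgroup.normalizer (R : Set G) := h.le_row_norm hM n _ (fun _ _ h => h)
  have fmC : Finite (MulAut C) := Finite.of_injective (fun f : MulAut C => (f : C → C))
    (fun f g hfg => by ext x; exact congrArg Subtype.val (congrFun hfg x))
  have fmR : Finite (MulAut R) := Finite.of_injective (fun f : MulAut R => (f : R → R))
    (fun f g hfg => by ext x; exact congrArg Subtype.val (congrFun hfg x))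
  let Φ : K →* MulAut C × MulAut R :=
    ((C.normalizerMonoidHom).comp (Subgroup.inclusion hKC)).prod
      ((R.normalizerMonoidHom).comp (Subgroup.inclusion hKR))
  have hker : Φ.ker ≤ Subgroup.center K := by
    intro g hg
    rw [MonoidHom.mem_ker] at hg
    have hg1 : (C.normalizerMonoidHom) (Subgroup.inclusion hKC g) = 1 := congrArg Prod.fst hg
    have hg2 : (R.normalizerMonoidHom) (Subgroup.inclusion hKR g) = 1 := congrArg Prod.snd hg
    have e1 : ∀ x ∈ C, (g : G) * x = x * g := by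
      have : Subgroup.inclusion hKC g ∈ (C.normalizerMonoidHom).ker := hg1
      rw [Subgroup.normalizerMonoidHom_ker, Subgroup.mem_subgroupOf,
        Subgroup.mem_centralizer_iff] at this
      intro x hx
      exact (this x hx).symm
    have e2 : ∀ x ∈ R, (g : G) * x = x * g := by
      have : Subgroup.inclusion hKR g ∈ (R.normalizerMonoidHom).ker := hg2
      rw [Subgroup.normalizerMonoidHom_ker, Subgroup.mem_subgroupOf,
        Subgroup.mem_centralizer_iff] at this
      intro x hx
      exact (this x hx).symm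
    have hle : K ≤ Subgroup.centralizer {(g : G)} := by
      refine (Subgroup.closure_le _).2 ?_
      rintro _ ⟨i, j, h1, ⟨h2, h3⟩, rfl⟩
      have hc : e i n ∈ Subgroup.centralizer {(g : G)} := by
        rw [Subgroup.mem_centralizer_singleton_iff]
        exact (e1 _ (mem_gs h2 rfl)).symm
      have hr : e n j ∈ Subgroup.centralizer {(g : G)} := by
        rw [Subgroup.mem_centralizer_singleton_iff]
        exact (e2 _ (mem_gs h3.symm rfl)).symm
      have := h.comm_eq (i := i) (k := n) (j := j) h1 h2 h3.symm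
      rw [← this, commutatorElement_def]
      exact Subgroup.mul_mem _ (Subgroup.mul_mem _ (Subgroup.mul_mem _ hr hc)
        (Subgroup.inv_mem _ hr)) (Subgroup.inv_mem _ hc)
    rw [Subgroup.mem_center_iff]
    intro x
    have := hle x.2
    rw [Subgroup.mem_centralizer_singleton_iff] at this
    ext
    exact this
  have hfi : (Subgroup.center K).FiniteIndex := by
    have : Φ.ker.FiniteIndex := Subgroup.finiteIndex_ker Φ
    exact Subgroup.finiteIndex_of_le hker
  apply finite_of_perfect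
  rw [eq_top_iff]
  rintro ⟨x, hx⟩ -
  induction hx using Subgroup.closure_induction with
  | mem a ha =>
    obtain ⟨i, j, h1, ⟨h2, h3⟩, rfl⟩ := ha
    obtain ⟨k, k1, k2, k3⟩ := exists_ne3 hcard i j n
    have := h.comm_eq (i := i) (k := k) (j := j) h1 k1.symm k2
    have hkj : e k j ∈ K := mem_gs k2 ⟨k3, h3⟩
    have hik : e i k ∈ K := mem_gs k1.symm ⟨h2, k3⟩
    have hmem : ⁅(⟨e k j, hkj⟩ : K), ⟨e i k, hik⟩⁆ ∈ commutator K := by
      rw [commutator_def]
      exact Subgroup.commutator_mem_commutator (Subgroup.mem_top _) (Subgroup.mem_top _)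
    convert hmem using 1
    ext
    simpa [commutatorElement_def] using this.symm
  | one => exact Subgroup.one_mem _
  | mul a b ha hb h1 h2 => exact Subgroup.mul_mem _ h1 h2
  | inv a ha h1 => exact Subgroup.inv_mem _ h1

lemma StRel.tav (h : StRel e M) (hM : 0 < M) (hcard : 4 ≤ Fintype.card ι) {n o : ι}
    (hno : n ≠ o) :
    ∃ L0 : ℕ, ∀ L, L0 ≤ L → ∃ S : Set G,
      ((Subgroup.closure (gs e (fun i j => i ≠ n ∧ j ≠ o)) : Set G) *
        (Subgroup.closure (gs e (fun i j => i ≠ o ∧ j ≠ n)) : Set G)) ^ L =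
      (Subgroup.closure (gs e (fun i j => i ≠ n ∧ j ≠ n)) : Set G) * S := by
  set C := Subgroup.closure (gs e (fun _ j => j = n)) with hC
  set R := Subgroup.closure (gs e (fun i _ => i = n)) with hR
  set A := Subgroup.closure (gs e (fun i j => i ≠ n ∧ j ≠ n ∧ j ≠ o)) with hA
  set B := Subgroup.closure (gs e (fun i j => i ≠ n ∧ j ≠ n ∧ i ≠ o)) with hB
  have hAC : A ≤ Subgroup.normalizer (C : Set G) :=
    h.le_col_norm hM n _ (fun _ _ h => ⟨h.1, h.2.1⟩)
  have hAR : A ≤ Subgroup.normalizer (R : Set G) :=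
    h.le_row_norm hM n _ (fun _ _ h => ⟨h.1, h.2.1⟩)
  have hBC : B ≤ Subgroup.normalizer (C : Set G) :=
    h.le_col_norm hM n _ (fun _ _ h => ⟨h.1, h.2.1⟩)
  have hBR : B ≤ Subgroup.normalizer (R : Set G) :=
    h.le_row_norm hM n _ (fun _ _ h => ⟨h.1, h.2.1⟩)
  have e1 : (Subgroup.closure (gs e (fun i j => i ≠ n ∧ j ≠ o)) : Set G) = (A : Set G) * C := by
    rw [← Subgroup.coe_mul_of_left_le_normalizer_right A C hAC]
    congr 1
    apply le_antisymm
    · rw [Subgroup.closure_le]
      rintro _ ⟨i, j, h1, ⟨h2, h3⟩, rfl⟩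
      by_cases hj : j = n
      · exact (le_sup_right : C ≤ A ⊔ C) (mem_gs h1 hj)
      · exact (le_sup_left : A ≤ A ⊔ C) (mem_gs h1 ⟨h2, hj, h3⟩)
    · apply sup_le
      · rw [hA, Subgroup.closure_le]
        rintro _ ⟨i, j, h1, ⟨h2, h3, h4⟩, rfl⟩
        exact mem_gs h1 ⟨h2, h4⟩
      · rw [hC, Subgroup.closure_le]
        rintro _ ⟨i, j, h1, rfl, rfl⟩
        exact mem_gs h1 ⟨h1, hno⟩
  have e2 : (Subgroup.closure (gs e (fun i j => i ≠ o ∧ j ≠ n)) : Set G) = (B : Set G) * R := by
    rw [← Subgroup.coe_mul_of_left_le_normalizer_right B R hBR]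
    congr 1
    apply le_antisymm
    · rw [Subgroup.closure_le]
      rintro _ ⟨i, j, h1, ⟨h2, h3⟩, rfl⟩
      by_cases hi : i = n
      · exact (le_sup_right : R ≤ B ⊔ R) (mem_gs h1 hi)
      · exact (le_sup_left : B ≤ B ⊔ R) (mem_gs h1 ⟨hi, h3, h2⟩)
    · apply sup_le
      · rw [hB, Subgroup.closure_le]
        rintro _ ⟨i, j, h1, ⟨h2, h3, h4⟩, rfl⟩
        exact mem_gs h1 ⟨h4, h3⟩
      · rw [hR, Subgroup.closure_le]
        rintro _ ⟨i, j, h1, rfl, rfl⟩
        exact mem_gs h1 ⟨hno, h1.symm⟩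
  have c1 : Commute (A : Set G) (C : Set G) := Subgroup.set_mul_normalizer_comm _ _ hAC
  have c2 : Commute (A : Set G) (R : Set G) := Subgroup.set_mul_normalizer_comm _ _ hAR
  have c3 : Commute (B : Set G) (C : Set G) := Subgroup.set_mul_normalizer_comm _ _ hBC
  have c4 : Commute (B : Set G) (R : Set G) := Subgroup.set_mul_normalizer_comm _ _ hBR
  have c5 : Commute ((A : Set G) * B) ((C : Set G) * R) :=
    (c1.mul_right c2).mul_left (c3.mul_right c4)
  have e3 : ((A : Set G) * C) * ((B : Set G) * R) = ((A : Set G) * B) * ((C : Set G) * R) := by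
    rw [mul_assoc, ← mul_assoc (C : Set G), ← c3.eq, mul_assoc (B : Set G), mul_assoc]
  have hf := h.block_finite hM hcard n
  obtain ⟨L0, hL0⟩ := exists_pow_eq (S := gs e (fun i j => i ≠ n ∧ j ≠ n))
    (T := (A : Set G) * B) ⟨1, A.one_mem, 1, B.one_mem, by simp⟩ (by
      rintro _ ⟨i, j, h1, ⟨h2, h3⟩, rfl⟩
      by_cases hj : j = o
      · have hi : i ≠ o := hj ▸ h1
        have hm : e i j ∈ B := mem_gs h1 ⟨h2, h3, hi⟩
        exact ⟨⟨1, A.one_mem, _, hm, by simp⟩, ⟨1, A.one_mem, _, B.inv_mem hm, by simp⟩⟩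
      · have hm : e i j ∈ A := mem_gs h1 ⟨h2, h3, hj⟩
        exact ⟨⟨_, hm, 1, B.one_mem, by simp⟩, ⟨_, A.inv_mem hm, 1, B.one_mem, by simp⟩⟩) (by
      rintro _ ⟨a, ha, b, hb, rfl⟩
      refine Subgroup.mul_mem _ ?_ ?_
      · refine (Subgroup.closure_mono ?_ : A ≤ _) ha
        rintro _ ⟨i, j, h1, h2, rfl⟩
        exact ⟨i, j, h1, ⟨h2.1, h2.2.1⟩, rfl⟩
      · refine (Subgroup.closure_mono ?_ : B ≤ _) hb
        rintro _ ⟨i, j, h1, h2, rfl⟩
        exact ⟨i, j, h1, ⟨h2.1, h2.2.1⟩, rfl⟩)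
  refine ⟨L0, fun L hL => ⟨((C : Set G) * R) ^ L, ?_⟩⟩
  rw [e1, e2, e3, c5.mul_pow, hL0 L hL]

/-- A group generated by elements satisfying the relations of elementary matrices of size at least
`4` modulo `M > 0` is finite. -/
theorem StRel.finite (h : StRel e M) (hM : 0 < M) (hcard : 4 ≤ Fintype.card ι) :
    Finite (Subgroup.closure (gs e (fun _ _ => True))) := by
  classical
  obtain ⟨n, o, hno⟩ : ∃ n o : ι, n ≠ o := by
    have : 1 < Fintype.card ι := by omega
    exact Fintype.exists_pair_of_one_lt_card this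
  obtain ⟨L1, hL1⟩ := h.tav hM hcard hno
  obtain ⟨L2, hL2⟩ := h.dual.tav hM hcard hno.symm
  rw [closure_dual e _ (fun i j => i ≠ n ∧ j ≠ o) (fun i j => and_comm),
    closure_dual e _ (fun i j => i ≠ o ∧ j ≠ n) (fun i j => and_comm),
    closure_dual e _ (fun i j => i ≠ o ∧ j ≠ o) (fun i j => and_comm)] at hL2
  set P := Subgroup.closure (gs e (fun i j => i ≠ n ∧ j ≠ o)) with hP
  set Q := Subgroup.closure (gs e (fun i j => i ≠ o ∧ j ≠ n)) with hQ
  set Bn := Subgroup.closure (gs e (fun i j => i ≠ n ∧ j ≠ n)) with hBn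
  set Bo := Subgroup.closure (gs e (fun i j => i ≠ o ∧ j ≠ o)) with hBo
  let Y : Set G := ((P : Set G) * (Q : Set G)) ^ (max L1 L2)
  obtain ⟨S1, hS1⟩ := hL1 (max L1 L2) (le_max_left _ _)
  obtain ⟨S2, hS2⟩ := hL2 (max L1 L2) (le_max_right _ _)
  have st1 : Bn ≤ MulAction.stabilizer G Y := by
    intro g hg
    rw [MulAction.mem_stabilizer_iff]
    show g • ((P : Set G) * (Q : Set G)) ^ (max L1 L2) = _
    rw [hS1]
    rw [← smul_mul_assoc, smul_coe_set hg]
    rw [← hS1]
  have st2 : Bo ≤ MulAction.stabilizer G Y := by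
    intro g hg
    rw [MulAction.mem_stabilizer_iff]
    show g • ((P : Set G) * (Q : Set G)) ^ (max L1 L2) = _
    rw [hS2]
    rw [← smul_mul_assoc, smul_coe_set hg]
    rw [← hS2]
  have hfin : Y.Finite := by
    have fP : (P : Set G).Finite := by
      have hb := h.block_finite hM hcard n
      have hc := h.col_finite hM n
      have hle : P ≤ Bn ⊔ Subgroup.closure (gs e (fun _ j => j = n)) := by
        rw [hP, Subgroup.closure_le]
        rintro _ ⟨i, j, h1, ⟨h2, h3⟩, rfl⟩
        by_cases hj : j = n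
        · exact (le_sup_right : _ ≤ Bn ⊔ Subgroup.closure (gs e (fun _ j => j = n)))
            (mem_gs h1 hj)
        · exact (le_sup_left : Bn ≤ _) (mem_gs h1 ⟨h2, hj⟩)
      have : ((Bn ⊔ Subgroup.closure (gs e (fun _ j => j = n)) : Subgroup G) : Set G).Finite := by
        rw [Subgroup.coe_mul_of_left_le_normalizer_right _ _
          (h.le_col_norm hM n _ (fun _ _ h => h))]
        exact Set.Finite.mul (Set.toFinite _) (Set.toFinite _)
      exact this.subset hle
    have fQ : (Q : Set G).Finite := by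
      have hb := h.block_finite hM hcard n
      have hc := h.row_finite hM n
      have hle : Q ≤ Bn ⊔ Subgroup.closure (gs e (fun i _ => i = n)) := by
        rw [hQ, Subgroup.closure_le]
        rintro _ ⟨i, j, h1, ⟨h2, h3⟩, rfl⟩
        by_cases hi : i = n
        · exact (le_sup_right : _ ≤ Bn ⊔ Subgroup.closure (gs e (fun i _ => i = n)))
            (mem_gs h1 hi)
        · exact (le_sup_left : Bn ≤ _) (mem_gs h1 ⟨hi, h3⟩)
      have : ((Bn ⊔ Subgroup.closure (gs e (fun i _ => i = n)) : Subgroup G) : Set G).Finite := by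
        rw [Subgroup.coe_mul_of_left_le_normalizer_right _ _
          (h.le_row_norm hM n _ (fun _ _ h => h))]
        exact Set.Finite.mul (Set.toFinite _) (Set.toFinite _)
      exact this.subset hle
    have fPQ : ((P : Set G) * (Q : Set G)).Finite := fP.mul fQ
    have hpow : ∀ m : ℕ, (((P : Set G) * (Q : Set G)) ^ m).Finite := by
      intro m
      induction m with
      | zero => rw [pow_zero]; exact Set.finite_one
      | succ m ih => rw [pow_succ]; exact ih.mul fPQ
    exact hpow _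
  have hall : Subgroup.closure (gs e (fun _ _ => True)) ≤ MulAction.stabilizer G Y := by
    rw [Subgroup.closure_le]
    rintro _ ⟨i, j, h1, -, rfl⟩
    by_cases hn : i ≠ n ∧ j ≠ n
    · exact st1 (mem_gs h1 hn)
    by_cases ho : i ≠ o ∧ j ≠ o
    · exact st2 (mem_gs h1 ho)
    obtain ⟨k, k1, k2, -⟩ := exists_ne3 hcard n o o
    have hkij : k ≠ i ∧ k ≠ j := by
      have : (i = n ∨ j = n) ∧ (i = o ∨ j = o) := by
        constructor
        · by_contra hcon
          push Not at hcon
          exact hn hcon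
        · by_contra hcon
          push Not at hcon
          exact ho hcon
      obtain ⟨h3 | h3, h4 | h4⟩ := this
      · exact absurd (h3.symm.trans h4) hno
      · exact ⟨by rw [h3]; exact k1, by rw [h4]; exact k2⟩
      · exact ⟨by rw [h4]; exact k2, by rw [h3]; exact k1⟩
      · exact absurd (h3.symm.trans h4) hno
    have hc := h.comm_eq (i := i) (k := k) (j := j) h1 hkij.1.symm hkij.2
    have key : ∀ a b : ι, a ≠ b → (a = k ∨ b = k) → e a b ∈ MulAction.stabilizer G Y := by
      intro a b hab hor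
      rcases hor with rfl | rfl
      · by_cases hb : b = n
        · exact st2 (mem_gs hab ⟨k2, by rw [hb]; exact hno⟩)
        · exact st1 (mem_gs hab ⟨k1, hb⟩)
      · by_cases ha : a = n
        · exact st2 (mem_gs hab ⟨by rw [ha]; exact hno, k2⟩)
        · exact st1 (mem_gs hab ⟨ha, k1⟩)
    rw [← hc, commutatorElement_def]
    have m1 := key k j hkij.2 (Or.inl rfl)
    have m2 := key i k hkij.1.symm (Or.inr rfl)
    exact Subgroup.mul_mem _ (Subgroup.mul_mem _ (Subgroup.mul_mem _ m1 m2)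
      (Subgroup.inv_mem _ m1)) (Subgroup.inv_mem _ m2)
  have h1Y : (1 : G) ∈ Y := by
    have : (1 : G) ∈ ((P : Set G) * (Q : Set G)) := ⟨1, P.one_mem, 1, Q.one_mem, by simp⟩
    have h2 := Set.pow_mem_pow (n := max L1 L2) this
    rwa [one_pow] at h2
  have hsub : (Subgroup.closure (gs e (fun _ _ => True)) : Set G) ⊆ Y := by
    intro g hg
    have := hall hg
    rw [MulAction.mem_stabilizer_iff] at this
    have h2 : g • (1 : G) ∈ g • Y := Set.smul_mem_smul_set h1Y
    rw [this] at h2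
    simpa using h2
  exact (hfin.subset hsub).to_subtype

end

end Pool.Agent.Helper460_OutF
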