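import Pool.Agent.Helper460_OutF.Surf

set_option autoImplicit false
set_option linter.unusedSectionVars false
set_option linter.unusedSimpArgs false

namespace Pool.Agent.Helper460_OutF

open FreeGroup (of)

section

variable {ι : Type} [DecidableEq ι] [Fintype ι]

/-- Reduction to normal subgroups of the automorphism group. -/
theorem finite_of_kernel {H : Type} [Group H] (h4 : 4 ≤ Fintype.card ι)
    (Γ : Subgroup (Out (FreeGroup ι))) [hfi : Γ.FiniteIndex]
    (hT : Torelli (FreeGroup ι) ≤ Γ) (φ : Γ →* H)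
    (key : ∀ (Γ0 : Subgroup (MulAut (FreeGroup ι))) [Γ0.Normal] [Γ0.FiniteIndex]
      (_ : IA (FreeGroup ι) ≤ Γ0) (Φ0 : Γ0 →* H)
      (_ : ∀ g (h : MulAut.conj g ∈ Γ0), Φ0 ⟨MulAut.conj g, h⟩ = 1)
      (_ : ∀ x : Γ0, ∃ y : Γ, Φ0 x = φ y), ∃ M, 0 < M ∧ N1 ι M ≤ kerA Γ0 Φ0) :
    Finite φ.range := by
  let π : MulAut (FreeGroup ι) →* Out (FreeGroup ι) := QuotientGroup.mk' _
  let Γt : Subgroup (MulAut (FreeGroup ι)) := Γ.comap π
  have hfit : Γt.FiniteIndex := ⟨by
    rw [Subgroup.index_comap_of_surjective Γ (QuotientGroup.mk'_surjective _)]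
    exact hfi.index_ne_zero⟩
  have hIAt : IA (FreeGroup ι) ≤ Γt := by
    intro α hα
    exact hT ⟨α, hα, rfl⟩
  let Φ : Γt →* H := φ.comp (π.subgroupComap Γ)
  let Γ0 : Subgroup (MulAut (FreeGroup ι)) := Γt.normalCore
  have hΓ0n : Γ0.Normal := Subgroup.normalCore_normal _
  have hΓ0f : Γ0.FiniteIndex := inferInstance
  have hIA0 : IA (FreeGroup ι) ≤ Γ0 := (Subgroup.normal_le_normalCore).2 hIAt
  have hle : Γ0 ≤ Γt := Subgroup.normalCore_le _
  let Φ0 : Γ0 →* H := Φ.comp (Subgroup.inclusion hle)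
  have hΦ0 : ∀ g (h : MulAut.conj g ∈ Γ0), Φ0 ⟨MulAut.conj g, h⟩ = 1 := by
    intro g h
    show φ _ = 1
    convert map_one φ
    ext1
    exact (QuotientGroup.eq_one_iff _).2 ⟨g, rfl⟩
  obtain ⟨M, hM, hN⟩ := key Γ0 hIA0 Φ0 hΦ0 (fun x => ⟨_, rfl⟩)
  have hN1f : (N1 ι M).FiniteIndex := (N1_step (ι := ι) hM).finiteIndex h4
  have hker : (N1 ι M).subgroupOf Γt ≤ Φ.ker := by
    intro x hx
    rw [Subgroup.mem_subgroupOf] at hx
    rw [MonoidHom.mem_ker]
    obtain ⟨h2, h3⟩ := mem_kerA.1 (hN hx)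
    exact h3
  have hfiK : Φ.ker.FiniteIndex := Subgroup.finiteIndex_of_le hker
  have hrange : Φ.range = φ.range := by
    apply le_antisymm
    · rintro _ ⟨x, rfl⟩
      exact ⟨_, rfl⟩
    · rintro _ ⟨⟨y, hy⟩, rfl⟩
      obtain ⟨a, rfl⟩ := QuotientGroup.mk_surjective y
      exact ⟨⟨a, hy⟩, rfl⟩
  rw [← hrange]
  exact Finite.of_equiv _ (QuotientGroup.quotientKerEquivRange Φ).toEquiv

lemma kerA_of_le {Γ0 : Subgroup (MulAut (FreeGroup ι))} {H : Type} [Group H] {Φ0 : Γ0 →* H}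
    {M : ℕ} (hle : N1 ι M ≤ Γ0) (h : ∀ x : N1 ι M, Φ0 (Subgroup.inclusion hle x) = 1) :
    N1 ι M ≤ kerA Γ0 Φ0 := by
  intro x hx
  exact mem_kerA.2 ⟨hle hx, h ⟨x, hx⟩⟩

/-- The range of a homomorphism on `N₁(M)` killing inner automorphisms has no homomorphisms to
torsion-free abelian groups. -/
lemma noHom_range {M : ℕ} (hM : 0 < M) (h4 : 4 ≤ Fintype.card ι) {H : Type} [Group H]
    (ψ : N1 ι M →* H) (hinn : ∀ g (h : MulAut.conj g ∈ N1 ι M), ψ ⟨MulAut.conj g, h⟩ = 1) :
    NoHom ψ.range := by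
  intro B _ htf f
  have h1 := N1_hom_trivial htf hM h4 (f.comp ψ.rangeRestrict) (by
    intro g h
    show f (ψ.rangeRestrict ⟨MulAut.conj g, h⟩) = 1
    have : ψ.rangeRestrict ⟨MulAut.conj g, h⟩ = 1 := by
      ext1
      exact hinn g _
    rw [this, map_one])
  rintro ⟨_, ⟨x, rfl⟩⟩
  exact h1 x

end

section surface

variable {g p : ℕ}

/-- Rational cohomology classes vanishing on the punctures. -/
def VQ (g p : ℕ) : Submodule ℚ (HQ (SG g p)) where
  carrier := {f | ∀ x : SG g p, ConjClasses.mk x ∈ peri g p → f (Additive.ofMul x) = 0}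
  add_mem' := by
    intro f k hf hk x hx
    show f _ + k _ = 0
    rw [hf x hx, hk x hx, add_zero]
  zero_mem' := fun x _ => rfl
  smul_mem' := by
    intro c f hf x hx
    show c • f _ = 0
    rw [hf x hx, smul_zero]

lemma VQ_inv {x : Out (SG g p)} (hx : x ∈ MCGo g p) {f : HQ (SG g p)} (hf : f ∈ VQ g p) :
    outW _ x f ∈ VQ g p := by
  obtain ⟨α, rfl⟩ := QuotientGroup.mk_surjective x
  intro y hy
  rw [outW_mk]
  apply hf
  have h1 := (mem_MCGo_iff _).1 ((MCGo g p).inv_mem hx) (ConjClasses.mk y)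
  exact h1.2 hy

/-- The action of the mapping class group on `VQ`. -/
def actV (g p : ℕ) : MCGo g p →* (VQ g p ≃ₗ[ℚ] VQ g p) where
  toFun x :=
    { toFun := fun f => ⟨outW _ (x : Out (SG g p)) f, VQ_inv x.2 f.2⟩
      invFun := fun f => ⟨outW _ ((x⁻¹ : MCGo g p) : Out (SG g p)) f, VQ_inv (x⁻¹ : MCGo g p).2 f.2⟩
      map_add' := by intro f k; ext1; exact map_add _ _ _
      map_smul' := by intro c f; ext1; exact map_smul _ _ _
      left_inv := by
        intro f; ext1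
        show (outW _ ((x⁻¹ : MCGo g p) : Out (SG g p)) * outW _ (x : Out (SG g p))) f.1 = f.1
        rw [← map_mul, ← Subgroup.coe_mul, inv_mul_cancel, Subgroup.coe_one, map_one]
        rfl
      right_inv := by
        intro f; ext1
        show (outW _ (x : Out (SG g p)) * outW _ ((x⁻¹ : MCGo g p) : Out (SG g p))) f.1 = f.1
        rw [← map_mul, ← Subgroup.coe_mul, mul_inv_cancel, Subgroup.coe_one, map_one]
        rfl }
  map_one' := by
    ext1 f; ext1
    show outW _ ((1 : MCGo g p) : Out (SG g p)) f.1 = f.1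
    rw [Subgroup.coe_one, map_one]; rfl
  map_mul' := by
    intro x y
    ext1 f; ext1
    show outW _ ((x * y : MCGo g p) : Out (SG g p)) f.1 = _
    rw [Subgroup.coe_mul, map_mul]; rfl

/-- Evaluation on the generators `a_i`, `b_i`. -/
def evV (g p : ℕ) : VQ g p →ₗ[ℚ] (Fin g ⊕ Fin g → ℚ) where
  toFun f s := (f : HQ (SG g p)) (Additive.ofMul (PresentedGroup.of (Sum.inl s)))
  map_add' _ _ := rfl
  map_smul' _ _ := rfl

lemma evV_inj : Function.Injective (evV g p) := by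
  rw [injective_iff_map_eq_zero]
  intro f hf
  ext1
  have h1 : AddMonoidHom.toMultiplicativeRight (f : HQ (SG g p)) = 1 := by
    apply PresentedGroup.ext
    rintro (s | j)
    · exact congrArg Multiplicative.ofAdd (congrFun hf s)
    · exact congrArg Multiplicative.ofAdd (f.2 (PresentedGroup.of (Sum.inr j)) ⟨j, rfl⟩)
  apply AddMonoidHom.toMultiplicativeRight.injective
  rw [h1]
  rfl

instance : FiniteDimensional ℚ (VQ g p) :=
  FiniteDimensional.of_injective (evV g p) evV_inj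

lemma finrank_VQ : Module.finrank ℚ (VQ g p) ≤ 2 * g := by
  have := LinearMap.finrank_le_finrank_of_injective (f := evV g p) evV_inj
  rw [Module.finrank_fintype_fun_eq_card, Fintype.card_sum, Fintype.card_fin] at this
  omega

end surface

end Pool.Agent.Helper460_OutF
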