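import Pool.Agent.Helper460_OutF.Amal
import Pool.Agent.Helper460_OutF.Punct

set_option autoImplicit false
set_option linter.unusedSectionVars false
set_option linter.unusedSimpArgs false

namespace Pool.Agent.Helper460_OutF

open FreeGroup (of)
open scoped commutatorElement

/-- Descending products. -/
def Pn {H : Type*} [Group H] (f : ℕ → H) : ℕ → H
  | 0 => 1
  | s + 1 => f s * Pn f s

lemma ofFn_rev {H : Type*} [Group H] (f : ℕ → H) (m : ℕ) :
    (List.ofFn fun i : Fin m => f (m - 1 - i.val)).prod = Pn f m := by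
  induction m with
  | zero => simp [Pn]
  | succ m ih =>
    rw [List.ofFn_succ, List.prod_cons, Pn, ← ih]
    congr 1
    congr 2
    funext i
    congr 1
    simp only [Fin.val_succ]
    omega

lemma Pn_conj {H : Type*} [Group H] (x y : H) (m : ℕ) :
    Pn (fun s => x ^ s * ⁅x, y⁆ * (x ^ s)⁻¹) m = ⁅x ^ m, y⁆ := by
  induction m with
  | zero => simp [Pn]
  | succ m ih =>
    rw [Pn, ih]
    simp only [commutatorElement_def, pow_succ]
    group

section star

variable {k : ℕ}

/-- The generators `a_n` of the closed surface group of genus `k + 2`. -/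
def av (k n : ℕ) : SG (k + 2) 0 :=
  if h : n < k + 2 then PresentedGroup.of (Sum.inl (Sum.inl ⟨n, h⟩)) else 1

/-- The generators `b_n` of the closed surface group of genus `k + 2`. -/
def bv (k n : ℕ) : SG (k + 2) 0 :=
  if h : n < k + 2 then PresentedGroup.of (Sum.inl (Sum.inr ⟨n, h⟩)) else 1

lemma av_fin (i : Fin (k + 2)) : av k i = PresentedGroup.of (Sum.inl (Sum.inl i)) := by
  unfold av; rw [dif_pos i.2]

lemma bv_fin (i : Fin (k + 2)) : bv k i = PresentedGroup.of (Sum.inl (Sum.inr i)) := by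
  unfold bv; rw [dif_pos i.2]

/-- The relation of the closed surface group. -/
lemma closed_rel : ⁅av k 0, bv k 0⁆ * Pn (fun s => ⁅av k (k + 1 - s), bv k (k + 1 - s)⁆) (k + 1) =
    1 := by
  have h0 : (PresentedGroup.mk ({srel (k + 2) 0} : Set (FreeGroup (SGen (k + 2) 0))))
      (srel (k + 2) 0) = 1 := PresentedGroup.one_of_mem (Set.mem_singleton _)
  rw [map_srel, List.ofFn_zero, List.prod_nil, mul_one, List.ofFn_succ, List.prod_cons] at h0
  rw [← ofFn_rev]
  have e1 : av k 0 = PresentedGroup.of (Sum.inl (Sum.inl 0)) := av_fin 0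
  have e2 : bv k 0 = PresentedGroup.of (Sum.inl (Sum.inr 0)) := bv_fin 0
  rw [e1, e2]
  have e4 : (fun i : Fin (k + 1) => ⁅av k (k + 1 - (k + 1 - 1 - i.val)),
      bv k (k + 1 - (k + 1 - 1 - i.val))⁆) = fun i : Fin (k + 1) =>
      ⁅(PresentedGroup.mk ({srel (k + 2) 0} : Set (FreeGroup (SGen (k + 2) 0))))
        (of (Sum.inl (Sum.inl i.succ))),
      (PresentedGroup.mk ({srel (k + 2) 0} : Set (FreeGroup (SGen (k + 2) 0))))
        (of (Sum.inl (Sum.inr i.succ)))⁆ := by
    funext i
    have e3 : k + 1 - (k + 1 - 1 - i.val) = i.succ.val := by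
      simp only [Fin.val_succ]; omega
    rw [e3, av_fin, bv_fin]
    rfl
  rw [e4]
  exact h0

/-- Conjugation by a power of the first generator. -/
def cj (e : ℕ) (x : DD) : DD := (iD (of 0)) ^ e * x * ((iD (of 0)) ^ e)⁻¹

/-- Images of the generators. -/
def thgen (k : ℕ) : SGen (k + 2) 0 → DD :=
  Sum.elim (Sum.elim
    (fun i => if i.val = 0 then iD (of 1) else cj (k + 1 - i.val) (jD (of 0)))
    (fun i => if i.val = 0 then (iD (of 0)) ^ (k + 1) else cj (k + 1 - i.val) (jD (of 1))))
    (fun _ => 1)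

lemma cj_comm (e : ℕ) (x y : DD) : ⁅cj e x, cj e y⁆ = cj e ⁅x, y⁆ := by
  simp only [commutatorElement_def, cj]; group

lemma iD_cm' : ⁅jD (of 0), jD (of 1)⁆ = ⁅iD (of 0), iD (of 1)⁆ := by
  have h := iD_cm
  unfold cm at h
  rw [map_commutatorElement, map_commutatorElement] at h
  exact h.symm

lemma thgen_rel : FreeGroup.lift (thgen k) (srel (k + 2) 0) = 1 := by
  rw [map_srel, List.ofFn_zero, List.prod_nil, mul_one, List.ofFn_succ, List.prod_cons]
  simp only [FreeGroup.lift_apply_of, thgen, Sum.elim_inl, Sum.elim_inr, Fin.val_zero, if_true,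
    Fin.val_succ, Nat.add_eq_zero_iff, one_ne_zero, and_false, if_false, cj_comm, iD_cm']
  have h1 : (List.ofFn fun i : Fin (k + 1) => cj (k + 1 - (i.val + 1)) ⁅iD (of 0), iD (of 1)⁆).prod =
      ⁅(iD (of 0)) ^ (k + 1), iD (of 1)⁆ := by
    rw [← Pn_conj, ← ofFn_rev]
    congr 2
    funext i
    have : k + 1 - (i.val + 1) = k + 1 - 1 - i.val := by omega
    rw [this]
    rfl
  rw [h1]
  simp only [commutatorElement_def]
  group

/-- The embedding into the double. -/
def th (k : ℕ) : SG (k + 2) 0 →* DD :=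
  PresentedGroup.toGroup (f := thgen k) (by
    intro r hr
    rw [Set.mem_singleton_iff] at hr
    subst hr
    exact thgen_rel)

lemma th_av0 : th k (av k 0) = iD (of 1) := by
  rw [show av k 0 = PresentedGroup.of (Sum.inl (Sum.inl 0)) from av_fin 0]
  simp [th, thgen]

lemma th_bv0 : th k (bv k 0) = (iD (of 0)) ^ (k + 1) := by
  rw [show bv k 0 = PresentedGroup.of (Sum.inl (Sum.inr 0)) from bv_fin 0]
  simp [th, thgen]

lemma th_av {s : ℕ} (hs : s ≤ k) : th k (av k (k + 1 - s)) = cj s (jD (of 0)) := by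
  have h1 : k + 1 - s < k + 2 := by omega
  unfold av
  rw [dif_pos h1]
  have h2 : ¬ (k + 1 - s = 0) := by omega
  simp only [th, PresentedGroup.toGroup.of, thgen, Sum.elim_inl, if_neg h2]
  congr 1
  omega

lemma th_bv {s : ℕ} (hs : s ≤ k) : th k (bv k (k + 1 - s)) = cj s (jD (of 1)) := by
  have h1 : k + 1 - s < k + 2 := by omega
  unfold bv
  rw [dif_pos h1]
  have h2 : ¬ (k + 1 - s = 0) := by omega
  simp only [th, PresentedGroup.toGroup.of, thgen, Sum.elim_inl, Sum.elim_inr, if_neg h2]
  congr 1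
  omega

/-- The conjugates of the generator `b` of the centre piece. -/
def En (k : ℕ) (s : ℕ) : SG (k + 2) 0 :=
  Pn (fun s => ⁅av k (k + 1 - s), bv k (k + 1 - s)⁆) s * av k 0

lemma En_succ (s : ℕ) : En k (s + 1) = ⁅av k (k + 1 - s), bv k (k + 1 - s)⁆ * En k s := by
  unfold En
  rw [Pn, mul_assoc]

lemma En_last : En k (k + 1) = bv k 0 * av k 0 * (bv k 0)⁻¹ := by
  unfold En
  have h := closed_rel (k := k)
  rw [← inv_eq_of_mul_eq_one_right h]
  simp only [commutatorElement_def]
  group

lemma th_En (s : ℕ) (hs : s ≤ k + 1) : th k (En k s) = cj s (iD (of 1)) := by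
  induction s with
  | zero => simp [En, Pn, th_av0, cj]
  | succ s ih =>
    rw [En_succ, map_mul, map_commutatorElement, th_av (by omega), th_bv (by omega),
      ih (by omega), cj_comm, iD_cm']
    simp only [cj, commutatorElement_def, pow_succ]
    group

/-- The coset space. -/
abbrev CosX (k : ℕ) : Type := SG (k + 2) 0 × Fin (k + 1)

/-- The action of the first generator. -/
def RA (k : ℕ) : Equiv.Perm (CosX k) where
  toFun x := Fin.lastCases (motive := fun _ => CosX k) (x.1 * bv k 0, 0) (fun s => (x.1, s.succ)) x.2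
  invFun x := Fin.cases (motive := fun _ => CosX k) (x.1 * (bv k 0)⁻¹, Fin.last k)
    (fun s => (x.1, s.castSucc)) x.2
  left_inv := by
    rintro ⟨h, s⟩
    refine Fin.lastCases ?_ (fun s => ?_) s
    · simp
    · simp
  right_inv := by
    rintro ⟨h, s⟩
    refine Fin.cases ?_ (fun s => ?_) s
    · simp
    · simp

lemma RA_last (h : SG (k + 2) 0) : RA k (h, Fin.last k) = (h * bv k 0, 0) := by
  simp [RA]

lemma RA_castSucc (h : SG (k + 2) 0) (s : Fin k) : RA k (h, s.castSucc) = (h, s.succ) := by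
  simp [RA]

/-- The fibrewise action. -/
def RM (f : Fin (k + 1) → SG (k + 2) 0) : Equiv.Perm (CosX k) where
  toFun x := (x.1 * f x.2, x.2)
  invFun x := (x.1 * (f x.2)⁻¹, x.2)
  left_inv := by rintro ⟨h, s⟩; simp
  right_inv := by rintro ⟨h, s⟩; simp

/-- The permutations attached to the generators of the double. -/
def psgen (k : ℕ) : Fin 2 ⊕ Fin 2 → (Equiv.Perm (CosX k))ᵐᵒᵖ :=
  Sum.elim ![MulOpposite.op (RA k), MulOpposite.op (RM fun s => En k s)]
    ![MulOpposite.op (RM fun s => av k (k + 1 - s)), MulOpposite.op (RM fun s => bv k (k + 1 - s))]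

lemma psgen_rel : FreeGroup.lift (psgen k) dRel = 1 := by
  unfold dRel
  rw [map_mul, map_inv, mul_inv_eq_one, map_commutatorElement, map_commutatorElement]
  simp only [FreeGroup.lift_apply_of, psgen, Sum.elim_inl, Sum.elim_inr, Matrix.cons_val_zero,
    Matrix.cons_val_one, Matrix.cons_val_fin_one, commutatorElement_def]
  apply MulOpposite.unop_injective
  simp only [MulOpposite.unop_mul, MulOpposite.unop_inv, MulOpposite.unop_op]
  rw [inv_mul_eq_iff_eq_mul, inv_mul_eq_iff_eq_mul]
  ext1 x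
  obtain ⟨h, s⟩ := x
  simp only [Equiv.Perm.mul_apply]
  have hJ : (RM fun s : Fin (k + 1) => bv k (k + 1 - s))⁻¹
      ((RM fun s : Fin (k + 1) => av k (k + 1 - s))⁻¹
      ((RM fun s : Fin (k + 1) => bv k (k + 1 - s))
      ((RM fun s : Fin (k + 1) => av k (k + 1 - s)) (h, s)))) =
      (h * ⁅av k (k + 1 - s), bv k (k + 1 - s)⁆, s) := by
    show ((h * av k (k + 1 - s) * bv k (k + 1 - s) * (av k (k + 1 - s))⁻¹ *
      (bv k (k + 1 - s))⁻¹, s) : CosX k) = _
    simp only [commutatorElement_def, mul_assoc]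
  rw [hJ]
  have hE : ∀ (h : SG (k + 2) 0) (s : Fin (k + 1)), (RM fun s : Fin (k + 1) => En k s) (h, s) =
    (h * En k s, s) := fun h s => rfl
  rw [hE]
  refine Fin.lastCases ?_ (fun s => ?_) s
  · rw [RA_last, hE, RA_last]
    congr 1
    have h1 := En_succ (k := k) k
    rw [Fin.val_last, mul_assoc h ⁅_, _⁆, ← h1, En_last]
    simp [En, Pn, mul_assoc]
  · rw [RA_castSucc, hE, RA_castSucc]
    congr 1
    rw [mul_assoc h, Fin.val_succ, En_succ]
    rfl

/-- The action of the double on the coset space. -/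
def PsiD (k : ℕ) : DD →* (Equiv.Perm (CosX k))ᵐᵒᵖ :=
  PresentedGroup.toGroup (f := psgen k) (by
    intro r hr
    rw [Set.mem_singleton_iff] at hr
    subst hr
    exact psgen_rel)

/-- The action. -/
def actD (k : ℕ) (d : DD) (x : CosX k) : CosX k := (PsiD k d).unop x

lemma actD_mul (d e : DD) (x : CosX k) : actD k (d * e) x = actD k e (actD k d x) := by
  unfold actD
  rw [map_mul, MulOpposite.unop_mul, Equiv.Perm.mul_apply]

lemma actD_one (x : CosX k) : actD k 1 x = x := by
  unfold actD
  rw [map_one, MulOpposite.unop_one, Equiv.Perm.one_apply]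

lemma actD_inv {d : DD} {x y : CosX k} (h : actD k d x = y) : actD k d⁻¹ y = x := by
  rw [← h, ← actD_mul, mul_inv_cancel, actD_one]

lemma actD_iA (x : CosX k) : actD k (iD (of 0)) x = RA k x := by
  simp [actD, PsiD, iD, psgen]

lemma actD_iB (h : SG (k + 2) 0) (s : Fin (k + 1)) :
    actD k (iD (of 1)) (h, s) = (h * En k s, s) := by
  simp [actD, PsiD, iD, psgen, RM]

lemma actD_jA (h : SG (k + 2) 0) (s : Fin (k + 1)) :
    actD k (jD (of 0)) (h, s) = (h * av k (k + 1 - s), s) := by
  simp [actD, PsiD, jD, psgen, RM]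

lemma actD_jB (h : SG (k + 2) 0) (s : Fin (k + 1)) :
    actD k (jD (of 1)) (h, s) = (h * bv k (k + 1 - s), s) := by
  simp [actD, PsiD, jD, psgen, RM]

lemma actD_pow (h : SG (k + 2) 0) (s : ℕ) (hs : s < k + 1) :
    actD k ((iD (of 0)) ^ s) (h, 0) = (h, ⟨s, hs⟩) := by
  induction s with
  | zero => rw [pow_zero, actD_one]; rfl
  | succ s ih =>
    rw [pow_succ, actD_mul, ih (by omega), actD_iA]
    exact RA_castSucc h ⟨s, by omega⟩

lemma actD_pow_last (h : SG (k + 2) 0) :
    actD k ((iD (of 0)) ^ (k + 1)) (h, 0) = (h * bv k 0, 0) := by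
  rw [pow_succ, actD_mul, actD_pow h k (by omega), actD_iA]
  exact RA_last h

lemma actD_cj (u : DD) (v : SG (k + 2) 0) (s : ℕ) (hs : s < k + 1)
    (hu : ∀ h, actD k u (h, ⟨s, hs⟩) = (h * v, ⟨s, hs⟩)) (h : SG (k + 2) 0) :
    actD k (cj s u) (h, 0) = (h * v, 0) := by
  unfold cj
  rw [actD_mul, actD_mul, actD_pow h s hs, hu]
  exact actD_inv (actD_pow _ s hs)

lemma actD_th (y : SG (k + 2) 0) : ∀ h, actD k (th k y) (h, 0) = (h * y, 0) := by
  obtain ⟨w, rfl⟩ := PresentedGroup.mk_surjective _ y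
  induction w using FreeGroup.induction_on with
  | C1 => intro h; rw [map_one, map_one, actD_one, mul_one]
  | of c =>
    intro h
    rcases c with (i | i) | j
    · show actD k (th k (PresentedGroup.of (Sum.inl (Sum.inl i)))) (h, 0) =
        (h * PresentedGroup.of (Sum.inl (Sum.inl i)), 0)
      rw [← av_fin]
      by_cases hi : i.val = 0
      · rw [hi, th_av0]
        have := actD_iB (k := k) h 0
        rw [this]
        simp [En, Pn]
      · have e : i.val = k + 1 - (k + 1 - i.val) := by omega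
        rw [e, th_av (by omega)]
        refine actD_cj _ _ _ (by omega) (fun h => ?_) h
        exact actD_jA h ⟨k + 1 - i.val, _⟩
    · show actD k (th k (PresentedGroup.of (Sum.inl (Sum.inr i)))) (h, 0) =
        (h * PresentedGroup.of (Sum.inl (Sum.inr i)), 0)
      rw [← bv_fin]
      by_cases hi : i.val = 0
      · rw [hi, th_bv0, actD_pow_last]
      · have e : i.val = k + 1 - (k + 1 - i.val) := by omega
        rw [e, th_bv (by omega)]
        refine actD_cj _ _ _ (by omega) (fun h => ?_) h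
        exact actD_jB h ⟨k + 1 - i.val, _⟩
    · exact j.elim0
  | inv_of c ih =>
    intro h
    have h1 := ih (h * (PresentedGroup.mk _ (of c))⁻¹)
    rw [inv_mul_cancel_right] at h1
    rw [map_inv, map_inv]
    exact actD_inv h1
  | mul a b ha hb =>
    intro h
    rw [map_mul, map_mul, actD_mul, ha, hb, mul_assoc]

lemma th_injective : Function.Injective (th k) := by
  rw [injective_iff_map_eq_one]
  intro y hy
  have := actD_th y (1 : SG (k + 2) 0)
  rw [hy, actD_one, one_mul] at this
  exact (congrArg Prod.fst this).symm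

/-- The embedding of the coset space. -/
def embD (x : CosX k) : DD := th k x.1 * (iD (of 0)) ^ (x.2 : ℕ)

lemma embD_step_iA (x : CosX k) : embD (actD k (iD (of 0)) x) = embD x * iD (of 0) := by
  obtain ⟨h, s⟩ := x
  rw [actD_iA]
  refine Fin.lastCases ?_ (fun s => ?_) s
  · rw [RA_last]
    simp [embD, th_bv0, pow_succ, mul_assoc]
  · rw [RA_castSucc]
    simp [embD, pow_succ, mul_assoc]

lemma embD_step (x : CosX k) (c : Fin 2 ⊕ Fin 2) :
    embD (actD k (PresentedGroup.of c) x) = embD x * PresentedGroup.of c := by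
  rcases c with c | c
  · have e : (PresentedGroup.of (Sum.inl c) : DD) = iD (of c) := by simp [iD]
    rw [e]
    fin_cases c
    · exact embD_step_iA x
    · obtain ⟨h, s⟩ := x
      show embD (actD k (iD (of 1)) (h, s)) = _
      rw [actD_iB]
      show th k (h * En k s) * (iD (of 0)) ^ (s : ℕ) = th k h * (iD (of 0)) ^ (s : ℕ) * iD (of 1)
      rw [map_mul, th_En _ (by omega)]
      simp [cj, mul_assoc]
  · have e : (PresentedGroup.of (Sum.inr c) : DD) = jD (of c) := by simp [jD]
    rw [e]
    obtain ⟨h, s⟩ := x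
    fin_cases c
    · show embD (actD k (jD (of 0)) (h, s)) = _
      rw [actD_jA]
      show th k (h * av k (k + 1 - s)) * (iD (of 0)) ^ (s : ℕ) =
        th k h * (iD (of 0)) ^ (s : ℕ) * jD (of 0)
      rw [map_mul, th_av (by omega)]
      simp [cj, mul_assoc]
    · show embD (actD k (jD (of 1)) (h, s)) = _
      rw [actD_jB]
      show th k (h * bv k (k + 1 - s)) * (iD (of 0)) ^ (s : ℕ) =
        th k h * (iD (of 0)) ^ (s : ℕ) * jD (of 1)
      rw [map_mul, th_bv (by omega)]
      simp [cj, mul_assoc]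

lemma embD_mul (d : DD) : ∀ x : CosX k, embD (actD k d x) = embD x * d := by
  obtain ⟨w, rfl⟩ := PresentedGroup.mk_surjective _ d
  induction w using FreeGroup.induction_on with
  | C1 => intro x; rw [map_one, actD_one, mul_one]
  | of c => intro x; exact embD_step x c
  | inv_of c ih =>
    intro x
    obtain ⟨y, hy⟩ : ∃ y, actD k (PresentedGroup.mk _ (of c)) y = x :=
      ⟨actD k (PresentedGroup.mk _ (of c))⁻¹ x, by rw [← actD_mul, inv_mul_cancel, actD_one]⟩
    rw [map_inv, actD_inv hy, ← hy, ih y, mul_inv_cancel_right]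
  | mul a b ha hb =>
    intro x
    rw [map_mul, actD_mul, hb, ha, mul_assoc]

/-- Every element of the double is a product. -/
lemma exists_coset (d : DD) : ∃ (h : SG (k + 2) 0) (s : Fin (k + 1)),
    d = th k h * (iD (of 0)) ^ (s : ℕ) := by
  have := embD_mul (k := k) d (1, 0)
  refine ⟨(actD k d (1, 0)).1, (actD k d (1, 0)).2, ?_⟩
  have h2 : embD ((1, 0) : CosX k) = (1 : DD) := by simp [embD]
  rw [h2, one_mul] at this
  exact this.symm

/-- Residual property of the closed surface group. -/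
theorem SG_res {y : SG (k + 2) 0} (h : ∀ N, rD N (th k y) = 1) : y = 1 := by
  have := DD_res h
  exact th_injective (by rw [this, map_one])

/-- The exponent sum of the last generator `a`. -/
def epsgen (k : ℕ) : SGen (k + 2) 0 → Multiplicative ℤ :=
  Sum.elim (Sum.elim (fun i => if i.val = k + 1 then Multiplicative.ofAdd 1 else 1) (fun _ => 1))
    (fun _ => 1)

/-- The exponent sum of the last generator `a`. -/
def eps (k : ℕ) : SG (k + 2) 0 →* Multiplicative ℤ :=
  PresentedGroup.toGroup (f := epsgen k) (by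
    intro r hr
    rw [Set.mem_singleton_iff] at hr
    subst hr
    rw [map_srel, List.ofFn_zero, List.prod_nil, mul_one]
    apply List.prod_eq_one
    intro x hx
    rw [List.mem_ofFn] at hx
    obtain ⟨i, rfl⟩ := hx
    rw [commutatorElement_eq_one_iff_mul_comm]
    exact mul_comm _ _)

lemma eps_av (n : ℕ) (hn : n < k + 1) : eps k (av k n) = 1 := by
  unfold av
  rw [dif_pos (by omega)]
  simp only [eps, PresentedGroup.toGroup.of, epsgen, Sum.elim_inl]
  rw [if_neg (by omega)]

lemma eps_av_last : eps k (av k (k + 1)) = Multiplicative.ofAdd 1 := by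
  unfold av
  rw [dif_pos (by omega)]
  simp [eps, epsgen]

lemma eps_bv (n : ℕ) : eps k (bv k n) = 1 := by
  unfold bv
  split_ifs
  · simp [eps, epsgen]
  · exact map_one _

lemma isConj_hom_eq {G A : Type} [Group G] [CommGroup A] (f : G →* A) {x y : G}
    (h : IsConj x y) : f x = f y := by
  obtain ⟨c, rfl⟩ := isConj_iff.1 h
  rw [map_mul, map_mul, map_inv, mul_comm (f c), mul_inv_cancel_right]

/-- Conjugacy property of the closed surface group. -/
theorem SG_conj {y : SG (k + 2) 0} (hab : eps k y = Multiplicative.ofAdd 1)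
    (h : ∀ N, IsConj (rD N (th k y)) (of 0)) : IsConj y (av k (k + 1)) := by
  rcases DD_conj h with h1 | h1
  · exfalso
    obtain ⟨d, hd⟩ := isConj_iff.1 h1.symm
    obtain ⟨h, s, rfl⟩ := exists_coset (k := k) d
    have h2 : th k (h⁻¹ * y * h) = iD (of 0) := by
      rw [map_mul, map_mul, map_inv, ← hd]
      have : Commute ((iD (of 0)) ^ (s : ℕ)) (iD (of 0)) := (Commute.refl _).pow_left _
      have h3 : (iD (of 0)) ^ (s : ℕ) * iD (of 0) * ((iD (of 0)) ^ (s : ℕ))⁻¹ = iD (of 0) := by
        rw [this.eq, mul_inv_cancel_right]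
      calc _ = (iD (of 0)) ^ (s : ℕ) * iD (of 0) * ((iD (of 0)) ^ (s : ℕ))⁻¹ := by group
        _ = _ := h3
    have h3 := actD_th (h⁻¹ * y * h) (1 : SG (k + 2) 0)
    rw [h2, actD_iA, one_mul] at h3
    have h4 : eps k (h⁻¹ * y * h) = Multiplicative.ofAdd 1 := by
      rw [map_mul, map_mul, map_inv, hab, mul_comm, ← mul_assoc, mul_inv_cancel, one_mul]
    cases k with
    | zero =>
      have h5 := RA_last (k := 0) (1 : SG (0 + 2) 0)
      have h6 : (1 : SG (0 + 2) 0) * bv 0 0 = h⁻¹ * y * h := congrArg Prod.fst (h5.symm.trans h3)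
      rw [← h6, one_mul, eps_bv] at h4
      exact absurd h4 (by decide)
    | succ k =>
      have h5 := RA_castSucc (k := k + 1) (1 : SG (k + 1 + 2) 0) 0
      have h6 : (Fin.succ 0 : Fin (k + 1 + 1)) = 0 := congrArg Prod.snd (h5.symm.trans h3)
      exact Fin.succ_ne_zero _ h6
  · obtain ⟨d, hd⟩ := isConj_iff.1 h1.symm
    obtain ⟨h, s, rfl⟩ := exists_coset (k := k) d
    have h2 : y = h * av k (k + 1 - s) * h⁻¹ := by
      apply th_injective
      rw [← hd, map_mul, map_mul, map_inv, th_av (by omega)]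
      simp [cj, mul_assoc]
    have h3 : IsConj y (av k (k + 1 - s)) := by
      rw [h2]
      exact (isConj_iff.2 ⟨h, rfl⟩ : IsConj (av k (k + 1 - s)) _).symm
    by_cases hs : (s : ℕ) = 0
    · rwa [hs, Nat.sub_zero] at h3
    · exfalso
      have h4 := isConj_hom_eq (eps k) h3
      rw [hab, eps_av _ (by omega)] at h4
      exact absurd h4 (by decide)

end star

end Pool.Agent.Helper460_OutF
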