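import Pool.Agent.Helper460_OutF.Tor
import Pool.Agent.Helper460_OutF.Fam

set_option autoImplicit false
set_option linter.unusedSectionVars false
set_option linter.unusedSimpArgs false

namespace Pool.Agent.Helper460_OutF

open FreeGroup (of)
open scoped commutatorElement

/-- The fundamental group of the surface of genus `g` with `p` punctures. -/
abbrev SG (g p : ℕ) : Type := PresentedGroup ({srel g p} : Set (FreeGroup (SGen g p)))

/-- The loop `c_j` around the `j`-th puncture. -/
def ploopo (g p : ℕ) (j : Fin p) : SG g p := PresentedGroup.of (Sum.inr j)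

/-- An element is peripheral if it is conjugate to some `c_j`. -/
def IsPerio {g p : ℕ} (x : SG g p) : Prop := ∃ j, IsConj x (ploopo g p j)

/-- The automorphism preserves the set of peripheral elements. -/
def PresPerio {g p : ℕ} (α : MulAut (SG g p)) : Prop := ∀ x, IsPerio (α x) ↔ IsPerio x

lemma PresPerio.mul {g p : ℕ} {α β : MulAut (SG g p)} (hα : PresPerio α) (hβ : PresPerio β) :
    PresPerio (α * β) := fun x => (hα (β x)).trans (hβ x)

lemma PresPerio.one {g p : ℕ} : PresPerio (1 : MulAut (SG g p)) := fun _ => Iff.rfl

lemma PresPerio.inv {g p : ℕ} {α : MulAut (SG g p)} (hα : PresPerio α) : PresPerio α⁻¹ := by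
  intro x
  have := hα (α⁻¹ x)
  rw [← MulAut.mul_apply, mul_inv_cancel, MulAut.one_apply] at this
  exact this.symm

/-- The group of automorphisms preserving the set of peripheral elements. -/
def AutPerio (g p : ℕ) : Subgroup (MulAut (SG g p)) where
  carrier := {α | PresPerio α}
  mul_mem' := PresPerio.mul
  one_mem' := PresPerio.one
  inv_mem' := PresPerio.inv

/-- The mapping class group: outer automorphisms preserving the set of peripheral elements. -/
def MCGo (g p : ℕ) : Subgroup (Out (SG g p)) := (AutPerio g p).map (QuotientGroup.mk' _)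

/-- The Torelli subgroup: outer classes of automorphisms acting trivially on the
abelianisation. -/
def Torelli (G : Type) [Group G] : Subgroup (Out G) :=
  (IA G).map (QuotientGroup.mk' (MulAut.conj : G →* MulAut G).range)

/-- The action of automorphisms on conjugacy classes. -/
def autConj (G : Type) [Group G] : MulAut G →* Equiv.Perm (ConjClasses G) where
  toFun α :=
    { toFun := ConjClasses.map (α : G →* G)
      invFun := ConjClasses.map ((α⁻¹ : MulAut G) : G →* G)
      left_inv := by
        intro c
        induction c using Quotient.inductionOn with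
        | h x => exact congrArg ConjClasses.mk (by simp)
      right_inv := by
        intro c
        induction c using Quotient.inductionOn with
        | h x => exact congrArg ConjClasses.mk (by simp) }
  map_one' := by
    ext1 c
    induction c using Quotient.inductionOn with
    | h x => rfl
  map_mul' := by
    intro α β
    ext1 c
    induction c using Quotient.inductionOn with
    | h x => rfl

@[simp] lemma autConj_mk {G : Type} [Group G] (α : MulAut G) (x : G) :
    autConj G α (ConjClasses.mk x) = ConjClasses.mk (α x) := rfl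

/-- The action of outer automorphisms on conjugacy classes. -/
def outConj (G : Type) [Group G] : Out G →* Equiv.Perm (ConjClasses G) :=
  QuotientGroup.lift _ (autConj G) (by
    rintro _ ⟨g, rfl⟩
    ext1 c
    induction c using Quotient.inductionOn with
    | h x =>
      show ConjClasses.mk (g * x * g⁻¹) = ConjClasses.mk x
      rw [ConjClasses.mk_eq_mk_iff_isConj]
      exact (isConj_iff.2 ⟨g, rfl⟩ : IsConj x (g * x * g⁻¹)).symm)

@[simp] lemma outConj_mk {G : Type} [Group G] (α : MulAut G) (x : G) :
    outConj G (α : Out G) (ConjClasses.mk x) = ConjClasses.mk (α x) := rfl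

/-- The peripheral conjugacy classes. -/
def peri (g p : ℕ) : Set (ConjClasses (SG g p)) :=
  Set.range fun j : Fin p => ConjClasses.mk (ploopo g p j)

lemma mk_mem_peri {g p : ℕ} (x : SG g p) : ConjClasses.mk x ∈ peri g p ↔ IsPerio x := by
  constructor
  · rintro ⟨j, hj⟩
    exact ⟨j, (ConjClasses.mk_eq_mk_iff_isConj.1 hj).symm⟩
  · rintro ⟨j, hj⟩
    exact ⟨j, (ConjClasses.mk_eq_mk_iff_isConj.2 hj).symm⟩

lemma mem_MCGo_iff {g p : ℕ} (x : Out (SG g p)) :
    x ∈ MCGo g p ↔ ∀ c, outConj _ x c ∈ peri g p ↔ c ∈ peri g p := by
  obtain ⟨α, rfl⟩ := QuotientGroup.mk_surjective x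
  constructor
  · rintro ⟨β, hβ, hβα⟩ c
    induction c using Quotient.inductionOn with
    | h y =>
      have h1 : ((α : MulAut (SG g p)) : Out (SG g p)) = (β : Out (SG g p)) := hβα.symm
      rw [h1]
      show ConjClasses.mk (β y) ∈ _ ↔ ConjClasses.mk y ∈ _
      rw [mk_mem_peri, mk_mem_peri]
      exact hβ y
  · intro h
    refine ⟨α, fun y => ?_, rfl⟩
    rw [← mk_mem_peri, ← mk_mem_peri]
    exact h (ConjClasses.mk y)

/-- The rational first cohomology. -/
abbrev HQ (G : Type) [Group G] : Type := Additive G →+ ℚ

/-- The action of automorphisms on rational cohomology. -/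
def autW (G : Type) [Group G] : MulAut G →* (HQ G ≃ₗ[ℚ] HQ G) where
  toFun α :=
    { toFun := fun f => f.comp (MonoidHom.toAdditive ((α⁻¹ : MulAut G) : G →* G))
      invFun := fun f => f.comp (MonoidHom.toAdditive (α : G →* G))
      map_add' := fun f k => rfl
      map_smul' := fun c f => rfl
      left_inv := by
        intro f; ext x
        show f (Additive.ofMul (α⁻¹ (α x))) = f (Additive.ofMul x)
        simp
      right_inv := by
        intro f; ext x
        show f (Additive.ofMul (α (α⁻¹ x))) = f (Additive.ofMul x)
        simp }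
  map_one' := by ext f x; rfl
  map_mul' := by
    intro α β
    ext f x
    show f (Additive.ofMul ((α * β)⁻¹ x)) = f (Additive.ofMul (β⁻¹ (α⁻¹ x)))
    rw [mul_inv_rev]; rfl

lemma autW_apply {G : Type} [Group G] (α : MulAut G) (f : HQ G) (x : G) :
    autW G α f (Additive.ofMul x) = f (Additive.ofMul (α⁻¹ x)) := rfl

lemma HQ_conj {G : Type} [Group G] (f : HQ G) (g x : G) :
    f (Additive.ofMul (g * x * g⁻¹)) = f (Additive.ofMul x) := by
  rw [ofMul_mul, ofMul_mul, ofMul_inv, map_add, map_add, map_neg]
  ring

lemma HQ_isConj {G : Type} [Group G] (f : HQ G) {x y : G} (h : IsConj x y) :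
    f (Additive.ofMul x) = f (Additive.ofMul y) := by
  obtain ⟨c, rfl⟩ := isConj_iff.1 h
  rw [HQ_conj]

/-- The action of outer automorphisms on rational cohomology. -/
def outW (G : Type) [Group G] : Out G →* (HQ G ≃ₗ[ℚ] HQ G) :=
  QuotientGroup.lift _ (autW G) (by
    rintro _ ⟨g, rfl⟩
    ext f x
    show f (Additive.ofMul ((MulAut.conj g)⁻¹ x)) = f (Additive.ofMul x)
    rw [← map_inv, MulAut.conj_apply, HQ_conj])

lemma outW_mk {G : Type} [Group G] (α : MulAut G) (f : HQ G) (x : G) :
    outW G (α : Out G) f (Additive.ofMul x) = f (Additive.ofMul (α⁻¹ x)) := rfl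

/-- The property that rational cohomology detects the abelianisation. -/
def AbQ (G : Type) [Group G] : Prop :=
  ∀ x : G, (∀ f : HQ G, f (Additive.ofMul x) = 0) → Abelianization.of x = 1

/-- The property that groups without homomorphisms to torsion-free abelian groups only map
trivially to the Torelli subgroup. -/
def TG (G : Type) [Group G] : Prop :=
  ∀ (Λ : Type) [Group Λ], NoHom Λ → ∀ ψ : Λ →* Out G,
    (∀ x (α : MulAut G), ψ x = (α : Out G) → α ∈ IA G) → ∀ x, ψ x = 1

lemma TG_free (κ : Type) : TG (FreeGroup κ) := by
  classical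
  intro Λ _ hno ψ hT
  exact torelli_trivial hno ψ hT

section equiv

variable {G F : Type} [Group G] [Group F] (e : G ≃* F)

/-- Transport of outer automorphisms. -/
def outCongr : Out G →* Out F :=
  QuotientGroup.map _ _ (MulAut.congr e : MulAut G →* MulAut F) (by
    rintro _ ⟨g, rfl⟩
    refine ⟨e g, ?_⟩
    ext x
    show e g * x * (e g)⁻¹ = e (g * e.symm x * g⁻¹)
    simp)

lemma outCongr_mk (α : MulAut G) : outCongr e (α : Out G) = ((MulAut.congr e α : MulAut F) : Out F) :=
  rfl

lemma outCongr_inj {x : Out G} (h : outCongr e x = 1) : x = 1 := by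
  obtain ⟨α, rfl⟩ := QuotientGroup.mk_surjective x
  rw [outCongr_mk] at h
  obtain ⟨g, hg⟩ := (QuotientGroup.eq_one_iff _).1 h
  refine (QuotientGroup.eq_one_iff _).2 ⟨e.symm g, ?_⟩
  ext x
  have := congrArg (fun β : MulAut F => e.symm (β (e x))) hg
  simpa [MulAut.congr] using this

lemma ab_equiv {x y : G} : Abelianization.of (e x) = Abelianization.of (e y) ↔
    Abelianization.of x = Abelianization.of y := by
  constructor
  · intro h
    have := congrArg (Abelianization.map (e.symm : F →* G)) h
    simpa using this
  · intro h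
    have := congrArg (Abelianization.map (e : G →* F)) h
    simpa using this

include e in
lemma TG.of_equiv (h : TG F) : TG G := by
  intro Λ _ hno ψ hT x
  apply outCongr_inj e
  refine h Λ hno ((outCongr e).comp ψ) ?_ x
  intro x α hα y
  obtain ⟨β, hβ⟩ := QuotientGroup.mk_surjective (ψ x)
  have h1 : outCongr e (β : Out G) = (α : Out F) := by rw [← hα, hβ]; rfl
  rw [outCongr_mk] at h1
  obtain ⟨g, hg⟩ := QuotientGroup.eq.1 h1
  have h2 : α = MulAut.congr e β * MulAut.conj g := by
    have hg' : MulAut.conj g = (MulAut.congr e β)⁻¹ * α := hg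
    rw [hg']; group
  have h3 := hT x β hβ.symm
  have h4 : ∀ y, Abelianization.of (MulAut.congr e β y) = Abelianization.of y := by
    intro y
    have : MulAut.congr e β y = e (β (e.symm y)) := rfl
    rw [this]
    conv_rhs => rw [← e.apply_symm_apply y]
    rw [ab_equiv e]
    exact h3 _
  rw [h2, MulAut.mul_apply, h4]
  exact conj_mem_IA g y

include e in
lemma AbQ.of_equiv (h : AbQ F) : AbQ G := by
  intro x hx
  have h1 := h (e x) (fun f => hx (f.comp (MonoidHom.toAdditive (e : G →* F))))
  have : Abelianization.of (e x) = Abelianization.of (e 1) := by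
    rw [h1, map_one, map_one]
  rw [ab_equiv e, map_one] at this
  exact this

end equiv

end Pool.Agent.Helper460_OutF
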