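import Pool.Agent.Helper460_OutF.Red

set_option autoImplicit false
set_option linter.unusedSectionVars false
set_option linter.unusedSimpArgs false

namespace Pool.Agent.Helper460_OutF

open FreeGroup (of)

variable {ι : Type} [DecidableEq ι] [Fintype ι] {g p : ℕ}

/-- The action of `Γ0` on conjugacy classes. -/
def cAct {Γ0 : Type} [Group Γ0] (Φ : Γ0 →* MCGo g p) : Γ0 →* Equiv.Perm (ConjClasses (SG g p)) :=
  ((outConj (SG g p)).comp (MCGo g p).subtype).comp Φ

/-- **Main theorem for surfaces.** -/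
theorem main_surface (h4 : 4 ≤ Fintype.card ι) (hg : 2 * g + 2 ≤ Fintype.card ι)
    (hTG : TG (SG g p)) (hAb : AbQ (SG g p))
    (Γ : Subgroup (Out (FreeGroup ι))) [hfi : Γ.FiniteIndex]
    (hT : Torelli (FreeGroup ι) ≤ Γ) (φ : Γ →* MCGo g p)
    (horb : ∀ c ∈ peri g p,
      (Set.range fun γ : Γ => outConj _ (φ γ : Out (SG g p)) c).ncard + 1 ≤ Fintype.card ι) :
    Finite φ.range := by
  apply finite_of_kernel h4 Γ hT φ
  intro Γ0 _ _ hIA Φ0 hinn hrange
  -- the linear part
  obtain ⟨M1, hM1, hN1⟩ := exists_N1 h4 hIA ((actV g p).comp Φ0)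
    (fun x h => by rw [MonoidHom.comp_apply, hinn, map_one])
    (noTriFam_GLV h4 (by have := finrank_VQ (g := g) (p := p); omega))
  -- the permutation part
  have hperiFin : (peri g p).Finite := Set.finite_range _
  have _i1 : Finite (peri g p) := hperiFin
  let mact : MulAction Γ0 (ConjClasses (SG g p)) := MulAction.compHom _ (cAct Φ0)
  have hsmul : ∀ (x : Γ0) (c : ConjClasses (SG g p)), x • c = outConj _ (Φ0 x : Out (SG g p)) c :=
    fun x c => rfl
  have horbsub : ∀ c ∈ peri g p, MulAction.orbit Γ0 c ⊆ peri g p := by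
    rintro c hc _ ⟨x, rfl⟩
    exact ((mem_MCGo_iff _).1 (Φ0 x).2 c).2 hc
  have horbfin : ∀ c ∈ peri g p, Finite (MulAction.orbit Γ0 c) := fun c hc =>
    (hperiFin.subset (horbsub c hc))
  have horbcard : ∀ c ∈ peri g p, Nat.card (MulAction.orbit Γ0 c) + 1 ≤ Fintype.card ι := by
    intro c hc
    refine le_trans (Nat.add_le_add_right ?_ 1) (horb c hc)
    apply Set.ncard_le_ncard
    · rintro _ ⟨x, rfl⟩
      obtain ⟨y, hy⟩ := hrange x
      refine ⟨y, ?_⟩
      show outConj _ (φ y : Out (SG g p)) c = outConj _ (Φ0 x : Out (SG g p)) c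
      rw [hy]
    · refine hperiFin.subset ?_
      rintro _ ⟨y, rfl⟩
      exact ((mem_MCGo_iff _).1 (φ y).2 c).2 hc
  obtain ⟨M2, hM2, hN2⟩ := exists_N1_finite h4 hIA (T := peri g p)
    (H := fun c => Equiv.Perm (MulAction.orbit Γ0 (c : ConjClasses (SG g p))))
    (fun c => MulAction.toPermHom Γ0 (MulAction.orbit Γ0 (c : ConjClasses (SG g p))))
    (fun c x h => by
      ext1 d
      ext1
      show (⟨MulAut.conj x, h⟩ : Γ0) • (d : ConjClasses (SG g p)) = d
      rw [hsmul, hinn]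
      show outConj _ (1 : Out (SG g p)) _ = _
      rw [map_one]; rfl)
    (fun c => by
      have := horbfin c c.2
      exact noTriFam_perm h4 (horbcard c c.2))
  refine ⟨M1 * M2, Nat.mul_pos hM1 hM2, ?_⟩
  have hM : 0 < M1 * M2 := Nat.mul_pos hM1 hM2
  have hA : N1 ι (M1 * M2) ≤ N1 ι M1 := N1_dvd_le hM (Dvd.intro _ rfl)
  have hB : N1 ι (M1 * M2) ≤ N1 ι M2 := N1_dvd_le hM (Dvd.intro_left _ rfl)
  have hle : N1 ι (M1 * M2) ≤ Γ0 := fun x hx => (mem_kerA.1 (hN1 (hA hx))).1
  apply kerA_of_le hle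
  let ψ : N1 ι (M1 * M2) →* MCGo g p := Φ0.comp (Subgroup.inclusion hle)
  let ψo : N1 ι (M1 * M2) →* Out (SG g p) := (MCGo g p).subtype.comp ψ
  have hψinn : ∀ x (h : MulAut.conj x ∈ N1 ι (M1 * M2)), ψ ⟨MulAut.conj x, h⟩ = 1 :=
    fun x h => hinn x _
  -- punctures are fixed
  have hfix : ∀ (x : N1 ι (M1 * M2)) (c), c ∈ peri g p → outConj _ (ψo x) c = c := by
    intro x c hc
    obtain ⟨h1, h2⟩ := mem_kerA.1 (hN2 ⟨c, hc⟩ (hB x.2))
    have h3 := congrArg (fun σ : Equiv.Perm (MulAction.orbit Γ0 c) =>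
      (σ ⟨c, MulAction.mem_orbit_self c⟩ : ConjClasses (SG g p))) h2
    exact h3
  -- the linear part is trivial
  have hlin : ∀ (x : N1 ι (M1 * M2)) (f : HQ (SG g p)), f ∈ VQ g p → outW _ (ψo x) f = f := by
    intro x f hf
    obtain ⟨h1, h2⟩ := mem_kerA.1 (hN1 (hA x.2))
    have h3 := congrArg (fun e : (VQ g p ≃ₗ[ℚ] VQ g p) => ((e ⟨f, hf⟩ : VQ g p) : HQ (SG g p))) h2
    exact h3
  -- differences vanish on punctures
  have hdiff : ∀ (x : N1 ι (M1 * M2)) (f : HQ (SG g p)), outW _ (ψo x) f - f ∈ VQ g p := by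
    intro x f y hy
    show outW _ (ψo x) f (Additive.ofMul y) - f (Additive.ofMul y) = 0
    obtain ⟨α, hα⟩ := QuotientGroup.mk_surjective (ψo x)
    rw [← hα, outW_mk]
    have h1 := hfix x⁻¹ _ hy
    rw [map_inv, ← hα] at h1
    have h2 : ConjClasses.mk (α⁻¹ y) = ConjClasses.mk y := h1
    rw [HQ_isConj f (ConjClasses.mk_eq_mk_iff_isConj.1 h2), sub_self]
  have hW : ∀ (x : N1 ι (M1 * M2)) (f : HQ (SG g p)), outW _ (ψo x) f = f := by
    intro x f
    let D : N1 ι (M1 * M2) →* Multiplicative (HQ (SG g p)) :=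
      { toFun := fun x => Multiplicative.ofAdd (outW _ (ψo x) f - f)
        map_one' := by
          rw [map_one, map_one]
          show Multiplicative.ofAdd (f - f) = 1
          rw [sub_self]; rfl
        map_mul' := by
          intro x y
          rw [← ofAdd_add]
          congr 1
          have h1 := hlin x _ (hdiff y f)
          rw [map_sub] at h1
          have h2 : outW _ (ψo (x * y)) f = outW _ (ψo x) (outW _ (ψo y) f) := by
            rw [map_mul, map_mul]; rfl
          rw [h2, sub_eq_iff_eq_add.1 h1]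
          abel }
    have h1 := N1_hom_trivial (by
      intro b m hm hb
      have h3 : m • (Multiplicative.toAdd b) = 0 := hb
      have h4 : (m : ℚ) • (Multiplicative.toAdd b) = 0 := by
        rw [Nat.cast_smul_eq_nsmul]; exact h3
      have h5 := (smul_eq_zero.1 h4).resolve_left (by exact_mod_cast hm.ne')
      exact h5) hM h4 D (by
        intro y h
        show Multiplicative.ofAdd (outW _ (ψo ⟨MulAut.conj y, h⟩) f - f) = 1
        have : ψo ⟨MulAut.conj y, h⟩ = 1 := by
          show ((ψ ⟨MulAut.conj y, h⟩ : MCGo g p) : Out (SG g p)) = 1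
          rw [hψinn]; rfl
        rw [this, map_one]
        show Multiplicative.ofAdd (f - f) = 1
        rw [sub_self]; rfl) x
    have h2 : outW _ (ψo x) f - f = 0 := h1
    exact sub_eq_zero.1 h2
  have hno := noHom_range hM h4 ψo (fun x h => by
    show ((ψ ⟨MulAut.conj x, h⟩ : MCGo g p) : Out (SG g p)) = 1
    rw [hψinn]; rfl)
  have htriv := hTG _ hno ψo.range.subtype (by
    rintro ⟨_, ⟨x, rfl⟩⟩ α hα y
    have h1 : ψo x = (α : Out (SG g p)) := hα
    have h2 : Abelianization.of (α y * y⁻¹) = 1 := by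
      apply hAb
      intro f
      have h3 := DFunLike.congr_fun (hW x f) (Additive.ofMul (α y))
      rw [h1, outW_mk, ← MulAut.mul_apply, inv_mul_cancel, MulAut.one_apply] at h3
      rw [ofMul_mul, ofMul_inv, map_add, map_neg, ← h3, add_neg_cancel]
    rw [map_mul, map_inv, mul_inv_eq_one] at h2
    exact h2)
  intro x
  have h1 : ψo x = 1 := htriv ⟨ψo x, ⟨x, rfl⟩⟩
  show ψ x = 1
  ext1
  exact h1

end Pool.Agent.Helper460_OutF
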