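import Pool.Agent.Helper460_OutF.Fam2
import Pool.Agent.Helper460_OutF.Punct
import Pool.Agent.Helper460_OutF.Defs2

set_option autoImplicit false
set_option linter.unusedSectionVars false
set_option linter.unusedSimpArgs false

namespace Pool.Agent.Helper460_OutF

open FreeGroup (of)

variable {ι : Type} [DecidableEq ι] [Fintype ι] {g p : ℕ}

/-- **Main theorem for surfaces, second form.** -/
theorem main_surface2 (h4 : 4 ≤ Fintype.card ι)
    (hTG : TG (SG g p)) (hAb : AbQ (SG g p))
    (Γ : Subgroup (Out (FreeGroup ι))) [hfi : Γ.FiniteIndex]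
    (hT : Torelli (FreeGroup ι) ≤ Γ) (φ : Γ →* MCGo g p)
    (horb : ∀ c ∈ peri g p,
      (Set.range fun γ : Γ => outConj _ (φ γ : Out (SG g p)) c).ncard ≤ 2 ^ (Fintype.card ι - 2))
    (hlinear : ∀ (Γ0 : Subgroup (MulAut (FreeGroup ι))) [Γ0.Normal] [Γ0.FiniteIndex]
      (_ : IA (FreeGroup ι) ≤ Γ0) (Φ0 : Γ0 →* MCGo g p)
      (_ : ∀ g (h : MulAut.conj g ∈ Γ0), Φ0 ⟨MulAut.conj g, h⟩ = 1)
      (_ : ∀ x : Γ0, ∃ y : Γ, Φ0 x = φ y),
      ∃ M, 0 < M ∧ N1 ι M ≤ kerA Γ0 ((actV g p).comp Φ0)) :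
    Finite φ.range := by
  apply finite_of_kernel h4 Γ hT φ
  intro Γ0 _ _ hIA Φ0 hinn hrange
  -- the linear part
  obtain ⟨M1, hM1, hN1⟩ := hlinear Γ0 hIA Φ0 hinn hrange
  -- the permutation part
  have hperiFin : (peri g p).Finite := Set.finite_range _
  have _i1 : Finite (peri g p) := hperiFin
  let mact : MulAction Γ0 (ConjClasses (SG g p)) := MulAction.compHom _ (cAct Φ0)
  have hsmul : ∀ (x : Γ0) (c : ConjClasses (SG g p)), x • c = outConj _ (Φ0 x : Out (SG g p)) c :=
    fun x c => rfl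
  have horbsub : ∀ c ∈ peri g p, MulAction.orbit Γ0 c ⊆ peri g p := by
    rintro c hc _ ⟨x, rfl⟩
    exact ((mem_MCGo_iff _).1 (Φ0 x).2 c).2 hc
  have horbfin : ∀ c ∈ peri g p, Finite (MulAction.orbit Γ0 c) := fun c hc =>
    (hperiFin.subset (horbsub c hc))
  have horbcard : ∀ c ∈ peri g p,
      Nat.card (MulAction.orbit Γ0 c) ≤ 2 ^ ((Fintype.card ι - 3) + 1) := by
    intro c hc
    have e : Fintype.card ι - 3 + 1 = Fintype.card ι - 2 := by omega
    rw [e]
    refine le_trans ?_ (horb c hc)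
    apply Set.ncard_le_ncard
    · rintro _ ⟨x, rfl⟩
      obtain ⟨y, hy⟩ := hrange x
      refine ⟨y, ?_⟩
      show outConj _ (φ y : Out (SG g p)) c = outConj _ (Φ0 x : Out (SG g p)) c
      rw [hy]
    · refine hperiFin.subset ?_
      rintro _ ⟨y, rfl⟩
      exact ((mem_MCGo_iff _).1 (φ y).2 c).2 hc
  obtain ⟨M2, hM2, hN2⟩ := N1_finite (T := peri g p)
    (H := fun c => Equiv.Perm (MulAction.orbit Γ0 (c : ConjClasses (SG g p))))
    (fun c => MulAction.toPermHom Γ0 (MulAction.orbit Γ0 (c : ConjClasses (SG g p))))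
    (fun c => by
      have hfc := horbfin c c.2
      apply N1_of_step
      refine step_of_finite hIA _ (fun x h => ?_) (noCube_perm (horbcard c c.2))
      ext1 d
      ext1
      show (⟨MulAut.conj x, h⟩ : Γ0) • (d : ConjClasses (SG g p)) = d
      rw [hsmul, hinn]
      show outConj _ (1 : Out (SG g p)) _ = _
      rw [map_one]; rfl)
  refine ⟨M1 * M2, Nat.mul_pos hM1 hM2, ?_⟩
  have hM : 0 < M1 * M2 := Nat.mul_pos hM1 hM2
  have hA : N1 ι (M1 * M2) ≤ N1 ι M1 := N1_dvd_le hM (Dvd.intro _ rfl)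
  have hB : N1 ι (M1 * M2) ≤ N1 ι M2 := N1_dvd_le hM (Dvd.intro_left _ rfl)
  have hle : N1 ι (M1 * M2) ≤ Γ0 := fun x hx => (mem_kerA.1 (hN1 (hA hx))).1
  apply kerA_of_le hle
  let ψ : N1 ι (M1 * M2) →* MCGo g p := Φ0.comp (Subgroup.inclusion hle)
  let ψo : N1 ι (M1 * M2) →* Out (SG g p) := (MCGo g p).subtype.comp ψ
  have hψinn : ∀ x (h : MulAut.conj x ∈ N1 ι (M1 * M2)), ψ ⟨MulAut.conj x, h⟩ = 1 :=
    fun x h => hinn x _
  -- punctures are fixed
  have hfix : ∀ (x : N1 ι (M1 * M2)) (c), c ∈ peri g p → outConj _ (ψo x) c = c := by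
    intro x c hc
    obtain ⟨h1, h2⟩ := mem_kerA.1 (hN2 ⟨c, hc⟩ (hB x.2))
    have h3 := congrArg (fun σ : Equiv.Perm (MulAction.orbit Γ0 c) =>
      (σ ⟨c, MulAction.mem_orbit_self c⟩ : ConjClasses (SG g p))) h2
    exact h3
  -- the linear part is trivial
  have hlin : ∀ (x : N1 ι (M1 * M2)) (f : HQ (SG g p)), f ∈ VQ g p → outW _ (ψo x) f = f := by
    intro x f hf
    obtain ⟨h1, h2⟩ := mem_kerA.1 (hN1 (hA x.2))
    have h3 := congrArg (fun e : (VQ g p ≃ₗ[ℚ] VQ g p) => ((e ⟨f, hf⟩ : VQ g p) : HQ (SG g p))) h2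
    exact h3
  -- differences vanish on punctures
  have hdiff : ∀ (x : N1 ι (M1 * M2)) (f : HQ (SG g p)), outW _ (ψo x) f - f ∈ VQ g p := by
    intro x f y hy
    show outW _ (ψo x) f (Additive.ofMul y) - f (Additive.ofMul y) = 0
    obtain ⟨α, hα⟩ := QuotientGroup.mk_surjective (ψo x)
    rw [← hα, outW_mk]
    have h1 := hfix x⁻¹ _ hy
    rw [map_inv, ← hα] at h1
    have h2 : ConjClasses.mk (α⁻¹ y) = ConjClasses.mk y := h1
    rw [HQ_isConj f (ConjClasses.mk_eq_mk_iff_isConj.1 h2), sub_self]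
  have hW : ∀ (x : N1 ι (M1 * M2)) (f : HQ (SG g p)), outW _ (ψo x) f = f := by
    intro x f
    let D : N1 ι (M1 * M2) →* Multiplicative (HQ (SG g p)) :=
      { toFun := fun x => Multiplicative.ofAdd (outW _ (ψo x) f - f)
        map_one' := by
          rw [map_one, map_one]
          show Multiplicative.ofAdd (f - f) = 1
          rw [sub_self]; rfl
        map_mul' := by
          intro x y
          rw [← ofAdd_add]
          congr 1
          have h1 := hlin x _ (hdiff y f)
          rw [map_sub] at h1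
          have h2 : outW _ (ψo (x * y)) f = outW _ (ψo x) (outW _ (ψo y) f) := by
            rw [map_mul, map_mul]; rfl
          rw [h2, sub_eq_iff_eq_add.1 h1]
          abel }
    have h1 := N1_hom_trivial (by
      intro b m hm hb
      have h3 : m • (Multiplicative.toAdd b) = 0 := hb
      have h4 : (m : ℚ) • (Multiplicative.toAdd b) = 0 := by
        rw [Nat.cast_smul_eq_nsmul]; exact h3
      have h5 := (smul_eq_zero.1 h4).resolve_left (by exact_mod_cast hm.ne')
      exact h5) hM h4 D (by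
        intro y h
        show Multiplicative.ofAdd (outW _ (ψo ⟨MulAut.conj y, h⟩) f - f) = 1
        have : ψo ⟨MulAut.conj y, h⟩ = 1 := by
          show ((ψ ⟨MulAut.conj y, h⟩ : MCGo g p) : Out (SG g p)) = 1
          rw [hψinn]; rfl
        rw [this, map_one]
        show Multiplicative.ofAdd (f - f) = 1
        rw [sub_self]; rfl) x
    have h2 : outW _ (ψo x) f - f = 0 := h1
    exact sub_eq_zero.1 h2
  have hno := noHom_range hM h4 ψo (fun x h => by
    show ((ψ ⟨MulAut.conj x, h⟩ : MCGo g p) : Out (SG g p)) = 1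
    rw [hψinn]; rfl)
  have htriv := hTG _ hno ψo.range.subtype (by
    rintro ⟨_, ⟨x, rfl⟩⟩ α hα y
    have h1 : ψo x = (α : Out (SG g p)) := hα
    have h2 : Abelianization.of (α y * y⁻¹) = 1 := by
      apply hAb
      intro f
      have h3 := DFunLike.congr_fun (hW x f) (Additive.ofMul (α y))
      rw [h1, outW_mk, ← MulAut.mul_apply, inv_mul_cancel, MulAut.one_apply] at h3
      rw [ofMul_mul, ofMul_inv, map_add, map_neg, ← h3, add_neg_cancel]
    rw [map_mul, map_inv, mul_inv_eq_one] at h2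
    exact h2)
  intro x
  have h1 : ψo x = 1 := htriv ⟨ψo x, ⟨x, rfl⟩⟩
  show ψ x = 1
  ext1
  exact h1

section symp

/-- The intersection form. -/
def formO (f k : HQ (SG g p)) : ℚ :=
  ∑ i : Fin g, (f (Additive.ofMul (PresentedGroup.of (Sum.inl (Sum.inl i)))) *
      k (Additive.ofMul (PresentedGroup.of (Sum.inl (Sum.inr i)))) -
    f (Additive.ofMul (PresentedGroup.of (Sum.inl (Sum.inr i)))) *
      k (Additive.ofMul (PresentedGroup.of (Sum.inl (Sum.inl i)))))

/-- The intersection form as a bilinear map on `VQ`. -/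
def formV (g p : ℕ) : VQ g p →ₗ[ℚ] VQ g p →ₗ[ℚ] ℚ :=
  LinearMap.mk₂ ℚ (fun f k => formO (f : HQ (SG g p)) (k : HQ (SG g p)))
    (by
      intro f f' k
      show formO ((f : HQ (SG g p)) + (f' : HQ (SG g p))) (k : HQ (SG g p)) = _
      unfold formO
      rw [← Finset.sum_add_distrib]
      refine Finset.sum_congr rfl fun i _ => ?_
      simp only [AddMonoidHom.add_apply]
      ring)
    (by
      intro c f k
      show formO (c • (f : HQ (SG g p))) (k : HQ (SG g p)) = _
      unfold formO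
      rw [smul_eq_mul, Finset.mul_sum]
      refine Finset.sum_congr rfl fun i _ => ?_
      show c * _ * _ - c * _ * _ = _
      ring)
    (by
      intro f k k'
      show formO (f : HQ (SG g p)) ((k : HQ (SG g p)) + (k' : HQ (SG g p))) = _
      unfold formO
      rw [← Finset.sum_add_distrib]
      refine Finset.sum_congr rfl fun i _ => ?_
      simp only [AddMonoidHom.add_apply]
      ring)
    (by
      intro c f k
      show formO (f : HQ (SG g p)) (c • (k : HQ (SG g p))) = _
      unfold formO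
      rw [smul_eq_mul, Finset.mul_sum]
      refine Finset.sum_congr rfl fun i _ => ?_
      show _ * (c * _) - _ * (c * _) = _
      ring)

lemma formV_apply (f k : VQ g p) :
    formV g p f k = formO (f : HQ (SG g p)) (k : HQ (SG g p)) := rfl

lemma formV_skew (f k : VQ g p) : formV g p f k = - formV g p k f := by
  rw [formV_apply, formV_apply]
  unfold formO
  rw [← Finset.sum_neg_distrib]
  refine Finset.sum_congr rfl fun i _ => ?_
  ring

/-- The element with given values on the generators. -/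
def liftV (g p : ℕ) (s : Fin g ⊕ Fin g → ℚ) : VQ g p :=
  ⟨MonoidHom.toAdditiveLeft (PresentedGroup.toGroup
    (f := Sum.elim (fun t => Multiplicative.ofAdd (s t)) (fun _ => 1)) (by
      intro r hr
      rw [Set.mem_singleton_iff] at hr
      subst hr
      rw [map_srel]
      simp only [FreeGroup.lift_apply_of, Sum.elim_inl, Sum.elim_inr]
      rw [List.prod_eq_one, List.prod_eq_one, mul_one]
      · intro x hx
        rw [List.mem_ofFn] at hx
        obtain ⟨j, rfl⟩ := hx
        rfl
      · intro x hx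
        rw [List.mem_ofFn] at hx
        obtain ⟨j, rfl⟩ := hx
        exact commutatorElement_eq_one_iff_commute.2 (Commute.all _ _)) :
      SG g p →* Multiplicative ℚ), by
    intro x hx
    obtain ⟨j, hj⟩ := (mk_mem_peri x).1 hx
    rw [HQ_isConj _ hj]
    show Multiplicative.toAdd (PresentedGroup.toGroup _ (PresentedGroup.of (Sum.inr j))) = 0
    rw [PresentedGroup.toGroup.of]
    rfl⟩

lemma liftV_apply (s : Fin g ⊕ Fin g → ℚ) (t : Fin g ⊕ Fin g) :
    (liftV g p s : HQ (SG g p)) (Additive.ofMul (PresentedGroup.of (Sum.inl t))) = s t := by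
  show Multiplicative.toAdd (PresentedGroup.toGroup _ (PresentedGroup.of (Sum.inl t))) = s t
  rw [PresentedGroup.toGroup.of]
  rfl

lemma formV_nondeg (f : VQ g p) (h : ∀ k, formV g p k f = 0) : f = 0 := by
  apply evV_inj
  rw [map_zero]
  have h1 := h (liftV g p (Sum.elim (fun i => (f : HQ (SG g p))
      (Additive.ofMul (PresentedGroup.of (Sum.inl (Sum.inr i)))))
    (fun i => - (f : HQ (SG g p)) (Additive.ofMul (PresentedGroup.of (Sum.inl (Sum.inl i)))))))
  rw [formV_apply] at h1
  unfold formO at h1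
  simp only [liftV_apply, Sum.elim_inl, Sum.elim_inr] at h1
  have h2 : ∀ i : Fin g, 0 ≤ (f : HQ (SG g p))
      (Additive.ofMul (PresentedGroup.of (Sum.inl (Sum.inr i)))) * (f : HQ (SG g p))
      (Additive.ofMul (PresentedGroup.of (Sum.inl (Sum.inr i)))) - -(f : HQ (SG g p))
      (Additive.ofMul (PresentedGroup.of (Sum.inl (Sum.inl i)))) * (f : HQ (SG g p))
      (Additive.ofMul (PresentedGroup.of (Sum.inl (Sum.inl i)))) := by
    intro i
    nlinarith [mul_self_nonneg ((f : HQ (SG g p))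
      (Additive.ofMul (PresentedGroup.of (Sum.inl (Sum.inr i))))), mul_self_nonneg
      ((f : HQ (SG g p)) (Additive.ofMul (PresentedGroup.of (Sum.inl (Sum.inl i)))))]
  rw [Finset.sum_eq_zero_iff_of_nonneg (fun i _ => h2 i)] at h1
  funext t
  rcases t with i | i
  · have h3 := h1 i (Finset.mem_univ i)
    show (f : HQ (SG g p)) (Additive.ofMul (PresentedGroup.of (Sum.inl (Sum.inl i)))) = 0
    nlinarith [mul_self_nonneg ((f : HQ (SG g p))
      (Additive.ofMul (PresentedGroup.of (Sum.inl (Sum.inr i))))), mul_self_nonneg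
      ((f : HQ (SG g p)) (Additive.ofMul (PresentedGroup.of (Sum.inl (Sum.inl i)))))]
  · have h3 := h1 i (Finset.mem_univ i)
    show (f : HQ (SG g p)) (Additive.ofMul (PresentedGroup.of (Sum.inl (Sum.inr i)))) = 0
    nlinarith [mul_self_nonneg ((f : HQ (SG g p))
      (Additive.ofMul (PresentedGroup.of (Sum.inl (Sum.inr i))))), mul_self_nonneg
      ((f : HQ (SG g p)) (Additive.ofMul (PresentedGroup.of (Sum.inl (Sum.inl i)))))]

end symp

end Pool.Agent.Helper460_OutF
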