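import Pool.Agent.Helper460_OutF.Poly

set_option autoImplicit false
set_option linter.unusedSectionVars false
set_option linter.unusedSimpArgs false

namespace Pool.Agent.Helper460_OutF

open FreeGroup (of)
open Polynomial

section tr

variable {κ : Type} {n : Type} [Fintype n] [DecidableEq n]

/-- Trace of a coefficient. -/
noncomputable def Tc (m : ℕ) (P : (Matrix n n ℤ)[X]) : ℤ := (P.coeff m).trace

lemma Tc_comm (m : ℕ) (P Q : (Matrix n n ℤ)[X]) : Tc m (P * Q) = Tc m (Q * P) := by
  unfold Tc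
  rw [Polynomial.coeff_mul, Polynomial.coeff_mul, Matrix.trace_sum, Matrix.trace_sum]
  refine Finset.sum_bij' (fun p _ => p.swap) (fun p _ => p.swap) ?_ ?_ ?_ ?_ ?_
  · intro p hp
    rw [Finset.HasAntidiagonal.mem_antidiagonal] at hp ⊢
    simpa [add_comm] using hp
  · intro p hp
    rw [Finset.HasAntidiagonal.mem_antidiagonal] at hp ⊢
    simpa [add_comm] using hp
  · intro p _; exact Prod.swap_swap p
  · intro p _; exact Prod.swap_swap p
  · intro p _; exact Matrix.trace_mul_comm _ _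

lemma Tc_add (m : ℕ) (P Q : (Matrix n n ℤ)[X]) : Tc m (P + Q) = Tc m P + Tc m Q := by
  unfold Tc
  rw [Polynomial.coeff_add, Matrix.trace_add]

lemma Tc_X_zero (P : (Matrix n n ℤ)[X]) : Tc 0 (P * X) = 0 := by
  unfold Tc
  rw [Polynomial.coeff_mul_X_zero, Matrix.trace_zero]

lemma Tc_X_succ (m : ℕ) (P : (Matrix n n ℤ)[X]) : Tc (m + 1) (P * X) = Tc m P := by
  unfold Tc
  rw [Polynomial.coeff_mul_X]

variable (N : κ → Matrix n n ℤ) (hN : ∀ c, N c * N c = 0)

lemma lin_mul (A B : Matrix n n ℤ) (h : A * B = 0) :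
    (1 + C A * X) * (1 + C B * X) = 1 + C (A + B) * X := by
  have h1 : (C A * X) * (C B * X) = (0 : (Matrix n n ℤ)[X]) := by
    rw [mul_assoc, ← mul_assoc X, Polynomial.X_mul_C, mul_assoc, ← mul_assoc (C A), ← C_mul, h,
      C_0, zero_mul]
  rw [C_add]
  have : (1 + C A * X) * (1 + C B * X) = 1 + (C A + C B) * X + (C A * X) * (C B * X) := by
    noncomm_ring
  rw [this, h1, add_zero]

/-- The unit `1 + N c X`. -/
noncomputable def uu (c : κ) : ((Matrix n n ℤ)[X])ˣ where
  val := 1 + C (N c) * X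
  inv := 1 + C (-N c) * X
  val_inv := by rw [lin_mul _ _ (by rw [mul_neg, hN, neg_zero]), add_neg_cancel, C_0, zero_mul,
    add_zero]
  inv_val := by rw [lin_mul _ _ (by rw [neg_mul, hN, neg_zero]), neg_add_cancel, C_0, zero_mul,
    add_zero]

/-- The associated representation of the free group. -/
noncomputable def rep1 : FreeGroup κ →* ((Matrix n n ℤ)[X])ˣ := FreeGroup.lift (uu N hN)

lemma rep1_of (c : κ) : (rep1 N hN (of c) : (Matrix n n ℤ)[X]) = 1 + C (N c) * X := by
  simp [rep1, uu]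

lemma rep1_pow (c : κ) (a : ℤ) :
    (rep1 N hN (of c ^ a) : (Matrix n n ℤ)[X]) = 1 + C (a • N c) * X := by
  have hnat : ∀ m : ℕ, (rep1 N hN (of c ^ m) : (Matrix n n ℤ)[X]) = 1 + C (m • N c) * X := by
    intro m
    induction m with
    | zero => simp
    | succ m ih =>
      rw [pow_succ, map_mul, Units.val_mul, ih, rep1_of, lin_mul _ _ (by
        rw [smul_mul_assoc, hN, smul_zero]), succ_nsmul]
  rcases Int.eq_nat_or_neg a with ⟨m, rfl | rfl⟩
  · rw [zpow_natCast, hnat, natCast_zsmul]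
  · rw [zpow_neg, zpow_natCast, map_inv]
    have h1 : ((rep1 N hN (of c ^ m) : ((Matrix n n ℤ)[X])ˣ) : (Matrix n n ℤ)[X]) *
        (1 + C ((-(m : ℤ)) • N c) * X) = 1 := by
      rw [hnat, lin_mul _ _ (by
        rw [smul_mul_assoc, mul_smul_comm, hN, smul_zero, smul_zero]), neg_smul, natCast_zsmul,
        add_neg_cancel, C_0, zero_mul, add_zero]
    exact (Units.inv_eq_of_mul_eq_one_right h1)

lemma rep1_div (g : FreeGroup κ) :
    ∃ Q : (Matrix n n ℤ)[X], (rep1 N hN g : (Matrix n n ℤ)[X]) = 1 + Q * X := by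
  induction g using FreeGroup.induction_on with
  | C1 => exact ⟨0, by simp⟩
  | of c => exact ⟨C (N c), rep1_of N hN c⟩
  | inv_of c _ =>
    refine ⟨C ((-1 : ℤ) • N c), ?_⟩
    rw [← zpow_neg_one, rep1_pow]
  | mul a b ha hb =>
    obtain ⟨Q, hQ⟩ := ha
    obtain ⟨R, hR⟩ := hb
    refine ⟨Q + R + Q * R * X, ?_⟩
    rw [map_mul, Units.val_mul, hQ, hR]
    have : Q * X * (R * X) = Q * R * X * X := by
      rw [mul_assoc Q, ← mul_assoc X R, Polynomial.X_mul, mul_assoc R, ← mul_assoc, ← mul_assoc]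
    have e : (1 + Q * X) * (1 + R * X) = 1 + (Q * X + R * X) + Q * X * (R * X) := by
      noncomm_ring
    rw [e, this]
    noncomm_ring

lemma Pd_Tc (m : ℕ) (P : (Matrix n n ℤ)[X]) :
    Pd (m + 1) (fun g : FreeGroup κ => Tc m (P * (rep1 N hN g : (Matrix n n ℤ)[X]))) := by
  induction m generalizing P with
  | zero =>
    intro g x
    obtain ⟨Q, hQ⟩ := rep1_div N hN g
    show Tc 0 (P * (rep1 N hN (x * g) : (Matrix n n ℤ)[X])) - Tc 0 (P * _) = 0
    rw [map_mul, Units.val_mul, hQ, mul_add, mul_add, mul_one, Tc_add, ← mul_assoc, ← mul_assoc,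
      Tc_X_zero]
    ring
  | succ m ih =>
    intro g
    obtain ⟨Q, hQ⟩ := rep1_div N hN g
    refine Pd_congr ?_ (ih (Q * P))
    intro x
    show _ = Tc (m + 1) (P * (rep1 N hN (x * g) : (Matrix n n ℤ)[X])) - Tc (m + 1) (P * _)
    rw [map_mul, Units.val_mul, hQ, mul_add, mul_add, mul_one, Tc_add, ← mul_assoc, ← mul_assoc,
      Tc_X_succ, Tc_comm m _ Q, ← mul_assoc]
    ring

lemma class_Tc (m : ℕ) :
    IsClass (fun g : FreeGroup κ => Tc m (rep1 N hN g : (Matrix n n ℤ)[X])) := by
  intro g x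
  show Tc m (rep1 N hN (g * x * g⁻¹) : (Matrix n n ℤ)[X]) = Tc m (rep1 N hN x : (Matrix n n ℤ)[X])
  rw [map_mul, Units.val_mul, Tc_comm, ← Units.val_mul, ← map_mul]
  congr 3
  group

end tr

section syl

variable {κ : Type} [DecidableEq κ]

/-- The product of a list of syllables. -/
def lp (L : List (κ × ℤ)) : FreeGroup κ := (L.map fun p => of p.1 ^ p.2).prod

@[simp] lemma lp_nil : lp ([] : List (κ × ℤ)) = 1 := rfl

@[simp] lemma lp_cons (p : κ × ℤ) (L : List (κ × ℤ)) : lp (p :: L) = of p.1 ^ p.2 * lp L := by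
  simp [lp]

lemma lp_append (L M : List (κ × ℤ)) : lp (L ++ M) = lp L * lp M := by simp [lp]

/-- Alternating lists with nonzero exponents. -/
def NF (L : List (κ × ℤ)) : Prop := L.IsChain (fun p q => p.1 ≠ q.1) ∧ ∀ p ∈ L, p.2 ≠ 0

lemma NF_nil : NF ([] : List (κ × ℤ)) := ⟨List.isChain_nil, by simp⟩

lemma NF.tail {p : κ × ℤ} {L : List (κ × ℤ)} (h : NF (p :: L)) : NF L :=
  ⟨h.1.tail, fun q hq => h.2 q (List.mem_cons_of_mem _ hq)⟩

lemma cons_nf (L : List (κ × ℤ)) (hL : NF L) (c : κ) (a : ℤ) :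
    ∃ L', NF L' ∧ lp L' = of c ^ a * lp L ∧ L'.length ≤ L.length + 1 := by
  by_cases ha : a = 0
  · exact ⟨L, hL, by rw [ha]; simp, by omega⟩
  cases L with
  | nil => exact ⟨[(c, a)], ⟨List.isChain_singleton _, by simpa using ha⟩, by simp, by simp⟩
  | cons p L1 =>
    obtain ⟨d, b⟩ := p
    by_cases hcd : c = d
    · subst hcd
      by_cases hab : a + b = 0
      · refine ⟨L1, hL.tail, ?_, by simp; omega⟩
        rw [lp_cons, ← mul_assoc, ← zpow_add, hab]; simp
      · refine ⟨(c, a + b) :: L1, ⟨?_, ?_⟩, ?_, by simp⟩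
        · have := hL.1
          cases L1 with
          | nil => exact List.isChain_singleton _
          | cons q L2 =>
            rw [List.isChain_cons_cons] at this ⊢
            exact this
        · intro q hq
          rcases List.mem_cons.1 hq with rfl | hq
          · exact hab
          · exact hL.2 q (List.mem_cons_of_mem _ hq)
        · rw [lp_cons, lp_cons, ← mul_assoc, ← zpow_add]
    · refine ⟨(c, a) :: (d, b) :: L1, ⟨?_, ?_⟩, by simp, by simp⟩
      · rw [List.isChain_cons_cons]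
        exact ⟨hcd, hL.1⟩
      · intro q hq
        rcases List.mem_cons.1 hq with rfl | hq
        · exact ha
        · exact hL.2 q hq

lemma exists_nf (g : FreeGroup κ) : ∃ L, NF L ∧ lp L = g := by
  have key : ∀ w : List (κ × Bool), ∃ L, NF L ∧ lp L = FreeGroup.mk w := by
    intro w
    induction w with
    | nil => exact ⟨[], NF_nil, rfl⟩
    | cons p w ih =>
      obtain ⟨L, hL, hw⟩ := ih
      obtain ⟨c, b⟩ := p
      cases b
      · obtain ⟨L', h1, h2, -⟩ := cons_nf L hL c (-1)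
        refine ⟨L', h1, ?_⟩
        rw [h2, hw, zpow_neg_one]
        rw [show ((c, false) :: w : List (κ × Bool)) = [(c, false)] ++ w from rfl,
          ← FreeGroup.mul_mk]
        congr 1
      · obtain ⟨L', h1, h2, -⟩ := cons_nf L hL c 1
        refine ⟨L', h1, ?_⟩
        rw [h2, hw, zpow_one]
        rw [show ((c, true) :: w : List (κ × Bool)) = [(c, true)] ++ w from rfl,
          ← FreeGroup.mul_mk]
        rfl
  obtain ⟨w, rfl⟩ := Quot.exists_rep g
  exact key w

/-- Cyclically reduced syllable form. -/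
lemma exists_cyc (L : List (κ × ℤ)) (hL : NF L) :
    ∃ L', IsConj (lp L) (lp L') ∧ NF L' ∧
      (L' = [] ∨ (∃ c a, a ≠ 0 ∧ L' = [(c, a)]) ∨
        ∃ p q M, L' = p :: (M ++ [q]) ∧ q.1 ≠ p.1) := by
  induction hn : L.length using Nat.strong_induction_on generalizing L with
  | _ n ih =>
    cases L with
    | nil => exact ⟨[], IsConj.refl _, NF_nil, Or.inl rfl⟩
    | cons p L1 =>
      rcases List.eq_nil_or_concat L1 with rfl | ⟨M, q, hM⟩
      · exact ⟨[p], IsConj.refl _, hL, Or.inr (Or.inl ⟨p.1, p.2, hL.2 p (by simp), rfl⟩)⟩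
      · rw [List.concat_eq_append] at hM
        subst hM
        by_cases hqp : q.1 = p.1
        · -- merge
          obtain ⟨c, a⟩ := p
          obtain ⟨d, b⟩ := q
          simp only at hqp
          subst hqp
          have hMnf : NF M := by
            refine ⟨?_, fun r hr => hL.2 r (by simp [hr])⟩
            have := hL.1.tail
            simp only [List.tail_cons] at this
            exact this.left_of_append
          obtain ⟨L', h1, h2, h3⟩ := cons_nf M hMnf d (b + a)
          have hconj : IsConj (lp ((d, a) :: (M ++ [(d, b)]))) (lp L') := by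
            rw [isConj_iff]
            refine ⟨of d ^ b, ?_⟩
            rw [h2, lp_cons, lp_append, lp_cons, lp_nil, zpow_add]
            group
          obtain ⟨L'', k1, k2, k3⟩ := ih L'.length (by
            rw [← hn]; simp; omega) L' h1 rfl
          exact ⟨L'', hconj.trans k1, k2, k3⟩
        · exact ⟨p :: (M ++ [q]), IsConj.refl _, hL, Or.inr (Or.inr ⟨p, q, M, rfl, hqp⟩)⟩

end syl

end Pool.Agent.Helper460_OutF
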