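import Pool.Agent.Helper460_OutF.CubeGrp

set_option autoImplicit false
set_option linter.unusedSectionVars false
set_option linter.unusedSimpArgs false

namespace Pool.Agent.Helper460_OutF

open Module Module.End

/-- A group has no triangular families up to squares. -/
def NoTri2 (J : Type) (G : Type) [Group G] : Prop :=
  ∀ (rk : J → ℕ) (g h : J → G), (∀ i j, i ≠ j → rk i ≤ rk j → g i * h j = h j * g i) →
    ∃ i, g i ^ 2 * h i ^ 2 = h i ^ 2 * g i ^ 2

/-- A group has no triangular families up to squares of size at least `r`. -/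
def NoTri2Fam (r : ℕ) (H : Type) [Group H] : Prop :=
  ∀ (J : Type) [Finite J], r ≤ Nat.card J → NoTri2 J H

lemma NoTri2.of_injective {J H H' : Type} [Group H] [Group H'] (f : H →* H')
    (hf : Function.Injective f) (h : NoTri2 J H') : NoTri2 J H := by
  intro rk g k hc
  obtain ⟨i, hi⟩ := h rk (fun j => f (g j)) (fun j => f (k j)) (by
    intro i j hij hrk
    rw [← map_mul, hc i j hij hrk, map_mul])
  exact ⟨i, hf (by rw [map_mul, map_mul, map_pow, map_pow]; exact hi)⟩

lemma NoTri2Fam.of_injective {r : ℕ} {H H' : Type} [Group H] [Group H'] (f : H →* H')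
    (hf : Function.Injective f) (h : NoTri2Fam r H') : NoTri2Fam r H :=
  fun J _ hJ => (h J hJ).of_injective f hf

section symp

variable {K V : Type} [Field K] [CharZero K] [AddCommGroup V] [Module K V]
  (ω : V →ₗ[K] V →ₗ[K] K)

lemma exists_common_point {J : Type} [DecidableEq J] (S : Finset J) (C : J → End K V)
    (hC : ∀ i ∈ S, ∃ v, ω v (C i v) ≠ 0) : ∃ v, ∀ i ∈ S, ω v (C i v) ≠ 0 := by
  classical
  induction S using Finset.induction_on with
  | empty => exact ⟨0, by simp⟩
  | insert i S hi ih =>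
    obtain ⟨v, hv⟩ := ih (fun j hj => hC j (Finset.mem_insert_of_mem hj))
    obtain ⟨u, hu⟩ := hC i (Finset.mem_insert_self _ _)
    let P : J → Polynomial K := fun j => Polynomial.C (ω v (C j v)) +
      Polynomial.C (ω v (C j u) + ω u (C j v)) * Polynomial.X +
      Polynomial.C (ω u (C j u)) * Polynomial.X ^ 2
    have hPe : ∀ j t, (P j).eval t = ω (v + t • u) (C j (v + t • u)) := by
      intro j t
      simp only [P, Polynomial.eval_add, Polynomial.eval_mul, Polynomial.eval_C, Polynomial.eval_X,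
        Polynomial.eval_pow, map_add, map_smul, LinearMap.add_apply, LinearMap.smul_apply,
        smul_eq_mul]
      ring
    have hP : ∀ j ∈ insert i S, P j ≠ 0 := by
      intro j hj h0
      rcases Finset.mem_insert.1 hj with rfl | hj
      · have h1 := congrArg (fun Q : Polynomial K => Q.coeff 2) h0
        simp [P, Polynomial.coeff_C, Polynomial.coeff_X] at h1
        exact hu h1
      · have h1 := congrArg (fun Q : Polynomial K => Q.coeff 0) h0
        simp [P, Polynomial.coeff_C, Polynomial.coeff_X] at h1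
        exact hv j hj h1
    have hprod : (∏ j ∈ insert i S, P j) ≠ 0 := Finset.prod_ne_zero_iff.2 hP
    obtain ⟨t, ht⟩ := Infinite.exists_notMem_finset (∏ j ∈ insert i S, P j).roots.toFinset
    have ht' : (∏ j ∈ insert i S, P j).eval t ≠ 0 := by
      intro h0
      apply ht
      rw [Multiset.mem_toFinset, Polynomial.mem_roots hprod]
      exact h0
    rw [Polynomial.eval_prod, Finset.prod_ne_zero_iff] at ht'
    refine ⟨v + t • u, fun j hj => ?_⟩
    rw [← hPe]
    exact ht' j hj

variable {ω}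

lemma exists_quad_ne (hskew : ∀ x y, ω x y = - ω y x) (hnd : ∀ x, (∀ y, ω y x = 0) → x = 0)
    (C : End K V) (hC : ∀ x y, ω (C x) y = - ω x (C y)) (h0 : C ≠ 0) : ∃ v, ω v (C v) ≠ 0 := by
  by_contra hcon
  push Not at hcon
  apply h0
  ext v
  rw [LinearMap.zero_apply]
  apply hnd
  intro u
  have h1 := hcon (u + v)
  rw [map_add, map_add, LinearMap.add_apply, map_add, map_add, hcon u, hcon v] at h1
  have h2 : ω v (C u) = ω u (C v) := by
    rw [hskew v (C u), hC u v, neg_neg]
  rw [h2, zero_add, add_zero] at h1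
  exact add_self_eq_zero.1 h1

variable {H : Type} [Group H]

/-- The odd part. -/
def odd (e : H →* (V ≃ₗ[K] V)) (x : H) : End K V :=
  ((e x : V ≃ₗ[K] V) : V →ₗ[K] V) - ((e x⁻¹ : V ≃ₗ[K] V) : V →ₗ[K] V)

lemma odd_commute (e : H →* (V ≃ₗ[K] V)) {x y : H} (h : x * y = y * x) :
    odd e x * odd e y = odd e y * odd e x := by
  have key : ∀ a b : H, a * b = b * a → ((e a : V ≃ₗ[K] V) : V →ₗ[K] V) * ((e b : V ≃ₗ[K] V) : V →ₗ[K] V) =
      ((e b : V ≃ₗ[K] V) : V →ₗ[K] V) * ((e a : V ≃ₗ[K] V) : V →ₗ[K] V) := by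
    intro a b hab
    ext v
    show (e a * e b) v = (e b * e a) v
    rw [← map_mul, hab, map_mul]
  have hc : Commute x y := h
  unfold odd
  rw [sub_mul, mul_sub, mul_sub, sub_mul, mul_sub, mul_sub, key _ _ hc.eq,
    key _ _ hc.inv_right.eq, key _ _ hc.inv_left.eq, key _ _ hc.inv_left.inv_right.eq]
  abel

lemma sq_commute (e : H →* (V ≃ₗ[K] V)) (x : H) (M : End K V) (h1 : M * odd e x = odd e x * M)
    (h2 : M * odd e (x ^ 2) = odd e (x ^ 2) * M) :
    M * ((e (x ^ 2) : V ≃ₗ[K] V) : V →ₗ[K] V) = ((e (x ^ 2) : V ≃ₗ[K] V) : V →ₗ[K] V) * M := by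
  obtain ⟨X, hX⟩ : ∃ X : End K V, X = ((e x : V ≃ₗ[K] V) : V →ₗ[K] V) := ⟨_, rfl⟩
  obtain ⟨X', hX'⟩ : ∃ X' : End K V, X' = ((e x⁻¹ : V ≃ₗ[K] V) : V →ₗ[K] V) := ⟨_, rfl⟩
  have hXX' : X * X' = 1 := by
    rw [hX, hX']; ext v
    show (e x * e x⁻¹) v = v
    rw [← map_mul, mul_inv_cancel, map_one]; rfl
  have hX'X : X' * X = 1 := by
    rw [hX, hX']; ext v
    show (e x⁻¹ * e x) v = v
    rw [← map_mul, inv_mul_cancel, map_one]; rfl
  have hS : ((e (x ^ 2) : V ≃ₗ[K] V) : V →ₗ[K] V) = X * X := by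
    rw [hX, pow_two, map_mul]; rfl
  have hS' : ((e (x ^ 2)⁻¹ : V ≃ₗ[K] V) : V →ₗ[K] V) = X' * X' := by
    rw [hX', pow_two, mul_inv_rev, map_mul]; rfl
  have o1 : odd e x = X - X' := by rw [hX, hX']; rfl
  have o2 : odd e (x ^ 2) = X * X - X' * X' := by rw [← hS, ← hS']; rfl
  rw [o1] at h1
  rw [o2] at h2
  rw [hS]
  have h3 : (2 : K) • (X * X) = (X - X') * (X - X') + (2 : K) • 1 + (X * X - X' * X') := by
    rw [sub_mul, mul_sub, mul_sub, hXX', hX'X, two_smul, two_smul]
    abel
  have h4 : M * ((2 : K) • (X * X)) = ((2 : K) • (X * X)) * M := by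
    rw [h3, mul_add, mul_add, add_mul, add_mul, h2, ← mul_assoc, h1, mul_assoc, h1, ← mul_assoc,
      mul_smul_comm, smul_mul_assoc, one_mul, mul_one]
  rw [mul_smul_comm, smul_mul_assoc] at h4
  exact smul_right_injective _ (two_ne_zero (α := K)) h4

theorem noTri2_sp [FiniteDimensional K V] (hskew : ∀ x y, ω x y = - ω y x)
    (hnd : ∀ x, (∀ y, ω y x = 0) → x = 0) (e : H →* (V ≃ₗ[K] V)) (he : Function.Injective e)
    (hω : ∀ h x y, ω (e h x) (e h y) = ω x y) {J : Type} [Finite J]
    (hJ : Module.finrank K V < Nat.card J) : NoTri2 J H := by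
  classical
  have _inst := Fintype.ofFinite J
  intro rk g h hc
  by_contra hne
  push Not at hne
  have hskewodd : ∀ x v w, ω (odd e x v) w = - ω v (odd e x w) := by
    intro x v w
    have h1 : ω (e x v) w = ω v (e x⁻¹ w) := by
      rw [← hω x v (e x⁻¹ w)]
      congr 1
      show w = (e x * e x⁻¹) w
      rw [← map_mul, mul_inv_cancel, map_one]; rfl
    have h2 : ω (e x⁻¹ v) w = ω v (e x w) := by
      rw [← hω x⁻¹ v (e x w)]
      congr 1
      show w = (e x⁻¹ * e x) w
      rw [← map_mul, inv_mul_cancel, map_one]; rfl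
    show ω (e x v - e x⁻¹ v) w = - ω v (e x w - e x⁻¹ w)
    rw [map_sub, LinearMap.sub_apply, map_sub, h1, h2]
    ring
  have hchoose : ∀ i, ∃ s t : ℕ, odd e (g i ^ s) * odd e (h i ^ t) ≠
      odd e (h i ^ t) * odd e (g i ^ s) := by
    intro i
    by_contra hcon
    push Not at hcon
    apply hne i
    have h1 : ∀ t, odd e (h i ^ t) * ((e (g i ^ 2) : V ≃ₗ[K] V) : V →ₗ[K] V) =
        ((e (g i ^ 2) : V ≃ₗ[K] V) : V →ₗ[K] V) * odd e (h i ^ t) := by
      intro t
      apply sq_commute
      · have := hcon 1 t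
        rw [pow_one] at this
        exact this.symm
      · exact (hcon 2 t).symm
    have h2 : ((e (g i ^ 2) : V ≃ₗ[K] V) : V →ₗ[K] V) * ((e (h i ^ 2) : V ≃ₗ[K] V) : V →ₗ[K] V) =
        ((e (h i ^ 2) : V ≃ₗ[K] V) : V →ₗ[K] V) * ((e (g i ^ 2) : V ≃ₗ[K] V) : V →ₗ[K] V) := by
      apply sq_commute
      · have := h1 1
        rw [pow_one] at this
        exact this.symm
      · exact (h1 2).symm
    apply he
    ext v
    have := congrArg (fun T : End K V => T v) h2
    rw [map_mul, map_mul]
    exact this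
  choose s t hst using hchoose
  let X : J → End K V := fun i => odd e (g i ^ s i)
  let Y : J → End K V := fun i => odd e (h i ^ t i)
  have hXY : ∀ i j, i ≠ j → rk i ≤ rk j → X i * Y j = Y j * X i := by
    intro i j hij hrk
    apply odd_commute
    exact (show Commute (g i) (h j) from hc i j hij hrk).pow_pow _ _
  have hXs : ∀ i v w, ω (X i v) w = - ω v (X i w) := fun i => hskewodd _
  have hYs : ∀ i v w, ω (Y i v) w = - ω v (Y i w) := fun i => hskewodd _
  obtain ⟨v, hv⟩ := exists_common_point ω Finset.univ (fun i => X i * Y i - Y i * X i) (by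
    intro i _
    apply exists_quad_ne hskew hnd
    · intro x y
      simp only [LinearMap.sub_apply, Module.End.mul_apply, map_sub]
      rw [hXs, hYs, hYs, hXs]
      ring
    · exact sub_ne_zero.2 (hst i))
  have hval : ∀ i j, ω v ((X i * Y j - Y j * X i) v) = -2 * ω (X i v) (Y j v) := by
    intro i j
    simp only [LinearMap.sub_apply, Module.End.mul_apply, map_sub]
    have h1 : ω v (X i (Y j v)) = - ω (X i v) (Y j v) := by rw [hXs, neg_neg]
    have h2 : ω v (Y j (X i v)) = ω (X i v) (Y j v) := by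
      have := hYs j v (X i v)
      rw [hskew (Y j v) (X i v)] at this
      linear_combination this
    rw [h1, h2]; ring
  have hD0 : ∀ i j, i ≠ j → rk i ≤ rk j → ω (X i v) (Y j v) = 0 := by
    intro i j hij hrk
    have := hval i j
    rw [hXY i j hij hrk, sub_self, LinearMap.zero_apply, map_zero] at this
    have h2 : (2 : K) ≠ 0 := two_ne_zero
    have h3 : (2 : K) * ω (X i v) (Y j v) = 0 := by linear_combination this
    exact (mul_eq_zero.1 h3).resolve_left h2
  have hD1 : ∀ i, ω (X i v) (Y i v) ≠ 0 := by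
    intro i h0
    apply hv i (Finset.mem_univ i)
    rw [hval, h0, mul_zero]
  have hli : LinearIndependent K (fun i => X i v) := by
    rw [Fintype.linearIndependent_iff]
    intro c hsum i0
    by_contra hi0
    obtain ⟨j, hj, hmax⟩ := Finset.exists_max_image (Finset.univ.filter fun i => c i ≠ 0) rk
      ⟨i0, by simpa using hi0⟩
    have hcj : c j ≠ 0 := (Finset.mem_filter.1 hj).2
    have h1 := congrArg (fun w => ω w (Y j v)) hsum
    simp only [map_sum, LinearMap.sum_apply, map_smul, LinearMap.smul_apply, map_zero,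
      LinearMap.zero_apply, smul_eq_mul] at h1
    rw [Finset.sum_eq_single j] at h1
    · exact mul_ne_zero hcj (hD1 j) h1
    · intro i _ hij
      by_cases hci : c i = 0
      · rw [hci, zero_mul]
      · rw [hD0 i j hij (hmax i (by simpa using hci)), mul_zero]
    · intro h; exact absurd (Finset.mem_univ j) h
  have := hli.fintype_card_le_finrank
  rw [Nat.card_eq_fintype_card] at hJ
  omega

end symp

end Pool.Agent.Helper460_OutF
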