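import Pool.Agent.Helper460_OutF.Cyc
import Pool.Agent.H926R3.Br.Free

set_option autoImplicit false
set_option linter.unusedSectionVars false
set_option linter.unusedSimpArgs false

namespace Pool.Agent.Helper460_OutF

open FreeGroup (of)

/-- The outer automorphism group. -/
abbrev Out (G : Type) [Group G] : Type := MulAut G ⧸ (MulAut.conj : G →* MulAut G).range

/-- The integral Heisenberg group. -/
@[ext] structure Heis where
  a : ℤ
  b : ℤ
  z : ℤ

namespace Heis

instance : Mul Heis := ⟨fun x y => ⟨x.a + y.a, x.b + y.b, x.z + y.z + x.a * y.b⟩⟩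
instance : One Heis := ⟨⟨0, 0, 0⟩⟩
instance : Inv Heis := ⟨fun x => ⟨-x.a, -x.b, -x.z + x.a * x.b⟩⟩

@[simp] lemma mul_a (x y : Heis) : (x * y).a = x.a + y.a := rfl
@[simp] lemma mul_b (x y : Heis) : (x * y).b = x.b + y.b := rfl
@[simp] lemma mul_z (x y : Heis) : (x * y).z = x.z + y.z + x.a * y.b := rfl
@[simp] lemma one_a : (1 : Heis).a = 0 := rfl
@[simp] lemma one_b : (1 : Heis).b = 0 := rfl
@[simp] lemma one_z : (1 : Heis).z = 0 := rfl
@[simp] lemma inv_a (x : Heis) : (x⁻¹).a = -x.a := rfl
@[simp] lemma inv_b (x : Heis) : (x⁻¹).b = -x.b := rfl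
@[simp] lemma inv_z (x : Heis) : (x⁻¹).z = -x.z + x.a * x.b := rfl

instance : Group Heis :=
  Group.ofLeftAxioms (fun x y w => by ext <;> simp <;> ring) (fun x => by ext <;> simp)
    (fun x => by ext <;> simp)

end Heis

section

variable {κ : Type} [DecidableEq κ]

/-- The homomorphism to the Heisenberg group. -/
def hz (c d : κ) : FreeGroup κ →* Heis :=
  FreeGroup.lift (fun e => if e = c then ⟨1, 0, 0⟩ else if e = d then ⟨0, 1, 0⟩ else 1)

lemma hz_Pd (c d : κ) : Pd 3 (fun g => (hz c d g).z) := by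
  intro g h k x
  show ((hz c d (x * k * h * g)).z - (hz c d (x * k * h)).z -
      ((hz c d (x * k * g)).z - (hz c d (x * k)).z)) -
    ((hz c d (x * h * g)).z - (hz c d (x * h)).z - ((hz c d (x * g)).z - (hz c d x).z)) = 0
  simp only [map_mul, Heis.mul_z, Heis.mul_a, Heis.mul_b]
  ring

/-- The invariant `r`. -/
def rinv (c d : κ) (α : MulAut (FreeGroup κ)) : ℤ := (hz c d (α (of d))).z - (hz c d (of d)).z

lemma rinv_mul (c d : κ) {α β : MulAut (FreeGroup κ)} (hα : α ∈ IA (FreeGroup κ))
    (hβ : β ∈ IA (FreeGroup κ)) : rinv c d (α * β) = rinv c d α + rinv c d β := by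
  have h1 := Pd_IA hα (hz_Pd c d)
  have h2 := Pd_IA hβ h1
  have h3 : ∀ x : FreeGroup κ, ((hz c d (α (β x))).z - (hz c d (β x)).z) -
      ((hz c d (α x)).z - (hz c d x).z) = 0 := by
    intro x
    have := h2 x 1
    simpa using this
  have h4 := h3 (of d)
  unfold rinv
  rw [MulAut.mul_apply]
  linarith

lemma rinv_conj (c d : κ) (hcd : c ≠ d) : rinv c d (MulAut.conj (of c)) = 1 := by
  unfold rinv
  rw [MulAut.conj_apply]
  simp [hz, hcd.symm]

lemma rinv_one (c d : κ) : rinv c d (1 : MulAut (FreeGroup κ)) = 0 := by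
  unfold rinv; simp

lemma rinv_conj_zpow (c d : κ) (hcd : c ≠ d) (j : ℤ) :
    rinv c d (MulAut.conj (of c ^ j)) = j := by
  have hnat : ∀ m : ℕ, rinv c d (MulAut.conj (of c ^ m)) = m := by
    intro m
    induction m with
    | zero => rw [pow_zero, map_one, rinv_one]; rfl
    | succ m ih =>
      rw [pow_succ, map_mul, rinv_mul c d (conj_mem_IA _) (conj_mem_IA _), ih,
        rinv_conj c d hcd]
      push_cast; ring
  rcases Int.eq_nat_or_neg j with ⟨m, rfl | rfl⟩
  · rw [zpow_natCast, hnat]
  · have h1 := rinv_mul c d (conj_mem_IA (of c ^ (-(m : ℤ)))) (conj_mem_IA (of c ^ m))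
    rw [← map_mul, zpow_neg, zpow_natCast, inv_mul_cancel, map_one, rinv_one, hnat] at h1
    rw [zpow_neg, zpow_natCast]
    omega

/-- An automorphism not moving any polynomial function is the identity. -/
lemma eq_one_of_inv (α : MulAut (FreeGroup κ))
    (h : ∀ (j : ℕ) (θ : FreeGroup κ → ℤ), Pd j θ → ∀ x, θ (α x) = θ x) : α = 1 := by
  ext1 y
  rw [MulAut.one_apply]
  by_contra hne
  have hne' : α y * y⁻¹ ≠ 1 := fun h' => hne (mul_inv_eq_one.1 h')
  obtain ⟨j, θ, hθ, hsep⟩ := exists_sep _ hne'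
  have h1 := h j _ (Pd_right hθ y⁻¹) y
  have h2 : θ (α y * y⁻¹) = θ (y * y⁻¹) := h1
  rw [mul_inv_cancel] at h2
  exact hsep h2

/-- A homomorphism from a group without homomorphisms to torsion-free abelian groups to the
outer automorphism group of a free group, with image acting trivially on homology, is trivial. -/
theorem torelli_trivial {Λ : Type} [Group Λ] (hno : NoHom Λ) (ψ : Λ →* Out (FreeGroup κ))
    (hT : ∀ x (α : MulAut (FreeGroup κ)), ψ x = (α : Out (FreeGroup κ)) →
      α ∈ IA (FreeGroup κ)) : ∀ x, ψ x = 1 := by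
  by_cases hκ : ∃ c d : κ, c ≠ d
  · obtain ⟨c, d, hcd⟩ := hκ
    let rep0 : Λ → MulAut (FreeGroup κ) := fun x => Quotient.out (ψ x)
    have hrep0 : ∀ x, ((rep0 x : MulAut (FreeGroup κ)) : Out (FreeGroup κ)) = ψ x :=
      fun x => Quotient.out_eq _
    have hrepmul : ∀ (a b e : MulAut (FreeGroup κ)),
        (e : Out (FreeGroup κ)) = (a : Out (FreeGroup κ)) * (b : Out (FreeGroup κ)) →
        ∃ g, e = MulAut.conj g * (a * b) := by
      intro a b e h
      rw [← QuotientGroup.mk_mul] at h
      have h2 := (QuotientGroup.eq.1 h.symm)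
      obtain ⟨g, hg⟩ := h2
      refine ⟨(a * b) g, ?_⟩
      have h3 : e = (a * b) * MulAut.conj g := by rw [hg]; group
      rw [h3]
      ext x
      simp [MulAut.conj_apply]
    have hIA0 : ∀ x, rep0 x ∈ IA (FreeGroup κ) := fun x => hT x _ (hrep0 x).symm
    have hrm0 : ∀ a b, ∃ g, rep0 (a * b) = MulAut.conj g * (rep0 a * rep0 b) := by
      intro a b
      apply hrepmul
      rw [hrep0, hrep0, hrep0, map_mul]
    have hconj : ∀ x, ∃ g, g * rep0 x (of c) * g⁻¹ = of c := by
      intro x
      have := conj_of_class (rep0 x (of c)) c (fun j θ h1 h2 =>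
        class_inv hno rep0 hrm0 hIA0 j θ h1 h2 x (of c))
      exact isConj_iff.1 this
    choose g hg using hconj
    let rep1 : Λ → MulAut (FreeGroup κ) := fun x => MulAut.conj (g x) * rep0 x
    have hrep1c : ∀ x, rep1 x (of c) = of c := by
      intro x
      show (MulAut.conj (g x) * rep0 x) (of c) = of c
      rw [MulAut.mul_apply, MulAut.conj_apply, hg]
    have hIA1 : ∀ x, rep1 x ∈ IA (FreeGroup κ) := fun x =>
      (IA _).mul_mem (conj_mem_IA _) (hIA0 x)
    let rep2 : Λ → MulAut (FreeGroup κ) := fun x =>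
      MulAut.conj (of c ^ (-rinv c d (rep1 x))) * rep1 x
    have hIA2 : ∀ x, rep2 x ∈ IA (FreeGroup κ) := fun x =>
      (IA _).mul_mem (conj_mem_IA _) (hIA1 x)
    have hrep2c : ∀ x, rep2 x (of c) = of c := by
      intro x
      show (MulAut.conj (of c ^ (-rinv c d (rep1 x))) * rep1 x) (of c) = of c
      rw [MulAut.mul_apply, MulAut.conj_apply, hrep1c]
      group
    have hr2 : ∀ x, rinv c d (rep2 x) = 0 := by
      intro x
      show rinv c d (MulAut.conj (of c ^ (-rinv c d (rep1 x))) * rep1 x) = 0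
      rw [rinv_mul c d (conj_mem_IA _) (hIA1 x), rinv_conj_zpow c d hcd]
      ring
    have hrep2 : ∀ x, ((rep2 x : MulAut (FreeGroup κ)) : Out (FreeGroup κ)) = ψ x := by
      intro x
      have e1 : ∀ (w : FreeGroup κ) (β : MulAut (FreeGroup κ)),
          ((MulAut.conj w * β : MulAut (FreeGroup κ)) : Out (FreeGroup κ)) =
            (β : Out (FreeGroup κ)) := by
        intro w β
        rw [QuotientGroup.mk_mul]
        have : ((MulAut.conj w : MulAut (FreeGroup κ)) : Out (FreeGroup κ)) = 1 :=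
          (QuotientGroup.eq_one_iff _).2 ⟨w, rfl⟩
        rw [this, one_mul]
      show ((MulAut.conj _ * (MulAut.conj _ * rep0 x) : MulAut (FreeGroup κ)) :
        Out (FreeGroup κ)) = ψ x
      rw [e1, e1, hrep0]
    have hmul : ∀ a b, rep2 (a * b) = rep2 a * rep2 b := by
      intro a b
      obtain ⟨w, hw⟩ := hrepmul (rep2 a) (rep2 b) (rep2 (a * b)) (by
        rw [hrep2, hrep2, hrep2, map_mul])
      have h1 := congrArg (fun α : MulAut (FreeGroup κ) => α (of c)) hw
      simp only [MulAut.mul_apply, MulAut.conj_apply, hrep2c] at h1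
      have h2 : w * of c ^ 1 = of c ^ 1 * w := by
        rw [pow_one]
        exact (eq_mul_inv_iff_mul_eq.1 h1).symm
      obtain ⟨j, hj⟩ := Pool.Agent.H926R3.Br.FP.free_centralizer c 1 le_rfl w h2
      have h3 := congrArg (rinv c d) hw
      rw [rinv_mul c d (conj_mem_IA _) ((IA _).mul_mem (hIA2 a) (hIA2 b)),
        rinv_mul c d (hIA2 a) (hIA2 b), hr2, hr2, hr2] at h3
      have hj' : of c ^ j = w := hj
      rw [← hj', rinv_conj_zpow c d hcd] at h3
      have hj0 : j = 0 := by omega
      rw [hw, ← hj', hj0, zpow_zero, map_one, one_mul]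
    let rep : Λ →* MulAut (FreeGroup κ) :=
      { toFun := rep2
        map_one' := by
          have := hmul 1 1
          rw [mul_one] at this
          exact left_eq_mul.1 this
        map_mul' := hmul }
    intro x
    have h1 : rep x = 1 := eq_one_of_inv _ (fun j θ hθ y => hom_inv hno rep hIA2 j θ hθ x y)
    have h2 : rep2 x = 1 := h1
    rw [← hrep2 x, h2]
    rfl
  · push Not at hκ
    intro x
    obtain ⟨α, hα⟩ := QuotientGroup.mk_surjective (ψ x)
    have h1 := hT x α hα.symm
    have hcomm : ∀ u v : FreeGroup κ, u * v = v * u := by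
      intro u v
      exact commute_of_gen (MonoidHom.id (FreeGroup κ)) (fun j k => by
        rw [hκ j k]; exact Commute.refl _) u v
    have h2 : α = 1 := by
      ext y
      rw [MulAut.one_apply]
      have h3 := IA_inv_mul h1 y
      have h4 : commutator (FreeGroup κ) = ⊥ := by
        rw [commutator_def, Subgroup.commutator_eq_bot_iff_le_centralizer]
        intro u _
        rw [Subgroup.mem_centralizer_iff]
        intro v _
        exact hcomm v u
      rw [h4, Subgroup.mem_bot] at h3
      exact (inv_mul_eq_one.1 h3).symm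
    rw [← hα, h2]
    rfl

end

end Pool.Agent.Helper460_OutF
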