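import Pool.Agent.Helper460_OutF.Basis
import Pool.Agent.Helper460_OutF.Ind
import Pool.Agent.Helper460_OutF.Perm2

set_option autoImplicit false
set_option linter.unusedSectionVars false
set_option linter.unusedSimpArgs false

namespace Pool.Agent.Helper460_OutF

open FreeGroup (of)
open scoped commutatorElement Pointwise

variable {ι : Type} [DecidableEq ι] [Fintype ι]

section

variable (K : Subgroup (MulAut (FreeGroup ι))) {V : Type} [AddCommGroup V] [Module ℚ V]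
  (ρ : K →* (V ≃ₗ[ℚ] V))

/-- The homomorphism on `K` as a subgroup of `KH K`. -/
def rhoS : K.subgroupOf (KH K) →* (V ≃ₗ[ℚ] V) :=
  ρ.comp (Subgroup.subgroupOfEquivOfLe (K_le_KH K)).toMonoidHom

/-- The induced representation of `G0 K`. -/
def rhoH : G0 K →* (IndV (rhoS K ρ) ≃ₗ[ℚ] IndV (rhoS K ρ)) :=
  (ind (rhoS K ρ)).comp (Subgroup.inclusion (G0_le K))

lemma rhoS_apply (x : KH K) (h : x ∈ K.subgroupOf (KH K)) :
    rhoS K ρ ⟨x, h⟩ = PP ρ (x : MulAut (FreeGroup ι)) := by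
  rw [PP_mem (Subgroup.mem_subgroupOf.1 h)]
  rfl

lemma of_rhoH {z : MulAut (FreeGroup ι)} (hz : z ∈ G0 K) (hzK : z ∈ K) (h : rhoH K ρ ⟨z, hz⟩ = 1) :
    PP ρ z = 1 := by
  have h1 := of_ind (rhoS K ρ) (g := ⟨z, G0_le K hz⟩) (Subgroup.mem_subgroupOf.2 hzK) h
  rwa [rhoS_apply] at h1

lemma rhoH_finOrder [K.FiniteIndex] {z : MulAut (FreeGroup ι)} (hz : z ∈ G0 K)
    (hzK : ∀ b : MulAut (FreeGroup ι), cjA b z ∈ K)
    (hfo : ∀ b : MulAut (FreeGroup ι), IsOfFinOrder (PP ρ (cjA b z))) :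
    IsOfFinOrder (rhoH K ρ ⟨z, hz⟩) := by
  apply ind_finOrder
  intro x
  have e : ((x⁻¹ * ⟨z, G0_le K hz⟩ * x : KH K) : MulAut (FreeGroup ι)) =
      cjA (x : MulAut (FreeGroup ι))⁻¹ z := by
    rw [cjA_apply, inv_inv]
    rfl
  have h1 : x⁻¹ * (⟨z, G0_le K hz⟩ : KH K) * x ∈ K.subgroupOf (KH K) := by
    rw [Subgroup.mem_subgroupOf, e]
    exact hzK _
  refine ⟨h1, ?_⟩
  have e2 : rhoS K ρ ⟨_, h1⟩ = PP ρ (cjA (x : MulAut (FreeGroup ι))⁻¹ z) := by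
    rw [rhoS_apply, e]
  have h2 := hfo (x : MulAut (FreeGroup ι))⁻¹
  rw [← e2] at h2
  exact h2

lemma finrank_rhoH [K.FiniteIndex] [FiniteDimensional ℚ V] :
    Module.finrank ℚ (IndV (rhoS K ρ)) ≤
      K.relIndex (IA (FreeGroup ι)) * Module.finrank ℚ V :=
  (finrank_IndV (rhoS K ρ)).trans (Nat.mul_le_mul_right _ (card_KH K))

/-- **Torsion commutators are trivial.** -/
theorem tors_trivial [hfi : K.FiniteIndex] [FiniteDimensional ℚ V] {e : ℕ} (hK : Adm K e)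
    (hdim : K.relIndex (IA (FreeGroup ι)) * Module.finrank ℚ V < 2 ^ (Fintype.card ι - 3 + 1))
    (hfo : ∀ (b : MulAut (FreeGroup ι)) (i j k : ι), i ≠ j → i ≠ k →
      IsOfFinOrder (RB ρ i b ⁅of j, of k⁆)) (b : MulAut (FreeGroup ι)) {i j k : ι}
    (hij : i ≠ j) (hik : i ≠ k) : RB ρ i b ⁅of j, of k⁆ = 1 := by
  have hC : NoCube (Fintype.card ι - 3) (IndV (rhoS K ρ) ≃ₗ[ℚ] IndV (rhoS K ρ)) :=
    noCube_GLV (lt_of_le_of_lt (finrank_rhoH K ρ) hdim)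
  have hmem : cjA b (cc i ⁅of j, of k⁆) ∈ G0 K :=
    (inferInstance : (G0 K).Normal).conj_mem _ (IA_le_G0 K (cc_mem_IA _ _)) b
  have heq : ⁅RR (IA_le_G0 K) (twist b (rhoH K ρ)) i (of j),
      RR (IA_le_G0 K) (twist b (rhoH K ρ)) i (of k)⁆ = rhoH K ρ ⟨_, hmem⟩ := by
    rw [← map_commutatorElement, RR_apply (IA_le_G0 K) _ i _ (IA_le_G0 K (cc_mem_IA _ _))]
    exact twist_apply b (rhoH K ρ) _ hmem
  have h1 := cck_of_fin (IA_le_G0 K) (twist b (rhoH K ρ)) hC hij hik (by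
    rw [heq]
    apply rhoH_finOrder
    · intro b'
      rw [← cjA_mul]
      exact hK.cc _ _ _ _
    · intro b'
      rw [← cjA_mul]
      exact hfo (b' * b) i j k hij hik)
  rw [heq] at h1
  exact of_rhoH K ρ hmem (hK.cc b i _ _) h1

end

end Pool.Agent.Helper460_OutF
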